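import Mathlib

/-!
Kernel dimension in a pencil of linear maps.
-/

universe u

namespace BicG

open Module

theorem pencil {K E E' : Type u} [Field K] [AddCommGroup E] [Module K E]
    [Module.Finite K E] [AddCommGroup E'] [Module K E'] [Module.Finite K E']
    (f g : E →ₗ[K] E') : {c : K | ¬ finrank K (LinearMap.ker (f + c • g)) ≤
      finrank K (LinearMap.ker f)}.Finite := by
  classical
  obtain ⟨C, hC⟩ := Submodule.exists_isCompl (LinearMap.ker f)
  -- left inverse of f on C
  have hinj : LinearMap.ker (f.comp C.subtype) = ⊥ := by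
    rw [LinearMap.ker_eq_bot']
    intro x hx
    have h1 : (x : E) ∈ LinearMap.ker f := hx
    have h2 : (x : E) ∈ LinearMap.ker f ⊓ C := ⟨h1, x.2⟩
    rw [hC.inf_eq_bot, Submodule.mem_bot] at h2
    exact Subtype.ext h2
  obtain ⟨T, hT⟩ := LinearMap.exists_leftInverse_of_injective (f.comp C.subtype) hinj
  let N : C →ₗ[K] C := T.comp (g.comp C.subtype)
  -- eigenvalues of N
  have hfin : {m : K | Module.End.HasEigenvalue N m}.Finite := by
    exact Module.End.finite_hasEigenvalue N
  refine (hfin.image (fun m => -m⁻¹)).subset ?_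
  intro c hc
  by_contra hcon
  apply hc
  -- f + c g injective on C
  have hinjC : ∀ x : C, (f + c • g) (x : E) = 0 → x = 0 := by
    intro x hx
    by_contra hx0
    have h1 : T (f (x : E)) + c • T (g (x : E)) = 0 := by
      have := congrArg T hx
      rw [map_zero, LinearMap.add_apply, LinearMap.smul_apply, map_add, map_smul] at this
      exact this
    have h2 : T (f (x : E)) = x := LinearMap.congr_fun hT x
    rw [h2] at h1
    have hc0 : c ≠ 0 := by
      intro h0
      rw [h0, zero_smul, add_zero] at h1
      exact hx0 h1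
    apply hcon
    refine ⟨-c⁻¹, ?_, by simp⟩
    apply Module.End.hasEigenvalue_of_hasEigenvector (x := x)
    rw [Module.End.hasEigenvector_iff]
    refine ⟨?_, hx0⟩
    rw [Module.End.mem_eigenspace_iff]
    have h3 : c • N x = -x := by
      rw [eq_neg_iff_add_eq_zero, add_comm]
      exact h1
    calc N x = c⁻¹ • (c • N x) := by rw [smul_smul, inv_mul_cancel₀ hc0, one_smul]
      _ = (-c⁻¹) • x := by rw [h3, smul_neg, neg_smul]
  -- dimension count
  have h4 : Disjoint (LinearMap.ker (f + c • g)) C := by
    rw [Submodule.disjoint_def]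
    intro x hx hxC
    exact congrArg Subtype.val (hinjC ⟨x, hxC⟩ hx)
  have h5 := Submodule.finrank_add_finrank_le_of_disjoint h4
  have h6 := Submodule.finrank_add_eq_of_isCompl hC
  omega

end BicG
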