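import Pool.Agent.Helper16.BicG.RM

/-!
Finitely generated modules are given by matrix representations.
-/

universe u

namespace BicG

open Function Module
open scoped TensorProduct

section existsrm

variable {K Ω A : Type u} [Field K] [Field Ω] [Algebra K Ω] [Ring A] [Algebra K A]
  [Module.Finite K A]

theorem exists_rm (X : Type u) [AddCommGroup X] [Module (Ω ⊗[K] A) X]
    [Module.Finite (Ω ⊗[K] A) X] :
    ∃ (n : ℕ) (ρ : A →ₐ[K] Matrix (Fin n) (Fin n) Ω), Nonempty (X ≃ₗ[Ω ⊗[K] A] RM ρ) := by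
  let _ : Module Ω X := Module.compHom X (algebraMap Ω (Ω ⊗[K] A))
  have : IsScalarTower Ω (Ω ⊗[K] A) X := IsScalarTower.of_algebraMap_smul fun r x => rfl
  have : Module.Finite Ω X := Module.Finite.trans (Ω ⊗[K] A) X
  let b := Module.finBasis Ω X
  let ψ : (Ω ⊗[K] A) →ₐ[Ω] Matrix (Fin (Module.finrank Ω X)) (Fin (Module.finrank Ω X)) Ω :=
    (algEquivMatrix b).toAlgHom.comp (Algebra.lsmul Ω Ω X)
  have hψ : ∀ (s : Ω ⊗[K] A) (x : X), (ψ s).mulVec (b.equivFun x) = b.equivFun (s • x) := by
    intro s x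
    exact LinearMap.toMatrix_mulVec_repr b b (Algebra.lsmul Ω Ω X s) x
  let ρ : A →ₐ[K] Matrix (Fin (Module.finrank Ω X)) (Fin (Module.finrank Ω X)) Ω :=
    (ψ.restrictScalars K).comp Algebra.TensorProduct.includeRight
  have hρ : ∀ s, rmHom ρ s = ψ s := by
    intro s
    have : rmHom ρ = ψ := by
      apply Algebra.TensorProduct.ext
      · ext
      · ext a : 1
        show rmHom ρ (1 ⊗ₜ a) = ψ (1 ⊗ₜ a)
        rw [rmHom_tmul, one_smul]
        rfl
    rw [this]
  refine ⟨Module.finrank Ω X, ρ, ⟨?_⟩⟩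
  refine { toFun := fun x => (RM.vec (ρ := ρ)).symm (b.equivFun x)
           invFun := fun v => b.equivFun.symm (RM.vec v)
           map_add' := fun x y => ?_
           map_smul' := fun s x => ?_
           left_inv := fun x => ?_
           right_inv := fun v => ?_ }
  · rw [map_add, map_add]
  · apply (RM.vec (ρ := ρ)).injective
    rw [LinearEquiv.apply_symm_apply, ← hψ s x, ← hρ s]
    rfl
  · show b.equivFun.symm (b.equivFun x) = x
    exact b.equivFun.symm_apply_apply x
  · show (RM.vec (ρ := ρ)).symm (b.equivFun (b.equivFun.symm (RM.vec v))) = v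
    rw [b.equivFun.apply_symm_apply]
    exact (RM.vec (ρ := ρ)).symm_apply_apply v

theorem exists_rep (X : Type u) [AddCommGroup X] [Module A X] [Module.Finite A X]
    [Module K X] [IsScalarTower K A X] :
    ∃ (n : ℕ) (ρ : A →ₐ[K] Matrix (Fin n) (Fin n) K) (e : X ≃ₗ[K] (Fin n → K)),
      ∀ (a : A) (x : X), e (a • x) = (ρ a).mulVec (e x) := by
  have : Module.Finite K X := Module.Finite.trans A X
  let b := Module.finBasis K X
  let ψ : A →ₐ[K] Matrix (Fin (Module.finrank K X)) (Fin (Module.finrank K X)) K :=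
    (algEquivMatrix b).toAlgHom.comp (Algebra.lsmul K K X)
  refine ⟨Module.finrank K X, ψ, b.equivFun, fun a x => ?_⟩
  exact (LinearMap.toMatrix_mulVec_repr b b (Algebra.lsmul K K X a) x).symm

end existsrm

end BicG
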