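import Pool.Agent.Helper16.BicG.RMHom
import Pool.Agent.Helper16.BicG.ExistsRM

/-!
Base change of objects, `TMono` maps and chains from `A` to `Ω ⊗[K] A` by applying `K`-linear
functionals of `Ω` to the entries of matrices.
-/

universe u

namespace BicG

open Function Module
open Bic (InT InF SES torIn)
open scoped TensorProduct Polynomial

section aux

variable {K Ω A : Type u} [Field K] [Field Ω] [Algebra K Ω] [Ring A] [Algebra K A]

/-- a linear functional applied to the entries of a matrix -/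
def fmap {p q : ℕ} (ξ : Ω →ₗ[K] K) (H : Matrix (Fin p) (Fin q) Ω) : Matrix (Fin p) (Fin q) K :=
  fun i j => ξ (H i j)

theorem fmap_mul_map {p q s : ℕ} (ξ : Ω →ₗ[K] K) (H : Matrix (Fin p) (Fin q) Ω)
    (N : Matrix (Fin q) (Fin s) K) : fmap ξ (H * N.map (algebraMap K Ω)) = fmap ξ H * N := by
  ext i j
  simp only [fmap, Matrix.mul_apply, Matrix.map_apply, map_sum]
  refine Finset.sum_congr rfl fun k _ => ?_
  rw [mul_comm, ← Algebra.smul_def, map_smul, smul_eq_mul, mul_comm]

theorem fmap_map_mul {p q s : ℕ} (ξ : Ω →ₗ[K] K) (N : Matrix (Fin p) (Fin q) K)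
    (H : Matrix (Fin q) (Fin s) Ω) : fmap ξ (N.map (algebraMap K Ω) * H) = N * fmap ξ H := by
  ext i j
  simp only [fmap, Matrix.mul_apply, Matrix.map_apply, map_sum]
  refine Finset.sum_congr rfl fun k _ => ?_
  rw [← Algebra.smul_def, map_smul, smul_eq_mul]

theorem eq_zero_of_fmap {p q : ℕ} (H : Matrix (Fin p) (Fin q) Ω)
    (h : ∀ ξ : Ω →ₗ[K] K, fmap ξ H = 0) : H = 0 := by
  ext i j
  rw [Matrix.zero_apply]
  refine (Module.forall_dual_apply_eq_zero_iff K (H i j)).1 fun ξ => ?_
  have := congrFun (congrFun (h ξ) i) j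
  exact this

/-- the `A`-linear map defined by a matrix that intertwines two representations -/
theorem exists_lin_of_matrix {X Y : Type u} [AddCommGroup X] [Module A X] [AddCommGroup Y]
    [Module A Y] [Module K X] [Module K Y] {r m : ℕ}
    (ρX : A →ₐ[K] Matrix (Fin r) (Fin r) K) (ρY : A →ₐ[K] Matrix (Fin m) (Fin m) K)
    (eX : X ≃ₗ[K] (Fin r → K)) (heX : ∀ (a : A) (x : X), eX (a • x) = (ρX a).mulVec (eX x))
    (eY : Y ≃ₗ[K] (Fin m → K)) (heY : ∀ (a : A) (x : Y), eY (a • x) = (ρY a).mulVec (eY x))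
    (G : Matrix (Fin m) (Fin r) K) (hG : ∀ a, G * ρX a = ρY a * G) :
    ∃ f : X →ₗ[A] Y, ∀ x, eY (f x) = G.mulVec (eX x) := by
  refine ⟨⟨⟨fun x => eY.symm (G.mulVec (eX x)), fun x y => ?_⟩, fun a x => ?_⟩, fun x => ?_⟩
  · rw [map_add, Matrix.mulVec_add, map_add]
  · apply eY.injective
    simp only [RingHom.id_apply]
    rw [heY, LinearEquiv.apply_symm_apply, LinearEquiv.apply_symm_apply, heX,
      Matrix.mulVec_mulVec, Matrix.mulVec_mulVec, hG]
  · exact eY.apply_symm_apply _

/-- the matrix of an `A`-linear map -/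
theorem exists_matrix_of_lin {U X : Type u} [AddCommGroup U] [Module A U] [AddCommGroup X]
    [Module A X] [Module K U] [IsScalarTower K A U] [Module K X] [IsScalarTower K A X] {s r : ℕ}
    (ρU : A →ₐ[K] Matrix (Fin s) (Fin s) K) (ρX : A →ₐ[K] Matrix (Fin r) (Fin r) K)
    (eU : U ≃ₗ[K] (Fin s → K)) (heU : ∀ (a : A) (x : U), eU (a • x) = (ρU a).mulVec (eU x))
    (eX : X ≃ₗ[K] (Fin r → K)) (heX : ∀ (a : A) (x : X), eX (a • x) = (ρX a).mulVec (eX x))
    (f : U →ₗ[A] X) :
    ∃ F : Matrix (Fin r) (Fin s) K, (∀ a, F * ρU a = ρX a * F) ∧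
      ∀ u, eX (f u) = F.mulVec (eU u) := by
  have hF : ∀ u, eX (f u) = (LinearMap.toMatrix' (eX.toLinearMap.comp
      ((f.restrictScalars K).comp eU.symm.toLinearMap))).mulVec (eU u) := by
    intro u
    rw [LinearMap.toMatrix'_mulVec]
    simp
  refine ⟨_, fun a => ?_, hF⟩
  apply Matrix.toLin'.injective
  refine LinearMap.ext fun v => ?_
  obtain ⟨u, rfl⟩ := eU.surjective v
  rw [Matrix.toLin'_apply, Matrix.toLin'_apply, ← Matrix.mulVec_mulVec, ← Matrix.mulVec_mulVec,
    ← heU, ← hF, ← hF, map_smul, heX]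

theorem mulVec_map_algebraMap {r s : ℕ} (F : Matrix (Fin r) (Fin s) K) (v : Fin s → K) :
    (F.map (algebraMap K Ω)).mulVec (fun i => algebraMap K Ω (v i)) =
      fun i => algebraMap K Ω (F.mulVec v i) := by
  ext i
  simp [Matrix.mulVec, dotProduct, Matrix.map_apply, map_sum]

/-- a matrix over `K` that is injective and surjective over `Ω` is so over `K` -/
theorem bijective_descend {r s : ℕ} (F : Matrix (Fin r) (Fin s) K)
    (h : Bijective (fun v : Fin s → Ω => (F.map (algebraMap K Ω)).mulVec v)) :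
    Bijective (fun v : Fin s → K => F.mulVec v) := by
  have hinj : Injective (algebraMap K Ω) := (algebraMap K Ω).injective
  constructor
  · intro v w hvw
    have h1 : (fun i => algebraMap K Ω (v i)) = fun i => algebraMap K Ω (w i) := by
      apply h.1
      simp only [mulVec_map_algebraMap]
      simp only at hvw
      rw [hvw]
    funext i
    exact hinj (congrFun h1 i)
  · by_contra hns
    -- a functional vanishing on the range
    have hlt : LinearMap.range (Matrix.toLin' F) ≠ ⊤ := by
      intro htop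
      apply hns
      intro w
      have : w ∈ LinearMap.range (Matrix.toLin' F) := by rw [htop]; trivial
      obtain ⟨v, hv⟩ := this
      exact ⟨v, by simpa using hv⟩
    obtain ⟨y, hy0, hy⟩ := Submodule.exists_dual_map_eq_bot_of_lt_top
      (lt_top_iff_ne_top.2 hlt) inferInstance
    have hyF : ∀ v, y (F.mulVec v) = 0 := by
      intro v
      have hm : y (F.mulVec v) ∈ (LinearMap.range (Matrix.toLin' F)).map y :=
        ⟨F.mulVec v, ⟨v, by simp⟩, rfl⟩
      rw [hy] at hm
      exact hm
    -- coordinates of `y`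
    have hyc : ∀ w, y w = ∑ i, w i * y (Pi.single i 1) := by
      intro w
      rw [LinearMap.pi_apply_eq_sum_univ y w]
      refine Finset.sum_congr rfl fun i _ => ?_
      rw [smul_eq_mul]
      congr 2
      ext j
      simp [Pi.single_apply, eq_comm]
    -- the same functional over `Ω`
    have hyF' : ∀ v : Fin s → Ω,
        ∑ i, (F.map (algebraMap K Ω)).mulVec v i * algebraMap K Ω (y (Pi.single i 1)) = 0 := by
      intro v
      have hcol : ∀ j, ∑ i, F i j * y (Pi.single i 1) = 0 := by
        intro j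
        have h1 := hyF (Pi.single j 1)
        rw [hyc] at h1
        simpa [Matrix.mulVec_single_one] using h1
      have hcol' : ∀ j, ∑ i, algebraMap K Ω (F i j) * algebraMap K Ω (y (Pi.single i 1)) = 0 := by
        intro j
        have := congrArg (algebraMap K Ω) (hcol j)
        simpa [map_sum, map_mul] using this
      simp only [Matrix.mulVec, dotProduct, Matrix.map_apply, Finset.sum_mul]
      rw [Finset.sum_comm]
      refine Finset.sum_eq_zero fun j _ => ?_
      have : ∀ i, algebraMap K Ω (F i j) * v j * algebraMap K Ω (y (Pi.single i 1)) =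
          v j * (algebraMap K Ω (F i j) * algebraMap K Ω (y (Pi.single i 1))) := fun i => by ring
      simp only [this]
      rw [← Finset.mul_sum, hcol' j, mul_zero]
    have hy1 : ∀ i, y (Pi.single i 1) = 0 := by
      intro i
      obtain ⟨v, hv⟩ := h.2 (Pi.single i 1)
      simp only at hv
      have h1 := hyF' v
      rw [hv] at h1
      have h2 : ∑ k, (Pi.single i (1 : Ω) : Fin r → Ω) k * algebraMap K Ω (y (Pi.single k 1)) =
          algebraMap K Ω (y (Pi.single i 1)) := by
        rw [Finset.sum_eq_single i]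
        · simp
        · intro k _ hk
          simp [Pi.single_eq_of_ne hk]
        · simp
      rw [h2] at h1
      exact hinj (by rw [h1, map_zero])
    apply hy0
    refine LinearMap.ext fun w => ?_
    rw [hyc, LinearMap.zero_apply]
    exact Finset.sum_eq_zero fun i _ => by rw [hy1 i, mul_zero]

end aux

section part4

variable {K Ω A : Type u} [Field K] [Field Ω] [Algebra K Ω] [Ring A] [Algebra K A]
  [Module.Finite K A]

theorem ob_scal {Y X : Type u} [AddCommGroup Y] [Module A Y]
    [AddCommGroup X] [Module A X] [Module K Y] [Module K X]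
    {m r : ℕ}
    (ρY : A →ₐ[K] Matrix (Fin m) (Fin m) K) (ρX : A →ₐ[K] Matrix (Fin r) (Fin r) K)
    (eY : Y ≃ₗ[K] (Fin m → K)) (heY : ∀ (a : A) (x : Y), eY (a • x) = (ρY a).mulVec (eY x))
    (eX : X ≃ₗ[K] (Fin r → K)) (heX : ∀ (a : A) (x : X), eX (a • x) = (ρX a).mulVec (eX x))
    (hX : Ob A Y X) : Ob (Ω ⊗[K] A) (RM (rext ρY Ω)) (RM (rext ρX Ω)) := by
  refine ⟨inferInstance, fun f => ?_⟩
  obtain ⟨H, hH, hv⟩ := rm_hom' _ _ f
  have hH0 : H = 0 := by
    refine eq_zero_of_fmap (K := K) H fun ξ => ?_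
    have hc : ∀ a, fmap ξ H * ρX a = ρY a * fmap ξ H := by
      intro a
      have := congrArg (fmap ξ) (hH a)
      rw [rext_apply, rext_apply, fmap_mul_map, fmap_map_mul] at this
      exact this
    obtain ⟨g, hg⟩ := exists_lin_of_matrix ρX ρY eX heX eY heY _ hc
    have hg0 : g = 0 := hX.inT g
    apply Matrix.toLin'.injective
    refine LinearMap.ext fun v => ?_
    obtain ⟨x, rfl⟩ := eX.surjective v
    rw [Matrix.toLin'_apply, ← hg, hg0]
    simp
  refine LinearMap.ext fun v => ?_
  apply RM.vec.injective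
  rw [hv, hH0, Matrix.zero_mulVec, LinearMap.zero_apply, map_zero]

theorem long_scal {M Y : Type u} [AddCommGroup M] [Module A M] [AddCommGroup Y] [Module A Y]
    [Module K M] [IsScalarTower K A M] [Module K Y] [IsScalarTower K A Y]
    {n m : ℕ} (ρM : A →ₐ[K] Matrix (Fin n) (Fin n) K)
    (ρY : A →ₐ[K] Matrix (Fin m) (Fin m) K)
    (eM : M ≃ₗ[K] (Fin n → K)) (heM : ∀ (a : A) (x : M), eM (a • x) = (ρM a).mulVec (eM x))
    (eY : Y ≃ₗ[K] (Fin m → K)) (heY : ∀ (a : A) (x : Y), eY (a • x) = (ρY a).mulVec (eY x))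
    (l : ℕ) : ∀ {X : Type u} [AddCommGroup X] [Module A X] [Module K X] [IsScalarTower K A X]
      {r : ℕ} (ρX : A →ₐ[K] Matrix (Fin r) (Fin r) K)
      (eX : X ≃ₗ[K] (Fin r → K)) (_ : ∀ (a : A) (x : X), eX (a • x) = (ρX a).mulVec (eX x)),
      Long A M Y l X →
      Long (Ω ⊗[K] A) (RM (rext ρM Ω)) (RM (rext ρY Ω)) l (RM (rext ρX Ω)) := by
  induction l with
  | zero => intros; trivial
  | succ l ih =>
    intro X _ _ _ _ r ρX eX heX hL
    obtain ⟨U, iU1, iU2, f, hU, hf, hnb, hLU⟩ := hL
    let _ : Module K U := Module.compHom U (algebraMap K A)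
    have : IsScalarTower K A U := ⟨fun k a x => by
      rw [Algebra.smul_def, mul_smul]; rfl⟩
    have := hU.fin
    obtain ⟨s, ρU, eU, heU⟩ := exists_rep (K := K) (A := A) U
    obtain ⟨F, hF, hFv⟩ := exists_matrix_of_lin ρU ρX eU heU eX heX f
    have hFΩ : ∀ a, F.map (algebraMap K Ω) * rext ρU Ω a = rext ρX Ω a * F.map (algebraMap K Ω) := by
      intro a
      rw [rext_apply, rext_apply, ← Matrix.map_mul, ← Matrix.map_mul, hF]
    obtain ⟨f', hf'⟩ := rm_hom (rext ρU Ω) (rext ρX Ω) (F.map (algebraMap K Ω)) hFΩ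
    refine ⟨RM (rext ρU Ω), inferInstance, inferInstance, f', ob_scal ρY ρU eY heY eU heU hU, ?_,
      ?_, ih ρU eU heU hLU⟩
    · intro φ hφ
      obtain ⟨G, hG, hGv⟩ := rm_hom' _ _ φ
      have hG0 : G = 0 := by
        refine eq_zero_of_fmap (K := K) G fun ξ => ?_
        have hc : ∀ a, fmap ξ G * ρM a = ρU a * fmap ξ G := by
          intro a
          have := congrArg (fmap ξ) (hG a)
          rw [rext_apply, rext_apply, fmap_mul_map, fmap_map_mul] at this
          exact this
        have hFG : F.map (algebraMap K Ω) * G = 0 := by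
          apply Matrix.toLin'.injective
          refine LinearMap.ext fun v => ?_
          have h1 := hf' (φ (RM.vec.symm v))
          rw [hφ, map_zero, hGv, LinearEquiv.apply_symm_apply, Matrix.mulVec_mulVec] at h1
          rw [Matrix.toLin'_apply, ← h1]
          simp
        have hFG' : F * fmap ξ G = 0 := by
          rw [← fmap_map_mul, hFG]
          ext i j
          simp [fmap]
        obtain ⟨g, hg⟩ := exists_lin_of_matrix ρM ρU eM heM eU heU _ hc
        have hg0 : g = 0 := by
          apply hf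
          intro x
          apply eX.injective
          rw [hFv, hg, Matrix.mulVec_mulVec, hFG', Matrix.zero_mulVec, map_zero]
        apply Matrix.toLin'.injective
        refine LinearMap.ext fun v => ?_
        obtain ⟨x, rfl⟩ := eM.surjective v
        rw [Matrix.toLin'_apply, ← hg, hg0]
        simp
      refine LinearMap.ext fun v => ?_
      apply RM.vec.injective
      rw [hGv, hG0, Matrix.zero_mulVec, LinearMap.zero_apply, map_zero]
    · intro hb
      apply hnb
      have h1 : Bijective (fun v : Fin s → Ω => (F.map (algebraMap K Ω)).mulVec v) := by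
        have : (fun v : Fin s → Ω => (F.map (algebraMap K Ω)).mulVec v) =
            RM.vec ∘ f' ∘ (RM.vec (ρ := rext ρU Ω)).symm := by
          funext v
          simp only [comp_apply]
          rw [hf', LinearEquiv.apply_symm_apply]
        rw [this]
        exact RM.vec.bijective.comp (hb.comp RM.vec.symm.bijective)
      have h2 := bijective_descend F h1
      have h3 : f = (eX.symm : _ → _) ∘ (fun v : Fin s → K => F.mulVec v) ∘ eU := by
        funext u
        simp only [comp_apply]
        rw [← hFv, LinearEquiv.symm_apply_apply]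
      rw [h3]
      exact eX.symm.bijective.comp (h2.comp eU.bijective)

-- BADEXT (file BadExt.lean)
theorem bad_scal {M Y X : Type u} [AddCommGroup M] [Module A M] [AddCommGroup Y] [Module A Y]
    [AddCommGroup X] [Module A X] [Module K M] [IsScalarTower K A M] [Module K Y]
    [IsScalarTower K A Y] [Module K X] [IsScalarTower K A X]
    {n m r : ℕ} (ρM : A →ₐ[K] Matrix (Fin n) (Fin n) K)
    (ρY : A →ₐ[K] Matrix (Fin m) (Fin m) K) (ρX : A →ₐ[K] Matrix (Fin r) (Fin r) K)
    (eM : M ≃ₗ[K] (Fin n → K)) (heM : ∀ (a : A) (x : M), eM (a • x) = (ρM a).mulVec (eM x))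
    (eY : Y ≃ₗ[K] (Fin m → K)) (heY : ∀ (a : A) (x : Y), eY (a • x) = (ρY a).mulVec (eY x))
    (eX : X ≃ₗ[K] (Fin r → K)) (heX : ∀ (a : A) (x : X), eX (a • x) = (ρX a).mulVec (eX x))
    (hX : Ob A Y X) : Ob (Ω ⊗[K] A) (RM (rext ρY Ω)) (RM (rext ρX Ω)) ∧
      (Bad A M Y X → Bad (Ω ⊗[K] A) (RM (rext ρM Ω)) (RM (rext ρY Ω)) (RM (rext ρX Ω))) :=
  ⟨ob_scal ρY ρX eY heY eX heX hX, fun hb l => long_scal ρM ρY eM heM eY heY l ρX eX heX (hb l)⟩

end part4

end BicG
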