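import Pool.Agent.Helper16.BicG.Long

/-!
Module BADF: a bad object has a bad `T`-simple subfactor.
-/

universe u

namespace BicG

open Function Module
open Bic (InT InF SES torIn torIn_le torIn_inT mkQ_zero mem_of_mkQ)

variable {A : Type u} [Ring A] [IsNoetherianRing A] [IsArtinianRing A]
variable {M Y X : Type u}
variable [AddCommGroup M] [Module A M] [AddCommGroup Y] [Module A Y]
variable [AddCommGroup X] [Module A X]

theorem bad_simple_factor (h : TPair A M Y) (hX : Ob A Y X) (hb : Bad A M Y X) :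
    ∃ (w : Type u) (_ : AddCommGroup w) (_ : Module A w) (Q : Submodule A X) (p : Q →ₗ[A] w),
      TSimple A Y w ∧ Bad A M Y w ∧ Ob A Y Q ∧ SEpi A Y p := by
  have hfin := hX.fin
  have : IsNoetherian A X := inferInstance
  have hbot : Subsingleton (⊥ : Submodule A X) := inferInstance
  obtain ⟨L, hL⟩ := exists_maximal_of_wellFoundedGT
    (fun L : Submodule A X => InT A Y L ∧ ¬ Bad A M Y L)
    ⟨⊥, Bic.InT.of_subsingleton hbot, fun hbad => not_long_zero h hbot (hbad 1)⟩
  have hLtop : L ≠ ⊤ := by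
    rintro rfl
    exact hL.prop.2 (hb.congr Submodule.topEquiv.symm)
  have hnt : Nontrivial (X ⧸ L) := Submodule.Quotient.nontrivial_iff.mpr hLtop
  obtain ⟨S, hS⟩ := exists_tsimple_sub (hX.quot L) hnt
  obtain ⟨i, p, hip, -, hp⟩ := SES.comap L S
  have hLob : Ob A Y L := ⟨inferInstance, hL.prop.1⟩
  have hQ : Ob A Y (S.comap L.mkQ) := Ob.of_ses hip hLob hS.ob
  have hlt : ¬ S.comap L.mkQ ≤ L := by
    intro hle
    have := hS.nt
    obtain ⟨s, hs⟩ := exists_ne (0 : S)
    obtain ⟨q, rfl⟩ := hip.surj s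
    apply hs
    apply Subtype.ext
    rw [hp]
    exact mkQ_zero (hle q.2)
  have hQbad : Bad A M Y (S.comap L.mkQ) := by
    by_contra hnb
    apply hlt
    refine hL.le_of_ge ⟨hQ.inT, hnb⟩ ?_
    intro x hx
    rw [Submodule.mem_comap, mkQ_zero hx]
    exact S.zero_mem
  rcases bad_of_ses h hip hLob hS.ob hQbad with h1 | h1
  · exact absurd h1 hL.prop.2
  · exact ⟨S, inferInstance, inferInstance, S.comap L.mkQ, p, hS, h1, hQ,
      SEpi.of_ses hip hLob.inT⟩

end BicG
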