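import Mathlib

/-!
Large algebraically closed extensions and small algebraically closed subfields.
-/

universe u

namespace BicG

open Function Module

theorem exists_big (K : Type u) [Field K] : ∃ (Ω : Type u) (_ : Field Ω) (_ : Algebra K Ω),
    IsAlgClosed Ω ∧ Cardinal.aleph0 < Cardinal.mk Ω ∧ Cardinal.mk K < Cardinal.mk Ω := by
  let σ : Type u := Set (K ⊕ ULift.{u} ℕ)
  let F : Type u := FractionRing (MvPolynomial σ K)
  let Ω : Type u := AlgebraicClosure F
  have h1 : Cardinal.mk σ ≤ Cardinal.mk Ω := by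
    let g : σ → Ω := fun s => algebraMap F Ω (algebraMap (MvPolynomial σ K) F (MvPolynomial.X s))
    have hg : Function.Injective g := by
      intro s t hst
      have h2 := (algebraMap F Ω).injective hst
      have h3 := IsFractionRing.injective (MvPolynomial σ K) F h2
      exact MvPolynomial.X_injective h3
    exact Cardinal.mk_le_of_injective hg
  have h2 : Cardinal.mk (K ⊕ ULift.{u} ℕ) < Cardinal.mk σ := by
    rw [Cardinal.mk_set]
    exact Cardinal.cantor _
  have h3 : Cardinal.mk K ≤ Cardinal.mk (K ⊕ ULift.{u} ℕ) :=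
    Cardinal.mk_le_of_injective (f := Sum.inl) Sum.inl_injective
  have h4 : Cardinal.aleph0 ≤ Cardinal.mk (K ⊕ ULift.{u} ℕ) := by
    rw [Cardinal.aleph0_le_mk_iff]
    infer_instance
  refine ⟨Ω, inferInstance, ((algebraMap F Ω).comp (algebraMap K F)).toAlgebra, inferInstance,
    ?_, ?_⟩
  · exact h4.trans_lt (h2.trans_le h1)
  · exact h3.trans_lt (h2.trans_le h1)

theorem exists_closed_small {K Ω : Type u} [Field K] [Field Ω] [Algebra K Ω] [IsAlgClosed Ω]
    (hΩ : Cardinal.aleph0 < Cardinal.mk Ω) (k : IntermediateField K Ω)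
    (hk : Cardinal.mk k < Cardinal.mk Ω) {σ : Type} [Finite σ] (c : σ → Ω) :
    ∃ k' : IntermediateField K Ω, k ≤ k' ∧ IsAlgClosed k' ∧ Cardinal.mk k' < Cardinal.mk Ω ∧
      ∀ i, c i ∈ k' := by
  let E : IntermediateField k Ω := IntermediateField.adjoin k (Set.range c)
  have hE : Cardinal.mk E < Cardinal.mk Ω := by
    refine (IntermediateField.cardinalMk_adjoin_le k (Set.range c)).trans_lt ?_
    refine max_lt (max_lt hk ?_) hΩ
    exact (Cardinal.lt_aleph0_of_finite _).trans hΩ
  let L : IntermediateField E Ω := algebraicClosure E Ω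
  have hL : Cardinal.mk L < Cardinal.mk Ω :=
    (Algebra.IsAlgebraic.cardinalMk_le_max E L).trans_lt (max_lt hE hΩ)
  have hLc : IsAlgClosed L := IsAlgClosure.isAlgClosed E
  let L' : IntermediateField k Ω := L.restrictScalars k
  let k' : IntermediateField K Ω := L'.restrictScalars K
  have hmem : ∀ x : Ω, x ∈ k' ↔ x ∈ L := fun x => Iff.rfl
  have hEk : ∀ x : Ω, x ∈ E → x ∈ k' := fun x hx =>
    (hmem x).mpr (L.algebraMap_mem (⟨x, hx⟩ : E))
  refine ⟨k', ?_, ?_, ?_, ?_⟩
  · intro x hx
    exact hEk x (E.algebraMap_mem (⟨x, hx⟩ : k))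
  · let e : L ≃+* k' := 
      { toFun := fun x => ⟨x.1, x.2⟩
        invFun := fun x => ⟨x.1, x.2⟩
        left_inv := fun x => rfl
        right_inv := fun x => rfl
        map_mul' := fun x y => rfl
        map_add' := fun x y => rfl }
    exact IsAlgClosed.of_ringEquiv L k' e
  · have : Cardinal.mk k' = Cardinal.mk L := rfl
    rw [this]
    exact hL
  · intro i
    exact hEk _ (IntermediateField.subset_adjoin k _ ⟨i, rfl⟩)

end BicG
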