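import Pool.Agent.Helper16.Bic.Wrap

/-!
Functorially finite torsion classes are bicompact (Smalø).
-/

universe u

namespace BicG

open Function Module
open Bic

section co

variable (K : Type u) [Field K] (A : Type u) [Ring A] [Algebra K A]

noncomputable instance : Module K (Co K A) := inferInstanceAs (Module K (A →ₗ[K] K))

instance : IsScalarTower K A (Co K A) where
  smul_assoc k a φ := by
    apply LinearMap.ext (R := K)
    intro b
    have h1 := Co.smul_app K A (k • a) φ b
    have h2 := Co.smul_app K A a φ b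
    refine h1.trans ?_
    rw [mul_smul_comm, map_smul]
    change _ = k • (show A →ₗ[K] K from a • φ) b
    rw [h2]

theorem finite_co [Module.Finite K A] : Module.Finite A (Co K A) := by
  have : Module.Finite K (Co K A) := inferInstanceAs (Module.Finite K (A →ₗ[K] K))
  exact Module.Finite.of_restrictScalars_finite K A _

/-- the value of a functional -/
def Co.ev (θ : Co K A) (b : A) : K := (show A →ₗ[K] K from θ) b

variable {K A}

theorem Co.ev_smul (a : A) (θ : Co K A) (b : A) : Co.ev K A (a • θ) b = Co.ev K A θ (b * a) :=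
  rfl

theorem Co.ev_add (θ θ' : Co K A) (b : A) :
    Co.ev K A (θ + θ') b = Co.ev K A θ b + Co.ev K A θ' b := rfl

theorem Co.ev_zero (b : A) : Co.ev K A 0 b = 0 := rfl

theorem Co.ext {θ θ' : Co K A} (h : ∀ b, Co.ev K A θ b = Co.ev K A θ' b) : θ = θ' :=
  LinearMap.ext (R := K) h

variable {ι κ : Type} [Fintype ι] [Fintype κ]

variable (K) in
/-- the module representing the dual of a cokernel -/
def Nu (w : ι → κ → A) : Submodule A (ι → Co K A) where
  carrier := {θ | ∀ (j : κ) (b : A), ∑ i, Co.ev K A (θ i) (w i j * b) = 0}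
  add_mem' {θ θ'} h h' j b := by
    simp only [Pi.add_apply, Co.ev_add]
    rw [Finset.sum_add_distrib, h j b, h' j b, add_zero]
  zero_mem' j b := by
    simp only [Pi.zero_apply, Co.ev_zero, Finset.sum_const_zero]
  smul_mem' a θ h j b := by
    simp only [Pi.smul_apply, Co.ev_smul, mul_assoc]
    exact h j (b * a)

theorem nu_inT (w : ι → κ → A) {X : Type u} [AddCommGroup X] [Module A X]
    (h : ∀ t : ι → X, ∃ y : κ → X, ∀ i, ∑ j, w i j • y j = t i) : InT A (Nu K w) X := by
  classical
  intro φ
  have key : ∀ (x : X) (i0 : ι), Co.ev K A ((φ x : Nu K w).1 i0) 1 = 0 := by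
    intro x i0
    obtain ⟨y, hy⟩ := h (Pi.single i0 x)
    have h1 : ∀ j, ∑ i, Co.ev K A ((φ (y j) : Nu K w).1 i) (w i j) = 0 := by
      intro j
      have := (φ (y j)).2 j 1
      simpa using this
    have h2 : ∀ i, Co.ev K A ((φ (Pi.single (M := fun _ => X) i0 x i) : Nu K w).1 i) 1 =
        ∑ j, Co.ev K A ((φ (y j) : Nu K w).1 i) (w i j) := by
      intro i
      rw [← hy i, map_sum]
      have h3 : ((∑ j, φ (w i j • y j) : Nu K w).1 i) = ∑ j, w i j • ((φ (y j) : Nu K w).1 i) := by
        simp [Finset.sum_apply]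
      rw [h3]
      have h4 : ∀ s : Finset κ, Co.ev K A (∑ j ∈ s, w i j • ((φ (y j) : Nu K w).1 i)) 1 =
          ∑ j ∈ s, Co.ev K A ((φ (y j) : Nu K w).1 i) (w i j) := by
        intro s
        induction s using Finset.induction_on with
        | empty => simp [Co.ev_zero]
        | insert j s hj ih =>
          rw [Finset.sum_insert hj, Finset.sum_insert hj, Co.ev_add, ih, Co.ev_smul, one_mul]
      exact h4 _
    have h5 : ∑ i, Co.ev K A ((φ (Pi.single (M := fun _ => X) i0 x i) : Nu K w).1 i) 1 = 0 := by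
      rw [Finset.sum_congr rfl (fun i _ => h2 i), Finset.sum_comm]
      exact Finset.sum_eq_zero (fun j _ => h1 j)
    rw [Finset.sum_eq_single i0] at h5
    · rwa [Pi.single_eq_same] at h5
    · intro i _ hi
      rw [Pi.single_eq_of_ne hi, map_zero]
      exact Co.ev_zero 1
    · intro h; exact absurd (Finset.mem_univ i0) h
  ext x : 1
  apply Subtype.ext
  funext i
  apply Co.ext
  intro b
  have h1 := key (b • x) i
  rw [map_smul] at h1
  have h2 : ((b • φ x : Nu K w).1 i) = b • ((φ x : Nu K w).1 i) := rfl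
  rw [h2, Co.ev_smul, one_mul] at h1
  rw [h1]
  exact (Co.ev_zero b).symm

theorem nu_exists (w : ι → κ → A) {X : Type u} [AddCommGroup X] [Module A X]
    (h : ¬ ∀ t : ι → X, ∃ y : κ → X, ∀ i, ∑ j, w i j • y j = t i) : ¬ InT A (Nu K w) X := by
  classical
  intro hT
  apply h
  let _ := kmod K A X
  have := kmod_tower K A X
  have hsm : ∀ (k : K) (b : A) (x : X), (k • b) • x = k • (b • x) := fun k b x => by
    rw [smul_assoc]
  let U : (κ → X) →ₗ[K] (ι → X) :=
    { toFun := fun y i => ∑ j, w i j • y j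
      map_add' := fun y y' => by
        funext i
        simp [smul_add, Finset.sum_add_distrib]
      map_smul' := fun k y => by
        funext i
        simp only [Pi.smul_apply, RingHom.id_apply, Finset.smul_sum]
        refine Finset.sum_congr rfl (fun j _ => ?_)
        exact smul_comm (w i j) k (y j) }
  by_contra hcon
  have hU : LinearMap.range U ≠ ⊤ := by
    intro htop
    apply hcon
    intro t
    obtain ⟨y, hy⟩ := LinearMap.range_eq_top.mp htop t
    exact ⟨y, fun i => congrFun hy i⟩
  obtain ⟨ξ, hξ0, hξ⟩ := Submodule.exists_le_ker_of_lt_top _ (lt_top_iff_ne_top.mpr hU)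
  have hξU : ∀ y, ξ (U y) = 0 := fun y => hξ ⟨y, rfl⟩
  let φ : X →ₗ[A] Nu K w :=
    { toFun := fun x => ⟨fun i => (show A →ₗ[K] K from
        { toFun := fun b => ξ (Pi.single i (b • x))
          map_add' := fun b c => by rw [add_smul, Pi.single_add, map_add]
          map_smul' := fun k b => by
            have h1 : (Pi.single i ((k • b) • x) : ι → X) = k • Pi.single i (b • x) := by
              rw [hsm]
              exact (LinearMap.single K (fun _ : ι => X) i).map_smul k (b • x)
            rw [h1, map_smul]; rfl }), by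
        intro j b
        change ∑ i, ξ (Pi.single i ((w i j * b) • x)) = 0
        rw [← map_sum]
        have h1 : ∑ i, (Pi.single i ((w i j * b) • x) : ι → X) = U (Pi.single j (b • x)) := by
          funext i
          rw [Finset.sum_apply]
          change _ = ∑ j', w i j' • (Pi.single j (b • x) : κ → X) j'
          rw [Finset.sum_eq_single i, Finset.sum_eq_single j]
          · rw [Pi.single_eq_same, Pi.single_eq_same, mul_smul]
          · intro j' _ hj'
            rw [Pi.single_eq_of_ne hj', smul_zero]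
          · intro h; exact absurd (Finset.mem_univ j) h
          · intro i' _ hi'
            rw [Pi.single_eq_of_ne (Ne.symm hi')]
          · intro h; exact absurd (Finset.mem_univ i) h
        rw [h1, hξU]⟩
      map_add' := fun x x' => by
        apply Subtype.ext
        funext i
        apply Co.ext
        intro b
        change ξ (Pi.single i (b • (x + x'))) = ξ (Pi.single i (b • x)) + ξ (Pi.single i (b • x'))
        rw [smul_add, Pi.single_add, map_add]
      map_smul' := fun a x => by
        apply Subtype.ext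
        funext i
        apply Co.ext
        intro b
        change ξ (Pi.single i (b • (a • x))) = ξ (Pi.single i ((b * a) • x))
        rw [mul_smul] }
  apply hξ0
  have hφ := hT φ
  apply LinearMap.pi_ext'
  intro i
  ext x
  have h1 := LinearMap.congr_fun hφ x
  have h2 : Co.ev K A ((φ x).1 i) 1 = 0 := by
    rw [h1]; exact Co.ev_zero 1
  have h3 : Co.ev K A ((φ x).1 i) 1 = ξ (Pi.single i ((1 : A) • x)) := rfl
  rw [h3, one_smul] at h2
  exact h2

end co


section cover

variable {A : Type u} [Ring A] [IsNoetherianRing A] [IsArtinianRing A]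

/-- projective covers, in terms of idempotents -/
theorem exists_cover {V : Type u} [AddCommGroup V] [Module A V] (hV : Module.Finite A V) :
    ∃ (a : ℕ) (π : (Fin a → A) →ₗ[A] V) (e : (Fin a → A) →ₗ[A] (Fin a → A)),
      (∀ z, e (e z) = e z) ∧ (∀ v, ∃ z, π (e z) = v) ∧
      ∀ L : Submodule A (Fin a → A), L ≤ LinearMap.range e → (∀ v, ∃ l ∈ L, π l = v) →
        LinearMap.range e ≤ L := by
  obtain ⟨a, π, hπ⟩ := Module.Finite.exists_fin' A V
  let P : Submodule A (Fin a → A) → Prop := fun L =>
    ∃ e : (Fin a → A) →ₗ[A] (Fin a → A), (∀ z, e (e z) = e z) ∧ LinearMap.range e = L ∧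
      ∀ v, ∃ z, π (e z) = v
  obtain ⟨L0, hL0⟩ := exists_minimal_of_wellFoundedLT P
    ⟨⊤, LinearMap.id, fun z => rfl, LinearMap.range_id, hπ⟩
  obtain ⟨e, he, heL, heπ⟩ := hL0.prop
  refine ⟨a, π, e, he, heπ, fun L hL hLπ => ?_⟩
  -- lift `π e` through `L`
  have hsurj : Surjective (π.comp L.subtype) := fun v => by
    obtain ⟨l, hl, hlv⟩ := hLπ v
    exact ⟨⟨l, hl⟩, hlv⟩
  obtain ⟨φ, hφ⟩ := Module.projective_lifting_property (π.comp L.subtype) (π.comp e) hsurj
  have hφ' : ∀ z, π (φ z : Fin a → A) = π (e z) := fun z => LinearMap.congr_fun hφ z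
  let ψ : Module.End A (Fin a → A) := (L.subtype.comp φ).comp e
  have hψL : ∀ z, ψ z ∈ L := fun z => (φ (e z)).2
  have hψπ : ∀ z, π (ψ z) = π (e z) := fun z => by
    change π (φ (e z) : Fin a → A) = _
    rw [hφ', he]
  have hfix : ∀ x ∈ L, e x = x := by
    intro x hx
    obtain ⟨z, rfl⟩ := hL hx
    exact he z
  have hpow : ∀ n z, ψ^[n + 1] z ∈ L ∧ π (ψ^[n + 1] z) = π (e z) := by
    intro n
    induction n with
    | zero => intro z; exact ⟨hψL z, hψπ z⟩
    | succ n ih =>
      intro z
      rw [Function.iterate_succ_apply']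
      refine ⟨hψL _, ?_⟩
      rw [hψπ, hfix _ (ih z).1, (ih z).2]
  obtain ⟨n, hn⟩ := Filter.eventually_atTop.mp ψ.eventually_isCompl_ker_pow_range_pow
  have hc := hn (n + 1) (by omega)
  have hP : P (LinearMap.range (ψ ^ (n + 1))) := by
    refine ⟨(LinearMap.range (ψ ^ (n + 1))).projection _ hc.symm, ?_, ?_, ?_⟩
    · intro z
      exact Submodule.projection_apply_left hc.symm
        ⟨_, Submodule.projection_apply_mem hc.symm z⟩
    · exact Submodule.range_projection hc.symm
    · intro v
      obtain ⟨z, hz⟩ := heπ v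
      refine ⟨(ψ ^ (n + 1)) z, ?_⟩
      have h1 : (LinearMap.range (ψ ^ (n + 1))).projection _ hc.symm ((ψ ^ (n + 1)) z) =
          (ψ ^ (n + 1)) z :=
        Submodule.projection_apply_left hc.symm ⟨_, z, rfl⟩
      rw [h1, Module.End.pow_apply, (hpow n z).2, hz]
  have hle : LinearMap.range (ψ ^ (n + 1)) ≤ L := by
    rintro _ ⟨z, rfl⟩
    rw [Module.End.pow_apply]
    exact (hpow n z).1
  rw [heL]
  exact (hL0.le_of_le hP ((hle.trans hL).trans heL.le)).trans hle

end cover

section smalo

variable {A : Type u} [Ring A] {T : ModuleCat.{u} A → Prop}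

theorem IsTorsionClass.congr' (hT : IsTorsionClass A T) {X Z : Type u} [AddCommGroup X]
    [Module A X] [AddCommGroup Z] [Module A Z] (e : X ≃ₗ[A] Z) (hX : T (ModuleCat.of A X)) :
    T (ModuleCat.of A Z) := hT.surj e.toLinearMap e.surjective hX

/-- a generator with the approximation property and no proper retracts fixing the vector -/
theorem exists_gen [IsNoetherianRing A] [IsArtinianRing A] (hT : IsTorsionClass A T)
    (hcov : IsCovariantlyFinite A T) :
    ∃ (P : Type u) (_ : AddCommGroup P) (_ : Module A P) (p0 : P), T (ModuleCat.of A P) ∧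
      (∀ (Z : Type u) [AddCommGroup Z] [Module A Z], T (ModuleCat.of A Z) → ∀ z : Z,
        ∃ h : P →ₗ[A] Z, h p0 = z) ∧
      ∀ s : P →ₗ[A] P, s p0 = p0 → Surjective s := by
  obtain ⟨P, f, hP, hf⟩ := hcov (ModuleCat.of A A) (inferInstanceAs (Module.Finite A A))
  have hfin : Module.Finite A P := hT.fg P hP
  let p0 : P := f (1 : A)
  have happ : ∀ (Z : Type u) [AddCommGroup Z] [Module A Z], T (ModuleCat.of A Z) → ∀ z : Z,
      ∃ h : P →ₗ[A] Z, h p0 = z := by
    intro Z _ _ hZ z
    obtain ⟨h, hh⟩ := hf (ModuleCat.of A Z) (LinearMap.toSpanSingleton A Z z) hZ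
    refine ⟨h, ?_⟩
    have := LinearMap.congr_fun hh (1 : A)
    refine this.trans ?_
    exact one_smul A z
  obtain ⟨L, hL⟩ := exists_minimal_of_wellFoundedLT
    (fun L : Submodule A P => ∃ s : P →ₗ[A] P, s p0 = p0 ∧ LinearMap.range s = L)
    ⟨⊤, LinearMap.id, rfl, LinearMap.range_id⟩
  obtain ⟨s, hs, rfl⟩ := hL.prop
  refine ⟨LinearMap.range s, inferInstance, inferInstance, ⟨p0, p0, hs⟩, ?_, ?_, ?_⟩
  · exact hT.surj s.rangeRestrict s.surjective_rangeRestrict hP
  · intro Z _ _ hZ z
    obtain ⟨h, hh⟩ := happ Z hZ z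
    exact ⟨h.comp (LinearMap.range s).subtype, hh⟩
  · intro s' hs'
    let t : P →ₗ[A] P := (LinearMap.range s).subtype.comp (s'.comp s.rangeRestrict)
    have ht : t p0 = p0 := by
      change ((s' (s.rangeRestrict p0) : LinearMap.range s) : P) = p0
      have h1 : s.rangeRestrict p0 = ⟨p0, p0, hs⟩ := Subtype.ext hs
      rw [h1, hs']
    have hle : LinearMap.range t ≤ LinearMap.range s := by
      rintro _ ⟨x, rfl⟩
      exact (s' (s.rangeRestrict x)).2
    have h2 := hL.le_of_le ⟨t, ht, rfl⟩ hle
    intro y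
    obtain ⟨x, hx⟩ := h2 y.2
    exact ⟨s.rangeRestrict x, Subtype.ext hx⟩

/-- extensions of the generator split -/
theorem gen_split [IsNoetherianRing A] (hT : IsTorsionClass A T) {P : Type u} [AddCommGroup P]
    [Module A P] {p0 : P} (hP : T (ModuleCat.of A P))
    (happ : ∀ (Z : Type u) [AddCommGroup Z] [Module A Z], T (ModuleCat.of A Z) → ∀ z : Z,
        ∃ h : P →ₗ[A] Z, h p0 = z)
    (hmin : ∀ s : P →ₗ[A] P, s p0 = p0 → Surjective s)
    {Z E : Type u} [AddCommGroup Z] [Module A Z] [AddCommGroup E] [Module A E]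
    {i : Z →ₗ[A] E} {p : E →ₗ[A] P} (h : SES i p) (hZ : T (ModuleCat.of A Z)) :
    ∃ s : P →ₗ[A] E, ∀ x, p (s x) = x := by
  have hfin : Module.Finite A P := hT.fg _ hP
  have hE : T (ModuleCat.of A E) := hT.ses h hZ hP
  obtain ⟨e0, he0⟩ := h.surj p0
  obtain ⟨g, hg⟩ := happ E hE e0
  have h1 : Surjective (p.comp g) := hmin _ (by rw [LinearMap.comp_apply, hg, he0])
  have h2 : Bijective (p.comp g) := IsNoetherian.bijective_of_surjective_endomorphism _ h1
  let c := LinearEquiv.ofBijective (p.comp g) h2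
  exact ⟨g.comp c.symm.toLinearMap, fun x => c.apply_symm_apply x⟩

/-- maps from the kernel of a presentation extend -/
theorem gen_extend [IsNoetherianRing A] (hT : IsTorsionClass A T) {P : Type u} [AddCommGroup P]
    [Module A P] {p0 : P} (hP : T (ModuleCat.of A P))
    (happ : ∀ (Z : Type u) [AddCommGroup Z] [Module A Z], T (ModuleCat.of A Z) → ∀ z : Z,
        ∃ h : P →ₗ[A] Z, h p0 = z)
    (hmin : ∀ s : P →ₗ[A] P, s p0 = p0 → Surjective s)
    {Q Z : Type u} [AddCommGroup Q] [Module A Q] [AddCommGroup Z] [Module A Z]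
    (π0 : Q →ₗ[A] P) (hπ0 : Surjective π0) (hZ : T (ModuleCat.of A Z))
    (γ : LinearMap.ker π0 →ₗ[A] Z) : ∃ h : Q →ₗ[A] Z, ∀ w : LinearMap.ker π0, h w = γ w := by
  let G : Submodule A (Z × Q) := LinearMap.range (γ.prod (-(LinearMap.ker π0).subtype))
  have hG : ∀ x : Z × Q, x ∈ G ↔ ∃ w : LinearMap.ker π0, γ w = x.1 ∧ -(w : Q) = x.2 := by
    intro x
    constructor
    · rintro ⟨w, rfl⟩
      exact ⟨w, rfl, rfl⟩
    · rintro ⟨w, h1, h2⟩
      exact ⟨w, Prod.ext h1 h2⟩
  let p : ((Z × Q) ⧸ G) →ₗ[A] P := G.liftQ (π0.comp (LinearMap.snd A Z Q)) (by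
    intro x hx
    obtain ⟨w, h1, h2⟩ := (hG x).mp hx
    rw [LinearMap.mem_ker, LinearMap.comp_apply, LinearMap.snd_apply, ← h2, map_neg, w.2,
      neg_zero])
  let i : Z →ₗ[A] ((Z × Q) ⧸ G) := G.mkQ.comp (LinearMap.inl A Z Q)
  have hs : SES i p := by
    refine ⟨?_, ?_, ?_, ?_⟩
    · rw [injective_iff_map_eq_zero]
      intro z hz
      have h1 : (LinearMap.inl A Z Q z) ∈ G := mem_of_mkQ hz
      obtain ⟨w, h2, h3⟩ := (hG _).mp h1
      have h4 : w = 0 := Subtype.ext (neg_eq_zero.mp h3)
      rw [h4, map_zero] at h2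
      exact h2.symm
    · intro x
      obtain ⟨q, hq⟩ := hπ0 x
      exact ⟨G.mkQ (0, q), hq⟩
    · intro z
      change π0 0 = 0
      exact map_zero _
    · intro e he
      obtain ⟨⟨z, q⟩, rfl⟩ := G.mkQ_surjective e
      have hq : π0 q = 0 := he
      refine ⟨z + γ ⟨q, hq⟩, ?_⟩
      change G.mkQ (z + γ ⟨q, hq⟩, 0) = G.mkQ (z, q)
      rw [← sub_eq_zero, ← map_sub]
      apply mkQ_zero
      rw [hG]
      exact ⟨⟨q, hq⟩, by simp, by simp⟩
  obtain ⟨s, hs'⟩ := gen_split hT hP happ hmin hs hZ
  obtain ⟨r, hr⟩ := hs.retraction_of_section s hs'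
  refine ⟨r.comp (G.mkQ.comp (LinearMap.inr A Z Q)), fun w => ?_⟩
  rw [← hr (γ w)]
  change r (G.mkQ (0, (w : Q))) = r (G.mkQ (γ w, 0))
  congr 1
  rw [← sub_eq_zero, ← map_sub]
  apply mkQ_zero
  rw [hG]
  exact ⟨-w, by simp, by simp⟩

/-- (i) -/
theorem gen_surj [IsNoetherianRing A] [IsArtinianRing A] (hT : IsTorsionClass A T)
    {P : Type u} [AddCommGroup P]
    [Module A P] {p0 : P} (hP : T (ModuleCat.of A P))
    (happ : ∀ (Z : Type u) [AddCommGroup Z] [Module A Z], T (ModuleCat.of A Z) → ∀ z : Z,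
        ∃ h : P →ₗ[A] Z, h p0 = z)
    (hmin : ∀ s : P →ₗ[A] P, s p0 = p0 → Surjective s) {r a : ℕ}
    (π0 : (Fin r → A) →ₗ[A] P) (hπ0 : Surjective π0)
    (π : (Fin a → A) →ₗ[A] LinearMap.ker π0) (e : (Fin a → A) →ₗ[A] (Fin a → A))
    (he : ∀ z, e (e z) = e z) (hπ : ∀ v, ∃ z, π (e z) = v)
    (hsup : ∀ L : Submodule A (Fin a → A), L ≤ LinearMap.range e → (∀ v, ∃ l ∈ L, π l = v) →
        LinearMap.range e ≤ L)
    {X : Type u} [AddCommGroup X] [Module A X] (hX : T (ModuleCat.of A X))
    (g : (Fin a → A) →ₗ[A] X) (hg : ∀ z, g (e z) = g z) :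
    ∃ h : (Fin r → A) →ₗ[A] X, ∀ z, h (π (e z) : Fin r → A) = g z := by
  have hfin : Module.Finite A X := hT.fg _ hX
  obtain ⟨L, hL⟩ := exists_minimal_of_wellFoundedLT
    (fun L : Submodule A X => ∃ h : (Fin r → A) →ₗ[A] X,
      L = LinearMap.range (g - h.comp ((LinearMap.ker π0).subtype.comp (π.comp e))))
    ⟨_, 0, rfl⟩
  obtain ⟨h, rfl⟩ := hL.prop
  set g' := g - h.comp ((LinearMap.ker π0).subtype.comp (π.comp e)) with hg'
  have hg'e : ∀ z, g' (e z) = g' z := by
    intro z
    simp only [hg', LinearMap.sub_apply, LinearMap.comp_apply, hg, he]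
  let X'' : Submodule A X := (LinearMap.range e ⊓ LinearMap.ker π).map g'
  have hX'' : T (ModuleCat.of A (X ⧸ X'')) := hT.surj X''.mkQ X''.mkQ_surjective hX
  obtain ⟨γ, hγ⟩ := factor_surj (π.comp e) hπ (X''.mkQ.comp g') (by
    intro z hz
    apply mkQ_zero
    exact ⟨e z, ⟨⟨z, rfl⟩, hz⟩, hg'e z⟩)
  obtain ⟨hb, hhb⟩ := gen_extend hT hP happ hmin π0 hπ0 hX'' γ
  obtain ⟨h', hh'⟩ := Module.projective_lifting_property X''.mkQ hb X''.mkQ_surjective
  have h1 : ∀ z, (g - (h + h').comp ((LinearMap.ker π0).subtype.comp (π.comp e))) z ∈ X'' := by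
    intro z
    apply mem_of_mkQ
    have h2 : (g - (h + h').comp ((LinearMap.ker π0).subtype.comp (π.comp e))) z =
        g' z - h' (π (e z) : Fin r → A) := by
      simp only [hg', LinearMap.sub_apply, LinearMap.comp_apply, LinearMap.add_apply]
      abel_nf
      rfl
    rw [h2, map_sub]
    have h3 : X''.mkQ (h' (π (e z) : Fin r → A)) = hb (π (e z) : Fin r → A) :=
      LinearMap.congr_fun hh' _
    have h4 : X''.mkQ (g' z) = γ (π (e z)) := (hγ z).symm
    rw [h3, h4, hhb, sub_self]
  have h2 : LinearMap.range (g - (h + h').comp ((LinearMap.ker π0).subtype.comp (π.comp e))) ≤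
      X'' := by
    rintro _ ⟨z, rfl⟩
    exact h1 z
  have h3 : X'' ≤ LinearMap.range g' := by
    rintro _ ⟨z, -, rfl⟩
    exact ⟨z, rfl⟩
  have h4 : LinearMap.range g' ≤ X'' := (hL.le_of_le ⟨h + h', rfl⟩ (h2.trans h3)).trans h2
  have h5 : LinearMap.range e ≤ LinearMap.range e ⊓ LinearMap.ker g' := by
    apply hsup _ inf_le_left
    intro v
    obtain ⟨z, hz⟩ := hπ v
    obtain ⟨l, hl, hl'⟩ := h4 ⟨e z, rfl⟩
    refine ⟨e z - l, ⟨sub_mem ⟨z, rfl⟩ hl.1, ?_⟩, ?_⟩
    · rw [SetLike.mem_coe, LinearMap.mem_ker, map_sub, hl', sub_self]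
    · have h6 : π l = 0 := hl.2
      rw [map_sub, hz, h6, sub_zero]
  refine ⟨h, fun z => ?_⟩
  have h6 : g' (e z) = 0 := (h5 ⟨z, rfl⟩).2
  rw [hg'e] at h6
  have h7 : g' z = g z - h (π (e z) : Fin r → A) := rfl
  rw [h7, sub_eq_zero] at h6
  exact h6.symm


theorem linComb_single {r : ℕ} {X : Type u} [AddCommGroup X] [Module A X]
    (h : (Fin r → A) →ₗ[A] X) (z : Fin r → A) :
    ∑ j, z j • h (Pi.single j 1) = h z := by
  have h1 : z = ∑ j, z j • (Pi.single j (1 : A) : Fin r → A) := by
    ext y
    simp [Finset.sum_apply, Pi.single_apply]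
  conv_rhs => rw [h1, map_sum]
  exact Finset.sum_congr rfl (fun j _ => (map_smul h _ _).symm)

/-- a finitely generated module detecting the torsion pair -/
theorem exists_dual (K : Type u) [Field K] [Algebra K A] [Module.Finite K A]
    (hT : IsTorsionClass A T) (hcov : IsCovariantlyFinite A T) :
    ∃ (N : Type u) (_ : AddCommGroup N) (_ : Module A N), Module.Finite A N ∧
      (∀ (X : Type u) [AddCommGroup X] [Module A X], T (ModuleCat.of A X) → InT A N X) ∧
      (∀ (X : Type u) [AddCommGroup X] [Module A X], perp A T (ModuleCat.of A X) →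
        InT A N X → Subsingleton X) := by
  classical
  have hNo : IsNoetherianRing A := IsNoetherianRing.of_finite K A
  have hAr : IsArtinianRing A := IsArtinianRing.of_finite K A
  obtain ⟨P, _, _, p0, hP, happ, hmin⟩ := exists_gen hT hcov
  have hfin : Module.Finite A P := hT.fg _ hP
  obtain ⟨r, π0, hπ0⟩ := Module.Finite.exists_fin' A P
  obtain ⟨a, π, e, he, hπ, hsup⟩ := exists_cover (A := A) (V := LinearMap.ker π0) inferInstance
  obtain ⟨f', hf'⟩ := hπ0 p0
  let w : (Fin a ⊕ Unit) → (Fin r ⊕ Fin a) → A := Sum.elim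
    (fun i => Sum.elim (fun j => (π (e (Pi.single i 1)) : Fin r → A) j)
      (fun j => ((Pi.single i 1 : Fin a → A) - e (Pi.single i 1)) j))
    (fun _ => Sum.elim f' (fun _ => 0))
  have hfin_co := finite_co K A
  refine ⟨Nu K w, inferInstance, inferInstance, inferInstance, ?_, ?_⟩
  · intro X _ _ hX
    apply nu_inT
    intro t
    let g : (Fin a → A) →ₗ[A] X := Fintype.linearCombination A (fun i => t (Sum.inl i))
    have hgi : ∀ i, g (Pi.single i 1) = t (Sum.inl i) := fun i => by
      rw [Fintype.linearCombination_apply_single, one_smul]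
    obtain ⟨h1, hh1⟩ := gen_surj hT hP happ hmin π0 hπ0 π e he hπ hsup hX (g.comp e)
      (fun z => by rw [LinearMap.comp_apply, LinearMap.comp_apply, he])
    obtain ⟨m, hm⟩ := happ X hX (t (Sum.inr ()) - h1 f')
    let h : (Fin r → A) →ₗ[A] X := h1 + m.comp π0
    refine ⟨Sum.elim (fun j => h (Pi.single j 1)) (fun j => g (Pi.single j 1)), ?_⟩
    rintro (i | i)
    · rw [Fintype.sum_sum_type]
      change ∑ j, (π (e (Pi.single i 1)) : Fin r → A) j • h (Pi.single j 1) +
        ∑ j, ((Pi.single i 1 : Fin a → A) - e (Pi.single i 1)) j • g (Pi.single j 1) = _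
      rw [linComb_single, linComb_single, map_sub, hgi]
      have h2 : h (π (e (Pi.single i 1)) : Fin r → A) = g (e (Pi.single i 1)) := by
        change h1 _ + m (π0 _) = _
        rw [hh1, (π (e (Pi.single i 1))).2, map_zero, add_zero]
        rfl
      rw [h2]
      abel
    · rw [Fintype.sum_sum_type]
      change ∑ j, f' j • h (Pi.single j 1) + ∑ j, (0 : A) • g (Pi.single j 1) = _
      rw [linComb_single]
      simp only [zero_smul, Finset.sum_const_zero, add_zero]
      change h1 f' + m (π0 f') = _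
      rw [hf', hm]
      abel
  · intro X _ _ hX hNX
    by_contra hcon
    have hns : ¬ ∀ t : (Fin a ⊕ Unit) → X, ∃ y : (Fin r ⊕ Fin a) → X,
        ∀ i, ∑ j, w i j • y j = t i := by
      intro hall
      apply hcon
      have hzero : ∀ x : X, x = 0 := by
        intro x
        obtain ⟨y, hy⟩ := hall (Sum.elim (fun _ => 0) (fun _ => x))
        let h : (Fin r → A) →ₗ[A] X := Fintype.linearCombination A (fun i => y (Sum.inl i))
        let k : (Fin a → A) →ₗ[A] X := Fintype.linearCombination A (fun i => y (Sum.inr i))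
        have h1 : ∀ i, h (π (e (Pi.single i 1)) : Fin r → A) +
            k ((Pi.single i 1 : Fin a → A) - e (Pi.single i 1)) = 0 := by
          intro i
          have h2 := hy (Sum.inl i)
          rw [Fintype.sum_sum_type] at h2
          exact h2
        have h2 : (h.comp ((LinearMap.ker π0).subtype.comp (π.comp e)) +
            k.comp (LinearMap.id - e)) = 0 := by
          apply LinearMap.pi_ext'
          intro i
          ext
          exact h1 i
        have h3 : ∀ z, h (π (e z) : Fin r → A) = 0 := by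
          intro z
          have h4 := LinearMap.congr_fun h2 (e z)
          have h5 : h (π (e (e z)) : Fin r → A) + k (e z - e (e z)) = 0 := h4
          rw [he, sub_self, map_zero, add_zero] at h5
          exact h5
        obtain ⟨m, hm⟩ := factor_surj π0 hπ0 h (fun q hq => by
          obtain ⟨z, hz⟩ := hπ ⟨q, hq⟩
          have h4 := h3 z
          rw [hz] at h4
          exact h4)
        have hm0 : m = 0 := hX.2 (ModuleCat.of A P) hP m
        have h4 := hy (Sum.inr ())
        rw [Fintype.sum_sum_type] at h4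
        have h5 : ∑ j, f' j • y (Sum.inl j) + ∑ j : Fin a, (0 : A) • y (Sum.inr j) = x := h4
        simp only [zero_smul, Finset.sum_const_zero, add_zero] at h5
        have h6 : h f' = x := h5
        rw [← h6, ← hm, hm0]
        rfl
      exact ⟨fun x y => by rw [hzero x, hzero y]⟩
    exact nu_exists w hns hNX

theorem isTorsionFreeClass_perp [IsNoetherianRing A] : IsTorsionFreeClass A (perp A T) where
  fg W hW := hW.1
  sub W Z i hi hW := by
    have := hW.1
    refine ⟨Module.Finite.of_injective i hi, fun X hX f => ?_⟩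
    have h1 := hW.2 X hX (i.comp f)
    ext x
    apply hi
    rw [LinearMap.zero_apply, map_zero]
    exact LinearMap.congr_fun h1 x
  ext W E Z i p hi hp hip hW hZ := by
    have h := SES.of_exact hi hp hip
    refine ⟨h.modFinite hW.1 hZ.1, fun X hX f => ?_⟩
    have h1 := hZ.2 X hX (p.comp f)
    obtain ⟨g, hg⟩ := factor_inj i hi f (fun x => h.exact _ (LinearMap.congr_fun h1 x))
    have h2 := hW.2 X hX g
    ext x
    rw [← hg, h2]
    exact map_zero i

/-- powers of `P` lie in every torsion class containing `P` -/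
theorem IsTorsionClass.pow {T' : ModuleCat.{u} A → Prop} (hT : IsTorsionClass A T') {P : Type u}
    [AddCommGroup P] [Module A P] (hP : T' (ModuleCat.of A P)) :
    ∀ n : ℕ, T' (ModuleCat.of A (Fin n → P)) := by
  intro n
  induction n with
  | zero =>
    refine hT.surj (0 : P →ₗ[A] (Fin 0 → P)) ?_ hP
    intro x
    exact ⟨0, Subsingleton.elim _ _⟩
  | succ n ih =>
    have h : SES (LinearMap.inl A P (Fin n → P)) (LinearMap.snd A P (Fin n → P)) := by
      refine ⟨LinearMap.inl_injective, LinearMap.snd_surjective, fun x => rfl, ?_⟩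
      rintro ⟨x, y⟩ hy
      have hy : y = 0 := hy
      subst hy
      exact ⟨x, rfl⟩
    have h1 := hT.ses h hP ih
    exact IsTorsionClass.congr' hT (Fin.consLinearEquiv A (fun _ => P)) h1

/-- Functorially finite torsion classes are bicompact. -/
theorem functoriallyFinite_bicompact (K : Type u) [Field K] [Algebra K A] [Module.Finite K A]
    (hT : IsTorsionClass A T) (hff : IsFunctoriallyFinite A T) : IsBicompact A T := by
  classical
  have hNo : IsNoetherianRing A := IsNoetherianRing.of_finite K A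
  have hAr : IsArtinianRing A := IsArtinianRing.of_finite K A
  obtain ⟨hcov, -⟩ := hff
  constructor
  · obtain ⟨P, _, _, p0, hP, happ, -⟩ := exists_gen hT hcov
    refine ⟨ModuleCat.of A P, hT.fg _ hP, ?_⟩
    funext X
    apply propext
    constructor
    · intro hX T' hT' hPT'
      have := hT.fg X hX
      obtain ⟨n, c, hc⟩ := Module.Finite.exists_fin' A X
      have h1 : ∀ i : Fin n, ∃ h : P →ₗ[A] X, h p0 = c (Pi.single i 1) := fun i =>
        happ X hX _
      choose h hh using h1
      let F : (Fin n → P) →ₗ[A] X := ∑ i, (h i).comp (LinearMap.proj i)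
      have hF : ∀ z, F z = ∑ i, h i (z i) := fun z => by
        simp [F, LinearMap.sum_apply]
      refine hT'.quot (ModuleCat.of A (Fin n → P)) X F ?_ (IsTorsionClass.pow hT' hPT' n)
      intro x
      obtain ⟨z, rfl⟩ := hc x
      refine ⟨fun i => z i • p0, ?_⟩
      rw [hF]
      have h2 : ∀ i, h i (z i • p0) = z i • c (Pi.single i 1) := fun i => by
        rw [map_smul, hh]
      rw [Finset.sum_congr rfl (fun i _ => h2 i)]
      exact linComb_single c z
    · intro hX
      exact hX T hT hP
  · obtain ⟨N, _, _, hfN, hN1, hN2⟩ := exists_dual K hT hcov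
    refine ⟨ModuleCat.of A N, hfN, ?_⟩
    funext Y
    apply propext
    constructor
    · intro hY F' hF' hNF'
      have := hY.1
      have hbot : F' (ModuleCat.of A (⊥ : Submodule A N)) :=
        hF'.sub (ModuleCat.of A N) (ModuleCat.of A (⊥ : Submodule A N))
          (⊥ : Submodule A N).subtype (Submodule.injective_subtype _) hNF'
      have htop : F' (ModuleCat.of A (Y ⧸ (⊤ : Submodule A Y))) := by
        refine hF'.sub (ModuleCat.of A (⊥ : Submodule A N))
          (ModuleCat.of A (Y ⧸ (⊤ : Submodule A Y))) 0 ?_ hbot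
        intro x y _
        exact Subsingleton.elim (α := Y ⧸ (⊤ : Submodule A Y)) _ _
      obtain ⟨L, hL⟩ := exists_minimal_of_wellFoundedLT
        (fun L : Submodule A Y => F' (ModuleCat.of A (Y ⧸ L))) ⟨⊤, htop⟩
      have hperp : perp A T (ModuleCat.of A L) :=
        (isTorsionFreeClass_perp (A := A) (T := T)).sub Y (ModuleCat.of A L) L.subtype
          L.injective_subtype hY
      have hLs : Subsingleton L := by
        apply hN2 L hperp
        intro f
        -- the kernel of `f` is again in the set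
        let L' : Submodule A Y := (LinearMap.ker f).map L.subtype
        have hle : L' ≤ L := Submodule.map_subtype_le L _
        have hmem : ∀ y (hy : y ∈ L), y ∈ L' ↔ f ⟨y, hy⟩ = 0 := by
          intro y hy
          constructor
          · rintro ⟨z, hz, hzy⟩
            have : z = ⟨y, hy⟩ := Subtype.ext hzy
            rw [← this]
            exact hz
          · intro h
            exact ⟨⟨y, hy⟩, h, rfl⟩
        have hses : SES (L'.mkQ.comp L.subtype).range.subtype
            (L'.mapQ L LinearMap.id (by simpa using hle)) := by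
          refine ⟨Submodule.injective_subtype _, ?_, ?_, ?_⟩
          · intro q
            obtain ⟨y, rfl⟩ := L.mkQ_surjective q
            exact ⟨L'.mkQ y, rfl⟩
          · rintro ⟨_, ⟨y, rfl⟩⟩
            exact mkQ_zero y.2
          · intro q hq
            obtain ⟨y, rfl⟩ := L'.mkQ_surjective q
            have : L.mkQ y = 0 := hq
            exact ⟨⟨L'.mkQ y, ⟨y, mem_of_mkQ this⟩, rfl⟩, rfl⟩
        have hrange : F' (ModuleCat.of A (L'.mkQ.comp L.subtype).range) := by
          obtain ⟨g, hg⟩ := factor_surj (L'.mkQ.comp L.subtype).rangeRestrict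
            (L'.mkQ.comp L.subtype).surjective_rangeRestrict f (by
              intro y hy
              have h1 : L'.mkQ (y : Y) = 0 := congrArg Subtype.val hy
              exact (hmem y.1 y.2).mp (mem_of_mkQ h1))
          refine hF'.sub (ModuleCat.of A N) (ModuleCat.of A (L'.mkQ.comp L.subtype).range) g ?_
            hNF'
          intro x y hxy
          obtain ⟨x', rfl⟩ := (L'.mkQ.comp L.subtype).surjective_rangeRestrict x
          obtain ⟨y', rfl⟩ := (L'.mkQ.comp L.subtype).surjective_rangeRestrict y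
          rw [hg, hg, ← sub_eq_zero, ← map_sub] at hxy
          have h1 : ((x' - y' : L) : Y) ∈ L' := (hmem _ (x' - y').2).mpr hxy
          apply Subtype.ext
          change L'.mkQ (x' : Y) = L'.mkQ (y' : Y)
          rw [← sub_eq_zero, ← map_sub]
          exact mkQ_zero h1
        have hquot : F' (ModuleCat.of A (Y ⧸ L')) :=
          hF'.ext (ModuleCat.of A (L'.mkQ.comp L.subtype).range) (ModuleCat.of A (Y ⧸ L'))
            (ModuleCat.of A (Y ⧸ L)) _ _ hses.inj hses.surj hses.exact' hrange hL.prop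
        have h2 : L ≤ L' := hL.le_of_le hquot hle
        ext y
        exact (hmem y.1 y.2).mp (h2 y.2)
      have hLbot : L = ⊥ := (Submodule.subsingleton_iff_eq_bot).mp hLs
      have hY' : F' (ModuleCat.of A (Y ⧸ L)) := hL.prop
      refine hF'.sub (ModuleCat.of A (Y ⧸ L)) Y L.mkQ ?_ hY'
      rw [← LinearMap.ker_eq_bot, Submodule.ker_mkQ, hLbot]
    · intro hY
      exact hY _ isTorsionFreeClass_perp ⟨hfN, fun X hX f => hN1 X hX f⟩

end smalo

end BicG
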