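import Pool.Agent.Helper16.BicG.MinBound
import Pool.Agent.Helper16.Bic.Core

/-!
If all objects of `T` are good then `T` is generated by one module: CORE3 of the blueprint for
MP_8f4dc6_al.
-/

universe u

namespace BicG

open Function Module
open Bic (InT InF SES torIn torIn_le torIn_inT factor_surj factor_inj inF_ker_iff inT_coker_iff
  mkQ_zero mem_of_mkQ eq_bot_of_map Co tor le_tor tor_inT)

variable {A : Type u} [Ring A] [IsNoetherianRing A] [IsArtinianRing A]
variable {M Y X Z W U P S J X'' w : Type u}
variable [AddCommGroup M] [Module A M] [AddCommGroup Y] [Module A Y]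
variable [AddCommGroup X] [Module A X] [AddCommGroup Z] [Module A Z]
variable [AddCommGroup W] [Module A W] [AddCommGroup U] [Module A U]
variable [AddCommGroup P] [Module A P] [AddCommGroup S] [Module A S]
variable [AddCommGroup J] [Module A J] [AddCommGroup X''] [Module A X'']
variable [AddCommGroup w] [Module A w]

instance coreg_module (K : Type u) [Field K] [Algebra K A] : Module K (Co K A) :=
  inferInstanceAs (Module K (A →ₗ[K] K))

instance coreg_tower (K : Type u) [Field K] [Algebra K A] : IsScalarTower K A (Co K A) := by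
  refine ⟨fun k a φ => ?_⟩
  apply LinearMap.ext (R := K)
  intro b
  show (show A →ₗ[K] K from φ) (b * (k • a)) = k • (show A →ₗ[K] K from φ) (b * a)
  rw [mul_smul_comm, map_smul]

omit [IsNoetherianRing A] [IsArtinianRing A] in
theorem coreg_finite (K : Type u) [Field K] [Algebra K A] [Module.Finite K A] :
    Module.Finite K (Co K A) :=
  inferInstanceAs (Module.Finite K (A →ₗ[K] K))

/-- `Hom_A(-, t(Co))` separates the elements of an object of `T`. -/
theorem coreg_sep (K : Type u) [Field K] [Algebra K A] (hW : Ob A Y W) {k : W} (hk : k ≠ 0) :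
    ∃ F : W →ₗ[A] tor A Y (Co K A), F k ≠ 0 := by
  let _ := minbound_kmod K A W
  have := minbound_tower (A := A) K W
  have hsm : ∀ (c : K) (b : A) (z : W), (c • b) • z = c • (b • z) := fun c b z => by
    rw [smul_assoc]
  obtain ⟨θ, hθ⟩ : ∃ θ : Module.Dual K W, θ k ≠ 0 := by
    by_contra hcon
    push Not at hcon
    exact hk ((Module.forall_dual_apply_eq_zero_iff K k).mp hcon)
  let F : W →ₗ[A] Co K A :=
    { toFun := fun z => (show A →ₗ[K] K from
        { toFun := fun b => θ (b • z)
          map_add' := fun b c => by rw [add_smul, map_add]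
          map_smul' := fun k b => by rw [hsm, map_smul]; rfl })
      map_add' := fun z z' => by
        apply LinearMap.ext (R := K)
        intro b
        change θ (b • (z + z')) = θ (b • z) + θ (b • z')
        rw [smul_add, map_add]
      map_smul' := fun a z => by
        apply LinearMap.ext (R := K)
        intro b
        change θ (b • (a • z)) = θ ((b * a) • z)
        rw [mul_smul] }
  have hF : LinearMap.range F ≤ tor A Y (Co K A) := le_tor (hW.inT.range F)
  refine ⟨F.codRestrict _ (fun z => hF ⟨z, rfl⟩), fun h0 => hθ ?_⟩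
  have h1 : F k = 0 := congrArg Subtype.val h0
  have h2 : θ ((1 : A) • k) = 0 :=
    congrArg (fun (c : Co K A) => (show A →ₗ[K] K from c) 1) h1
  rwa [one_smul] at h2

theorem core (K : Type u) [Field K] [Algebra K A] [Module.Finite K A] (h : TPair A M Y)
    (hgood : ∀ (X : Type u) [AddCommGroup X] [Module A X], Ob A Y X → ¬ Bad A M Y X) :
    ∃ (P : Type u) (_ : AddCommGroup P) (_ : Module A P), Ob A Y P ∧
      ∀ (Z : Type u) [AddCommGroup Z] [Module A Z], Ob A Y Z → InFac A P Z := by
  classical
  let G := tor A Y (Co K A)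
  have hKC : Module.Finite K (Co K A) := coreg_finite K
  have hKG : Module.Finite K G :=
    Module.Finite.of_injective (G.subtype.restrictScalars K) G.injective_subtype
  have hAG : Module.Finite A G := Module.Finite.of_restrictScalars_finite K A G
  have hG : Ob A Y G := ⟨hAG, tor_inT⟩
  obtain ⟨C, hC⟩ := minpair_bound K h hG (hgood G hG)
  -- finite-dimensionality
  have hfd : ∀ (W : Type u) [AddCommGroup W] [Module A W], Module.Finite A W →
      Module.Finite K (W →ₗ[A] G) := by
    intro W _ _ hW
    obtain ⟨n, s, hs⟩ := Module.Finite.exists_fin (R := A) (M := W)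
    let ι : (W →ₗ[A] G) →ₗ[K] (Fin n → G) :=
      { toFun := fun v i => v (s i)
        map_add' := fun a b => rfl
        map_smul' := fun k a => rfl }
    have hι : Injective ι := by
      intro a b hab
      exact LinearMap.ext_on_range hs fun i => congrFun hab i
    exact Module.Finite.of_injective ι hι
  -- the set of dimensions
  let D : Set ℕ := {d | ∃ (U : Type u) (_ : AddCommGroup U) (_ : Module A U) (x : U),
    MinPair A M Y U x ∧ finrank K (U →ₗ[A] G) = d}
  have hDne : D.Nonempty := by
    have h0 : Ob A Y (PUnit : Type u) := Ob.of_subsingleton inferInstance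
    obtain ⟨U, _, _, x, f, hm, -, -⟩ := exists_minpair h h0 (hgood _ h0) PUnit.unit
    exact ⟨_, U, inferInstance, inferInstance, x, hm, rfl⟩
  have hDb : BddAbove D := by
    refine ⟨C, ?_⟩
    rintro d ⟨U, _, _, x, hm, rfl⟩
    exact hC U x hm
  obtain ⟨P, _, _, u0, hP, hPd⟩ := Nat.sSup_mem hDne hDb
  have hmax : ∀ (U : Type u) [AddCommGroup U] [Module A U] (x : U), MinPair A M Y U x →
      finrank K (U →ₗ[A] G) ≤ finrank K (P →ₗ[A] G) := by
    intro U _ _ x hm
    rw [hPd]
    exact le_csSup hDb ⟨U, inferInstance, inferInstance, x, hm, rfl⟩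
  -- every element is hit
  have hhit : ∀ (Z : Type u) [AddCommGroup Z] [Module A Z], Ob A Y Z → ∀ z : Z,
      ∃ φ : P →ₗ[A] Z, φ u0 = z := by
    intro Z _ _ hZ z
    have hfP := hP.1.fin
    have hfZ := hZ.fin
    have hPZ : Ob A Y (P × Z) := by
      refine ⟨inferInstance, ?_⟩
      have hs : SES (LinearMap.inl A P Z) (LinearMap.snd A P Z) :=
        ⟨LinearMap.inl_injective, LinearMap.snd_surjective, fun y => rfl, by
          rintro ⟨a, b⟩ hb
          have hb : b = 0 := hb
          exact ⟨a, by rw [hb]; rfl⟩⟩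
      exact hs.inT hP.1.inT hZ.inT
    obtain ⟨W, _, _, w, f, hm, hf, hfw⟩ := exists_minpair h hPZ (hgood _ hPZ) (u0, z)
    let f1 : W →ₗ[A] P := (LinearMap.fst A P Z).comp f
    let f2 : W →ₗ[A] Z := (LinearMap.snd A P Z).comp f
    have hf1w : f1 w = u0 := congrArg Prod.fst hfw
    have hf2w : f2 w = z := congrArg Prod.snd hfw
    have hf1s : Surjective f1 := by
      have hb : Bijective (LinearMap.range f1).subtype :=
        hP.2 _ _ (hm.1.range f1) (TMono.of_inj (Submodule.injective_subtype _))
          ⟨⟨u0, ⟨w, hf1w⟩⟩, rfl⟩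
      intro p
      obtain ⟨⟨_, ⟨y, rfl⟩⟩, rfl⟩ := hb.2 p
      exact ⟨y, rfl⟩
    have hfW : Module.Finite K (W →ₗ[A] G) := hfd W hm.1.fin
    have hfPG : Module.Finite K (P →ₗ[A] G) := hfd P hfP
    let pre : (P →ₗ[A] G) →ₗ[K] (W →ₗ[A] G) :=
      { toFun := fun v => v.comp f1
        map_add' := fun a b => rfl
        map_smul' := fun k a => rfl }
    have hpre : Injective pre := by
      intro a b hab
      ext p
      obtain ⟨y, rfl⟩ := hf1s p
      exact congrArg Subtype.val (LinearMap.congr_fun hab y)
    have hpres : Surjective pre := by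
      have h1 : finrank K (P →ₗ[A] G) = finrank K (W →ₗ[A] G) :=
        le_antisymm (LinearMap.finrank_le_finrank_of_injective hpre) (hmax W w hm)
      exact (LinearMap.injective_iff_surjective_of_finrank_eq_finrank h1).mp hpre
    have hf1i : Injective f1 := by
      rw [injective_iff_map_eq_zero]
      intro k hk
      by_contra hne
      obtain ⟨F, hF⟩ := coreg_sep (Y := Y) K hm.1 hne
      obtain ⟨v, hv⟩ := hpres F
      apply hF
      rw [← hv]
      show v (f1 k) = 0
      rw [hk, map_zero]
    let e := LinearEquiv.ofBijective f1 ⟨hf1i, hf1s⟩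
    refine ⟨f2.comp e.symm.toLinearMap, ?_⟩
    have h1 : e.symm u0 = w := by
      rw [LinearEquiv.symm_apply_eq]
      exact hf1w.symm
    show f2 (e.symm u0) = z
    rw [h1, hf2w]
  refine ⟨P, inferInstance, inferInstance, hP.1, ?_⟩
  intro Z _ _ hZ
  have hfZ := hZ.fin
  obtain ⟨n, s, hs⟩ := Module.Finite.exists_fin (R := A) (M := Z)
  choose φ hφ using fun i => hhit Z hZ (s i)
  let F : (Fin n → P) →ₗ[A] Z := ∑ i, (φ i).comp (LinearMap.proj i)
  refine ⟨n, F, ?_⟩
  rw [← LinearMap.range_eq_top, eq_top_iff, ← hs, Submodule.span_le]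
  rintro _ ⟨i, rfl⟩
  refine ⟨Pi.single i u0, ?_⟩
  simp only [F, LinearMap.sum_apply, LinearMap.comp_apply, LinearMap.proj_apply]
  rw [Finset.sum_eq_single i]
  · simp [hφ]
  · intro j _ hj
    rw [Pi.single_eq_of_ne hj, map_zero]
  · intro hcon
    exact absurd (Finset.mem_univ _) hcon

end BicG
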