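import Mathlib

/-!
A finite algebra over a polynomial ring, base changed to a line and divided by torsion.
-/

universe u

namespace BicG

open Function Module
open scoped TensorProduct Polynomial

/-- A finite module over a domain is, up to a nonzero factor, a direct summand of a free one. -/
theorem curve_free {P S : Type u} [CommRing P] [IsDomain P] [AddCommGroup S] [Module P S]
    [Module.Finite P S] : ∃ (I : Type) (μ : S →ₗ[P] (I →₀ P)) (ι : (I →₀ P) →ₗ[P] S) (g : P),
      g ≠ 0 ∧ ∀ s, ι (μ s) = g • s := by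
  classical
  obtain ⟨n, s, hs⟩ := Module.Finite.exists_fin (R := P) (M := S)
  obtain ⟨I, hli, hI⟩ := exists_maximal_linearIndepOn P s
  let v : I → S := fun i => s i.1
  have hv : LinearIndependent P v := hli
  let N := Submodule.span P (Set.range v)
  have hex : ∀ i, ∃ a : P, a ≠ 0 ∧ a • s i ∈ N := by
    intro i
    by_cases hi : i ∈ I
    · refine ⟨1, one_ne_zero, ?_⟩
      rw [one_smul]
      exact Submodule.subset_span ⟨⟨i, hi⟩, rfl⟩
    · obtain ⟨a, ha, hm⟩ := hI i hi
      refine ⟨a, ha, ?_⟩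
      rwa [Set.image_eq_range] at hm
  choose a ha ham using hex
  have hmem : ∀ x : S, (∏ i, a i) • x ∈ N := by
    intro x
    have hx : x ∈ Submodule.span P (Set.range s) := hs ▸ Submodule.mem_top
    refine Submodule.span_induction (p := fun x _ => (∏ i, a i) • x ∈ N) ?_ ?_ ?_ ?_ hx
    · rintro _ ⟨i, rfl⟩
      rw [Fintype.prod_eq_mul_prod_compl i, mul_comm, mul_smul]
      exact N.smul_mem _ (ham i)
    · rw [smul_zero]
      exact N.zero_mem
    · intro x y _ _ hx hy
      rw [smul_add]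
      exact N.add_mem hx hy
    · intro c x _ hx
      rw [smul_comm]
      exact N.smul_mem c hx
  let m : S →ₗ[P] N := LinearMap.codRestrict N ((∏ i, a i) • LinearMap.id) hmem
  refine ⟨I, hv.repr ∘ₗ m, Finsupp.linearCombination P v, ∏ i, a i,
    Finset.prod_ne_zero_iff.2 fun i _ => ha i, fun x => ?_⟩
  show Finsupp.linearCombination P v (hv.repr (m x)) = _
  rw [hv.linearCombination_repr]
  rfl

theorem curve_base {P R S Ω : Type u} [CommRing P] [CommRing R] [IsDomain R]
    [IsPrincipalIdealRing R] [CommRing S] [CommRing Ω] [IsDomain Ω] [Algebra P S]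
    [Module.Finite P S] (ρ : P →+* R) (ω : P →+* Ω) (f : R →+* Ω) (Q : S →+* Ω)
    (hf : ∀ p, f (ρ p) = ω p) (hQ : ∀ p, Q (algebraMap P S p) = ω p)
    {I : Type} (μ : S →ₗ[P] (I →₀ P)) (ι : (I →₀ P) →ₗ[P] S) (g : P)
    (hg : ∀ s, ι (μ s) = g • s) (hω : ω g ≠ 0) :
    ∃ (B : Type u) (_ : CommRing B) (_ : Algebra R B) (_ : Module.Finite R B)
      (_ : Module.Free R B) (ψ : S →+* B) (Q0 : B →+* Ω),
      (∀ p, ψ (algebraMap P S p) = algebraMap R B (ρ p)) ∧
      (∀ r, Q0 (algebraMap R B r) = f r) ∧ ∀ s, Q0 (ψ s) = Q s := by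
  classical
  let _ : Algebra P R := ρ.toAlgebra
  let _ : Algebra P Ω := ω.toAlgebra
  let f' : R →ₐ[P] Ω := { f with commutes' := hf }
  let Q' : S →ₐ[P] Ω := { Q with commutes' := hQ }
  let Q1 : R ⊗[P] S →ₐ[P] Ω := Algebra.TensorProduct.productMap f' Q'
  -- torsion elements are killed by `Q1`
  have key : ∀ (z : R ⊗[P] S) (h : R), h ≠ 0 → h • z = 0 → Q1 z = 0 := by
    intro z h hh hz
    have h1 : h • (μ.baseChange R z) = 0 := by
      rw [← map_smul, hz, map_zero]
    have h2 : μ.baseChange R z = 0 := (smul_eq_zero.1 h1).resolve_left hh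
    have h3 : (ι.baseChange R) (μ.baseChange R z) = g • z := by
      rw [← LinearMap.comp_apply, ← LinearMap.baseChange_comp]
      have : ι ∘ₗ μ = g • LinearMap.id := LinearMap.ext hg
      rw [this, LinearMap.baseChange_smul, LinearMap.baseChange_id]
      rfl
    rw [h2, map_zero] at h3
    have h4 : Q1 (g • z) = 0 := by rw [← h3, map_zero]
    rw [map_smul, Algebra.smul_def] at h4
    exact (mul_eq_zero.1 h4).resolve_left hω
  let T : Ideal (R ⊗[P] S) :=
    { carrier := {z | ∃ h : R, h ≠ 0 ∧ h • z = 0}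
      add_mem' := by
        rintro x y ⟨h, hh, hx⟩ ⟨h', hh', hy⟩
        refine ⟨h * h', mul_ne_zero hh hh', ?_⟩
        rw [smul_add, mul_comm, mul_smul, hx, smul_zero, mul_comm, mul_smul, hy, smul_zero,
          add_zero]
      zero_mem' := ⟨1, one_ne_zero, smul_zero _⟩
      smul_mem' := by
        rintro c x ⟨h, hh, hx⟩
        refine ⟨h, hh, ?_⟩
        rw [smul_comm, hx, smul_zero] }
  have hfin : Module.Finite R ((R ⊗[P] S) ⧸ T) :=
    Module.Finite.of_surjective (Ideal.Quotient.mkₐ R T).toLinearMap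
      (Ideal.Quotient.mkₐ_surjective R T)
  have htf : Module.IsTorsionFree R ((R ⊗[P] S) ⧸ T) := by
    refine Module.IsTorsionFree.of_smul_eq_zero fun r m hm => ?_
    obtain ⟨z, rfl⟩ := Ideal.Quotient.mk_surjective m
    by_cases hr : r = 0
    · exact Or.inl hr
    · right
      have h1 : (Ideal.Quotient.mk T) (r • z) = 0 := hm
      rw [Ideal.Quotient.eq_zero_iff_mem] at h1 ⊢
      obtain ⟨h, hh, hz⟩ := h1
      exact ⟨h * r, mul_ne_zero hh hr, by rw [mul_smul, hz]⟩
  refine ⟨(R ⊗[P] S) ⧸ T, inferInstance, inferInstance, hfin,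
    Module.free_of_finite_type_torsion_free',
    (Ideal.Quotient.mk T).comp (Algebra.TensorProduct.includeRight : S →ₐ[P] R ⊗[P] S).toRingHom,
    Ideal.Quotient.lift T Q1.toRingHom (fun z hz => ?_), ?_, ?_, ?_⟩
  · obtain ⟨h, hh, hz⟩ := hz
    exact key z h hh hz
  · intro p
    show Ideal.Quotient.mk T ((1 : R) ⊗ₜ[P] algebraMap P S p) =
      Ideal.Quotient.mk T (ρ p ⊗ₜ[P] (1 : S))
    congr 1
    rw [Algebra.algebraMap_eq_smul_one, TensorProduct.tmul_smul, TensorProduct.smul_tmul',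
      Algebra.smul_def, mul_one]
    rfl
  · intro r
    show Q1 (r ⊗ₜ[P] (1 : S)) = f r
    rw [Algebra.TensorProduct.productMap_apply_tmul, map_one, mul_one]
    rfl
  · intro s
    show Q1 ((1 : R) ⊗ₜ[P] s) = Q s
    rw [Algebra.TensorProduct.productMap_apply_tmul, map_one, one_mul]
    rfl

theorem curve {k Ω S : Type u} [Field k] [Field Ω] [Algebra k Ω] [CommRing S] [IsDomain S]
    [Algebra k S] {d : ℕ} (ϕ : MvPolynomial (Fin d) k →ₐ[k] S) (hinj : Injective ϕ)
    (hfin : ϕ.Finite) :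
    ∃ g : MvPolynomial (Fin d) k, g ≠ 0 ∧ ∀ (a b : Fin d → Ω) (Q : S →ₐ[k] Ω),
      (∀ i, Q (ϕ (MvPolynomial.X i)) = b i) → MvPolynomial.aeval b g ≠ 0 →
      ∃ (B : Type u) (_ : CommRing B) (_ : Algebra Ω B) (_ : Algebra (Polynomial Ω) B)
        (_ : IsScalarTower Ω (Polynomial Ω) B) (_ : Module.Finite (Polynomial Ω) B) (_ : Module.Free (Polynomial Ω) B)
        (ψ : S →+* B) (Q0 : B →ₐ[Ω] Ω),
        (∀ c : k, ψ (algebraMap k S c) = algebraMap Ω B (algebraMap k Ω c)) ∧
        Q0 (algebraMap (Polynomial Ω) B Polynomial.X) = 1 ∧ (∀ s, Q0 (ψ s) = Q s) ∧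
        ∀ χ : B →ₐ[Ω] Ω, χ (algebraMap (Polynomial Ω) B Polynomial.X) = 0 →
          ∀ i, χ (ψ (ϕ (MvPolynomial.X i))) = a i := by
  let algPS : Algebra (MvPolynomial (Fin d) k) S := ϕ.toRingHom.toAlgebra
  have finPS : Module.Finite (MvPolynomial (Fin d) k) S := hfin
  obtain ⟨I, μ, ι, g, hg0, hg⟩ := curve_free (P := MvPolynomial (Fin d) k) (S := S)
  refine ⟨g, hg0, fun a b Q hQ hgb => ?_⟩
  let ρ : MvPolynomial (Fin d) k →ₐ[k] (Polynomial Ω) :=
    MvPolynomial.aeval fun i => Polynomial.C (a i) + Polynomial.X * Polynomial.C (b i - a i)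
  let ω : MvPolynomial (Fin d) k →ₐ[k] Ω := MvPolynomial.aeval b
  let f : (Polynomial Ω) →ₐ[Ω] Ω := Polynomial.aeval 1
  have h1 : ((f.restrictScalars k).comp ρ) = ω := by
    refine MvPolynomial.algHom_ext fun i => ?_
    simp [ρ, ω, f]
  have h2 : Q.comp ϕ = ω := by
    refine MvPolynomial.algHom_ext fun i => ?_
    simp only [AlgHom.comp_apply, hQ, ω, MvPolynomial.aeval_X]
  obtain ⟨B, cB, aB, fB, frB, ψ, Q0, e1, e2, e3⟩ := curve_base (R := (Polynomial Ω)) (S := S) (Ω := Ω)
    ρ.toRingHom ω.toRingHom f.toRingHom Q.toRingHom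
    (fun p => AlgHom.congr_fun h1 p) (fun p => AlgHom.congr_fun h2 p) μ ι g hg hgb
  let _ : CommRing B := cB
  let _ : Algebra (Polynomial Ω) B := aB
  let aΩ : Algebra Ω B := ((algebraMap (Polynomial Ω) B).comp Polynomial.C).toAlgebra
  have tower : IsScalarTower Ω (Polynomial Ω) B := IsScalarTower.of_algebraMap_eq fun _ => rfl
  refine ⟨B, cB, aΩ, aB, tower, fB, frB, ψ,
    { Q0 with commutes' := fun c => ?_ }, ?_, ?_, ?_, ?_⟩
  · show Q0 (algebraMap (Polynomial Ω) B (Polynomial.C c)) = c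
    rw [e2]
    show f (Polynomial.C c) = c
    simp [f]
  · intro c
    have e4 : algebraMap k S c = ϕ (MvPolynomial.C c) := by
      rw [← MvPolynomial.algebraMap_eq, AlgHom.commutes]
    rw [e4]
    have e5 := e1 (MvPolynomial.C c)
    have e6 : ρ.toRingHom (MvPolynomial.C c) = Polynomial.C (algebraMap k Ω c) := by
      show ρ (MvPolynomial.C c) = _
      rw [← MvPolynomial.algebraMap_eq, AlgHom.commutes]
      rfl
    rw [e6] at e5
    exact e5
  · show Q0 (algebraMap (Polynomial Ω) B Polynomial.X) = 1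
    rw [e2]
    show f Polynomial.X = 1
    simp [f]
  · intro s
    exact e3 s
  · intro χ hχ i
    have e5 := e1 (MvPolynomial.X i)
    have e6 : ρ.toRingHom (MvPolynomial.X i) =
        Polynomial.C (a i) + Polynomial.X * Polynomial.C (b i - a i) := by
      show ρ (MvPolynomial.X i) = _
      simp [ρ]
    rw [e6, map_add, map_mul] at e5
    have e7 : ψ (ϕ (MvPolynomial.X i)) = _ := e5
    rw [e7, map_add, map_mul, hχ, zero_mul, add_zero]
    exact χ.commutes (a i)

end BicG
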