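import Pool.Agent.Helper16.Bic.Chain

/-!
Definitions for the proof that bicompact torsion classes are functorially finite (all fields).
-/

universe u

namespace BicG

open Function Module
open Bic (InT InF SES torIn)

section defs

variable (A : Type u) [Ring A]

/-- Finitely generated modules `M`, `Y` with `Hom(M,Y)=0` and no nonzero finitely generated
module `N` with `Hom(M,N)=0=Hom(N,Y)`. -/
structure TPair (M Y : Type u) [AddCommGroup M] [Module A M]
    [AddCommGroup Y] [Module A Y] : Prop where
  finM : Module.Finite A M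
  finY : Module.Finite A Y
  hMY : InT A Y M
  disj : ∀ (N : Type u) [AddCommGroup N] [Module A N], Module.Finite A N → InT A Y N →
    InF A M N → Subsingleton N

/-- finitely generated modules without maps to `Y` -/
structure Ob (Y X : Type u) [AddCommGroup Y] [Module A Y] [AddCommGroup X] [Module A X] :
    Prop where
  fin : Module.Finite A X
  inT : InT A Y X

/-- a map whose kernel receives no nonzero map from `M` -/
def TMono (M : Type u) [AddCommGroup M] [Module A M] {U X : Type u} [AddCommGroup U] [Module A U]
    [AddCommGroup X] [Module A X] (f : U →ₗ[A] X) : Prop :=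
  ∀ φ : M →ₗ[A] U, (∀ m, f (φ m) = 0) → φ = 0

/-- a surjective map whose kernel has no nonzero map to `Y` -/
structure SEpi (Y : Type u) [AddCommGroup Y] [Module A Y] {U X : Type u} [AddCommGroup U]
    [Module A U] [AddCommGroup X] [Module A X] (g : U →ₗ[A] X) : Prop where
  surj : Surjective g
  ker : InT A Y (LinearMap.ker g)

/-- `Long n X`: there is a chain of `n` maps in `TMono` that are not bijective, ending in `X`. -/
def Long (M Y : Type u) [AddCommGroup M] [Module A M] [AddCommGroup Y] [Module A Y] :
    ℕ → (X : Type u) → [AddCommGroup X] → [Module A X] → Prop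
  | 0, _, _, _ => True
  | n + 1, X, _, _ => ∃ (U : Type u) (_ : AddCommGroup U) (_ : Module A U) (f : U →ₗ[A] X),
      Ob A Y U ∧ TMono A M f ∧ ¬ Bijective f ∧ Long M Y n U

/-- unbounded chains -/
def Bad (M Y X : Type u) [AddCommGroup M] [Module A M] [AddCommGroup Y] [Module A Y]
    [AddCommGroup X] [Module A X] : Prop := ∀ n, Long A M Y n X

/-- `w` is a strict quotient of an object with a `TMono` map to `X`. -/
def Le (M Y w X : Type u) [AddCommGroup M] [Module A M] [AddCommGroup Y] [Module A Y]
    [AddCommGroup w] [Module A w] [AddCommGroup X] [Module A X] : Prop :=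
  ∃ (U : Type u) (_ : AddCommGroup U) (_ : Module A U) (f : U →ₗ[A] X) (g : U →ₗ[A] w),
    Ob A Y U ∧ TMono A M f ∧ SEpi A Y g

/-- `T`-simple modules. -/
structure TSimple (Y X : Type u) [AddCommGroup Y] [Module A Y]
    [AddCommGroup X] [Module A X] : Prop where
  ob : Ob A Y X
  nt : Nontrivial X
  sub : ∀ L : Submodule A X, InT A Y L → L = ⊥ ∨ L = ⊤

/-- `T`-tops. -/
structure TTop (M Y S : Type u) [AddCommGroup M] [Module A M]
    [AddCommGroup Y] [Module A Y] [AddCommGroup S] [Module A S] : Prop where
  simple : TSimple A Y S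
  top : ∀ (Z : Type u) [AddCommGroup Z] [Module A Z], Ob A Y Z →
    ∀ g : Z →ₗ[A] S, Surjective g → TMono A M g → Injective g

/-- `F`-simple modules. -/
structure FSimple (M X : Type u) [AddCommGroup M] [Module A M]
    [AddCommGroup X] [Module A X] : Prop where
  fin : Module.Finite A X
  inF : InF A M X
  nt : Nontrivial X
  quot : ∀ L : Submodule A X, InF A M (X ⧸ L) → L = ⊥ ∨ L = ⊤

/-- `F`-tops. -/
structure FTop (M Y S : Type u) [AddCommGroup M] [Module A M]
    [AddCommGroup Y] [Module A Y] [AddCommGroup S] [Module A S] : Prop where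
  simple : FSimple A M S
  top : ∀ (W : Type u) [AddCommGroup W] [Module A W], Module.Finite A W → InF A M W →
    ∀ i : S →ₗ[A] W, Injective i → InT A Y (W ⧸ LinearMap.range i) → Surjective i

/-- `Filt n Z`: iterating `n` times `Z ↦` torsion part of the kernel of a map to some `C i`
leads to zero. -/
def Filt (Y : Type u) [AddCommGroup Y] [Module A Y] {ι : Type u} (C : ι → Type u)
    [∀ i, AddCommGroup (C i)] [∀ i, Module A (C i)] :
    ℕ → (Z : Type u) → [AddCommGroup Z] → [Module A Z] → Prop
  | 0, Z, _, _ => Subsingleton Z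
  | n + 1, Z, _, _ => ∃ (i : ι) (φ : Z →ₗ[A] C i), Filt Y C n (torIn A Y (LinearMap.ker φ))

/-- `P` generates `Z`. -/
def InFac (P Z : Type u) [AddCommGroup P] [Module A P] [AddCommGroup Z] [Module A Z] : Prop :=
  ∃ (n : ℕ) (f : (Fin n → P) →ₗ[A] Z), Surjective f

end defs

end BicG
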