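import Mathlib

/-!
A lattice in a localisation of a finite free `K[X]`-algebra, defined by bounds on degrees.
-/

universe u

namespace BicG

open Function Module
open scoped Polynomial

section deg

variable {K B L : Type u} [Field K] [CommRing B] [CommRing L] [Algebra K B]
    [Algebra B L] [Algebra K L] [IsScalarTower K B L] [Algebra K[X] B] [IsScalarTower K K[X] B]

/-- `x ^ k * r` lies in `B` and has coordinates of degree at most `D + k`, for some `k`. -/
def DegBd {ι : Type u} (β : Basis ι K[X] B) (D : ℕ) (r : L) : Prop :=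
  ∃ (k : ℕ) (b : B), algebraMap B L (algebraMap K[X] B Polynomial.X) ^ k * r = algebraMap B L b ∧
    ∀ l, (β.repr b l).natDegree ≤ D + k

variable {ι : Type u} {β : Basis ι K[X] B} {D : ℕ}

omit [Algebra K B] [IsScalarTower K K[X] B] in
theorem deg_repr_x (b : B) (m : ℕ) (l : ι) :
    β.repr ((algebraMap K[X] B Polynomial.X) ^ m * b) l = Polynomial.X ^ m * β.repr b l := by
  rw [← map_pow, ← Algebra.smul_def, map_smul, Finsupp.smul_apply, smul_eq_mul]

omit [Algebra K B] [Algebra K L] [IsScalarTower K B L] [IsScalarTower K K[X] B] in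
theorem degBd_shift {r : L} {k : ℕ} {b : B}
    (h1 : algebraMap B L (algebraMap K[X] B Polynomial.X) ^ k * r = algebraMap B L b)
    (h2 : ∀ l, (β.repr b l).natDegree ≤ D + k) (m : ℕ) :
    algebraMap B L (algebraMap K[X] B Polynomial.X) ^ (m + k) * r =
      algebraMap B L ((algebraMap K[X] B Polynomial.X) ^ m * b) ∧
    ∀ l, (β.repr ((algebraMap K[X] B Polynomial.X) ^ m * b) l).natDegree ≤ D + (m + k) := by
  constructor
  · rw [pow_add, mul_assoc, h1, map_mul, map_pow]
  · intro l
    rw [deg_repr_x]
    refine Polynomial.natDegree_mul_le.trans ?_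
    have h3 := h2 l
    have h4 : (Polynomial.X ^ m : K[X]).natDegree ≤ m := Polynomial.natDegree_X_pow_le m
    omega

omit [Algebra K B] [Algebra K L] [IsScalarTower K B L] [IsScalarTower K K[X] B] in
/-- common exponent -/
theorem degBd_common {n : ℕ} {r : Fin n → L} (h : ∀ i, DegBd β D (r i)) :
    ∃ (k : ℕ) (b : Fin n → B), ∀ i,
      algebraMap B L (algebraMap K[X] B Polynomial.X) ^ k * r i = algebraMap B L (b i) ∧
      ∀ l, (β.repr (b i) l).natDegree ≤ D + k := by
  choose k b h1 h2 using h
  refine ⟨∑ i, k i, fun i => (algebraMap K[X] B Polynomial.X) ^ (∑ j, k j - k i) * b i,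
    fun i => ?_⟩
  have hle : k i ≤ ∑ j, k j := Finset.single_le_sum (fun _ _ => Nat.zero_le _) (Finset.mem_univ i)
  have h := degBd_shift (β := β) (h1 i) (h2 i) (∑ j, k j - k i)
  rw [Nat.sub_add_cancel hle] at h
  exact h

/-- the submodule -/
def degSub (β : Basis ι K[X] B) (D : ℕ) : Submodule K L where
  carrier := {r | DegBd β D r}
  add_mem' {r s} hr hs := by
    obtain ⟨k, b, h⟩ := degBd_common (n := 2) (r := ![r, s]) (β := β) (D := D)
      (Fin.forall_fin_two.2 ⟨hr, hs⟩)
    refine ⟨k, b 0 + b 1, ?_, fun l => ?_⟩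
    · rw [mul_add, map_add, ← (h 0).1, ← (h 1).1]
      rfl
    · rw [map_add, Finsupp.add_apply]
      exact (Polynomial.natDegree_add_le _ _).trans (max_le ((h 0).2 l) ((h 1).2 l))
  zero_mem' := ⟨0, 0, by simp, fun l => by simp⟩
  smul_mem' c r hr := by
    obtain ⟨k, b, h1, h2⟩ := hr
    refine ⟨k, c • b, ?_, fun l => ?_⟩
    · rw [mul_smul_comm, h1]
      exact (map_smul (IsScalarTower.toAlgHom K B L) c b).symm
    · have : c • b = (Polynomial.C c : K[X]) • b := by
        rw [← algebraMap_smul K[X] c b]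
        rfl
      rw [this, map_smul, Finsupp.smul_apply, smul_eq_mul]
      exact (Polynomial.natDegree_C_mul_le _ _).trans (h2 l)

end deg

theorem exists_R0 {K B L : Type u} [Field K] [CommRing B] [CommRing L] [Algebra K B]
    [Algebra B L] [Algebra K L] [IsScalarTower K B L] [Algebra K[X] B] [IsScalarTower K K[X] B]
    [Module.Finite K[X] B] [Module.Free K[X] B]
    [IsLocalization.Away (algebraMap K[X] B Polynomial.X) L] (t : L)
    (ht : algebraMap B L (algebraMap K[X] B Polynomial.X) * t = 1) :
    ∃ R0 : Submodule K L, 1 ∈ R0 ∧ (∀ r ∈ R0, t * r ∈ R0) ∧ (∀ r : L, ∃ k : ℕ, t ^ k * r ∈ R0) ∧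
      (∀ c : B, ∃ c0 c1 : B, algebraMap B L c0 ∈ R0 ∧
        c = c0 + algebraMap K[X] B Polynomial.X * c1) ∧
      (∀ (n : ℕ) (s : Fin n → B), ∃ a : ℕ, ∀ r : Fin n → L, (∀ i, r i ∈ R0) →
        (∃ b : B, ∑ i, algebraMap B L (s i) * r i =
          algebraMap B L ((algebraMap K[X] B Polynomial.X) ^ a * b)) →
        ∑ i, algebraMap B L (s i) * r i = 0) := by
  classical
  set x : B := algebraMap K[X] B Polynomial.X with hx
  set ξ : L := algebraMap B L x with hξ
  let β := Module.Free.chooseBasis K[X] B
  have : Fintype (Module.Free.ChooseBasisIndex K[X] B) := inferInstance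
  let D0 : ℕ := ∑ l, (β.repr 1 l).natDegree
  have hpow : ∀ k, ξ ^ k * t ^ k = 1 := fun k => by rw [← mul_pow, ht, one_pow]
  refine ⟨degSub β D0, ?_, ?_, ?_, ?_, ?_⟩
  · refine ⟨0, 1, by simp, fun l => ?_⟩
    exact Finset.single_le_sum (f := fun l => (β.repr 1 l).natDegree) (fun _ _ => Nat.zero_le _)
      (Finset.mem_univ l)
  · rintro r ⟨k, b, h1, h2⟩
    refine ⟨k + 1, b, ?_, fun l => (h2 l).trans (by omega)⟩
    rw [← h1, pow_succ]
    calc ξ ^ k * ξ * (t * r) = ξ ^ k * r * (ξ * t) := by ring
      _ = _ := by rw [ht, mul_one]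
  · intro r
    obtain ⟨⟨b, ⟨_, m, rfl⟩⟩, hb⟩ := IsLocalization.surj (Submonoid.powers x) r
    simp only at hb
    refine ⟨∑ l, (β.repr b l).natDegree, m + ∑ l, (β.repr b l).natDegree, b, ?_, fun l => ?_⟩
    · rw [← hb, map_pow]
      calc ξ ^ (m + ∑ l, (β.repr b l).natDegree) * (t ^ (∑ l, (β.repr b l).natDegree) * r)
          = (ξ ^ (∑ l, (β.repr b l).natDegree) * t ^ (∑ l, (β.repr b l).natDegree)) *
            (r * ξ ^ m) := by ring
        _ = _ := by rw [hpow, one_mul]
    · have := Finset.single_le_sum (f := fun l => (β.repr b l).natDegree)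
        (fun _ _ => Nat.zero_le _) (Finset.mem_univ l)
      have h' : (β.repr b l).natDegree ≤ ∑ l, (β.repr b l).natDegree := this
      omega
  · intro c
    refine ⟨∑ l, (Polynomial.C ((β.repr c l).coeff 0)) • β l,
      ∑ l, (β.repr c l).divX • β l, ?_, ?_⟩
    · refine ⟨0, _, by rw [pow_zero, one_mul], fun l => ?_⟩
      rw [Basis.repr_sum_self]
      rw [Polynomial.natDegree_C]
      omega
    · rw [Finset.mul_sum, ← Finset.sum_add_distrib]
      conv_lhs => rw [← β.sum_repr c]
      refine Finset.sum_congr rfl fun l _ => ?_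
      conv_lhs => rw [← Polynomial.divX_mul_X_add (β.repr c l)]
      rw [add_smul, add_comm, Algebra.smul_def ((β.repr c l).divX * Polynomial.X), map_mul,
        Algebra.smul_def (β.repr c l).divX, ← hx]
      ring
  · intro n s
    let D1 : ℕ := ∑ i, ∑ l, ∑ l', (β.repr (s i * β l) l').natDegree
    refine ⟨D0 + D1 + 1, fun r hr hb => ?_⟩
    obtain ⟨k, b, hkb⟩ := degBd_common (β := β) (D := D0) (r := r) hr
    obtain ⟨b', hb'⟩ := hb
    set z : L := ∑ i, algebraMap B L (s i) * r i with hz
    -- `x ^ k z` comes from `c`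
    let c : B := ∑ i, s i * b i
    have hc : ξ ^ k * z = algebraMap B L c := by
      rw [hz, Finset.mul_sum, map_sum]
      refine Finset.sum_congr rfl fun i _ => ?_
      rw [map_mul, ← (hkb i).1]
      ring
    have hdeg : ∀ l', (β.repr c l').natDegree ≤ D0 + k + D1 := by
      intro l'
      have h1 : c = ∑ i, ∑ l, (β.repr (b i) l) • (s i * β l) := by
        show ∑ i, s i * b i = _
        refine Finset.sum_congr rfl fun i _ => ?_
        conv_lhs => rw [← β.sum_repr (b i)]
        rw [Finset.mul_sum]
        refine Finset.sum_congr rfl fun l _ => ?_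
        rw [mul_smul_comm]
      rw [h1, map_sum, Finsupp.finsetSum_apply]
      refine Polynomial.natDegree_sum_le_of_forall_le _ _ fun i _ => ?_
      rw [map_sum, Finsupp.finsetSum_apply]
      refine Polynomial.natDegree_sum_le_of_forall_le _ _ fun l _ => ?_
      rw [map_smul, Finsupp.smul_apply, smul_eq_mul]
      refine Polynomial.natDegree_mul_le.trans ?_
      have e1 := (hkb i).2 l
      have e2 : (β.repr (s i * β l) l').natDegree ≤ D1 := by
        calc (β.repr (s i * β l) l').natDegree
            ≤ ∑ l', (β.repr (s i * β l) l').natDegree :=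
              Finset.single_le_sum (f := fun l' => (β.repr (s i * β l) l').natDegree)
                (fun _ _ => Nat.zero_le _) (Finset.mem_univ l')
          _ ≤ ∑ l, ∑ l', (β.repr (s i * β l) l').natDegree :=
              Finset.single_le_sum
                (f := fun l => ∑ l', (β.repr (s i * β l) l').natDegree)
                (fun _ _ => Nat.zero_le _) (Finset.mem_univ l)
          _ ≤ D1 := Finset.single_le_sum
                (f := fun i => ∑ l, ∑ l', (β.repr (s i * β l) l').natDegree)
                (fun _ _ => Nat.zero_le _) (Finset.mem_univ i)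
      omega
    have hc2 : algebraMap B L c = algebraMap B L (x ^ (k + (D0 + D1 + 1)) * b') := by
      rw [← hc, hb', map_mul, map_mul, map_pow, map_pow, pow_add]
      ring
    obtain ⟨⟨_, m, rfl⟩, hm⟩ := (IsLocalization.eq_iff_exists (Submonoid.powers x) L).1 hc2
    simp only at hm
    have hzero : c = 0 := by
      apply β.repr.injective
      rw [map_zero]
      ext1 l
      have h1 := congrArg (fun y => β.repr y l) hm
      simp only [hx, deg_repr_x] at h1
      have h2 : β.repr c l = Polynomial.X ^ (k + (D0 + D1 + 1)) * β.repr b' l :=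
        mul_left_cancel₀ (pow_ne_zero m Polynomial.X_ne_zero) h1
      by_contra hne
      have hb0 : β.repr b' l ≠ 0 := by
        intro h0
        rw [h0, mul_zero] at h2
        exact hne (by rw [h2]; rfl)
      have h3 := hdeg l
      rw [h2, Polynomial.natDegree_mul (pow_ne_zero _ Polynomial.X_ne_zero) hb0,
        Polynomial.natDegree_X_pow] at h3
      omega
    calc z = (ξ ^ k * t ^ k) * z := by rw [hpow, one_mul]
      _ = t ^ k * (ξ ^ k * z) := by ring
      _ = 0 := by rw [hc, hzero, map_zero, mul_zero]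

end BicG
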