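import Pool.Agent.Helper16.BicG.RMHom

/-!
Every quotient of the extended module `M` is defined by a point.
-/

universe u

namespace BicG

open Function Module
open scoped TensorProduct

section existspt

variable {K Ω A : Type u} [Field K] [Field Ω] [Algebra K Ω] [Ring A] [Algebra K A]

theorem exists_pt {n : ℕ} (ρM : A →ₐ[K] Matrix (Fin n) (Fin n) K) (w : Type u)
    [AddCommGroup w] [Module (Ω ⊗[K] A) w] (g : RM (rext ρM Ω) →ₗ[Ω ⊗[K] A] w)
    (hg : Surjective g) : ∃ c : Matrix (Fin n) (Fin n) Ω, IsPt ρM c ∧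
      Nonempty (w ≃ₗ[Ω ⊗[K] A] Xc ρM c) := by
  let N : Submodule Ω (Fin n → Ω) :=
    ((LinearMap.ker g).restrictScalars Ω).comap (RM.vec (ρ := rext ρM Ω)).symm.toLinearMap
  have hN : ∀ v : RM (rext ρM Ω), RM.vec v ∈ N ↔ g v = 0 := by
    intro v
    show g ((RM.vec (ρ := rext ρM Ω)).symm (RM.vec v)) = 0 ↔ g v = 0
    rw [LinearEquiv.symm_apply_apply]
  obtain ⟨q, hq⟩ := Submodule.exists_isCompl N
  let P : (Fin n → Ω) →ₗ[Ω] (Fin n → Ω) := q.projection N hq.symm
  have hP : ∀ u, P u = 0 ↔ u ∈ N := fun u => Submodule.projection_apply_eq_zero_iff hq.symm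
  have hPP : ∀ u, P (P u) = P u := fun u =>
    Submodule.projection_apply_of_mem_left hq.symm (Submodule.projection_apply_mem hq.symm u)
  have hc : ∀ u, (LinearMap.toMatrix' P).mulVec u = P u := by
    intro u
    rw [← Matrix.toLin'_apply, Matrix.toLin'_toMatrix']
  have hpt : IsPt ρM (LinearMap.toMatrix' P) := by
    constructor
    · apply Matrix.toLin'.injective
      apply LinearMap.ext
      intro u
      rw [Matrix.toLin'_apply, Matrix.toLin'_apply, ← Matrix.mulVec_mulVec, hc, hc, hPP]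
    · intro a
      apply Matrix.toLin'.injective
      apply LinearMap.ext
      intro u
      rw [Matrix.toLin'_apply, ← Matrix.mulVec_mulVec, ← Matrix.mulVec_mulVec, hc,
        Matrix.sub_mulVec, Matrix.one_mulVec, hc, map_zero, LinearMap.zero_apply, hP]
      have h1 : u - P u ∈ N := by
        rw [← hP, map_sub, hPP, sub_self]
      have h2 := RM.tmul_smul (ρ := rext ρM Ω) (1 : Ω) a
        ((RM.vec (ρ := rext ρM Ω)).symm (u - P u))
      rw [one_smul, LinearEquiv.apply_symm_apply] at h2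
      rw [← h2, hN, map_smul]
      have h3 : g ((RM.vec (ρ := rext ρM Ω)).symm (u - P u)) = 0 := h1
      rw [h3, smul_zero]
  refine ⟨LinearMap.toMatrix' P, hpt, ?_⟩
  have hker : Nc ρM (LinearMap.toMatrix' P) = LinearMap.ker g := by
    ext v
    rw [mem_Nc ρM _ hpt v, hc, hP, hN]
    rfl
  exact ⟨((Submodule.quotEquivOfEq _ _ hker).trans (g.quotKerEquivOfSurjective hg)).symm⟩

end existspt

end BicG
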