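import Pool.Agent.Helper16.BicG.Long

/-!
Module FSTEP: lengths drop by at most one along an extension by an `F`-top.
-/

universe u

namespace BicG

open Function Module
open Bic (InT InF SES torIn torIn_le torIn_inT factor_surj factor_inj mkQ_zero mem_of_mkQ)

variable {A : Type u} [Ring A] [IsNoetherianRing A] [IsArtinianRing A]
variable {M Y W P S V : Type u}
variable [AddCommGroup M] [Module A M] [AddCommGroup Y] [Module A Y]
variable [AddCommGroup W] [Module A W] [AddCommGroup P] [Module A P]
variable [AddCommGroup S] [Module A S] [AddCommGroup V] [Module A V]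

omit [IsNoetherianRing A] [IsArtinianRing A] in
private theorem fstep_pull {i : S →ₗ[A] P} {p : P →ₗ[A] W} (hs : SES i p) (f : V →ₗ[A] W) :
    ∃ (G : Type u) (_ : AddCommGroup G) (_ : Module A G) (a : G →ₗ[A] P) (b : G →ₗ[A] V)
      (i' : S →ₗ[A] G), SES i' b ∧ (∀ g, p (a g) = f (b g)) ∧
      (∀ g, a g = 0 → b g = 0 → g = 0) ∧ (∀ x v, p x = f v → ∃ g, a g = x ∧ b g = v) := by
  let G := LinearMap.ker ((p.comp (LinearMap.fst A P V)) - (f.comp (LinearMap.snd A P V)))
  have hG : ∀ x : P × V, x ∈ G ↔ p x.1 = f x.2 := by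
    intro x
    simp [G, LinearMap.mem_ker, sub_eq_zero]
  let a : G →ₗ[A] P := (LinearMap.fst A P V).comp G.subtype
  let b : G →ₗ[A] V := (LinearMap.snd A P V).comp G.subtype
  let i' : S →ₗ[A] G := ((LinearMap.inl A P V).comp i).codRestrict G (fun s => by
    rw [hG]
    simp [hs.comp])
  refine ⟨G, inferInstance, inferInstance, a, b, i', ⟨?_, ?_, ?_, ?_⟩, ?_, ?_, ?_⟩
  · intro x y hxy
    exact hs.inj (congrArg (fun t : G => t.1.1) hxy)
  · intro v
    obtain ⟨x, hx⟩ := hs.surj (f v)
    exact ⟨⟨(x, v), by rw [hG]; exact hx⟩, rfl⟩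
  · intro s; rfl
  · rintro ⟨⟨x, v⟩, hx⟩ hv
    have hv : v = 0 := hv
    subst hv
    rw [hG] at hx
    obtain ⟨s, rfl⟩ := hs.exact x (by simpa using hx)
    exact ⟨s, rfl⟩
  · intro g
    exact (hG g.1).mp g.2
  · rintro ⟨⟨x, v⟩, hx⟩ hx0 hv0
    have hx0 : x = 0 := hx0
    have hv0 : v = 0 := hv0
    subst hx0 hv0
    rfl
  · intro x v hxv
    exact ⟨⟨(x, v), by rw [hG]; exact hxv⟩, rfl, rfl⟩

private theorem fstep_aux (h : TPair A M Y) (hS : FTop A M Y S) (n : ℕ) :
    ∀ (P W : Type u) [AddCommGroup P] [Module A P] [AddCommGroup W] [Module A W]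
      (i : S →ₗ[A] P) (p : P →ₗ[A] W), SES i p → Ob A Y P → Ob A Y W →
      Long A M Y (n + 1) W → Long A M Y n P := by
  induction n with
  | zero => intros; trivial
  | succ n ih =>
    intro P W _ _ _ _ i p hs hP hW hn
    obtain ⟨V, _, _, f, hV, hf, hb, hL⟩ := hn
    obtain ⟨G, _, _, a, b, i', hs', hab, hinj, hex⟩ := fstep_pull hs f
    have hGfin : Module.Finite A G := ses_finite hs' hS.simple.fin hV.fin
    set T : Submodule A G := torIn A Y (⊤ : Submodule A G) with hT
    have hTin : InT A Y T := torIn_inT ⊤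
    have hGF : InF A M (G ⧸ T) := h.inF_quot_torIn_top
    by_cases hc : (T.mkQ.comp i') = 0
    · -- `G` is in `T`
      have h1 : InT A Y (G ⧸ T) := by
        obtain ⟨g, hg⟩ := factor_surj b hs'.surj T.mkQ (fun e he => by
          obtain ⟨s, rfl⟩ := hs'.exact e he
          exact LinearMap.congr_fun hc s)
        refine hV.inT.of_surj g ?_
        intro x
        obtain ⟨e, rfl⟩ := T.mkQ_surjective x
        exact ⟨b e, hg e⟩
      have h2 : Subsingleton (G ⧸ T) := h.subsingleton ⟨inferInstance, h1⟩ hGF
      have h3 : T = ⊤ := subsing_of_mkQ h2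
      have hG : Ob A Y G := ⟨hGfin, by
        rw [h3] at hTin
        exact hTin.congr Submodule.topEquiv⟩
      refine ⟨G, inferInstance, inferInstance, a, hG, ?_, ?_, ih G V i' b hs' hG hV hL⟩
      · intro φ hφ
        have h4 : b.comp φ = 0 := hf _ (fun m => by
          rw [LinearMap.comp_apply, ← hab, hφ m, map_zero])
        ext m
        exact hinj _ (hφ m) (LinearMap.congr_fun h4 m)
      · intro hbij
        apply hb
        constructor
        · rw [injective_iff_map_eq_zero]
          intro v hv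
          obtain ⟨g, hg1, hg2⟩ := hex 0 v (by rw [map_zero, hv])
          have : g = 0 := hbij.1 (by rw [hg1, map_zero])
          rw [← hg2, this, map_zero]
        · intro x
          obtain ⟨y, rfl⟩ := hs.surj x
          obtain ⟨g, rfl⟩ := hbij.2 y
          exact ⟨b g, (hab g).symm⟩
    · have hcinj : Injective (T.mkQ.comp i') := hS.simple.inj hGF _ hc
      have hcok : InT A Y ((G ⧸ T) ⧸ LinearMap.range (T.mkQ.comp i')) := by
        obtain ⟨g, hg⟩ := factor_surj b hs'.surj
          ((LinearMap.range (T.mkQ.comp i')).mkQ.comp T.mkQ) (fun e he => by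
          obtain ⟨s, rfl⟩ := hs'.exact e he
          exact mkQ_zero ⟨s, rfl⟩)
        refine hV.inT.of_surj g ?_
        intro x
        obtain ⟨y, rfl⟩ := Submodule.mkQ_surjective _ x
        obtain ⟨e, rfl⟩ := T.mkQ_surjective y
        exact ⟨b e, hg e⟩
      have hcsurj : Surjective (T.mkQ.comp i') :=
        hS.top (G ⧸ T) inferInstance hGF _ hcinj hcok
      have hbij : Bijective (b.comp T.subtype) := by
        constructor
        · rw [injective_iff_map_eq_zero]
          rintro ⟨t, ht⟩ hbt
          obtain ⟨s, hs1⟩ := hs'.exact t hbt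
          have h5 : (T.mkQ.comp i') s = 0 := by
            rw [LinearMap.comp_apply, hs1]
            exact mkQ_zero ht
          have h6 : s = 0 := hcinj (by rw [h5, map_zero])
          apply Subtype.ext
          show t = 0
          rw [← hs1, h6, map_zero]
        · intro v
          obtain ⟨g, rfl⟩ := hs'.surj v
          obtain ⟨s, hs1⟩ := hcsurj (T.mkQ g)
          have h5 : T.mkQ (g - i' s) = 0 := by
            rw [map_sub, ← hs1, LinearMap.comp_apply, sub_self]
          refine ⟨⟨g - i' s, mem_of_mkQ h5⟩, ?_⟩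
          show b (g - i' s) = b g
          rw [map_sub, hs'.comp, sub_zero]
      let e := LinearEquiv.ofBijective (b.comp T.subtype) hbij
      let g1 : V →ₗ[A] P := (a.comp T.subtype).comp e.symm.toLinearMap
      have hg1 : ∀ v, (p.comp g1) v = f v := by
        intro v
        show p (a ((e.symm v : T) : G)) = f v
        rw [hab]
        have h7 : b ((e.symm v : T) : G) = v := e.apply_symm_apply v
        rw [h7]
      have hg1t : TMono A M g1 := by
        apply TMono.of_comp (g := p)
        exact hf.congr_fun (fun v => (hg1 v).symm)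
      exact long_mono h (n + 1) hV hP g1 hg1t hL

theorem long_fstep (h : TPair A M Y) (n : ℕ) {i : S →ₗ[A] P} {p : P →ₗ[A] W} (hs : SES i p)
    (hS : FTop A M Y S) (hP : Ob A Y P) (hW : Ob A Y W) (hn : Long A M Y (n + 1) W) :
    Long A M Y n P :=
  fstep_aux h hS n P W i p hs hP hW hn

end BicG
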