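import Pool.Agent.Helper16.BicG.Long

/-!
Existence of `T`-tops and `F`-tops (module TOP).
-/

universe u

namespace BicG

open Function Module
open Bic (InT InF SES torIn torIn_le torIn_inT factor_surj factor_inj mkQ_zero mem_of_mkQ
  inF_ker_iff inT_coker_iff mkQ_range eq_bot_of_map subsing_quot exists_max_card)

section part1

variable {A : Type u} [Ring A] [IsNoetherianRing A] [IsArtinianRing A]
variable {M Y X Z W U P S J X'' w : Type u}
variable [AddCommGroup M] [Module A M] [AddCommGroup Y] [Module A Y]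
variable [AddCommGroup X] [Module A X] [AddCommGroup Z] [Module A Z]
variable [AddCommGroup W] [Module A W] [AddCommGroup U] [Module A U]
variable [AddCommGroup P] [Module A P] [AddCommGroup S] [Module A S]
variable [AddCommGroup J] [Module A J] [AddCommGroup X''] [Module A X'']
variable [AddCommGroup w] [Module A w]

/-! ### lengths -/

theorem len_surj_le (hX : Module.Finite A X) (f : X →ₗ[A] Z) (hf : Surjective f) :
    (Module.length A Z).toNat ≤ (Module.length A X).toNat :=
  ENat.toNat_le_toNat (Module.length_le_of_surjective f hf) Module.length_ne_top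

theorem len_inj_le (hZ : Module.Finite A Z) (f : X →ₗ[A] Z) (hf : Injective f) :
    (Module.length A X).toNat ≤ (Module.length A Z).toNat :=
  ENat.toNat_le_toNat (Module.length_le_of_injective f hf) Module.length_ne_top

theorem bij_of_surj_len (hX : Module.Finite A X) (f : X →ₗ[A] Z) (hf : Surjective f)
    (hl : (Module.length A X).toNat ≤ (Module.length A Z).toNat) : Bijective f := by
  refine ⟨?_, hf⟩
  by_contra hc
  have hk : LinearMap.ker f ≠ ⊥ := fun h => hc (LinearMap.ker_eq_bot.mp h)
  have h1 := Submodule.length_quotient_lt (LinearMap.ker f) hk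
  rw [(f.quotKerEquivOfSurjective hf).length_eq] at h1
  have hfin : Module.length A X ≠ ⊤ := Module.length_ne_top
  have hfin' : Module.length A Z ≠ ⊤ := (h1.trans_le le_top).ne
  rw [← ENat.natCast_toNat hfin, ← ENat.natCast_toNat hfin', Nat.cast_lt] at h1
  omega

theorem bij_of_inj_len (hZ : Module.Finite A Z) (f : X →ₗ[A] Z) (hf : Injective f)
    (hl : (Module.length A Z).toNat ≤ (Module.length A X).toNat) : Bijective f := by
  refine ⟨hf, ?_⟩
  by_contra hc
  have hk : LinearMap.range f ≠ ⊤ := fun h => hc (LinearMap.range_eq_top.mp h)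
  have h1 := Submodule.length_lt hk
  rw [← (LinearEquiv.ofInjective f hf).length_eq] at h1
  have hfin : Module.length A Z ≠ ⊤ := Module.length_ne_top
  have hfin' : Module.length A X ≠ ⊤ := (h1.trans_le le_top).ne
  rw [← ENat.natCast_toNat hfin, ← ENat.natCast_toNat hfin', Nat.cast_lt] at h1
  omega

/-! ### tops -/

theorem exists_ttop (h : TPair A M Y) (hX : TSimple A Y X) :
    ∃ (S : Type u) (_ : AddCommGroup S) (_ : Module A S) (g : S →ₗ[A] X), TTop A M Y S ∧
      Surjective g ∧ TMono A M g := by
  have hfM := h.finM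
  obtain ⟨n, ⟨S, iS, mS, hS, ⟨g, hg, hgk⟩, hn⟩, hmax⟩ := exists_max_card
    (P := fun n => ∃ (S : Type u) (_ : AddCommGroup S) (_ : Module A S), TSimple A Y S ∧
      (∃ g : S →ₗ[A] X, Surjective g ∧ TMono A M g) ∧ (Module.length A S).toNat = n)
    (Module.length A X).toNat (Module.length A M).toNat
    ⟨X, inferInstance, inferInstance, hX, ⟨LinearMap.id, surjective_id,
      TMono.of_inj injective_id⟩, rfl⟩
    (by
      rintro n ⟨S, _, _, hS, -, rfl⟩
      obtain ⟨g, hg⟩ := tsimple_surj h hS
      exact len_surj_le hfM g hg)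
  refine ⟨S, iS, mS, g, ⟨hS, ?_⟩, hg, hgk⟩
  intro Z _ _ hZ g' hg' hk'
  have hfZ := hZ.fin
  have : IsArtinian A Z := inferInstance
  obtain ⟨L, hL⟩ := exists_minimal_of_wellFoundedLT
    (fun L : Submodule A Z => L.map g' = ⊤ ∧ InT A Y L)
    ⟨⊤, by rw [Submodule.map_top]; exact LinearMap.range_eq_top.mpr hg',
      hZ.inT.congr Submodule.topEquiv.symm⟩
  let c : L →ₗ[A] S := g'.comp L.subtype
  have hcs : Surjective c := by
    intro s
    have : s ∈ L.map g' := hL.prop.1 ▸ Submodule.mem_top
    obtain ⟨l, hl, hls⟩ := this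
    exact ⟨⟨l, hl⟩, hls⟩
  have hLo : Ob A Y L := ⟨inferInstance, hL.prop.2⟩
  have hLs : TSimple A Y L := by
    refine ⟨hLo, ?_, ?_⟩
    · have := hS.nt
      exact hcs.nontrivial
    · intro L' hL'
      have hL'' := hL'.map L.subtype
      have h1 : L'.map L.subtype ≤ L := Submodule.map_subtype_le L L'
      rcases hS.sub _ (hL''.map g') with h2 | h2
      · left
        have h3 : L'.map L.subtype ≤ LinearMap.ker g' := by
          intro x hx
          have : g' x ∈ (L'.map L.subtype).map g' := ⟨x, hx, rfl⟩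
          rw [h2, Submodule.mem_bot] at this
          exact this
        have h4 : InF A M (L'.map L.subtype) :=
          hk'.inF.of_inj (Submodule.inclusion h3) (Submodule.inclusion_injective h3)
        have h5 := h.disj _ inferInstance hL'' h4
        exact eq_bot_of_map L.injective_subtype ((Submodule.subsingleton_iff_eq_bot).mp h5)
      · right
        have h3 : L ≤ L'.map L.subtype := hL.le_of_le ⟨h2, hL''⟩ h1
        rw [eq_top_iff]
        intro x _
        obtain ⟨y, hy, hyx⟩ := h3 x.2
        have : y = x := Subtype.ext hyx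
        rwa [← this]
  have hcm : TMono A M c := hk'.comp (TMono.of_inj L.injective_subtype)
  have hcard : (Module.length A L).toNat ≤ n := by
    apply hmax
    exact ⟨L, inferInstance, inferInstance, hLs, ⟨g.comp c, hg.comp hcs, hgk.comp hcm⟩, rfl⟩
  have hbij : Bijective c := bij_of_surj_len inferInstance c hcs (hn ▸ hcard)
  exact (TMono.bijective_of_comp h (a := L.subtype) hZ hk' hbij).1

theorem exists_ftop (h : TPair A M Y) (hX : FSimple A M X) :
    ∃ (S : Type u) (_ : AddCommGroup S) (_ : Module A S) (g : X →ₗ[A] S), FTop A M Y S ∧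
      Injective g ∧ InT A Y (S ⧸ LinearMap.range g) := by
  have hfY := h.finY
  obtain ⟨n, ⟨S, iS, mS, hS, ⟨g, hg, hgk⟩, hn⟩, hmax⟩ := exists_max_card
    (P := fun n => ∃ (S : Type u) (_ : AddCommGroup S) (_ : Module A S), FSimple A M S ∧
      (∃ g : X →ₗ[A] S, Injective g ∧ InT A Y (S ⧸ LinearMap.range g)) ∧
      (Module.length A S).toNat = n)
    (Module.length A X).toNat (Module.length A Y).toNat
    ⟨X, inferInstance, inferInstance, hX, ⟨LinearMap.id, injective_id,
      by rw [inT_coker_iff]; intro φ hφ; ext m; exact hφ m⟩, rfl⟩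
    (by
      rintro n ⟨S, _, _, hS, -, rfl⟩
      obtain ⟨g, hg⟩ := fsimple_inj h hS
      exact len_inj_le hfY g hg)
  refine ⟨S, iS, mS, g, ⟨hS, ?_⟩, hg, hgk⟩
  intro W _ _ hfW hW i' hi' hk'
  have : IsNoetherian A W := inferInstance
  obtain ⟨L, hL⟩ := exists_maximal_of_wellFoundedGT
    (fun L : Submodule A W => Injective (L.mkQ.comp i') ∧ InF A M (W ⧸ L))
    ⟨⊥, by
      constructor
      · intro x y hxy
        apply hi'
        have h0 : (⊥ : Submodule A W).mkQ (i' x - i' y) = 0 := by
          rw [map_sub, sub_eq_zero]; exact hxy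
        have h0' := mem_of_mkQ h0
        rw [Submodule.mem_bot] at h0'
        exact sub_eq_zero.mp h0'
      · exact hW.congr (Submodule.quotEquivOfEqBot _ rfl).symm⟩
  let c : S →ₗ[A] W ⧸ L := L.mkQ.comp i'
  have hci : Injective c := hL.prop.1
  have hLs : FSimple A M (W ⧸ L) := by
    refine ⟨inferInstance, hL.prop.2, ?_, ?_⟩
    · have := hS.nt
      exact hci.nontrivial
    · intro L' hL'
      have h1 : L ≤ L'.comap L.mkQ := by
        intro x hx
        rw [Submodule.mem_comap, mkQ_zero hx]
        exact L'.zero_mem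
      have h4 : InF A M (W ⧸ L'.comap L.mkQ) := by
        have hle : L'.comap L.mkQ ≤ LinearMap.ker (L'.mkQ.comp L.mkQ) := by
          intro x hx
          rw [LinearMap.mem_ker, LinearMap.comp_apply]
          exact mkQ_zero hx
        refine hL'.of_inj ((L'.comap L.mkQ).liftQ (L'.mkQ.comp L.mkQ) hle) ?_
        rw [← LinearMap.ker_eq_bot, Submodule.ker_liftQ_eq_bot]
        intro x hx
        rw [LinearMap.mem_ker, LinearMap.comp_apply] at hx
        have hx' : L.mkQ x ∈ L' := mem_of_mkQ hx
        exact hx'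
      by_cases hz : ((L'.comap L.mkQ).mkQ.comp i') = 0
      · right
        have h5 : InT A Y (W ⧸ L'.comap L.mkQ) := by
          have hle : LinearMap.range i' ≤ LinearMap.ker (L'.comap L.mkQ).mkQ := by
            rintro _ ⟨x, rfl⟩
            exact LinearMap.congr_fun hz x
          refine hk'.of_surj ((LinearMap.range i').liftQ _ hle) ?_
          intro q
          obtain ⟨w, rfl⟩ := (L'.comap L.mkQ).mkQ_surjective q
          exact ⟨(LinearMap.range i').mkQ w, rfl⟩
        have h6 := subsing_quot (h.disj _ inferInstance h5 h4)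
        rw [eq_top_iff]
        intro q _
        obtain ⟨z, rfl⟩ := L.mkQ_surjective q
        have : z ∈ L'.comap L.mkQ := h6 ▸ Submodule.mem_top
        exact this
      · left
        have h5 := hS.inj h4 _ hz
        have h3 : L'.comap L.mkQ ≤ L := hL.le_of_ge ⟨h5, h4⟩ h1
        rw [eq_bot_iff]
        intro q hq
        obtain ⟨z, rfl⟩ := L.mkQ_surjective q
        have : z ∈ L := h3 hq
        rw [Submodule.mem_bot]
        exact mkQ_zero this
  have hcard : (Module.length A (W ⧸ L)).toNat ≤ n := by
    apply hmax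
    refine ⟨W ⧸ L, inferInstance, inferInstance, hLs, ⟨c.comp g, hci.comp hg, ?_⟩, rfl⟩
    rw [inT_coker_iff] at hgk hk' ⊢
    intro φ hφ
    have h1 : φ.comp c = 0 := hgk _ hφ
    have h2 : φ.comp L.mkQ = 0 := hk' _ (fun m => LinearMap.congr_fun h1 m)
    ext m
    exact LinearMap.congr_fun h2 m
  have hbij : Bijective c := bij_of_inj_len inferInstance c hci (hn ▸ hcard)
  let θ := LinearEquiv.ofBijective c hbij
  have hθ : ∀ s, L.mkQ (i' (θ.symm s)) = s := fun s => θ.apply_symm_apply s
  have hθ2 : ∀ s, θ.symm (L.mkQ (i' s)) = s := fun s => θ.symm_apply_apply s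
  let r : W →ₗ[A] L :=
    (LinearMap.id - i'.comp (θ.symm.toLinearMap.comp L.mkQ)).codRestrict _ (fun z => by
      apply mem_of_mkQ
      rw [LinearMap.sub_apply, map_sub]
      simp only [LinearMap.id_apply, LinearMap.comp_apply, LinearEquiv.coe_coe]
      rw [hθ, sub_self])
  have hr : Surjective r := by
    rintro ⟨z, hz⟩
    refine ⟨z, Subtype.ext ?_⟩
    have hz' : L.mkQ z = 0 := mkQ_zero hz
    simp only [r, LinearMap.codRestrict_apply, LinearMap.sub_apply, LinearMap.id_apply,
      LinearMap.comp_apply, hz', map_zero, sub_zero]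
  have hrk : LinearMap.range i' ≤ LinearMap.ker r := by
    rintro _ ⟨s, rfl⟩
    rw [LinearMap.mem_ker]
    apply Subtype.ext
    simp only [r, LinearMap.codRestrict_apply, LinearMap.sub_apply, LinearMap.id_apply,
      LinearMap.comp_apply, LinearEquiv.coe_coe, hθ2, sub_self, Submodule.coe_zero]
  have hLT : InT A Y L := by
    refine hk'.of_surj ((LinearMap.range i').liftQ r hrk) ?_
    intro l
    obtain ⟨w, rfl⟩ := hr l
    exact ⟨(LinearMap.range i').mkQ w, rfl⟩
  have h5 := (Submodule.subsingleton_iff_eq_bot).mp (h.disj _ inferInstance hLT (hW.sub L))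
  intro w
  obtain ⟨s, hs⟩ := hbij.2 (L.mkQ w)
  refine ⟨s, ?_⟩
  have h6 : L.mkQ (i' s - w) = 0 := by rw [map_sub, sub_eq_zero]; exact hs
  have h7 := mem_of_mkQ h6
  rw [h5, Submodule.mem_bot] at h7
  exact sub_eq_zero.mp h7

theorem ttop_not_long (h : TPair A M Y) (hS : TTop A M Y S) : ¬ Long A M Y 2 S := by
  rintro ⟨U, _, _, f, hU, hf, hb, hL⟩
  by_cases h0 : f = 0
  · exact not_long_zero h (hf.subsingleton h hU h0) hL
  · have hs := hS.simple.surj hU.inT f h0
    exact hb ⟨hS.top U hU f hs hf, hs⟩

end part1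

end BicG
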