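import Pool.Agent.Helper16.BicG.BadF
import Pool.Agent.Helper16.BicG.Top
import Pool.Agent.Helper16.BicG.FStep

/-!
Module EXTRACT: a good object mapping to a bad one misses a bad `T`-simple subfactor.
-/

universe u

namespace BicG

open Function Module
open Bic (InT InF SES torIn torIn_le torIn_inT factor_surj factor_inj mkQ_zero mem_of_mkQ)

variable {A : Type u} [Ring A] [IsNoetherianRing A] [IsArtinianRing A]
variable {M Y X Z W U P S J X'' w : Type u}
variable [AddCommGroup M] [Module A M] [AddCommGroup Y] [Module A Y]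
variable [AddCommGroup X] [Module A X] [AddCommGroup Z] [Module A Z]
variable [AddCommGroup W] [Module A W] [AddCommGroup U] [Module A U]
variable [AddCommGroup P] [Module A P] [AddCommGroup S] [Module A S]
variable [AddCommGroup J] [Module A J] [AddCommGroup X''] [Module A X'']
variable [AddCommGroup w] [Module A w]

omit [IsNoetherianRing A] [IsArtinianRing A] in
/-- preimage of a submodule of the quotient in a short exact sequence -/
private theorem ses_comap {a : J →ₗ[A] X} {b : X →ₗ[A] X''} (hs : SES a b) (Q : Submodule A X'') :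
    ∃ (i : J →ₗ[A] Q.comap b) (p : Q.comap b →ₗ[A] Q), SES i p ∧
      (∀ x, ((i x : Q.comap b) : X) = a x) ∧ (∀ x, ((p x : Q) : X'') = b x) := by
  refine ⟨a.codRestrict (Q.comap b) (fun x => by
      rw [Submodule.mem_comap, hs.comp]
      exact Q.zero_mem),
    (b.comp (Q.comap b).subtype).codRestrict Q (fun x => x.2), ⟨?_, ?_, ?_, ?_⟩,
    fun _ => rfl, fun _ => rfl⟩
  · intro x y hxy
    exact hs.inj (congrArg Subtype.val hxy)
  · rintro ⟨q, hq⟩
    obtain ⟨x, rfl⟩ := hs.surj q
    exact ⟨⟨x, hq⟩, rfl⟩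
  · intro x
    exact Subtype.ext (hs.comp x)
  · intro e he
    obtain ⟨x, hx⟩ := hs.exact (e : X) (congrArg Subtype.val he)
    exact ⟨x, Subtype.ext hx⟩

omit [IsNoetherianRing A] [IsArtinianRing A] in
private theorem fsimple_congr_aux (e : X ≃ₗ[A] X'') (h : FSimple A M X) : FSimple A M X'' := by
  have hf := h.fin
  have hn := h.nt
  refine ⟨Module.Finite.equiv e, h.inF.congr e, e.symm.toEquiv.nontrivial, ?_⟩
  intro L hL
  have h1 : L = (L.comap e.toLinearMap).map e.toLinearMap := by
    rw [Submodule.map_comap_eq, LinearEquiv.range, top_inf_eq]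
  have h2 : InF A M (X ⧸ L.comap e.toLinearMap) :=
    hL.congr (Submodule.Quotient.equiv (L.comap e.toLinearMap) L e h1.symm).symm
  rcases h.quot _ h2 with h3 | h3
  · left
    rw [h1, h3, Submodule.map_bot]
  · right
    rw [h1, h3, Submodule.map_top, LinearEquiv.range]

/-- the statement to be proved, for a fixed source -/
private def Extr (A : Type u) [Ring A] (M Y U Z : Type u) [AddCommGroup M] [Module A M] [AddCommGroup Y]
    [Module A Y] [AddCommGroup U] [Module A U] [AddCommGroup Z] [Module A Z]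
    (f : U →ₗ[A] Z) : Prop :=
  ∃ (V w : Type u) (_ : AddCommGroup V) (_ : Module A V) (_ : AddCommGroup w) (_ : Module A w)
      (e : U →ₗ[A] V) (v : V →ₗ[A] Z) (p : V →ₗ[A] w), Ob A Y V ∧ TMono A M v ∧ SEpi A Y p ∧
      TSimple A Y w ∧ Bad A M Y w ∧ (∀ x, v (e x) = f x) ∧ (∀ x, p (e x) = 0)

/-- general step: a factorisation through a short exact sequence with bad quotient -/
private theorem extr_step (h : TPair A M Y) {a : J →ₗ[A] X} {b : X →ₗ[A] X''} (hs : SES a b)
    (hJ : Ob A Y J) (hX'' : Ob A Y X'') (hbad : Bad A M Y X'') (e0 : U →ₗ[A] J)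
    (v0 : X →ₗ[A] Z) (hv0 : TMono A M v0) (f : U →ₗ[A] Z) (hf : ∀ x, v0 (a (e0 x)) = f x) :
    Extr A M Y U Z f := by
  obtain ⟨w, _, _, Q, p0, hw, hwb, hQ, hp0⟩ := bad_simple_factor h hX'' hbad
  obtain ⟨i, p, hip, hi, hp⟩ := ses_comap hs Q
  refine ⟨Q.comap b, w, inferInstance, inferInstance, inferInstance, inferInstance,
    i.comp e0, v0.comp (Q.comap b).subtype, p0.comp p, Ob.of_ses hip hJ hQ,
    hv0.comp (TMono.of_inj (Submodule.injective_subtype _)),
    hp0.comp (SEpi.of_ses hip hJ.inT), hw, hwb, ?_, ?_⟩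
  · intro x
    rw [LinearMap.comp_apply, LinearMap.comp_apply, Submodule.subtype_apply, hi, hf]
  · intro x
    rw [LinearMap.comp_apply, LinearMap.comp_apply, hip.comp, map_zero]

private theorem extract_aux (h : TPair A M Y) (hU : Ob A Y U) (hU' : ¬ Bad A M Y U)
    (K : Submodule A U) : ∀ (Z : Type u) [AddCommGroup Z] [Module A Z], Ob A Y Z →
    ∀ f : U →ₗ[A] Z, TMono A M f → LinearMap.ker f = K → Bad A M Y Z → Extr A M Y U Z f := by
  have hfU := hU.fin
  have : IsArtinian A U := inferInstance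
  induction K using WellFoundedLT.induction with
  | _ K ih =>
  intro Z _ _ hZ f hf hK hZ'
  have hfZ := hZ.fin
  set D := LinearMap.range f with hD
  have hDo : Ob A Y D := hU.range f
  by_cases hDb : Bad A M Y D
  swap
  · -- case (1)
    have hq : Bad A M Y (Z ⧸ D) := by
      rcases bad_of_ses h (Bic.SES.of_sub D) hDo (hZ.quot D) hZ' with h1 | h1
      · exact absurd h1 hDb
      · exact h1
    exact extr_step h (Bic.SES.of_sub D) hDo (hZ.quot D) hq f.rangeRestrict
      LinearMap.id (TMono.of_inj injective_id) f (fun x => rfl)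
  -- case (2)
  have hKb : K ≠ ⊥ := by
    rintro rfl
    apply hU'
    exact hDb.congr (LinearEquiv.ofInjective f (LinearMap.ker_eq_bot.mp hK)).symm
  have hKF : InF A M K := by
    rw [← hK]
    exact hf.inF
  have hKn : Nontrivial K := (Submodule.nontrivial_iff_ne_bot).mpr hKb
  obtain ⟨L, hL⟩ := exists_fsimple_quot (inferInstance : Module.Finite A K) hKn hKF
  let K1 : Submodule A U := L.map K.subtype
  have hK1 : K1 ≤ K := Submodule.map_subtype_le K L
  have hK1lt : K1 < K := by
    refine lt_of_le_of_ne hK1 ?_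
    intro heq
    have hLtop : L = ⊤ := by
      rw [eq_top_iff]
      intro x _
      have hx : (x : U) ∈ K1 := by
        rw [heq]
        exact x.2
      obtain ⟨y, hy, hyx⟩ := hx
      have : y = x := Subtype.ext hyx
      rwa [← this]
    have h1 := hL.nt
    rw [hLtop] at h1
    exact not_subsingleton _ (inferInstance : Subsingleton (K ⧸ (⊤ : Submodule A K)))
  have hK1F : InF A M K1 :=
    hKF.of_inj (Submodule.inclusion hK1) (Submodule.inclusion_injective hK1)
  have hU1 : Ob A Y (U ⧸ K1) := hU.quot K1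
  have hm1 : TMono A M K1.mkQ := by
    rw [tmono_iff_ker, Submodule.ker_mkQ]
    exact hK1F
  have hle : K1 ≤ LinearMap.ker f := by rw [hK]; exact hK1
  -- the induced map U/K1 → D
  let g : (U ⧸ K1) →ₗ[A] D := K1.liftQ f.rangeRestrict (by
    intro x hx
    rw [LinearMap.mem_ker]
    exact Subtype.ext (hle hx))
  have hgf : ∀ x, ((g (K1.mkQ x) : D) : Z) = f x := fun x => rfl
  have hgs : Surjective g := by
    rintro ⟨z, x, rfl⟩
    exact ⟨K1.mkQ x, rfl⟩
  -- the kernel of g is isomorphic to K / L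
  let κ0 : K →ₗ[A] LinearMap.ker g := (K1.mkQ.comp K.subtype).codRestrict _ (fun x => by
    rw [LinearMap.mem_ker]
    apply Subtype.ext
    have h1 : f (x : U) = 0 := by
      have : (x : U) ∈ LinearMap.ker f := hK ▸ x.2
      exact this
    exact h1)
  have hκs : Surjective κ0 := by
    rintro ⟨y, hy⟩
    obtain ⟨x, rfl⟩ := K1.mkQ_surjective y
    have hx : f x = 0 := by
      rw [← hgf]
      have : g (K1.mkQ x) = 0 := hy
      rw [this]
      rfl
    have hxK : x ∈ K := hK ▸ hx
    exact ⟨⟨x, hxK⟩, rfl⟩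
  have hκk : LinearMap.ker κ0 = L := by
    ext x
    rw [LinearMap.mem_ker]
    constructor
    · intro hx
      have h1 : K1.mkQ (x : U) = 0 := congrArg Subtype.val hx
      obtain ⟨y, hy, hyx⟩ := mem_of_mkQ h1
      have : y = x := Subtype.ext hyx
      rwa [← this]
    · intro hx
      apply Subtype.ext
      exact mkQ_zero ⟨x, hx, rfl⟩
  have hN : FSimple A M (LinearMap.ker g) := by
    have e : (K ⧸ L) ≃ₗ[A] LinearMap.ker g :=
      (Submodule.quotEquivOfEq _ _ hκk.symm).trans (κ0.quotKerEquivOfSurjective hκs)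
    exact fsimple_congr_aux e hL
  have hgm : TMono A M g := (tmono_iff_ker g).mpr hN.inF
  by_cases hb1 : Bad A M Y (U ⧸ K1)
  · -- case (2a)
    obtain ⟨V, w, _, _, _, _, e, v, p, hV, hv, hp, hw, hwb, hve, hpe⟩ :=
      ih K1 hK1lt (U ⧸ K1) hU1 K1.mkQ hm1 (Submodule.ker_mkQ K1) hb1
    refine ⟨V, w, inferInstance, inferInstance, inferInstance, inferInstance, e,
      (D.subtype.comp g).comp v, p, hV,
      ((TMono.of_inj D.injective_subtype).comp hgm).comp hv, hp, hw, hwb, ?_, hpe⟩
    intro x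
    rw [LinearMap.comp_apply, hve]
    rfl
  · -- case (2b)
    obtain ⟨S, _, _, j, hS, hj, hjT⟩ := exists_ftop h hN
    obtain ⟨G, _, _, a, b, p', q', hbp, haq, hab, hp', hq'⟩ :=
      Bic.pushout (Bic.SES.of_ker g hgs) (Bic.SES.of_range j hj)
    have hfS := hS.simple.fin
    have hR : Ob A Y (S ⧸ LinearMap.range j) := ⟨inferInstance, hjT⟩
    have hG : Ob A Y G := Ob.of_ses haq hU1 hR
    have hGb : Bad A M Y G := fun n => long_fstep h n hbp hS hG hDo (hDb (n + 1))
    have hRb : Bad A M Y (S ⧸ LinearMap.range j) := by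
      rcases bad_of_ses h haq hU1 hR hGb with h1 | h1
      · exact absurd h1 hb1
      · exact h1
    have hp'm : TMono A M p' := by
      intro φ hφ
      obtain ⟨ψ, hψ⟩ := factor_inj b hbp.inj φ (fun m => hbp.exact _ (hφ m))
      have hψ0 : ψ = 0 := hS.simple.inF ψ
      ext m
      rw [← hψ m, hψ0, LinearMap.zero_apply, map_zero, LinearMap.zero_apply]
    refine extr_step h haq hU1 hR hRb K1.mkQ (D.subtype.comp p')
      ((TMono.of_inj D.injective_subtype).comp hp'm) f ?_
    intro x
    rw [LinearMap.comp_apply, hp']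
    rfl

theorem extract (h : TPair A M Y) (hU : Ob A Y U) (hZ : Ob A Y Z) (f : U →ₗ[A] Z)
    (hf : TMono A M f) (hU' : ¬ Bad A M Y U) (hZ' : Bad A M Y Z) :
    ∃ (V w : Type u) (_ : AddCommGroup V) (_ : Module A V) (_ : AddCommGroup w) (_ : Module A w)
      (e : U →ₗ[A] V) (v : V →ₗ[A] Z) (p : V →ₗ[A] w), Ob A Y V ∧ TMono A M v ∧ SEpi A Y p ∧
      TSimple A Y w ∧ Bad A M Y w ∧ (∀ x, v (e x) = f x) ∧ (∀ x, p (e x) = 0) :=
  extract_aux h hU hU' (LinearMap.ker f) Z hZ f hf rfl hZ'

end BicG
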