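import Pool.Agent.Helper16.BicG.Extract

/-!
FILTBAD of the blueprint for MP_8f4dc6_al: bad objects filtered by the `C i` have bad `T`-simple subquotients
common with some `C i`.
-/

universe u

namespace BicG

open Function Module
open Bic (InT InF SES torIn torIn_le torIn_inT factor_surj factor_inj mkQ_zero mem_of_mkQ)

section filtbad

variable {A : Type u} [Ring A] [IsNoetherianRing A] [IsArtinianRing A]
variable {M Y : Type u} [AddCommGroup M] [Module A M] [AddCommGroup Y] [Module A Y]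

omit [IsNoetherianRing A] [IsArtinianRing A] in
theorem not_long_zero_aux (h : TPair A M Y) {X : Type u} [AddCommGroup X] [Module A X]
    (hX : Subsingleton X) : ¬ Long A M Y 1 X := by
  rintro ⟨U, _, _, f, hU, hf, hb, -⟩
  apply hb
  have h0 : f = 0 := LinearMap.ext fun x => Subsingleton.elim _ _
  have hs : Subsingleton U := hf.subsingleton h hU h0
  exact ⟨fun a b _ => Subsingleton.elim _ _, fun x => ⟨0, Subsingleton.elim _ _⟩⟩

omit [IsNoetherianRing A] [IsArtinianRing A] in
/-- the induced map to a jointly injective pair -/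
theorem exists_joint_lift {T P V Z X : Type u} [AddCommGroup T] [Module A T]
    [AddCommGroup P] [Module A P] [AddCommGroup V] [Module A V] [AddCommGroup Z] [Module A Z]
    [AddCommGroup X] [Module A X] (a : P →ₗ[A] V) (b : P →ₗ[A] Z) (v : V →ₗ[A] X)
    (q : Z →ₗ[A] X) (h1 : ∀ x z, v x = q z → ∃ p, a p = x ∧ b p = z)
    (h2 : ∀ p, a p = 0 → b p = 0 → p = 0) (α : T →ₗ[A] V) (β : T →ₗ[A] Z)
    (h3 : ∀ t, v (α t) = q (β t)) : ∃ s : T →ₗ[A] P, (∀ t, a (s t) = α t) ∧
      ∀ t, b (s t) = β t := by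
  choose g hga hgb using fun t => h1 (α t) (β t) (h3 t)
  have hinj : ∀ p p', a p = a p' → b p = b p' → p = p' := fun p p' ha hb =>
    sub_eq_zero.mp (h2 _ (by rw [map_sub, ha, sub_self]) (by rw [map_sub, hb, sub_self]))
  refine ⟨⟨⟨g, fun x y => hinj _ _ ?_ ?_⟩, fun c x => hinj _ _ ?_ ?_⟩, hga, hgb⟩
  · rw [hga, map_add, map_add, hga, hga]
  · rw [hgb, map_add, map_add, hgb, hgb]
  · simp only [RingHom.id_apply]
    rw [hga, map_smul, map_smul, hga]
  · simp only [RingHom.id_apply]
    rw [hgb, map_smul, map_smul, hgb]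

theorem filt_bad_aux (h : TPair A M Y) {ι : Type u} (C : ι → Type u)
    [∀ i, AddCommGroup (C i)] [∀ i, Module A (C i)] (n : ℕ) :
    ∀ (Z X : Type u) [AddCommGroup Z] [Module A Z] [AddCommGroup X] [Module A X],
    Ob A Y Z → Filt A Y C n Z → Ob A Y X → ∀ (q : Z →ₗ[A] X), SEpi A Y q →
    Bad A M Y X → ∃ (i : ι) (w : Type u) (_ : AddCommGroup w) (_ : Module A w),
      TSimple A Y w ∧ Bad A M Y w ∧ Le A M Y w X ∧ Le A M Y w (C i) := by
  induction n with
  | zero =>
    intro Z X _ _ _ _ hZ hF hX q hq hb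
    exfalso
    have hF : Subsingleton Z := hF
    have hX0 : Subsingleton X := hq.surj.subsingleton
    exact not_long_zero_aux h hX0 (hb 1)
  | succ n ih =>
    intro Z X _ _ _ _ hZ hF hX q hq hb
    obtain ⟨i, φ, hF'⟩ := hF
    set Z' : Submodule A Z := torIn A Y (LinearMap.ker φ) with hZ'def
    have hfZ := hZ.fin
    have hOZ' : Ob A Y Z' := ⟨inferInstance, torIn_inT _⟩
    let q' : Z' →ₗ[A] X := q.comp Z'.subtype
    let D : Submodule A Z' := torIn A Y (LinearMap.ker q')
    let r : (Z' ⧸ D) →ₗ[A] X := D.liftQ q' (torIn_le _)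
    have hr : ∀ z, r (D.mkQ z) = q z := fun z => rfl
    have hrT : TMono A M r := by
      intro ψ hψ
      apply h.quot_torIn (LinearMap.ker q') ψ
      intro m
      obtain ⟨z, hz⟩ := D.mkQ_surjective (ψ m)
      refine ⟨z, ?_, hz⟩
      have h1 := hψ m
      rw [← hz] at h1
      exact h1
    have hOI : Ob A Y (Z' ⧸ D) := hOZ'.quot D
    have hqI : SEpi A Y D.mkQ := by
      refine ⟨D.mkQ_surjective, ?_⟩
      rw [Submodule.ker_mkQ]
      exact torIn_inT _
    by_cases hbI : Bad A M Y (Z' ⧸ D)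
    · obtain ⟨i', w, _, _, hw1, hw2, hw3, hw4⟩ := ih Z' (Z' ⧸ D) hOZ' hF' hOI D.mkQ hqI hbI
      refine ⟨i', w, inferInstance, inferInstance, hw1, hw2, ?_, hw4⟩
      obtain ⟨U, _, _, f, g, hU, hf, hg⟩ := hw3
      exact ⟨U, inferInstance, inferInstance, r.comp f, g, hU, hrT.comp hf, hg⟩
    · obtain ⟨V, w, _, _, _, _, e, v, p, hV, hv, hp, hw1, hw2, hve, hpe⟩ :=
        extract h hOI hX r hrT hbI hb
      refine ⟨i, w, inferInstance, inferInstance, hw1, hw2,
        ⟨V, inferInstance, inferInstance, v, p, hV, hv, hp⟩, ?_⟩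
      obtain ⟨P, _, _, a, b, hP, ha, hbT, hab, hex, hj⟩ :=
        exists_pull M hfZ hq v hV
      have hbT := hbT hv
      obtain ⟨s, hsa, hsb⟩ := exists_joint_lift a b v q hex hj (e.comp D.mkQ) Z'.subtype
        (fun t => by rw [LinearMap.comp_apply, hve, hr]; rfl)
      let R : Submodule A P := LinearMap.range s
      have hRb : ∀ x ∈ R, b x ∈ Z' := by
        rintro _ ⟨t, rfl⟩
        rw [hsb]
        exact t.2
      have hφ : ∀ z ∈ Z', φ z = 0 := fun z hz => torIn_le _ hz
      let f : (P ⧸ R) →ₗ[A] C i := R.liftQ (φ.comp b) (fun x hx => hφ _ (hRb x hx))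
      have hff : ∀ x, f (R.mkQ x) = φ (b x) := fun x => rfl
      let g : (P ⧸ R) →ₗ[A] w := R.liftQ (p.comp a) (by
        rintro _ ⟨t, rfl⟩
        rw [LinearMap.mem_ker, LinearMap.comp_apply, hsa, LinearMap.comp_apply, hpe])
      have hgg : ∀ x, g (R.mkQ x) = p (a x) := fun x => rfl
      refine ⟨P ⧸ R, inferInstance, inferInstance, f, g, hP.quot R, ?_, ?_⟩
      · intro ψ hψ
        -- the map to `Z / Z'`
        let b' : (P ⧸ R) →ₗ[A] (Z ⧸ Z') := R.liftQ (Z'.mkQ.comp b) (fun x hx => by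
          rw [LinearMap.mem_ker, LinearMap.comp_apply]
          exact mkQ_zero (hRb x hx))
        have hbb : ∀ x, b' (R.mkQ x) = Z'.mkQ (b x) := fun x => rfl
        have h1 : b'.comp ψ = 0 := by
          apply h.quot_torIn (LinearMap.ker φ) (b'.comp ψ)
          intro m
          obtain ⟨x, hx⟩ := R.mkQ_surjective (ψ m)
          refine ⟨b x, ?_, ?_⟩
          · have h2 := hψ m
            rw [← hx, hff] at h2
            exact h2
          · rw [LinearMap.comp_apply, ← hx]
            rfl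
        let κ : LinearMap.ker b →ₗ[A] (P ⧸ R) := R.mkQ.comp (LinearMap.ker b).subtype
        have hκ : Injective κ := by
          rw [injective_iff_map_eq_zero]
          rintro ⟨y, hy⟩ hy0
          have h2 : y ∈ R := mem_of_mkQ hy0
          obtain ⟨t, rfl⟩ := h2
          have hy' : b (s t) = 0 := hy
          rw [hsb] at hy'
          have h3 : t = 0 := Subtype.ext hy'
          apply Subtype.ext
          change s t = 0
          rw [h3, map_zero]
        obtain ⟨θ, hθ⟩ := factor_inj κ hκ ψ (fun m => by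
          obtain ⟨x, hx⟩ := R.mkQ_surjective (ψ m)
          have h2 : Z'.mkQ (b x) = 0 := by
            rw [← hbb, hx]
            exact LinearMap.congr_fun h1 m
          have h3 : b x ∈ Z' := mem_of_mkQ h2
          refine ⟨⟨x - s ⟨b x, h3⟩, ?_⟩, ?_⟩
          · rw [LinearMap.mem_ker, map_sub, hsb, sub_eq_zero]
            rfl
          · rw [← hx]
            change R.mkQ (x - s ⟨b x, h3⟩) = R.mkQ x
            rw [map_sub, sub_eq_self]
            exact mkQ_zero ⟨_, rfl⟩)
        have h2 : θ = 0 := hbT.inF θ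
        ext m
        rw [← hθ, h2]
        simp
      · have hpa : SEpi A Y (p.comp a) := hp.comp ha
        refine ⟨fun y => ?_, ?_⟩
        · obtain ⟨x, hx⟩ := hpa.surj y
          exact ⟨R.mkQ x, hx⟩
        · refine hpa.ker.of_surj
            ((R.mkQ.comp (LinearMap.ker (p.comp a)).subtype).codRestrict (LinearMap.ker g)
              (fun x => x.2)) ?_
          rintro ⟨y, hy⟩
          obtain ⟨x, rfl⟩ := R.mkQ_surjective y
          exact ⟨⟨x, hy⟩, rfl⟩

variable {X Z : Type u}
variable [AddCommGroup X] [Module A X] [AddCommGroup Z] [Module A Z]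

theorem filt_bad (h : TPair A M Y) {ι : Type u} (C : ι → Type u)
    [∀ i, AddCommGroup (C i)] [∀ i, Module A (C i)] (n : ℕ) (hZ : Ob A Y Z)
    (hF : Filt A Y C n Z) (hX : Ob A Y X) (q : Z →ₗ[A] X) (hq : SEpi A Y q)
    (hb : Bad A M Y X) :
    ∃ (i : ι) (w : Type u) (_ : AddCommGroup w) (_ : Module A w), TSimple A Y w ∧
      Bad A M Y w ∧ Le A M Y w X ∧ Le A M Y w (C i) :=
  filt_bad_aux h C n Z X hZ hF hX q hq hb

end filtbad

end BicG
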