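import Pool.Agent.Helper16.BicG.RM

/-!
Homomorphisms between the modules of matrix representations are intertwining matrices.
-/

universe u

namespace BicG

open Function Module
open scoped TensorProduct

section rmhom

variable {K Ω A : Type u} [Field K] [Field Ω] [Algebra K Ω] [Ring A] [Algebra K A]

theorem rm_hom {n m : ℕ} (ρ : A →ₐ[K] Matrix (Fin n) (Fin n) Ω)
    (ρ' : A →ₐ[K] Matrix (Fin m) (Fin m) Ω) (H : Matrix (Fin m) (Fin n) Ω)
    (hH : ∀ a, H * ρ a = ρ' a * H) :
    ∃ f : RM ρ →ₗ[Ω ⊗[K] A] RM ρ', ∀ v, RM.vec (f v) = H.mulVec (RM.vec v) := by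
  have key : ∀ (s : Ω ⊗[K] A) (v : RM ρ),
      H.mulVec (RM.vec (s • v)) =
        RM.vec (s • (RM.vec (ρ := ρ')).symm (H.mulVec (RM.vec v))) := by
    intro s v
    induction s using TensorProduct.induction_on with
    | zero => rw [zero_smul, zero_smul, map_zero, Matrix.mulVec_zero, map_zero]
    | tmul r a =>
      rw [RM.tmul_smul, RM.tmul_smul, Matrix.mulVec_smul, LinearEquiv.apply_symm_apply,
        Matrix.mulVec_mulVec, Matrix.mulVec_mulVec, hH a]
    | add x y hx hy =>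
      rw [add_smul, add_smul, map_add, Matrix.mulVec_add, hx, hy, map_add]
  refine ⟨{ toFun := fun v => (RM.vec (ρ := ρ')).symm (H.mulVec (RM.vec v))
            map_add' := fun v w => ?_
            map_smul' := fun s v => ?_ }, fun v => ?_⟩
  · rw [map_add, Matrix.mulVec_add, map_add]
  · apply (RM.vec (ρ := ρ')).injective
    rw [LinearEquiv.apply_symm_apply, key s v]
    rfl
  · exact (RM.vec (ρ := ρ')).apply_symm_apply _

theorem rm_hom' {n m : ℕ} (ρ : A →ₐ[K] Matrix (Fin n) (Fin n) Ω)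
    (ρ' : A →ₐ[K] Matrix (Fin m) (Fin m) Ω) (f : RM ρ →ₗ[Ω ⊗[K] A] RM ρ') :
    ∃ H : Matrix (Fin m) (Fin n) Ω, (∀ a, H * ρ a = ρ' a * H) ∧
      ∀ v, RM.vec (f v) = H.mulVec (RM.vec v) := by
  let g : (Fin n → Ω) →ₗ[Ω] (Fin m → Ω) :=
    ((RM.vec (ρ := ρ')).toLinearMap.comp (f.restrictScalars Ω)).comp
      (RM.vec (ρ := ρ)).symm.toLinearMap
  have hg : ∀ v, RM.vec (f v) = (LinearMap.toMatrix' g).mulVec (RM.vec v) := by
    intro v
    have : (LinearMap.toMatrix' g).mulVec (RM.vec v) = g (RM.vec v) := by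
      rw [← Matrix.toLin'_apply, Matrix.toLin'_toMatrix']
    rw [this]
    rfl
  refine ⟨LinearMap.toMatrix' g, fun a => ?_, hg⟩
  apply Matrix.toLin'.injective
  apply LinearMap.ext
  intro v
  rw [Matrix.toLin'_apply, Matrix.toLin'_apply, ← Matrix.mulVec_mulVec, ← Matrix.mulVec_mulVec]
  have h1 := RM.tmul_smul (ρ := ρ) (1 : Ω) a ((RM.vec (ρ := ρ)).symm v)
  rw [one_smul, LinearEquiv.apply_symm_apply] at h1
  have h2 := RM.tmul_smul (ρ := ρ') (1 : Ω) a (f ((RM.vec (ρ := ρ)).symm v))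
  rw [one_smul] at h2
  have h3 := hg ((RM.vec (ρ := ρ)).symm v)
  rw [LinearEquiv.apply_symm_apply] at h3
  rw [← h1, ← hg, map_smul, h2, h3]

theorem mem_Nc {n : ℕ} (ρM : A →ₐ[K] Matrix (Fin n) (Fin n) K) (c : Matrix (Fin n) (Fin n) Ω)
    (hc : IsPt ρM c) (v : RM (rext ρM Ω)) : v ∈ Nc ρM c ↔ c.mulVec (RM.vec v) = 0 := by
  constructor
  · intro h
    have := h 1
    rwa [one_smul] at this
  · intro h s
    induction s using TensorProduct.induction_on with
    | zero => rw [zero_smul, map_zero, Matrix.mulVec_zero]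
    | tmul r a =>
      rw [RM.tmul_smul, Matrix.mulVec_smul, Matrix.mulVec_mulVec]
      have h1 : c * rext ρM Ω a = c * rext ρM Ω a * c := by
        have := hc.stab a
        rw [mul_sub, mul_one, sub_eq_zero] at this
        exact this
      rw [h1, ← Matrix.mulVec_mulVec, h, Matrix.mulVec_zero, smul_zero]
    | add x y hx hy =>
      rw [add_smul, map_add, Matrix.mulVec_add, hx, hy, add_zero]

end rmhom

end BicG
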