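import Pool.Agent.Helper16.BicG.ExistsRM
import Pool.Agent.Helper16.BicG.RMHom

/-!
Base change of the pair `(M, Y)` (module GAPEXT): Nullstellensatz specialisation of a gap
module.
-/

universe u

namespace BicG

open Function Module
open Bic (InT InF SES torIn)
open scoped TensorProduct


section gapext

/-- a left invertible system has no nonzero solution among functionals -/
theorem gap_func {K E V : Type u} [Field K] [CommRing E] [Algebra K E] [AddCommGroup V]
    [Module K V] {κ ι : Type} [Fintype κ] [Fintype ι] [DecidableEq κ] (C : Matrix ι κ E)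
    (D : Matrix κ ι E) (hD : D * C = 1) (H : κ → (E →ₗ[K] V))
    (hH : ∀ i ω, ∑ k, H k (ω * C i k) = 0) : ∀ k ω, H k ω = 0 := by
  intro j ω
  have h1 : H j ω = ∑ k, H k (ω * (D * C) j k) := by
    rw [hD, Finset.sum_eq_single j]
    · rw [Matrix.one_apply_eq, mul_one]
    · intro k _ hk
      rw [Matrix.one_apply_ne (Ne.symm hk), mul_zero, map_zero]
    · intro h
      exact absurd (Finset.mem_univ j) h
  rw [h1]
  have h2 : ∀ k, H k (ω * (D * C) j k) = ∑ i, H k ((ω * D j i) * C i k) := by
    intro k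
    rw [Matrix.mul_apply, Finset.mul_sum, map_sum]
    exact Finset.sum_congr rfl fun i _ => by rw [mul_assoc]
  simp only [h2]
  rw [Finset.sum_comm]
  exact Finset.sum_eq_zero fun i _ => hH i _

theorem gap_vec {E : Type u} [CommRing E] {κ ι : Type} [Fintype κ] [Fintype ι] [DecidableEq κ]
    (C : Matrix ι κ E) (D : Matrix κ ι E) (hD : D * C = 1) (G : κ → E)
    (hG : C.mulVec G = 0) : G = 0 := by
  have h1 : G = (D * C).mulVec G := by rw [hD, Matrix.one_mulVec]
  rw [h1, ← Matrix.mulVec_mulVec, hG, Matrix.mulVec_zero]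

theorem gap_left_inv {Ω : Type u} [Field Ω] {κ ι : Type} [Fintype κ] [Fintype ι]
    [DecidableEq κ] [DecidableEq ι] (C : Matrix ι κ Ω) (hC : ∀ G, C.mulVec G = 0 → G = 0) :
    ∃ D : Matrix κ ι Ω, D * C = 1 := by
  obtain ⟨g, hg⟩ := LinearMap.exists_leftInverse_of_injective (Matrix.toLin' C) (by
    rw [LinearMap.ker_eq_bot']
    intro G h
    exact hC G h)
  refine ⟨LinearMap.toMatrix' g, ?_⟩
  have h1 : LinearMap.toMatrix' (g ∘ₗ Matrix.toLin' C) = LinearMap.toMatrix' g * C := by
    rw [LinearMap.toMatrix'_comp, LinearMap.toMatrix'_toLin']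
  rw [← h1, hg, LinearMap.toMatrix'_id]

/-- the system of maps to `Y` -/
def gapC1 {K : Type u} [Field K] {d m r : ℕ} (y : Fin d → Matrix (Fin m) (Fin m) K)
    {R : Type u} [CommRing R] [Algebra K R] (P : Fin d → Matrix (Fin r) (Fin r) R) :
    Matrix (Fin d × Fin m × Fin r) (Fin m × Fin r) R :=
  fun i k => (if i.2.1 = k.1 then P i.1 k.2 i.2.2 else 0) -
    (if i.2.2 = k.2 then algebraMap K R (y i.1 i.2.1 k.1) else 0)

/-- the system of maps from `M` -/
def gapC2 {K : Type u} [Field K] {d n r : ℕ} (x : Fin d → Matrix (Fin n) (Fin n) K)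
    {R : Type u} [CommRing R] [Algebra K R] (P : Fin d → Matrix (Fin r) (Fin r) R) :
    Matrix (Fin d × Fin r × Fin n) (Fin r × Fin n) R :=
  fun i k => (if i.2.2 = k.2 then P i.1 i.2.1 k.1 else 0) -
    (if i.2.1 = k.1 then algebraMap K R (x i.1 k.2 i.2.2) else 0)

theorem gapC1_sum {K : Type u} [Field K] {d m r : ℕ} (y : Fin d → Matrix (Fin m) (Fin m) K)
    {R : Type u} [CommRing R] [Algebra K R] (P : Fin d → Matrix (Fin r) (Fin r) R)
    {V : Type u} [AddCommGroup V] (F : Fin m × Fin r → R → V) (h0 : ∀ k, F k 0 = 0)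
    (hs : ∀ k a b, F k (a - b) = F k a - F k b) (i : Fin d × Fin m × Fin r) :
    ∑ k, F k (gapC1 y P i k) = ∑ q, F (i.2.1, q) (P i.1 q i.2.2) -
      ∑ p, F (p, i.2.2) (algebraMap K R (y i.1 i.2.1 p)) := by
  simp only [gapC1, hs]
  rw [Finset.sum_sub_distrib]
  congr 1
  · rw [Fintype.sum_prod_type, Finset.sum_eq_single i.2.1]
    · simp
    · intro p _ hp
      refine Finset.sum_eq_zero fun q _ => ?_
      simp only
      rw [if_neg (Ne.symm hp), h0]
    · intro h
      exact absurd (Finset.mem_univ _) h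
  · rw [Fintype.sum_prod_type]
    refine Finset.sum_congr rfl fun p _ => ?_
    rw [Finset.sum_eq_single i.2.2]
    · simp
    · intro q _ hq
      simp only
      rw [if_neg (Ne.symm hq), h0]
    · intro h
      exact absurd (Finset.mem_univ _) h

theorem gapC2_sum {K : Type u} [Field K] {d n r : ℕ} (x : Fin d → Matrix (Fin n) (Fin n) K)
    {R : Type u} [CommRing R] [Algebra K R] (P : Fin d → Matrix (Fin r) (Fin r) R)
    (G : Fin r × Fin n → R) (i : Fin d × Fin r × Fin n) :
    (gapC2 x P).mulVec G i = ∑ q, P i.1 i.2.1 q * G (q, i.2.2) -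
      ∑ j, algebraMap K R (x i.1 j i.2.2) * G (i.2.1, j) := by
  simp only [Matrix.mulVec, dotProduct, gapC2, sub_mul]
  rw [Finset.sum_sub_distrib]
  congr 1
  · rw [Fintype.sum_prod_type]
    refine Finset.sum_congr rfl fun q _ => ?_
    rw [Finset.sum_eq_single i.2.2]
    · simp
    · intro j _ hj
      simp only
      rw [if_neg (Ne.symm hj), zero_mul]
    · intro h
      exact absurd (Finset.mem_univ _) h
  · rw [Fintype.sum_prod_type, Finset.sum_eq_single i.2.1]
    · simp
    · intro q _ hq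
      refine Finset.sum_eq_zero fun j _ => ?_
      simp only
      rw [if_neg (Ne.symm hq), zero_mul]
    · intro h
      exact absurd (Finset.mem_univ _) h

theorem gapC1_map {K : Type u} [Field K] {d m r : ℕ} (y : Fin d → Matrix (Fin m) (Fin m) K)
    {R R' : Type u} [CommRing R] [Algebra K R] [CommRing R'] [Algebra K R'] (π : R →ₐ[K] R')
    (P : Fin d → Matrix (Fin r) (Fin r) R) :
    (gapC1 y P).map π = gapC1 y (fun i => (P i).map π) := by
  ext i k
  simp only [gapC1, Matrix.map_apply, map_sub]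
  congr 1
  · split_ifs <;> simp
  · split_ifs <;> simp

theorem gapC2_map {K : Type u} [Field K] {d n r : ℕ} (x : Fin d → Matrix (Fin n) (Fin n) K)
    {R R' : Type u} [CommRing R] [Algebra K R] [CommRing R'] [Algebra K R'] (π : R →ₐ[K] R')
    (P : Fin d → Matrix (Fin r) (Fin r) R) :
    (gapC2 x P).map π = gapC2 x (fun i => (P i).map π) := by
  ext i k
  simp only [gapC2, Matrix.map_apply, map_sub]
  congr 1
  · split_ifs <;> simp
  · split_ifs <;> simp

/-- finitely generated subalgebras of an extension have a point in a finite extension -/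
theorem gap_specialise {K Ω : Type u} [Field K] [Field Ω] [Algebra K Ω] (S : Set Ω)
    (hS : S.Finite) :
    ∃ (E : Type u) (_ : Field E) (_ : Algebra K E), Module.Finite K E ∧
      Nonempty (Algebra.adjoin K S →ₐ[K] E) := by
  obtain ⟨m, hm⟩ := Ideal.exists_maximal (Algebra.adjoin K S)
  let _ : Field (Algebra.adjoin K S ⧸ m) := Ideal.Quotient.field m
  have h1 : Algebra.FiniteType K (Algebra.adjoin K S) := by
    have := Subalgebra.fg_adjoin_finset (R := K) hS.toFinset
    rw [Set.Finite.coe_toFinset] at this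
    exact (Algebra.adjoin K S).fg_iff_finiteType.1 this
  have h2 : Algebra.FiniteType K (Algebra.adjoin K S ⧸ m) :=
    Algebra.FiniteType.of_surjective (Ideal.Quotient.mkₐ K m) (Ideal.Quotient.mkₐ_surjective K m)
  exact ⟨Algebra.adjoin K S ⧸ m, inferInstance, inferInstance,
    finite_of_finite_type_of_isJacobsonRing K _, ⟨Ideal.Quotient.mkₐ K m⟩⟩

end gapext

section gapext2

variable {K Ω A : Type u} [Field K] [Field Ω] [Algebra K Ω] [Ring A] [Algebra K A]
  [Module.Finite K A]

omit [Module.Finite K A] in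
theorem gap_basis_comm {R : Type u} [CommRing R] [Algebra K R] {n m d : ℕ}
    (a : Basis (Fin d) K A) (ρ : A →ₐ[K] Matrix (Fin n) (Fin n) R)
    (ρ' : A →ₐ[K] Matrix (Fin m) (Fin m) R) (H : Matrix (Fin m) (Fin n) R)
    (h : ∀ i, H * ρ (a i) = ρ' (a i) * H) (x : A) : H * ρ x = ρ' x * H := by
  rw [← a.sum_repr x, map_sum, map_sum, Matrix.mul_sum, Matrix.sum_mul]
  refine Finset.sum_congr rfl fun i _ => ?_
  rw [map_smul, map_smul, Matrix.mul_smul, Matrix.smul_mul, h i]

theorem gap_inj1 {d m r : ℕ} (a : Basis (Fin d) K A)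
    (ρY : A →ₐ[K] Matrix (Fin m) (Fin m) K) (ρ : A →ₐ[K] Matrix (Fin r) (Fin r) Ω)
    (hT : InT (Ω ⊗[K] A) (RM (rext ρY Ω)) (RM ρ)) (G : Fin m × Fin r → Ω)
    (hG : (gapC1 (fun i => ρY (a i)) (fun i => ρ (a i))).mulVec G = 0) : G = 0 := by
  have h1 : ∀ i, (Matrix.of fun p q => G (p, q) : Matrix (Fin m) (Fin r) Ω) * ρ (a i) =
      rext ρY Ω (a i) * (Matrix.of fun p q => G (p, q) : Matrix (Fin m) (Fin r) Ω) := by
    intro i
    ext p q
    have h2 := congrFun hG (i, p, q)
    rw [Matrix.mulVec, dotProduct, gapC1_sum (fun i => ρY (a i)) (fun i => ρ (a i))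
      (fun k x => x * G k) (fun k => zero_mul _) (fun k x y => sub_mul _ _ _), Pi.zero_apply,
      sub_eq_zero] at h2
    rw [Matrix.mul_apply, Matrix.mul_apply]
    simp only [Matrix.of_apply] at h2 ⊢
    rw [Finset.sum_congr rfl fun j _ => mul_comm (G (p, j)) (ρ (a i) j q), h2]
    rfl
  obtain ⟨f, hf⟩ := rm_hom ρ (rext ρY Ω) _ (gap_basis_comm a ρ (rext ρY Ω) _ h1)
  have h3 : f = 0 := hT f
  funext k
  obtain ⟨p, q⟩ := k
  have h4 := congrFun (hf (RM.vec.symm (Pi.single q 1))) p
  rw [h3, LinearMap.zero_apply, map_zero, LinearEquiv.apply_symm_apply,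
    Matrix.mulVec_single_one] at h4
  exact h4.symm

theorem gap_inj2 {d n r : ℕ} (a : Basis (Fin d) K A)
    (ρM : A →ₐ[K] Matrix (Fin n) (Fin n) K) (ρ : A →ₐ[K] Matrix (Fin r) (Fin r) Ω)
    (hF : InF (Ω ⊗[K] A) (RM (rext ρM Ω)) (RM ρ)) (G : Fin r × Fin n → Ω)
    (hG : (gapC2 (fun i => ρM (a i)) (fun i => ρ (a i))).mulVec G = 0) : G = 0 := by
  have h1 : ∀ i, (Matrix.of fun p q => G (p, q) : Matrix (Fin r) (Fin n) Ω) * rext ρM Ω (a i) =
      ρ (a i) * (Matrix.of fun p q => G (p, q) : Matrix (Fin r) (Fin n) Ω) := by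
    intro i
    ext p q
    have h2 := congrFun hG (i, p, q)
    rw [gapC2_sum, Pi.zero_apply, sub_eq_zero] at h2
    rw [Matrix.mul_apply, Matrix.mul_apply]
    simp only [Matrix.of_apply] at h2 ⊢
    rw [h2]
    exact Finset.sum_congr rfl fun j _ => mul_comm _ _
  obtain ⟨f, hf⟩ := rm_hom (rext ρM Ω) ρ _ (gap_basis_comm a (rext ρM Ω) ρ _ h1)
  have h3 : f = 0 := hF f
  funext k
  obtain ⟨p, q⟩ := k
  have h4 := congrFun (hf (RM.vec.symm (Pi.single q 1))) p
  rw [h3, LinearMap.zero_apply, map_zero, LinearEquiv.apply_symm_apply,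
    Matrix.mulVec_single_one] at h4
  exact h4.symm

/-- the representation over a finite extension -/
theorem gap_rep {r n m : ℕ} (ρM : A →ₐ[K] Matrix (Fin n) (Fin n) K)
    (ρY : A →ₐ[K] Matrix (Fin m) (Fin m) K) (ρ : A →ₐ[K] Matrix (Fin r) (Fin r) Ω)
    (hT : InT (Ω ⊗[K] A) (RM (rext ρY Ω)) (RM ρ))
    (hF : InF (Ω ⊗[K] A) (RM (rext ρM Ω)) (RM ρ)) {d : ℕ} (a : Basis (Fin d) K A) :
    ∃ (E : Type u) (_ : Field E) (_ : Algebra K E) (ρE : A →ₐ[K] Matrix (Fin r) (Fin r) E)
      (D1 : Matrix (Fin m × Fin r) (Fin d × Fin m × Fin r) E)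
      (D2 : Matrix (Fin r × Fin n) (Fin d × Fin r × Fin n) E), Module.Finite K E ∧
      D1 * gapC1 (fun i => ρY (a i)) (fun i => ρE (a i)) = 1 ∧
      D2 * gapC2 (fun i => ρM (a i)) (fun i => ρE (a i)) = 1 := by
  obtain ⟨D1, hD1⟩ := gap_left_inv _ (gap_inj1 a ρY ρ hT)
  obtain ⟨D2, hD2⟩ := gap_left_inv _ (gap_inj2 a ρM ρ hF)
  let S : Set Ω := (Set.range fun x : Fin d × Fin r × Fin r => ρ (a x.1) x.2.1 x.2.2) ∪
    ((Set.range fun x : (Fin m × Fin r) × (Fin d × Fin m × Fin r) => D1 x.1 x.2) ∪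
    (Set.range fun x : (Fin r × Fin n) × (Fin d × Fin r × Fin n) => D2 x.1 x.2))
  have hS : S.Finite := (Set.finite_range _).union ((Set.finite_range _).union
    (Set.finite_range _))
  obtain ⟨E, _, _, hE, ⟨π⟩⟩ := gap_specialise (K := K) S hS
  have e1 : ∀ i p q, ρ (a i) p q ∈ Algebra.adjoin K S := fun i p q =>
    Algebra.subset_adjoin (Or.inl ⟨(i, p, q), rfl⟩)
  have e2 : ∀ x y, D1 x y ∈ Algebra.adjoin K S := fun x y =>
    Algebra.subset_adjoin (Or.inr (Or.inl ⟨(x, y), rfl⟩))
  have e3 : ∀ x y, D2 x y ∈ Algebra.adjoin K S := fun x y =>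
    Algebra.subset_adjoin (Or.inr (Or.inr ⟨(x, y), rfl⟩))
  let j : Matrix (Fin r) (Fin r) (Algebra.adjoin K S) →ₐ[K] Matrix (Fin r) (Fin r) Ω :=
    (Algebra.adjoin K S).val.mapMatrix
  have hj : Injective j := by
    intro X Y h
    ext p q
    exact congrFun (congrFun h p) q
  let P1 : Fin d → Matrix (Fin r) (Fin r) (Algebra.adjoin K S) :=
    fun i p q => ⟨ρ (a i) p q, e1 i p q⟩
  have hP1 : ∀ i, j (P1 i) = ρ (a i) := fun i => rfl
  have hr : ∀ x, ρ x ∈ j.range := by
    intro x
    rw [← a.sum_repr x, map_sum]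
    refine Subalgebra.sum_mem _ fun i _ => ?_
    rw [map_smul]
    exact Subalgebra.smul_mem _ ((AlgHom.mem_range j).2 ⟨P1 i, hP1 i⟩) _
  let ρ1 : A →ₐ[K] Matrix (Fin r) (Fin r) (Algebra.adjoin K S) :=
    ((AlgEquiv.ofInjective j hj).symm : j.range →ₐ[K] _).comp (ρ.codRestrict j.range hr)
  have hρ1 : ∀ i, ρ1 (a i) = P1 i := by
    intro i
    apply hj
    rw [hP1]
    have := (AlgEquiv.ofInjective j hj).apply_symm_apply (ρ.codRestrict j.range hr (a i))
    exact congrArg Subtype.val this
  refine ⟨E, inferInstance, inferInstance, π.mapMatrix.comp ρ1,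
    (Matrix.of fun x y => ⟨D1 x y, e2 x y⟩ : Matrix _ _ (Algebra.adjoin K S)).map π,
    (Matrix.of fun x y => ⟨D2 x y, e3 x y⟩ : Matrix _ _ (Algebra.adjoin K S)).map π, hE, ?_, ?_⟩
  · have h1 : (fun i => (π.mapMatrix.comp ρ1) (a i)) = fun i => (P1 i).map π := by
      funext i
      rw [AlgHom.comp_apply, hρ1]
      rfl
    rw [h1, ← gapC1_map, ← Matrix.map_mul]
    have h2 : (Matrix.of fun x y => ⟨D1 x y, e2 x y⟩ : Matrix _ _ (Algebra.adjoin K S)) *
        gapC1 (fun i => ρY (a i)) P1 = 1 := by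
      have h3 : Injective (fun X : Matrix (Fin m × Fin r) (Fin m × Fin r)
          (Algebra.adjoin K S) => X.map (Algebra.adjoin K S).val) := by
        intro X Y h
        ext p q
        exact congrFun (congrFun h p) q
      apply h3
      simp only
      rw [Matrix.map_mul, gapC1_map, Matrix.map_one _ (map_zero _) (map_one _)]
      exact hD1
    rw [h2, Matrix.map_one _ (map_zero _) (map_one _)]
  · have h1 : (fun i => (π.mapMatrix.comp ρ1) (a i)) = fun i => (P1 i).map π := by
      funext i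
      rw [AlgHom.comp_apply, hρ1]
      rfl
    rw [h1, ← gapC2_map, ← Matrix.map_mul]
    have h2 : (Matrix.of fun x y => ⟨D2 x y, e3 x y⟩ : Matrix _ _ (Algebra.adjoin K S)) *
        gapC2 (fun i => ρM (a i)) P1 = 1 := by
      have h3 : Injective (fun X : Matrix (Fin r × Fin n) (Fin r × Fin n)
          (Algebra.adjoin K S) => X.map (Algebra.adjoin K S).val) := by
        intro X Y h
        ext p q
        exact congrFun (congrFun h p) q
      apply h3
      simp only
      rw [Matrix.map_mul, gapC2_map, Matrix.map_one _ (map_zero _) (map_one _)]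
      exact hD2
    rw [h2, Matrix.map_one _ (map_zero _) (map_one _)]

end gapext2

section gapext3

variable {K Ω A : Type u} [Field K] [Field Ω] [Algebra K Ω] [Ring A] [Algebra K A]
  [Module.Finite K A]
variable {M Y : Type u} [AddCommGroup M] [Module A M] [AddCommGroup Y] [Module A Y]
    [Module K M] [IsScalarTower K A M] [Module K Y] [IsScalarTower K A Y]

omit [Module.Finite K A] in
theorem gap_zero (h : TPair A M Y) {n m r d : ℕ} (ρM : A →ₐ[K] Matrix (Fin n) (Fin n) K)
    (ρY : A →ₐ[K] Matrix (Fin m) (Fin m) K) (eM : M ≃ₗ[K] (Fin n → K))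
    (heM : ∀ (a : A) (x : M), eM (a • x) = (ρM a).mulVec (eM x)) (eY : Y ≃ₗ[K] (Fin m → K))
    (heY : ∀ (a : A) (x : Y), eY (a • x) = (ρY a).mulVec (eY x)) (a : Fin d → A)
    {E : Type u} [Field E] [Algebra K E] [Module.Finite K E]
    (ρE : A →ₐ[K] Matrix (Fin r) (Fin r) E)
    (D1 : Matrix (Fin m × Fin r) (Fin d × Fin m × Fin r) E)
    (D2 : Matrix (Fin r × Fin n) (Fin d × Fin r × Fin n) E)
    (hD1 : D1 * gapC1 (fun i => ρY (a i)) (fun i => ρE (a i)) = 1)
    (hD2 : D2 * gapC2 (fun i => ρM (a i)) (fun i => ρE (a i)) = 1) : r = 0 := by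
  let _ : Module A (Fin r → E) := Module.compHom (Fin r → E)
    ((Matrix.toLinAlgEquiv' (R := E) (n := Fin r)).toAlgHom.toRingHom.comp ρE.toRingHom)
  have hsm : ∀ (b : A) (v : Fin r → E), b • v = (ρE b).mulVec v := fun b v => rfl
  have : IsScalarTower K A (Fin r → E) := ⟨fun c b v => by
    rw [hsm, hsm, map_smul, Matrix.smul_mulVec]⟩
  have : Module.Finite A (Fin r → E) := Module.Finite.of_restrictScalars_finite K A _
  have hT : InT A Y (Fin r → E) := by
    intro f
    let H : Fin m × Fin r → (E →ₗ[K] K) := fun k => (LinearMap.proj k.1).comp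
      ((eY.toLinearMap.comp (f.restrictScalars K)).comp
        (LinearMap.single K (fun _ => E) k.2))
    have hH : ∀ k ω, H k ω = eY (f (Pi.single k.2 ω)) k.1 := fun k ω => rfl
    have h1 : ∀ k ω, H k ω = 0 := by
      refine gap_func _ D1 hD1 H fun i ω => ?_
      rw [gapC1_sum (fun i => ρY (a i)) (fun i => ρE (a i)) (fun k x => H k (ω * x))
        (fun k => by rw [mul_zero, map_zero]) (fun k x y => by rw [mul_sub, map_sub]),
        sub_eq_zero]
      have h2 : a i.1 • (Pi.single i.2.2 ω : Fin r → E) =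
          ∑ q, Pi.single q (ω * ρE (a i.1) q i.2.2) := by
        rw [hsm, Matrix.mulVec_single]
        funext q
        rw [Finset.sum_apply, Finset.sum_eq_single q]
        · simp [mul_comm]
        · intro b _ hb
          rw [Pi.single_eq_of_ne (Ne.symm hb)]
        · intro h
          exact absurd (Finset.mem_univ q) h
      have h3 := congrArg (fun v => eY (f v) i.2.1) h2
      simp only [map_smul, map_sum, heY, Finset.sum_apply] at h3
      simp only [hH]
      rw [← h3, Matrix.mulVec, dotProduct]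
      refine Finset.sum_congr rfl fun p _ => ?_
      have h4 := (H (p, i.2.2)).map_smul (ρY (a i.1) i.2.1 p) ω
      rw [Algebra.smul_def, mul_comm] at h4
      rw [hH, hH] at h4
      rw [h4]
      rfl
    refine LinearMap.ext fun v => ?_
    have h5 : v = ∑ q, Pi.single q (v q) := by
      rw [Finset.univ_sum_single]
    rw [h5, map_sum, LinearMap.zero_apply]
    refine Finset.sum_eq_zero fun q _ => ?_
    apply eY.injective
    rw [map_zero]
    funext p
    exact h1 (p, q) (v q)
  have hF : InF A M (Fin r → E) := by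
    intro g
    let G : Fin r × Fin n → E := fun k => g (eM.symm (Pi.single k.2 1)) k.1
    have h1 : G = 0 := by
      refine gap_vec _ D2 hD2 G ?_
      funext i
      rw [gapC2_sum, Pi.zero_apply, sub_eq_zero]
      have h2 : a i.1 • eM.symm (Pi.single i.2.2 1) =
          ∑ j, ρM (a i.1) j i.2.2 • eM.symm (Pi.single j 1) := by
        apply eM.injective
        rw [heM, eM.apply_symm_apply, Matrix.mulVec_single_one, map_sum]
        funext j
        rw [Finset.sum_apply, Finset.sum_eq_single j]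
        · rw [map_smul, eM.apply_symm_apply, Pi.smul_apply, Pi.single_eq_same, smul_eq_mul,
            mul_one]
          rfl
        · intro b _ hb
          rw [map_smul, eM.apply_symm_apply, Pi.smul_apply, Pi.single_eq_of_ne (Ne.symm hb),
            smul_zero]
        · intro h
          exact absurd (Finset.mem_univ j) h
      have h3 := congrArg (fun v => g v i.2.1) h2
      simp only [map_smul, map_sum, Finset.sum_apply] at h3
      rw [hsm, Matrix.mulVec, dotProduct] at h3
      refine h3.trans (Finset.sum_congr rfl fun j _ => ?_)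
      have h4 := (g.restrictScalars K).map_smul (ρM (a i.1) j i.2.2) (eM.symm (Pi.single j 1))
      have h5 := congrFun h4 i.2.1
      rw [Pi.smul_apply, Algebra.smul_def] at h5
      exact h5
    refine LinearMap.ext fun v => ?_
    have h5 : v = ∑ j, eM v j • eM.symm (Pi.single j 1) := by
      apply eM.injective
      rw [map_sum]
      funext j
      rw [Finset.sum_apply, Finset.sum_eq_single j]
      · rw [map_smul, eM.apply_symm_apply, Pi.smul_apply, Pi.single_eq_same, smul_eq_mul,
          mul_one]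
      · intro b _ hb
        rw [map_smul, eM.apply_symm_apply, Pi.smul_apply, Pi.single_eq_of_ne (Ne.symm hb),
          smul_zero]
      · intro h
        exact absurd (Finset.mem_univ j) h
    rw [h5, map_sum, LinearMap.zero_apply]
    refine Finset.sum_eq_zero fun j _ => ?_
    have h4 := (g.restrictScalars K).map_smul (eM v j) (eM.symm (Pi.single j 1))
    refine h4.trans ?_
    have h6 : (g.restrictScalars K) (eM.symm (Pi.single j 1)) = 0 := by
      funext q
      exact congrFun h1 (q, j)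
    rw [h6, smul_zero]
  have hs := h.disj (Fin r → E) inferInstance hT hF
  by_contra hr
  obtain ⟨r', rfl⟩ := Nat.exists_eq_succ_of_ne_zero hr
  have := congrFun (hs.elim (fun _ => (0 : E)) (fun _ => 1)) 0
  exact zero_ne_one this

theorem gap_ext (h : TPair A M Y) {n m : ℕ} (ρM : A →ₐ[K] Matrix (Fin n) (Fin n) K)
    (ρY : A →ₐ[K] Matrix (Fin m) (Fin m) K) (eM : M ≃ₗ[K] (Fin n → K))
    (heM : ∀ (a : A) (x : M), eM (a • x) = (ρM a).mulVec (eM x)) (eY : Y ≃ₗ[K] (Fin m → K))
    (heY : ∀ (a : A) (x : Y), eY (a • x) = (ρY a).mulVec (eY x)) :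
    TPair (Ω ⊗[K] A) (RM (rext ρM Ω)) (RM (rext ρY Ω)) := by
  refine ⟨inferInstance, inferInstance, ?_, ?_⟩
  · intro f
    obtain ⟨H, hH, hf⟩ := rm_hom' _ _ f
    have h1 : H = 0 := by
      ext p q
      rw [Matrix.zero_apply, ← Module.forall_dual_apply_eq_zero_iff K]
      intro ξ
      let g : M →ₗ[A] Y :=
        { toFun := fun x => eY.symm ((H.map ξ).mulVec (eM x))
          map_add' := fun x y => by rw [map_add, Matrix.mulVec_add, map_add]
          map_smul' := fun b x => by
            apply eY.injective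
            rw [heM, RingHom.id_apply, heY, eY.apply_symm_apply, eY.apply_symm_apply,
              Matrix.mulVec_mulVec, Matrix.mulVec_mulVec]
            congr 1
            ext i j
            have h2 := congrArg ξ (congrFun (congrFun (hH b) i) j)
            rw [Matrix.mul_apply, Matrix.mul_apply, map_sum, map_sum] at h2
            rw [Matrix.mul_apply, Matrix.mul_apply]
            have h3 : ∀ k, ξ (H i k * rext ρM Ω b k j) = H.map ξ i k * ρM b k j := by
              intro k
              rw [rext_apply, Matrix.map_apply, mul_comm, ← Algebra.smul_def, map_smul,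
                smul_eq_mul, mul_comm]
              rfl
            have h4 : ∀ k, ξ (rext ρY Ω b i k * H k j) = ρY b i k * H.map ξ k j := by
              intro k
              rw [rext_apply, Matrix.map_apply, ← Algebra.smul_def, map_smul, smul_eq_mul]
              rfl
            rw [Finset.sum_congr rfl fun k _ => h3 k, Finset.sum_congr rfl fun k _ => h4 k] at h2
            exact h2 }
      have h5 := LinearMap.congr_fun (h.hMY g) (eM.symm (Pi.single q 1))
      have h6 : (H.map ξ).mulVec (Pi.single q 1) = 0 := by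
        have h7 : eY.symm ((H.map ξ).mulVec (eM (eM.symm (Pi.single q 1)))) = 0 := h5
        rw [eM.apply_symm_apply] at h7
        rw [← eY.apply_symm_apply ((H.map ξ).mulVec (Pi.single q 1)), h7, map_zero]
      rw [Matrix.mulVec_single_one] at h6
      exact congrFun h6 p
    refine LinearMap.ext fun v => ?_
    apply RM.vec.injective
    rw [hf, h1, Matrix.zero_mulVec, LinearMap.zero_apply, map_zero]
  · intro N _ _ hN hT hF
    obtain ⟨r, ρ, ⟨e⟩⟩ := exists_rm (K := K) (Ω := Ω) (A := A) N
    have hT' : InT (Ω ⊗[K] A) (RM (rext ρY Ω)) (RM ρ) :=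
      hT.of_surj e.toLinearMap e.surjective
    have hF' : InF (Ω ⊗[K] A) (RM (rext ρM Ω)) (RM ρ) :=
      hF.of_inj e.symm.toLinearMap e.symm.injective
    obtain ⟨E, _, _, ρE, D1, D2, hE, hD1, hD2⟩ :=
      gap_rep ρM ρY ρ hT' hF' (Module.finBasis K A)
    have hr := gap_zero h ρM ρY eM heM eY heY _ ρE D1 D2 hD1 hD2
    subst hr
    have : Subsingleton (RM ρ) := RM.vec.toEquiv.subsingleton
    exact e.toEquiv.subsingleton

end gapext3

end BicG
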