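import Pool.Agent.Helper16.BicG.PtInst
import Pool.Agent.Helper16.BicG.Conv
import Pool.Agent.Helper16.BicG.BigField
import Pool.Agent.Helper16.BicG.ExistsRM
import Pool.Agent.Helper16.BicG.GapExt
import Pool.Agent.Helper16.BicG.BadExt
import Pool.Agent.Helper16.BicG.CoreG

/-!
Bicompact torsion classes are functorially finite, over every field.
-/

universe u

namespace BicG

open Function Module
open Bic (InT InF SES kmod kmod_tower IsTorsionClass IsTorsionFreeClass IsBicompact perp
  IsFunctoriallyFinite isTorsionFreeClass_inF isTorsionClass_inT mem_of_mkQ mkQ_zero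
  exists_left_approx inT_fin_pi factor_inj torsionHull torsionFreeHull)
open scoped TensorProduct

/-- no module is bad -/
theorem not_bad (K : Type u) [Field K] {A : Type u} [Ring A] [Algebra K A] [Module.Finite K A]
    {M Y : Type u} [AddCommGroup M] [Module A M] [AddCommGroup Y] [Module A Y]
    (h : TPair A M Y) (X : Type u) [AddCommGroup X] [Module A X] (hX : Ob A Y X) :
    ¬ Bad A M Y X := by
  intro hb
  obtain ⟨Ω, _, _, hcl, hΩ, hK⟩ := exists_big K
  let _ := kmod K A M
  let _ := kmod K A Y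
  let _ := kmod K A X
  have := kmod_tower K A M
  have := kmod_tower K A Y
  have := kmod_tower K A X
  have := h.finM
  have := h.finY
  have := hX.fin
  obtain ⟨n, ρM, eM, heM⟩ := exists_rep (K := K) (A := A) M
  obtain ⟨m, ρY, eY, heY⟩ := exists_rep (K := K) (A := A) Y
  obtain ⟨r, ρX, eX, heX⟩ := exists_rep (K := K) (A := A) X
  have hp := gap_ext (Ω := Ω) h ρM ρY eM heM eY heY
  obtain ⟨h1, h2⟩ := bad_scal (Ω := Ω) ρM ρY ρX eM heM eY heY eX heX hX
  exact not_bad_big hΩ hK hp _ h1 (h2 hb)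

/-- The main theorem in elementary terms. -/
theorem core2 (K : Type u) [Field K] (A : Type u) [Ring A] [Algebra K A] [Module.Finite K A]
    (M Y : Type u) [AddCommGroup M] [Module A M] [AddCommGroup Y] [Module A Y]
    (hfM : Module.Finite A M) (hfY : Module.Finite A Y) (hMY : InT A Y M)
    (hdisj : ∀ (N : Type u) [AddCommGroup N] [Module A N], Module.Finite A N → InT A Y N →
      InF A M N → Subsingleton N) :
    ∃ (P : Type u) (_ : AddCommGroup P) (_ : Module A P), Module.Finite A P ∧ InT A Y P ∧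
      ∀ (Z : Type u) [AddCommGroup Z] [Module A Z], Module.Finite A Z → InT A Y Z →
        Bic.InFac A P Z := by
  have hN : IsNoetherianRing A := IsNoetherianRing.of_finite K A
  have hAr : IsArtinianRing A := IsArtinianRing.of_finite K A
  have h : TPair A M Y := ⟨hfM, hfY, hMY, hdisj⟩
  obtain ⟨P, _, _, hP, hZ⟩ := core K h (fun X _ _ hX => not_bad K h X hX)
  exact ⟨P, inferInstance, inferInstance, hP.fin, hP.inT, fun Z _ _ hf hT => hZ Z ⟨hf, hT⟩⟩

/-- Bicompact torsion classes are functorially finite. -/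
theorem bicompact_functoriallyFinite (K : Type u) [Field K] (A : Type u) [Ring A] [Algebra K A]
    [Module.Finite K A] (T : ModuleCat.{u} A → Prop) (hT : IsTorsionClass A T)
    (hb : IsBicompact A T) : IsFunctoriallyFinite A T := by
  have hN : IsNoetherianRing A := IsNoetherianRing.of_finite K A
  obtain ⟨⟨M, hfM, hTM⟩, ⟨N, hfN, hTN⟩⟩ := hb
  have hMT : T M := by rw [hTM]; exact fun T' _ h => h
  have hNF : perp A T N := by rw [hTN]; exact fun F' _ h => h
  have hTiff : ∀ (X : Type u) [AddCommGroup X] [Module A X], Module.Finite A X → InT A N X →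
      T (ModuleCat.of A X) := by
    intro X _ _ hfX hX
    obtain ⟨L, hL, hXL⟩ := hT.exists_torsion hMT X hfX
    rw [hTN] at hXL
    have h1 := hXL _ (isTorsionFreeClass_inF (A := A) X) ⟨hfN, hX⟩
    have h2 : L.mkQ = 0 := h1.2 L.mkQ
    refine hT.surj L.subtype ?_ hL
    intro x
    exact ⟨⟨x, mem_of_mkQ (LinearMap.congr_fun h2 x)⟩, rfl⟩
  have hTT : ∀ X : ModuleCat.{u} A, T X → InT A N X := fun X hX => hNF.2 X hX
  have hFF : ∀ (W : Type u) [AddCommGroup W] [Module A W], InF A M W →
      ∀ X : ModuleCat.{u} A, T X → ∀ f : X →ₗ[A] W, f = 0 := by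
    intro W _ _ hW X hX
    rw [hTM] at hX
    exact (hX _ (isTorsionClass_inT (A := A) W) ⟨hfM, hW⟩).2
  obtain ⟨P, _, _, hfP, hPT, hP⟩ := core2 K A M N hfM hfN (hTT M hMT) (by
    intro Z _ _ hfZ hZ hZF
    have h1 := hFF Z hZF (ModuleCat.of A Z) (hTiff Z hfZ hZ) LinearMap.id
    constructor
    intro a b
    have ha : a = 0 := LinearMap.congr_fun h1 a
    have hb : b = 0 := LinearMap.congr_fun h1 b
    rw [ha, hb])
  refine ⟨?_, ?_⟩
  · intro X hfX
    obtain ⟨m, Z, _, _, q, f, hq, hf⟩ := exists_left_approx (A := A) K P hfP X hfX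
    refine ⟨ModuleCat.of A Z, f, ?_, ?_⟩
    · apply hTiff Z (Module.Finite.of_surjective q hq)
      exact (inT_fin_pi hPT).of_surj q hq
    · intro Z' g hZ'
      exact hf Z' g (hP Z' (hT.fg Z' hZ') (hTT Z' hZ'))
  · intro X hfX
    obtain ⟨L, hL, hXL⟩ := hT.exists_torsion hMT X hfX
    refine ⟨ModuleCat.of A L, L.subtype, hL, ?_⟩
    intro Z' g hZ'
    have h1 : L.mkQ.comp g = 0 := hXL.2 Z' hZ' _
    obtain ⟨h, hh⟩ := factor_inj L.subtype L.injective_subtype g (fun x =>
      ⟨⟨g x, mem_of_mkQ (LinearMap.congr_fun h1 x)⟩, rfl⟩)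
    exact ⟨h, LinearMap.ext hh⟩

/-- Bicompact torsion classes are the functorially finite ones. -/
theorem bicompact_iff (K : Type u) [Field K] (A : Type u) [Ring A] [Algebra K A]
    [Module.Finite K A] (T : ModuleCat.{u} A → Prop) (hT : IsTorsionClass A T) :
    IsBicompact A T ↔ IsFunctoriallyFinite A T :=
  ⟨bicompact_functoriallyFinite K A T hT, functoriallyFinite_bicompact K hT⟩

end BicG
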