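import Pool.Agent.Helper16.BicG.Defs

/-!
Module GEN.
-/

universe u

namespace BicG

open Function Module
open Bic (InT InF SES torIn)

theorem gen_torsion {A : Type u} [Ring A] {Y V : Type u} [AddCommGroup Y] [Module A Y]
    [AddCommGroup V] [Module A V] (G : ℕ → Submodule A V) (hmono : Monotone G)
    (hfg : (G 0).FG) (hstep : ∀ n, G (n + 1) ≤ G n ⊔ torIn A Y (G (n + 1)))
    (hsup : ∀ v ∈ G 0, ∃ k, v ∈ torIn A Y (G k)) : ∃ N, ∀ n, N ≤ n → InT A Y (G n) := by
  have hm : ∀ {K L : Submodule A V}, K ≤ L → torIn A Y K ≤ torIn A Y L := by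
    intro K L h
    exact le_sSup ⟨(Bic.torIn_le K).trans h, Bic.torIn_inT K⟩
  have hN : ∃ N, G 0 ≤ torIn A Y (G N) := by
    obtain ⟨S, hS⟩ := hfg
    have h1 : ∀ v ∈ S, ∃ k, v ∈ torIn A Y (G k) := fun v hv =>
      hsup v (hS ▸ Submodule.subset_span hv)
    choose! k hk using h1
    refine ⟨S.sup k, ?_⟩
    rw [← hS, Submodule.span_le]
    intro v hv
    exact hm (hmono (Finset.le_sup (f := k) hv)) (hk v hv)
  obtain ⟨N, hN⟩ := hN
  refine ⟨N, fun n hn => ?_⟩
  have h2 : ∀ m, m ≤ n → G m ≤ torIn A Y (G n) := by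
    intro m
    induction m with
    | zero => intro _; exact hN.trans (hm (hmono hn))
    | succ m ih =>
      intro hmn
      exact (hstep m).trans (sup_le (ih (by omega)) (hm (hmono hmn)))
  have h3 : torIn A Y (G n) = G n := le_antisymm (Bic.torIn_le _) (h2 n le_rfl)
  have h4 := Bic.torIn_inT (A := A) (Y := Y) (G n)
  rw [h3] at h4
  exact h4

end BicG
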