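import Mathlib

universe u

namespace BicG

open Function Cardinal

theorem exists_algIndep_fin {k Ω : Type u} [Field k] [Field Ω] [Algebra k Ω] [IsAlgClosed Ω]
    (hΩ : Cardinal.aleph0 < Cardinal.mk Ω) (hk : Cardinal.mk k < Cardinal.mk Ω) (d : ℕ) :
    ∃ η : Fin d → Ω, AlgebraicIndependent k η := by
  obtain ⟨ι, v, hv⟩ := exists_isTranscendenceBasis' k Ω
  have h1 := IsAlgClosed.cardinal_le_max_transcendence_basis' v hv
  have hι : Infinite ι := by
    by_contra hfin
    rw [not_infinite_iff_finite] at hfin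
    have h2 : #ι < ℵ₀ := Cardinal.lt_aleph0_of_finite ι
    have h3 : max (max #k #ι) ℵ₀ < #Ω := max_lt (max_lt hk (h2.trans hΩ)) hΩ
    exact absurd h1 (not_le.mpr h3)
  let e : Fin d ↪ ι := (Fin.valEmbedding).trans (Infinite.natEmbedding ι)
  exact ⟨v ∘ e, hv.1.comp e e.injective⟩

theorem exists_generic {k Ω : Type u} [Field k] [Field Ω] [Algebra k Ω] [IsAlgClosed Ω]
    (hΩ : Cardinal.aleph0 < Cardinal.mk Ω) (hk : Cardinal.mk k < Cardinal.mk Ω) {σ : Type}
    [Finite σ] (p : Ideal (MvPolynomial σ k)) [p.IsPrime] :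
    ∃ c : σ → Ω, ∀ q : MvPolynomial σ k, MvPolynomial.aeval c q = 0 ↔ q ∈ p := by
  set R := MvPolynomial σ k ⧸ p with hR
  obtain ⟨d, g, hg, hint⟩ := exists_integral_inj_algHom_of_fg k R
  obtain ⟨η, hη⟩ := exists_algIndep_fin hΩ hk d
  let φ0 : MvPolynomial (Fin d) k →ₐ[k] Ω := MvPolynomial.aeval η
  have hφ0 : Injective φ0 := hη
  let := g.toRingHom.toAlgebra
  let := φ0.toRingHom.toAlgebra
  have i1 : IsScalarTower k (MvPolynomial (Fin d) k) R :=
    IsScalarTower.of_algebraMap_eq fun x => (g.commutes x).symm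
  have i2 : IsScalarTower k (MvPolynomial (Fin d) k) Ω :=
    IsScalarTower.of_algebraMap_eq fun x => (φ0.commutes x).symm
  have i3 : Algebra.IsIntegral (MvPolynomial (Fin d) k) R := ⟨hint⟩
  have i4 : FaithfulSMul (MvPolynomial (Fin d) k) R :=
    (faithfulSMul_iff_algebraMap_injective _ _).mpr hg
  have i5 : FaithfulSMul (MvPolynomial (Fin d) k) Ω :=
    (faithfulSMul_iff_algebraMap_injective _ _).mpr hφ0
  have i6 : IsDomain R := Ideal.Quotient.isDomain p
  let ψ : R →ₐ[MvPolynomial (Fin d) k] Ω := IsAlgClosed.lift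
  have hψ : Injective ψ := by
    have h1 : Ideal.comap (algebraMap (MvPolynomial (Fin d) k) R)
        (RingHom.ker ψ.toRingHom) = ⊥ := by
      rw [eq_bot_iff]
      intro x hx
      have h2 : ψ (algebraMap _ R x) = 0 := hx
      rw [ψ.commutes] at h2
      have h3 := hφ0 (h2.trans (map_zero φ0).symm)
      exact h3
    have h2 := Ideal.eq_bot_of_comap_eq_bot h1
    exact (RingHom.injective_iff_ker_eq_bot ψ.toRingHom).mpr h2
  refine ⟨fun s => ψ (Ideal.Quotient.mk p (.X s)), fun q => ?_⟩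
  have hcomp : (MvPolynomial.aeval fun s => ψ (Ideal.Quotient.mk p (.X s)) :
      MvPolynomial σ k →ₐ[k] Ω) = (ψ.restrictScalars k).comp (Ideal.Quotient.mkₐ k p) := by
    apply MvPolynomial.algHom_ext
    intro s
    simp
    rfl
  rw [hcomp]
  change ψ (Ideal.Quotient.mk p q) = 0 ↔ _
  rw [← Ideal.Quotient.eq_zero_iff_mem]
  constructor
  · intro h
    exact hψ (h.trans (map_zero ψ).symm)
  · intro h
    rw [h, map_zero]

end BicG
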