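import Mathlib

/-!
Two facts about finite quotients of commutative algebras.
-/

universe u

namespace BicG

open Function Module
open scoped Polynomial

theorem ideal_step {K B : Type u} [Field K] [IsAlgClosed K] [CommRing B] [Algebra K B]
    (I : Ideal B) [Module.Finite K (B ⧸ I)] (J : Ideal B) (hIJ : I < J) :
    ∃ (J' : Ideal B) (χ : B →ₐ[K] K) (κ : J →ₗ[K] K), I ≤ J' ∧ J' < J ∧
      (∀ (b : B) (z : J), κ (b • z) = χ b * κ z) ∧ (∀ z : J, κ z = 0 ↔ (z : B) ∈ J') := by
  classical
  -- the quotient `J / I`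
  let I' : Submodule B J := Submodule.comap J.subtype I
  have hfin : Module.Finite K (J ⧸ I') := by
    let f : (J ⧸ I') →ₗ[B] (B ⧸ I) := Submodule.mapQ I' I J.subtype le_rfl
    have hf : Injective (f.restrictScalars K) := by
      intro a b hab
      have hab' : f a = f b := hab
      revert hab'
      refine Submodule.Quotient.induction_on _ a fun a => ?_
      refine Submodule.Quotient.induction_on _ b fun b => ?_
      intro h
      rw [Submodule.mapQ_apply, Submodule.mapQ_apply, Submodule.Quotient.eq] at h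
      rw [Submodule.Quotient.eq]
      exact h
    exact Module.Finite.of_injective (f.restrictScalars K) hf
  have hfinB : Module.Finite B (J ⧸ I') := Module.Finite.of_restrictScalars_finite K B _
  have hnt : Nontrivial (J ⧸ I') := by
    obtain ⟨x, hxJ, hxI⟩ := Set.exists_of_ssubset hIJ
    refine ⟨⟨Submodule.Quotient.mk ⟨x, hxJ⟩, 0, fun h => hxI ?_⟩⟩
    rw [Submodule.Quotient.mk_eq_zero] at h
    exact h
  obtain ⟨Q, hQ, _⟩ := (eq_top_or_exists_le_coatom (⊥ : Submodule B (J ⧸ I'))).resolve_left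
    (bot_ne_top)
  have hsimple : IsSimpleModule B ((J ⧸ I') ⧸ Q) := isSimpleModule_iff_isCoatom.2 hQ
  obtain ⟨m, hm, ⟨e⟩⟩ := isSimpleModule_iff_quot_maximal.1 hsimple
  have hfin2 : Module.Finite K (B ⧸ m) :=
    Module.Finite.of_surjective (((e.toLinearMap ∘ₗ Q.mkQ)).restrictScalars K)
      (e.surjective.comp (Submodule.mkQ_surjective Q))
  let _ : Field (B ⧸ m) := Ideal.Quotient.field m
  have hbij : Bijective (algebraMap K (B ⧸ m)) :=
    IsAlgClosed.algebraMap_bijective_of_isIntegral
  let ε : K ≃ₐ[K] (B ⧸ m) := AlgEquiv.ofBijective (Algebra.ofId K (B ⧸ m)) hbij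
  let l : J →ₗ[B] (B ⧸ m) := e.toLinearMap ∘ₗ Q.mkQ ∘ₗ I'.mkQ
  have hl : Surjective l := e.surjective.comp ((Submodule.mkQ_surjective Q).comp
    (Submodule.mkQ_surjective I'))
  have hl0 : ∀ z : J, (z : B) ∈ I → l z = 0 := by
    intro z hz
    have : I'.mkQ z = 0 := (Submodule.Quotient.mk_eq_zero I').2 hz
    show e (Q.mkQ (I'.mkQ z)) = 0
    rw [this, map_zero, map_zero]
  refine ⟨(LinearMap.ker l).map J.subtype, (ε.symm : (B ⧸ m) →ₐ[K] K).comp
    (Ideal.Quotient.mkₐ K m), (ε.symm.toLinearMap).comp (l.restrictScalars K), ?_, ?_, ?_, ?_⟩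
  · intro x hx
    exact ⟨⟨x, hIJ.le hx⟩, hl0 _ hx, rfl⟩
  · refine lt_of_le_of_ne (Submodule.map_subtype_le J _) fun h => ?_
    obtain ⟨z, hz⟩ := hl 1
    have hz' : (z : B) ∈ (LinearMap.ker l).map J.subtype := by rw [h]; exact z.2
    obtain ⟨z', hz'', he⟩ := hz'
    have : z' = z := Subtype.ext he
    subst this
    have h0 : l z' = 0 := hz''
    rw [h0] at hz
    exact zero_ne_one hz
  · intro b z
    show ε.symm (l (b • z)) = ε.symm (Ideal.Quotient.mk m b) * ε.symm (l z)
    rw [map_smul, ← map_mul]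
    rfl
  · intro z
    show ε.symm (l z) = 0 ↔ _
    rw [map_eq_zero_iff ε.symm ε.symm.injective]
    constructor
    · intro h
      exact ⟨z, h, rfl⟩
    · rintro ⟨z', hz', he⟩
      have : z' = z := Subtype.ext he
      subst this
      exact hz'

theorem finite_quot_pow {K B : Type u} [Field K] [CommRing B] [Algebra K B]
    [Algebra K[X] B] [IsScalarTower K K[X] B] [Module.Finite K[X] B] (n : ℕ) :
    Module.Finite K (B ⧸ Ideal.span {(algebraMap K[X] B Polynomial.X) ^ n}) := by
  obtain ⟨e, f, hf⟩ := Module.Finite.exists_fin' K[X] B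
  let D := Polynomial.degreeLT K n
  have hD : Module.Finite K D :=
    Module.Finite.equiv (Polynomial.degreeLTEquiv K n).symm
  let x := algebraMap K[X] B Polynomial.X
  let F : (Fin e → D) →ₗ[K] (B ⧸ Ideal.span {x ^ n}) :=
    ((Ideal.Quotient.mkₐ K (Ideal.span {x ^ n})).toLinearMap).comp
      ((f.restrictScalars K).comp (LinearMap.pi fun i => D.subtype.comp (LinearMap.proj i)))
  have hF : Surjective F := by
    intro z
    obtain ⟨b, rfl⟩ := Ideal.Quotient.mk_surjective z
    obtain ⟨p, rfl⟩ := hf b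
    have hmon : (Polynomial.X ^ n : K[X]).Monic := Polynomial.monic_X_pow n
    refine ⟨fun i => ⟨p i %ₘ Polynomial.X ^ n, ?_⟩, ?_⟩
    · rw [Polynomial.mem_degreeLT]
      have := Polynomial.degree_modByMonic_lt (p i) hmon
      rwa [Polynomial.degree_X_pow] at this
    · show Ideal.Quotient.mk _ (f fun i => p i %ₘ Polynomial.X ^ n) = Ideal.Quotient.mk _ (f p)
      rw [Ideal.Quotient.eq, ← map_sub]
      have h1 : ((fun i => p i %ₘ Polynomial.X ^ n) - p : Fin e → K[X]) =
          (Polynomial.X ^ n : K[X]) • (fun i => - (p i /ₘ Polynomial.X ^ n)) := by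
        funext i
        have := Polynomial.modByMonic_add_div (p i) (Polynomial.X ^ n : K[X])
        simp only [Pi.sub_apply, Pi.smul_apply, smul_eq_mul]
        linear_combination this
      rw [h1, map_smul, Algebra.smul_def, map_pow]
      exact Ideal.mul_mem_right _ _ (Ideal.subset_span rfl)
  exact Module.Finite.of_surjective F hF

end BicG
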