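import Pool.Agent.Helper16.BicG.NoetherPt

universe u

namespace BicG

open Function Cardinal

/-- `k[c]` is algebraic over `k[y]`. -/
theorem isAlgebraic_adjoin_aux {E Ω : Type u} [Field E] [Field Ω] [Algebra E Ω] {σ ι : Type}
    (c : σ → Ω) (A : Subalgebra E Ω) (hA : A = Algebra.adjoin E (Set.range c)) (y : ι → A)
    (h : ∀ s, IsIntegral (Algebra.adjoin E (Set.range fun j => (y j : Ω))) (c s)) :
    Algebra.IsAlgebraic (Algebra.adjoin E (Set.range y)) A := by
  set D := Algebra.adjoin E (Set.range y) with hD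
  have hmap : Algebra.adjoin E (Set.range fun j => (y j : Ω)) = D.map A.val := by
    rw [hD, AlgHom.map_adjoin, ← Set.range_comp]
    rfl
  have h' : ∀ s (hs : c s ∈ A), IsIntegral D (⟨c s, hs⟩ : A) := by
    intro s hs
    have h1 := h s
    rw [hmap] at h1
    obtain ⟨p, hp, hp0⟩ := h1
    let e : D ≃ₐ[E] D.map A.val := D.equivMapOfInjective A.val Subtype.val_injective
    have he : ∀ q, ((e.symm q : A) : Ω) = q := by
      intro q
      have h2 : (e (e.symm q) : Ω) = q := by rw [e.apply_symm_apply]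
      exact h2
    refine ⟨p.map e.symm.toRingEquiv.toRingHom, hp.map _, ?_⟩
    apply Subtype.val_injective (p := fun x => x ∈ A)
    rw [Polynomial.eval₂_map]
    change A.val.toRingHom _ = _
    rw [Polynomial.hom_eval₂]
    change _ = (0 : Ω)
    rw [← hp0]
    congr 1
    ext q
    exact he q
  have key : ∀ a ∈ Algebra.adjoin E (Set.range c), ∀ ha : a ∈ A, IsIntegral D (⟨a, ha⟩ : A) := by
    intro a ha
    induction ha using Algebra.adjoin_induction with
    | mem x hx =>
      obtain ⟨s, rfl⟩ := hx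
      exact h' s
    | algebraMap r =>
      intro ha
      exact isIntegral_algebraMap (R := D) (A := A) (x := algebraMap E D r)
    | add x y hx hy hx' hy' =>
      intro ha
      rw [← hA] at hx hy
      exact (hx' hx).add (hy' hy)
    | mul x y hx hy hx' hy' =>
      intro ha
      rw [← hA] at hx hy
      exact (hx' hx).mul (hy' hy)
  have hI : Algebra.IsIntegral D A := by
    rw [Algebra.isIntegral_def]
    rintro ⟨a, ha⟩
    exact key a (hA ▸ ha) ha
  exact hI.isAlgebraic

theorem trdeg_adjoin_le {E Ω : Type u} [Field E] [Field Ω] [Algebra E Ω] {σ : Type} [Fintype σ]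
    (c : σ → Ω) : Algebra.trdeg E (Algebra.adjoin E (Set.range c)) ≤ (Fintype.card σ : ℕ) := by
  let f : MvPolynomial σ E →ₐ[E] Algebra.adjoin E (Set.range c) :=
    (MvPolynomial.aeval c).codRestrict _ (by
      intro x
      rw [Algebra.adjoin_range_eq_range_aeval]
      exact ⟨x, rfl⟩)
  have hf : Surjective f := by
    rintro ⟨a, ha⟩
    have h1 := ha
    rw [Algebra.adjoin_range_eq_range_aeval] at h1
    obtain ⟨x, hx⟩ := h1
    exact ⟨x, Subtype.ext hx⟩
  have h := lift_trdeg_le_of_surjective f hf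
  simpa using h

theorem mem_adjoin_aux {E Ω : Type u} [Field E] [Field Ω] [Algebra E Ω] {σ : Type}
    (c : σ → Ω) (p : MvPolynomial σ E) :
    MvPolynomial.aeval c p ∈ Algebra.adjoin E (Set.range c) := by
  rw [Algebra.adjoin_range_eq_range_aeval]
  exact ⟨_, rfl⟩

theorem card_eq_trdeg_aux {E Ω : Type u} [Field E] [Field Ω] [Algebra E Ω] {σ : Type}
    (c : σ → Ω) {d : ℕ} (y : Fin d → Ω) (hy : ∀ j, y j ∈ Algebra.adjoin E (Set.range c))
    (hint : ∀ s, IsIntegral (Algebra.adjoin E (Set.range y)) (c s))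
    (hind : AlgebraicIndependent E y) :
    (d : Cardinal.{u}) = Algebra.trdeg E (Algebra.adjoin E (Set.range c)) := by
  let y0 : Fin d → Algebra.adjoin E (Set.range c) := fun j => ⟨y j, hy j⟩
  have h1 : AlgebraicIndependent E y0 := by
    have h2 : AlgebraicIndependent E ((Algebra.adjoin E (Set.range c)).val ∘ y0) := hind
    exact h2.of_comp _
  have halg : Algebra.IsAlgebraic (Algebra.adjoin E (Set.range y0))
      (Algebra.adjoin E (Set.range c)) := isAlgebraic_adjoin_aux c _ rfl y0 hint
  have hb : IsTranscendenceBasis E y0 := by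
    rw [isTranscendenceBasis_iff_algebraicIndependent_isAlgebraic]
    exact ⟨h1, halg⟩
  have h3 := hb.lift_cardinalMk_eq_trdeg
  simpa using h3

theorem indep_aux {E Ω : Type u} [Field E] [Field Ω] [Algebra E Ω] {σ : Type}
    (c : σ → Ω) {d : ℕ} (y : Fin d → Ω) (hy : ∀ j, y j ∈ Algebra.adjoin E (Set.range c))
    (hint : ∀ s, IsIntegral (Algebra.adjoin E (Set.range y)) (c s))
    (hd : (d : Cardinal.{u}) ≤ Algebra.trdeg E (Algebra.adjoin E (Set.range c))) :
    AlgebraicIndependent E y := by
  let y0 : Fin d → Algebra.adjoin E (Set.range c) := fun j => ⟨y j, hy j⟩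
  have halg : Algebra.IsAlgebraic (Algebra.adjoin E (Set.range y0))
      (Algebra.adjoin E (Set.range c)) := isAlgebraic_adjoin_aux c _ rfl y0 hint
  have hb1 : IsTranscendenceBasis E y0 := by
    apply Algebra.IsAlgebraic.isTranscendenceBasis_of_lift_le_trdeg_of_finite
    simpa using hd
  have h3 := hb1.1.map' (f := (Algebra.adjoin E (Set.range c)).val) Subtype.val_injective
  exact h3

/-- a decreasing argument -/
theorem exists_not_lt (N : ℕ) (f : ℕ → ℕ) (h0 : f 0 ≤ N) : ∃ i ≤ N, f i ≤ f (i + 1) := by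
  by_contra hcon
  push Not at hcon
  have : ∀ i, i ≤ N + 1 → f i + i ≤ N := by
    intro i
    induction i with
    | zero => intro _; simpa using h0
    | succ i ih =>
      intro hi
      have := hcon i (by omega)
      have := ih (by omega)
      omega
  have := this (N + 1) le_rfl
  omega

theorem adjoin_le_aux {K Ω : Type u} [Field K] [Field Ω] [Algebra K Ω]
    (E F : IntermediateField K Ω) (hEF : E ≤ F) (S : Set Ω) (x : Ω)
    (hx : x ∈ Algebra.adjoin E S) : x ∈ Algebra.adjoin F S := by
  induction hx using Algebra.adjoin_induction with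
  | mem x hx => exact Algebra.subset_adjoin hx
  | algebraMap r => exact (Algebra.adjoin F S).algebraMap_mem (⟨r, hEF r.2⟩ : F)
  | add x y hx hy hx' hy' => exact add_mem hx' hy'
  | mul x y hx hy hx' hy' => exact mul_mem hx' hy'

theorem isIntegral_adjoin_le_aux {K Ω : Type u} [Field K] [Field Ω] [Algebra K Ω]
    (E F : IntermediateField K Ω) (hEF : E ≤ F) (S : Set Ω) (x : Ω)
    (hx : IsIntegral (Algebra.adjoin E S) x) : IsIntegral (Algebra.adjoin F S) x := by
  let φ : Algebra.adjoin E S →+* Algebra.adjoin F S :=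
    (algebraMap (Algebra.adjoin E S) Ω).codRestrict (Algebra.adjoin F S)
      (fun x => adjoin_le_aux E F hEF S x x.2)
  have hφ : (algebraMap (Algebra.adjoin F S) Ω).comp φ =
      (RingHom.id Ω).comp (algebraMap (Algebra.adjoin E S) Ω) :=
    RingHom.ext fun z => rfl
  exact hx.map_of_comp_eq φ (RingHom.id Ω) hφ

theorem exists_indep_step {K Ω : Type u} [Field K] [Field Ω] [Algebra K Ω] {σ : Type}
    [Fintype σ] (k : ℕ → IntermediateField K Ω) (hk : Monotone k) (c : σ → Ω) :
    ∃ i ≤ Fintype.card σ, ∃ (d : ℕ) (Yp : Fin d → MvPolynomial σ (k i)),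
      (∀ s, IsIntegral (Algebra.adjoin (k i) (Set.range fun j => MvPolynomial.aeval c (Yp j)))
        (c s)) ∧
      AlgebraicIndependent (k (i + 1)) (fun j => MvPolynomial.aeval c (Yp j)) := by
  classical
  choose d Yp hint hind using fun i => noether_pt (k := k i) c
  have hd : ∀ i, (d i : Cardinal.{u}) =
      Algebra.trdeg (k i) (Algebra.adjoin (k i) (Set.range c)) := fun i =>
    card_eq_trdeg_aux c (fun j => MvPolynomial.aeval c (Yp i j))
      (fun j => mem_adjoin_aux c (Yp i j)) (hint i) (hind i)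
  obtain ⟨i, hi, hle⟩ := exists_not_lt (Fintype.card σ) d (by
    have h0 := trdeg_adjoin_le (E := k 0) c
    rw [← hd 0] at h0
    exact_mod_cast h0)
  refine ⟨i, hi, d i, Yp i, hint i, ?_⟩
  apply indep_aux c (fun j => MvPolynomial.aeval c (Yp i j))
  · intro j
    exact adjoin_le_aux (k i) (k (i + 1)) (hk (Nat.le_succ i)) _ _ (mem_adjoin_aux c (Yp i j))
  · intro s
    exact isIntegral_adjoin_le_aux (k i) (k (i + 1)) (hk (Nat.le_succ i)) _ _ (hint i s)
  · rw [← hd (i + 1)]
    exact_mod_cast hle

end BicG
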