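import Pool.Agent.Helper16.BicG.Tors

/-!
The relation `Le` is reflexive and transitive.
-/

universe u

namespace BicG

open Function Module
open Bic (InT InF SES torIn)

section le

variable {A : Type u} [Ring A] [IsNoetherianRing A] [IsArtinianRing A]
variable {M Y X Z W : Type u}
variable [AddCommGroup M] [Module A M] [AddCommGroup Y] [Module A Y]
variable [AddCommGroup X] [Module A X] [AddCommGroup Z] [Module A Z]
variable [AddCommGroup W] [Module A W]

theorem le_refl' (h : TPair A M Y) (hX : Ob A Y X) : Le A M Y X X :=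
  ⟨X, inferInstance, inferInstance, LinearMap.id, LinearMap.id, hX,
    TMono.of_inj injective_id, SEpi.of_bijective bijective_id⟩

theorem le_trans' (h : TPair A M Y) (h1 : Le A M Y X Z) (h2 : Le A M Y Z W) : Le A M Y X W := by
  obtain ⟨U₁, _, _, f₁, g₁, hU₁, hf₁, hg₁⟩ := h1
  obtain ⟨U₂, _, _, f₂, g₂, hU₂, hf₂, hg₂⟩ := h2
  obtain ⟨P, _, _, a, b, hP, ha, hb, -, -, -⟩ := exists_pull M hU₂.fin hg₂ f₁ hU₁
  exact ⟨P, inferInstance, inferInstance, f₂.comp b, g₁.comp a, hP, hf₂.comp (hb hf₁),
    hg₁.comp ha⟩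

end le

end BicG
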