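import Pool.Agent.Helper16.BicG.Tors

/-!
Chains of maps with kernel in `F` (module LONG).
-/

universe u

namespace BicG

open Function Module
open Bic (InT InF SES torIn torIn_le torIn_inT factor_surj factor_inj mkQ_zero mem_of_mkQ)

section part1

variable {A : Type u} [Ring A] [IsNoetherianRing A] [IsArtinianRing A]
variable {M Y X Z W U P S J X'' w : Type u}
variable [AddCommGroup M] [Module A M] [AddCommGroup Y] [Module A Y]
variable [AddCommGroup X] [Module A X] [AddCommGroup Z] [Module A Z]
variable [AddCommGroup W] [Module A W] [AddCommGroup U] [Module A U]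
variable [AddCommGroup P] [Module A P] [AddCommGroup S] [Module A S]
variable [AddCommGroup J] [Module A J] [AddCommGroup X''] [Module A X'']
variable [AddCommGroup w] [Module A w]

theorem long_mono (h : TPair A M Y) (n : ℕ) (hW : Ob A Y W) (hP : Ob A Y P) (f : W →ₗ[A] P)
    (hf : TMono A M f) (hn : Long A M Y n W) : Long A M Y n P := by
  cases n with
  | zero => trivial
  | succ n =>
    obtain ⟨U, _, _, g, hU, hg, hb, hL⟩ := hn
    refine ⟨U, inferInstance, inferInstance, f.comp g, hU, hf.comp hg, ?_, hL⟩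
    intro hfg
    have hbf : Bijective f := TMono.bijective_of_comp h hW hf hfg
    apply hb
    constructor
    · intro x y hxy
      apply hfg.1
      show f (g x) = f (g y)
      rw [hxy]
    · intro y
      obtain ⟨x, hx⟩ := hfg.2 (f y)
      exact ⟨x, hbf.1 hx⟩

theorem long_le (h : TPair A M Y) {m n : ℕ} (hmn : m ≤ n) (hX : Ob A Y X)
    (hn : Long A M Y n X) : Long A M Y m X := by
  induction n, hmn using Nat.le_induction with
  | base => exact hn
  | succ n hmn ih =>
    obtain ⟨U, _, _, g, hU, hg, hb, hL⟩ := hn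
    exact ih (long_mono h n hU hX g hg hL)

theorem long_sepi (h : TPair A M Y) (n : ℕ) (hX : Ob A Y X) (q : X →ₗ[A] X'') (hq : SEpi A Y q)
    (hn : Long A M Y n X'') : Long A M Y n X := by
  induction n generalizing X X'' with
  | zero => trivial
  | succ n ih =>
    obtain ⟨U, _, _, f, hU, hf, hb, hL⟩ := hn
    obtain ⟨P, _, _, a, b, hP, ha, htm, hcomm, hex, hinj⟩ :=
      exists_pull M hX.fin hq f hU
    refine ⟨P, inferInstance, inferInstance, b, hP, htm hf, ?_, ih hP a ha hL⟩
    intro hbb
    apply hb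
    constructor
    · rw [← LinearMap.ker_eq_bot, eq_bot_iff]
      intro v hv
      have hv' : f v = q 0 := by
        rw [map_zero]
        exact hv
      obtain ⟨p, hp1, hp2⟩ := hex v 0 hv'
      have hp0 : p = 0 := hbb.1 (by rw [hp2, map_zero])
      rw [Submodule.mem_bot, ← hp1, hp0, map_zero]
    · intro x''
      obtain ⟨x, rfl⟩ := hq.surj x''
      obtain ⟨p, rfl⟩ := hbb.2 x
      exact ⟨a p, hcomm p⟩

theorem long_ext (h : TPair A M Y) (n : ℕ) {a : J →ₗ[A] X} {b : X →ₗ[A] X''} (hs : SES a b)
    (hJ : Ob A Y J) (hX : Ob A Y X'') (hn : Long A M Y n X) :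
    ∃ p q, n ≤ p + q ∧ Long A M Y p J ∧ Long A M Y q X'' := by
  induction n generalizing J X X'' with
  | zero => exact ⟨0, 0, le_rfl, trivial, trivial⟩
  | succ n ih =>
    obtain ⟨U, _, _, f, hU, hf, hb, hL⟩ := hn
    have hUf := hU.fin
    let K : Submodule A U := LinearMap.ker (b.comp f)
    let A1 : Submodule A U := torIn A Y K
    have hA1K : A1 ≤ K := torIn_le K
    have hA1 : Ob A Y A1 := ⟨inferInstance, torIn_inT K⟩
    have hB1 : Ob A Y (U ⧸ A1) := hU.quot A1
    obtain ⟨p', q', hpq, hLp, hLq⟩ := ih (SES.of_sub A1) hA1 hB1 hL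
    obtain ⟨α, hα⟩ := factor_inj a hs.inj (f.comp A1.subtype) (fun x => hs.exact _ (by
      have := hA1K x.2
      exact this))
    have hαm : TMono A M α := by
      intro φ hφ
      have h1 : A1.subtype.comp φ = 0 := by
        apply hf
        intro m
        have h2 := hα (φ m)
        rw [hφ m, map_zero] at h2
        exact h2.symm
      ext m
      exact congrArg (fun l : M →ₗ[A] U => l m) h1
    let β : (U ⧸ A1) →ₗ[A] X'' := A1.liftQ (b.comp f) hA1K
    have hβ : ∀ x, β (A1.mkQ x) = b (f x) := fun x => rfl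
    have hβm : TMono A M β := by
      intro φ hφ
      apply h.quot_torIn K
      intro m
      obtain ⟨z, hz⟩ := A1.mkQ_surjective (φ m)
      refine ⟨z, ?_, hz⟩
      have := hφ m
      rw [← hz, hβ] at this
      exact this
    by_cases hαb : Bijective α
    · have hβb : ¬ Bijective β := by
        intro hβb
        apply hb
        constructor
        · rw [← LinearMap.ker_eq_bot, eq_bot_iff]
          intro x hx
          have hx' : f x = 0 := hx
          have h1 : β (A1.mkQ x) = 0 := by rw [hβ, hx', map_zero]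
          have h2 : A1.mkQ x = 0 := hβb.1 (by rw [h1, map_zero])
          have h3 : x ∈ A1 := mem_of_mkQ h2
          have h4 : a (α ⟨x, h3⟩) = 0 := by
            rw [hα]
            exact hx'
          have h5 : α ⟨x, h3⟩ = 0 := hs.inj (by rw [h4, map_zero])
          have h6 : (⟨x, h3⟩ : A1) = 0 := hαb.1 (by rw [h5, map_zero])
          rw [Submodule.mem_bot]
          exact congrArg Subtype.val h6
        · intro y
          obtain ⟨u', hu'⟩ := hβb.2 (b y)
          obtain ⟨u, rfl⟩ := A1.mkQ_surjective u'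
          rw [hβ] at hu'
          obtain ⟨j, hj⟩ := hs.exact (y - f u) (by rw [map_sub, hu', sub_self])
          obtain ⟨x, rfl⟩ := hαb.2 j
          rw [hα] at hj
          refine ⟨(x : U) + u, ?_⟩
          have hj' : f (x : U) = y - f u := hj
          rw [map_add, hj', sub_add_cancel]
      exact ⟨p', q' + 1, by omega, long_mono h p' hA1 hJ α hαm hLp,
        ⟨U ⧸ A1, inferInstance, inferInstance, β, hB1, hβm, hβb, hLq⟩⟩
    · exact ⟨p' + 1, q', by omega, ⟨A1, inferInstance, inferInstance, α, hA1, hαm, hαb, hLp⟩,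
        long_mono h q' hB1 hX β hβm hLq⟩

theorem not_long_zero (h : TPair A M Y) (hX : Subsingleton X) : ¬ Long A M Y 1 X := by
  rintro ⟨U, _, _, f, hU, hf, hb, -⟩
  have h0 : f = 0 := by
    ext x
    exact Subsingleton.elim _ _
  have hsub : Subsingleton U := hf.subsingleton h hU h0
  apply hb
  constructor
  · intro x y _
    exact Subsingleton.elim x y
  · intro y
    exact ⟨0, Subsingleton.elim _ _⟩

/-- consequences -/
theorem bad_of_ses (h : TPair A M Y) {a : J →ₗ[A] X} {b : X →ₗ[A] X''} (hs : SES a b)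
    (hJ : Ob A Y J) (hX : Ob A Y X'') (hb : Bad A M Y X) : Bad A M Y J ∨ Bad A M Y X'' := by
  by_contra hcon
  rw [not_or] at hcon
  obtain ⟨h1, h2⟩ := hcon
  unfold Bad at h1 h2
  rw [not_forall] at h1 h2
  obtain ⟨m1, h1⟩ := h1
  obtain ⟨m2, h2⟩ := h2
  obtain ⟨p, q, hpq, hp, hq⟩ := long_ext h (m1 + m2) hs hJ hX (hb (m1 + m2))
  rcases le_or_gt m1 p with h3 | h3
  · exact h1 (long_le h h3 hJ hp)
  · exact h2 (long_le h (by omega) hX hq)

theorem bad_of_le (h : TPair A M Y) (hw : Ob A Y w) (hX : Ob A Y X) (hle : Le A M Y w X)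
    (hb : Bad A M Y w) : Bad A M Y X := by
  obtain ⟨U, _, _, f, g, hU, hf, hg⟩ := hle
  intro n
  exact long_mono h n hU hX f hf (long_sepi h n hU g hg (hb n))

end part1

end BicG
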