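import Pool.Agent.Helper16.BicG.MinPair

/-!
The uniform bound for maps out of minimal pairs: CORE2 of the blueprint for MP_8f4dc6_al.
-/

universe u

namespace BicG

open Function Module
open Bic (InT InF SES torIn torIn_le torIn_inT factor_surj factor_inj inF_ker_iff inT_coker_iff
  mkQ_zero mem_of_mkQ eq_bot_of_map)

variable {A : Type u} [Ring A] [IsNoetherianRing A] [IsArtinianRing A]
variable {M Y X Z W U P S J X'' w : Type u}
variable [AddCommGroup M] [Module A M] [AddCommGroup Y] [Module A Y]
variable [AddCommGroup X] [Module A X] [AddCommGroup Z] [Module A Z]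
variable [AddCommGroup W] [Module A W] [AddCommGroup U] [Module A U]
variable [AddCommGroup P] [Module A P] [AddCommGroup S] [Module A S]
variable [AddCommGroup J] [Module A J] [AddCommGroup X''] [Module A X'']
variable [AddCommGroup w] [Module A w]

/-- the module structure over the base field -/
@[reducible] def minbound_kmod (K : Type u) [Field K] (A : Type u) [Ring A] [Algebra K A]
    (Z : Type u) [AddCommGroup Z] [Module A Z] : Module K Z := Module.compHom Z (algebraMap K A)

omit [IsNoetherianRing A] [IsArtinianRing A] in
theorem minbound_tower (K : Type u) [Field K] [Algebra K A] (Z : Type u)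
    [AddCommGroup Z] [Module A Z] :
    @IsScalarTower K A Z _ _ (minbound_kmod K A Z).toSMul := by
  let _ := minbound_kmod K A Z
  refine ⟨fun k a z => ?_⟩
  show (k • a) • z = (algebraMap K A k) • (a • z)
  rw [Algebra.smul_def, mul_smul]

/-- The key step: if `j : X' → X` is a `TMono` which has no factorisation into two non-bijective
`TMono`s through an object of `T`, `(U, x)` is a minimal pair and `g : U → X` sends `x` into the
range of `j`, then `g` factors through `j`. -/
theorem minbound_lift (h : TPair A M Y) {X' : Type u} [AddCommGroup X'] [Module A X']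
    (hX' : Ob A Y X') (j : X' →ₗ[A] X) (hj : TMono A M j)
    (hnf : ∀ (W : Type u) [AddCommGroup W] [Module A W] (α : X' →ₗ[A] W) (γ : W →ₗ[A] X),
      Ob A Y W → TMono A M α → TMono A M γ → Bijective α ∨ Bijective γ)
    {x : U} (hm : MinPair A M Y U x) (g : U →ₗ[A] X) (hg : ∃ x', j x' = g x) :
    ∃ v : U →ₗ[A] X', ∀ u, j (v u) = g u := by
  have hfX' := hX'.fin
  have hfU := hm.1.fin
  let γ0 : (X' × U) →ₗ[A] X := (j.comp (LinearMap.fst A X' U)) - (g.comp (LinearMap.snd A X' U))
  let G := LinearMap.ker γ0
  have hG : ∀ y : X' × U, y ∈ G ↔ j y.1 = g y.2 := by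
    intro y
    simp [G, γ0, LinearMap.mem_ker, sub_eq_zero]
  let T := torIn A Y G
  have hTG : T ≤ G := torIn_le G
  let γ : ((X' × U) ⧸ T) →ₗ[A] X := T.liftQ γ0 hTG
  have hγ : ∀ y, γ (T.mkQ y) = γ0 y := fun y => rfl
  let α : X' →ₗ[A] ((X' × U) ⧸ T) := T.mkQ.comp (LinearMap.inl A X' U)
  let β : U →ₗ[A] ((X' × U) ⧸ T) := T.mkQ.comp (LinearMap.inr A X' U)
  have hγα : ∀ y, γ (α y) = j y := by
    intro y
    show γ0 (y, 0) = j y
    simp [γ0]
  have hγβ : ∀ u, γ (β u) = - g u := by
    intro u
    show γ0 (0, u) = - g u
    simp [γ0]
  have hprod : Ob A Y (X' × U) := by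
    refine ⟨inferInstance, ?_⟩
    have hs : SES (LinearMap.inl A X' U) (LinearMap.snd A X' U) :=
      ⟨LinearMap.inl_injective, LinearMap.snd_surjective, fun y => rfl, by
        rintro ⟨a, b⟩ hb
        have hb : b = 0 := hb
        exact ⟨a, by rw [hb]; rfl⟩⟩
    exact hs.inT hX'.inT hm.1.inT
  have hW : Ob A Y ((X' × U) ⧸ T) := hprod.quot T
  have hαm : TMono A M α := by
    have h1 : TMono A M (γ.comp α) := hj.congr_fun (fun y => (hγα y).symm)
    exact h1.of_comp
  have hγm : TMono A M γ := by
    intro φ hφ
    refine h.quot_torIn G φ fun m => ?_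
    obtain ⟨y, hy⟩ := T.mkQ_surjective (φ m)
    refine ⟨y, ?_, hy⟩
    have h1 := hφ m
    rw [← hy, hγ] at h1
    exact h1
  rcases hnf _ α γ hW hαm hγm with hα | hγb
  · let e := LinearEquiv.ofBijective α hα
    refine ⟨-(e.symm.toLinearMap.comp β), fun u => ?_⟩
    have h1 : α (e.symm (β u)) = β u := e.apply_symm_apply (β u)
    have h2 : j (e.symm (β u)) = - g u := by
      rw [← hγα, h1, hγβ]
    show j (-(e.symm (β u))) = g u
    rw [map_neg, h2, neg_neg]
  · have hGT : G ≤ T := by
      intro y hy
      have h1 : γ (T.mkQ y) = 0 := hy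
      have h2 : T.mkQ y = 0 := hγb.1 (by rw [h1, map_zero])
      exact mem_of_mkQ h2
    have hGeq : T = G := le_antisymm hTG hGT
    have hGT' : InT A Y G := by
      rw [← hGeq]
      exact torIn_inT G
    have hGob : Ob A Y G := ⟨inferInstance, hGT'⟩
    let p : G →ₗ[A] U := (LinearMap.snd A X' U).comp G.subtype
    let q : G →ₗ[A] X' := (LinearMap.fst A X' U).comp G.subtype
    have hpm : TMono A M p := by
      intro φ hφ
      have h1 : q.comp φ = 0 := by
        apply hj
        intro m
        have h2 := (hG (φ m).1).mp (φ m).2
        have h3 : (φ m).1.2 = 0 := hφ m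
        rw [h3, map_zero] at h2
        exact h2
      ext m
      · exact LinearMap.congr_fun h1 m
      · exact hφ m
    have hpb : Bijective p := by
      refine hm.2 G p hGob hpm ?_
      obtain ⟨x', hx'⟩ := hg
      exact ⟨⟨(x', x), by rw [hG]; exact hx'⟩, rfl⟩
    let e := LinearEquiv.ofBijective p hpb
    refine ⟨q.comp e.symm.toLinearMap, fun u => ?_⟩
    have h1 := (hG (e.symm u).1).mp (e.symm u).2
    have h2 : p (e.symm u) = u := e.apply_symm_apply u
    have h3 : (e.symm u).1.2 = u := h2
    rw [h3] at h1
    exact h1

theorem minbound_aux (K : Type u) [Field K] [Algebra K A] [Module.Finite K A]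
    (h : TPair A M Y) : ∀ (n : ℕ) (X : Type u) [AddCommGroup X] [Module A X] [Module K X]
    [IsScalarTower K A X], Ob A Y X → ¬ Long A M Y n X →
    ∃ C : ℕ, ∀ (U : Type u) [AddCommGroup U] [Module A U] (x : U), MinPair A M Y U x →
      finrank K (U →ₗ[A] X) ≤ C := by
  intro n
  induction n with
  | zero =>
    intro X _ _ _ _ _ hL
    exact absurd trivial hL
  | succ n ih =>
    intro X _ _ _ _ hX hL
    by_cases hL1 : Long A M Y n X
    · cases n with
      | zero =>
        -- `X` is zero
        have hsub : Subsingleton X := by
          by_contra hcon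
          apply hL
          refine ⟨PUnit, inferInstance, inferInstance, 0, Ob.of_subsingleton inferInstance,
            TMono.of_inj (injective_of_subsingleton _), ?_, trivial⟩
          intro hb
          exact hcon (hb.2.subsingleton)
        refine ⟨0, fun U _ _ x _ => ?_⟩
        have : Subsingleton (U →ₗ[A] X) := ⟨fun a b => LinearMap.ext fun z => Subsingleton.elim _ _⟩
        exact (finrank_zero_of_subsingleton).le
      | succ m =>
        obtain ⟨X', _, _, j, hX', hj, hb, hLm⟩ := hL1
        have hLX' : ¬ Long A M Y (m + 1) X' := fun hcon =>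
          hL ⟨X', inferInstance, inferInstance, j, hX', hj, hb, hcon⟩
        let _ := minbound_kmod K A X'
        have := minbound_tower (A := A) K X'
        obtain ⟨C, hC⟩ := ih X' hX' hLX'
        have hnf : ∀ (W : Type u) [AddCommGroup W] [Module A W] (α : X' →ₗ[A] W)
            (γ : W →ₗ[A] X), Ob A Y W → TMono A M α → TMono A M γ →
            Bijective α ∨ Bijective γ := by
          intro W _ _ α γ hW hα hγ
          by_contra hcon
          push Not at hcon
          exact hL ⟨W, inferInstance, inferInstance, γ, hW, hγ, hcon.2,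
            ⟨X', inferInstance, inferInstance, α, hX', hα, hcon.1, hLm⟩⟩
        have hfX : Module.Finite A X := hX.fin
        have hfKX : Module.Finite K X := Module.Finite.trans A X
        let S := X ⧸ LinearMap.range j
        have hfS : Module.Finite K S := inferInstance
        refine ⟨C + finrank K S, fun U _ _ x hm => ?_⟩
        by_cases hfin : Module.Finite K (U →ₗ[A] X)
        swap
        · rw [finrank_of_not_finite hfin]
          exact Nat.zero_le _
        have hsm : ∀ (k : K) (y : X'), j (k • y) = k • j y := by
          intro k y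
          have h1 : k • y = (algebraMap K A k) • y := rfl
          rw [h1, map_smul, algebraMap_smul]
        let ι : (U →ₗ[A] X') →ₗ[K] (U →ₗ[A] X) :=
          { toFun := fun v => j.comp v
            map_add' := fun a b => by ext z; simp
            map_smul' := fun k a => by
              ext z
              exact hsm k (a z) }
        have hι : Injective ι := by
          intro v v' hvv
          have h1 : ∀ u, j ((v - v') u) = 0 := by
            intro u
            rw [LinearMap.sub_apply, map_sub, sub_eq_zero]
            exact LinearMap.congr_fun hvv u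
          let d : U →ₗ[A] LinearMap.ker j := (v - v').codRestrict _ h1
          have h2 : d = 0 := h.hom_zero hm.1 hj.inF d
          rw [← sub_eq_zero]
          ext u
          exact congrArg Subtype.val (LinearMap.congr_fun h2 u)
        have hfin' : Module.Finite K (U →ₗ[A] X') := Module.Finite.of_injective ι hι
        let ρ : (U →ₗ[A] X) →ₗ[K] S :=
          { toFun := fun g => (LinearMap.range j).mkQ (g x)
            map_add' := fun a b => by rw [LinearMap.add_apply, map_add]
            map_smul' := fun k a => rfl }
        have hker : LinearMap.ker ρ ≤ LinearMap.range ι := by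
          intro g hg
          have h1 : (LinearMap.range j).mkQ (g x) = 0 := hg
          have h2 : g x ∈ LinearMap.range j := mem_of_mkQ h1
          obtain ⟨v, hv⟩ := minbound_lift h hX' j hj hnf hm g h2
          exact ⟨v, LinearMap.ext hv⟩
        have h1 := LinearMap.finrank_range_add_finrank_ker ρ
        have h2 : finrank K (LinearMap.range ρ) ≤ finrank K S := Submodule.finrank_le _
        have h3 : finrank K (LinearMap.ker ρ) ≤ finrank K (LinearMap.range ι) :=
          Submodule.finrank_mono hker
        have h4 : finrank K (LinearMap.range ι) ≤ finrank K (U →ₗ[A] X') :=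
          LinearMap.finrank_range_le ι
        have h5 := hC U x hm
        omega
    · exact ih X hX hL1

theorem minpair_bound (K : Type u) [Field K] [Algebra K A] [Module.Finite K A]
    (h : TPair A M Y) (hX : Ob A Y X) (hgood : ¬ Bad A M Y X) [Module K X]
    [IsScalarTower K A X] :
    ∃ C : ℕ, ∀ (U : Type u) [AddCommGroup U] [Module A U] (x : U), MinPair A M Y U x →
      finrank K (U →ₗ[A] X) ≤ C := by
  unfold Bad at hgood
  push Not at hgood
  obtain ⟨n, hn⟩ := hgood
  exact minbound_aux K h n X hX hn

end BicG
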