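import Pool.Agent.Helper16.BicG.Tors

/-!
Minimal pairs: CORE1 of the blueprint for MP_8f4dc6_al.
-/

universe u

namespace BicG

open Function Module
open Bic (InT InF SES torIn torIn_le torIn_inT factor_surj factor_inj inF_ker_iff inT_coker_iff
  mkQ_zero mem_of_mkQ eq_bot_of_map)

variable {A : Type u} [Ring A] [IsNoetherianRing A] [IsArtinianRing A]
variable {M Y X Z W U P S J X'' w : Type u}
variable [AddCommGroup M] [Module A M] [AddCommGroup Y] [Module A Y]
variable [AddCommGroup X] [Module A X] [AddCommGroup Z] [Module A Z]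
variable [AddCommGroup W] [Module A W] [AddCommGroup U] [Module A U]
variable [AddCommGroup P] [Module A P] [AddCommGroup S] [Module A S]
variable [AddCommGroup J] [Module A J] [AddCommGroup X''] [Module A X'']
variable [AddCommGroup w] [Module A w]

/-- minimal pairs -/
def MinPair (A : Type u) [Ring A] (M Y : Type u) [AddCommGroup M] [Module A M] [AddCommGroup Y]
    [Module A Y] (U : Type u) [AddCommGroup U] [Module A U] (x : U) : Prop :=
  Ob A Y U ∧ ∀ (U' : Type u) [AddCommGroup U'] [Module A U'] (f : U' →ₗ[A] U), Ob A Y U' →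
    TMono A M f → (∃ x', f x' = x) → Bijective f

omit [IsNoetherianRing A] [IsArtinianRing A] in
theorem exists_minpair_aux : ∀ (n : ℕ) (Z : Type u) [AddCommGroup Z] [Module A Z], Ob A Y Z →
    ¬ Long A M Y n Z → ∀ z : Z,
    ∃ (U : Type u) (_ : AddCommGroup U) (_ : Module A U) (x : U) (f : U →ₗ[A] Z),
      MinPair A M Y U x ∧ TMono A M f ∧ f x = z := by
  intro n
  induction n with
  | zero =>
    intro Z _ _ _ hL
    exact absurd trivial hL
  | succ n ih =>
    intro Z _ _ hZ hL z
    by_cases hm : MinPair A M Y Z z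
    · exact ⟨Z, inferInstance, inferInstance, z, LinearMap.id, hm,
        TMono.of_inj injective_id, rfl⟩
    · unfold MinPair at hm
      push Not at hm
      obtain ⟨U', _, _, f, hU', hf, ⟨x', hx'⟩, hb⟩ := hm hZ
      have hL' : ¬ Long A M Y n U' := fun hL' =>
        hL ⟨U', inferInstance, inferInstance, f, hU', hf, hb, hL'⟩
      obtain ⟨U, _, _, x, g, hmin, hg, hgx⟩ := ih U' hU' hL' x'
      exact ⟨U, inferInstance, inferInstance, x, f.comp g, hmin, hf.comp hg, by
        rw [LinearMap.comp_apply, hgx, hx']⟩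

theorem exists_minpair (h : TPair A M Y) (hZ : Ob A Y Z) (hgood : ¬ Bad A M Y Z) (z : Z) :
    ∃ (U : Type u) (_ : AddCommGroup U) (_ : Module A U) (x : U) (f : U →ₗ[A] Z),
      MinPair A M Y U x ∧ TMono A M f ∧ f x = z := by
  unfold Bad at hgood
  push Not at hgood
  obtain ⟨n, hn⟩ := hgood
  exact exists_minpair_aux n Z hZ hn z

end BicG
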