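import Mathlib

universe u

namespace BicG

open Function

/-- Noether normalisation of `k[c]`. -/
theorem noether_pt {k Ω : Type u} [Field k] [Field Ω] [Algebra k Ω] {σ : Type} [Finite σ]
    (c : σ → Ω) : ∃ (d : ℕ) (Yp : Fin d → MvPolynomial σ k),
      (∀ s, IsIntegral (Algebra.adjoin k (Set.range fun j => MvPolynomial.aeval c (Yp j)))
        (c s)) ∧ AlgebraicIndependent k (fun j => MvPolynomial.aeval c (Yp j)) := by
  classical
  set A := Algebra.adjoin k (Set.range c) with hA
  have : Algebra.FiniteType k A := .adjoin_of_finite (Set.finite_range c)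
  obtain ⟨d, g, hg, hint⟩ := exists_integral_inj_algHom_of_fg k A
  have hY : ∀ j : Fin d, ∃ p : MvPolynomial σ k, MvPolynomial.aeval c p = (g (.X j) : Ω) := by
    intro j
    have h1 : (g (.X j) : Ω) ∈ Algebra.adjoin k (Set.range c) := (g (.X j)).2
    rw [Algebra.adjoin_range_eq_range_aeval] at h1
    exact h1
  choose Yp hYp using hY
  have hcomp : (MvPolynomial.aeval (fun j => MvPolynomial.aeval c (Yp j)) :
      MvPolynomial (Fin d) k →ₐ[k] Ω) = A.val.comp g := by
    apply MvPolynomial.algHom_ext
    intro j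
    simp [hYp]
  refine ⟨d, Yp, ?_, ?_⟩
  · intro s
    have hcs : c s ∈ A := Algebra.subset_adjoin ⟨s, rfl⟩
    have h1 : g.toRingHom.IsIntegralElem (⟨c s, hcs⟩ : A) := hint _
    obtain ⟨p, hp, hp0⟩ := h1
    -- the map from `MvPolynomial (Fin d) k` to `adjoin k (range y)`
    let φ : MvPolynomial (Fin d) k →ₐ[k]
        Algebra.adjoin k (Set.range fun j => MvPolynomial.aeval c (Yp j)) :=
      MvPolynomial.aeval fun j => ⟨MvPolynomial.aeval c (Yp j), Algebra.subset_adjoin ⟨j, rfl⟩⟩
    have hφ : ∀ q, ((φ q : Algebra.adjoin k (Set.range fun j => MvPolynomial.aeval c (Yp j))) : Ω)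
        = (g q : Ω) := by
      intro q
      have : (Subalgebra.val _).comp φ = A.val.comp g := by
        apply MvPolynomial.algHom_ext
        intro j
        simp [φ, hYp]
      exact DFunLike.congr_fun this q
    refine ⟨p.map φ.toRingHom, hp.map _, ?_⟩
    rw [Polynomial.eval₂_map]
    have h2 := congrArg (Subalgebra.val A) hp0
    rw [map_zero] at h2
    rw [← h2]
    change _ = (Subalgebra.val A).toRingHom _
    rw [Polynomial.hom_eval₂]
    congr 1
    ext q
    · simp
    · simp [hφ]
  · rw [algebraicIndependent_iff_injective_aeval, hcomp]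
    exact (Subtype.val_injective).comp hg

end BicG
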