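import Pool.Agent.Helper16.BicG.RM

/-!
BICOMPACT SPZLIFT: specialisations of points lift over a nonempty open set (Chevalley and the
Nullstellensatz).
-/

universe u

namespace BicG

open MvPolynomial PrimeSpectrum

theorem spz_lift {k Ω : Type u} [Field k] [IsAlgClosed k] [Field Ω] [Algebra k Ω]
    {σ τ : Type} [Finite σ] [Finite τ] (x : σ → Ω) (θ : τ → Ω) :
    ∃ g : MvPolynomial σ k, MvPolynomial.aeval x g ≠ 0 ∧ ∀ x' : σ → k,
      Spz k x (fun i => algebraMap k Ω (x' i)) → MvPolynomial.eval x' g ≠ 0 →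
      ∃ θ' : τ → k, Spz k (Sum.elim x θ)
        (Sum.elim (fun i => algebraMap k Ω (x' i)) (fun i => algebraMap k Ω (θ' i))) := by
  classical
  let Φ : MvPolynomial (σ ⊕ τ) k →+* Ω := (aeval (Sum.elim x θ)).toRingHom
  let ι : MvPolynomial σ k →+* MvPolynomial (σ ⊕ τ) k :=
    (rename (R := k) (Sum.inl : σ → σ ⊕ τ)).toRingHom
  have hι : ∀ p, Φ (ι p) = aeval x p := by
    intro p
    change aeval (Sum.elim x θ) (rename Sum.inl p) = _
    rw [aeval_rename]
    rfl
  have hP : (RingHom.ker Φ).IsPrime := RingHom.ker_isPrime Φ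
  let π : MvPolynomial (σ ⊕ τ) k →+* (MvPolynomial (σ ⊕ τ) k ⧸ RingHom.ker Φ) :=
    Ideal.Quotient.mk _
  have hfp : (π.comp ι).FinitePresentation := by
    rw [← RingHom.FinitePresentation.of_finiteType]
    apply RingHom.FiniteType.of_comp_finiteType (f := (C : k →+* MvPolynomial σ k))
    have h1 : ((π.comp ι).comp C) = π.comp (C : k →+* MvPolynomial (σ ⊕ τ) k) := by
      apply RingHom.ext
      intro a
      change π (rename Sum.inl (C a)) = π (C a)
      rw [rename_C]
    rw [h1]
    apply RingHom.FiniteType.comp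
    · exact RingHom.FiniteType.of_surjective _ Ideal.Quotient.mk_surjective
    · have : Algebra.FiniteType k (MvPolynomial (σ ⊕ τ) k) := inferInstance
      have h2 := RingHom.finiteType_algebraMap.2 this
      rwa [algebraMap_eq] at h2
  obtain ⟨D, hD⟩ := exists_constructibleSetData_iff.2 (isConstructible_range_comap hfp)
  have hbot : comap (π.comp ι) ⊥ ∈ D.toSet := by
    rw [hD]
    exact ⟨⊥, rfl⟩
  rw [ConstructibleSetData.toSet] at hbot
  obtain ⟨S, hS, hS2⟩ := Set.mem_iUnion₂.1 hbot
  rw [BasicConstructibleSetData.toSet] at hS2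
  have hmem : ∀ p : MvPolynomial σ k, p ∈ (comap (π.comp ι) ⊥).asIdeal ↔ aeval x p = 0 := by
    intro p
    change π (ι p) ∈ (⊥ : Ideal _) ↔ _
    rw [Ideal.mem_bot, Ideal.Quotient.eq_zero_iff_mem, RingHom.mem_ker, hι]
  have hg : ∀ i, aeval x (S.g i) = 0 := by
    intro i
    rw [← hmem]
    exact hS2.1 ⟨i, rfl⟩
  have hf : aeval x S.f ≠ 0 := by
    intro h
    apply hS2.2
    rw [← hmem] at h
    intro p hp
    rw [Set.mem_singleton_iff] at hp
    rw [hp]
    exact h
  refine ⟨S.f, hf, ?_⟩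
  intro x' hx' hx'f
  have hev : ∀ p : MvPolynomial σ k, aeval (fun i => algebraMap k Ω (x' i)) p =
      algebraMap k Ω (eval x' p) := by
    intro p
    exact aeval_algebraMap_apply Ω x' p
  have hx'0 : ∀ p : MvPolynomial σ k, aeval x p = 0 → eval x' p = 0 := by
    intro p hp
    have := hx' p hp
    rw [hev] at this
    exact (map_eq_zero_iff _ (algebraMap k Ω).injective).1 this
  -- the maximal ideal of the point
  let m : PrimeSpectrum (MvPolynomial σ k) := ⟨RingHom.ker (eval x'), RingHom.ker_isPrime _⟩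
  have hm : m ∈ D.toSet := by
    rw [ConstructibleSetData.toSet]
    apply Set.mem_iUnion₂.2
    refine ⟨S, hS, ?_⟩
    rw [BasicConstructibleSetData.toSet]
    refine ⟨?_, ?_⟩
    · rintro _ ⟨i, rfl⟩
      exact hx'0 _ (hg i)
    · intro h
      apply hx'f
      exact h (Set.mem_singleton _)
  rw [hD] at hm
  obtain ⟨q, hq⟩ := hm
  obtain ⟨N, hN, hqN⟩ := Ideal.exists_le_maximal q.asIdeal q.isPrime.ne_top
  have hNm : (N.comap π).IsMaximal := Ideal.comap_isMaximal_of_surjective π
    Ideal.Quotient.mk_surjective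
  obtain ⟨y, hy⟩ := (isMaximal_iff_eq_vanishingIdeal_singleton (K := k)).1 hNm
  have hy2 : ∀ p, π p ∈ N ↔ eval y p = 0 := by
    intro p
    have := mem_vanishingIdeal_singleton_iff (k := k) y p
    rw [← hy] at this
    exact this
  have hyx : ∀ i, y (Sum.inl i) = x' i := by
    intro i
    have h1 : X i - C (x' i) ∈ m.asIdeal := by
      change eval x' (X i - C (x' i)) = 0
      simp
    rw [← hq] at h1
    have h2 : π (ι (X i - C (x' i))) ∈ N := hqN h1
    rw [hy2] at h2
    have h3 : ι (X i - C (x' i)) = X (Sum.inl i) - C (x' i) := by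
      change rename Sum.inl (X i - C (x' i)) = _
      simp
    rw [h3] at h2
    simpa [sub_eq_zero] using h2
  refine ⟨fun j => y (Sum.inr j), ?_⟩
  intro p hp
  have h1 : π p = 0 := Ideal.Quotient.eq_zero_iff_mem.2 hp
  have h2 : eval y p = 0 := by
    rw [← hy2, h1]
    exact N.zero_mem
  have h3 : (Sum.elim (fun i => algebraMap k Ω (x' i)) (fun i => algebraMap k Ω (y (Sum.inr i))) :
      σ ⊕ τ → Ω) = fun s => algebraMap k Ω (y s) := by
    funext s
    rcases s with s | s
    · simp [hyx]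
    · rfl
  rw [h3]
  have h4 : aeval (fun s => algebraMap k Ω (y s)) p = algebraMap k Ω (eval y p) :=
    aeval_algebraMap_apply Ω y p
  rw [h4, h2, map_zero]

end BicG
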