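import Pool.Agent.Helper16.BicG.PtAux
import Pool.Agent.Helper16.BicG.BigField
import Pool.Agent.Helper16.BicG.Generic
import Pool.Agent.Helper16.BicG.IndepStep
import Pool.Agent.Helper16.BicG.NoetherPt
import Pool.Agent.Helper16.BicG.SpzLift

/-!
The formal argument: a system of points with a comparison theorem has no bad points.
-/

universe u

namespace BicG

open Function MvPolynomial

/-- A relation on the points of an affine variety, with the properties used in the proof. -/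
structure PtSys (K Ω : Type u) [Field K] [Field Ω] [Algebra K Ω] (σ : Type) [Fintype σ] where
  pt : (σ → Ω) → Prop
  bad : (σ → Ω) → Prop
  le : (σ → Ω) → (σ → Ω) → Prop
  refl : ∀ c, pt c → le c c
  trans : ∀ a b c, pt a → pt b → pt c → le a b → le b c → le a c
  up : ∀ a b, pt a → pt b → le a b → bad a → bad b
  strict : ∀ c, pt c → bad c → ∃ c', pt c' ∧ bad c' ∧ le c' c ∧ ¬ le c c'
  closed : ∀ (V : Set (σ → Ω)) (c : σ → Ω), (∀ v ∈ V, pt v) →
    (∀ p : MvPolynomial σ K, (∀ v ∈ V, aeval v p = 0) → aeval c p = 0) → pt c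
  spec : ∀ c c', pt c → pt c' → le c c' → ∃ (q : ℕ) (θ : Fin q → Ω),
    ∀ (d d' : σ → Ω) (θ' : Fin q → Ω),
      Spz K (Sum.elim (Sum.elim c c') θ) (Sum.elim (Sum.elim d d') θ') → le d d'
  curve : ∀ (k : IntermediateField K Ω) (c : σ → Ω) (d : ℕ) (Yp : Fin d → MvPolynomial σ k),
    pt c →
    (∀ s, IsIntegral (Algebra.adjoin k (Set.range fun j => aeval c (Yp j))) (c s)) →
    AlgebraicIndependent k (fun j => aeval c (Yp j)) →
    ∃ g : MvPolynomial (Fin d) k, g ≠ 0 ∧ ∀ (a : Fin d → Ω) (cb : σ → Ω), Spz k c cb →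
      aeval (fun j => aeval cb (Yp j)) g ≠ 0 → bad cb →
      ∃ ca : σ → Ω, Spz k c ca ∧ (∀ j, aeval ca (Yp j) = a j) ∧
        ∃ w, pt w ∧ bad w ∧ le w cb ∧ le w ca

set_option linter.unusedSectionVars false

variable {K Ω : Type u} [Field K] [Field Ω] [Algebra K Ω] {σ : Type} [Fintype σ]

theorem PtSys.spec_pt (S : PtSys K Ω σ) {c d : σ → Ω} (hc : S.pt c) (h : Spz K c d) : S.pt d :=
  S.closed {c} d (fun v hv => by rw [Set.mem_singleton_iff.mp hv]; exact hc)
    (fun p hp => h p (hp c rfl))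

/-- every element of `k[c]` is integral when the coordinates are -/
theorem isIntegral_aeval {k : Type u} [Field k] [Algebra k Ω] {c : σ → Ω} {R : Subalgebra k Ω}
    (h : ∀ s, IsIntegral R (c s)) (p : MvPolynomial σ k) : IsIntegral R (aeval c p) := by
  induction p using MvPolynomial.induction_on with
  | C a =>
    rw [aeval_C]
    have : algebraMap k Ω a = algebraMap R Ω (algebraMap k R a) := rfl
    rw [this]
    exact isIntegral_algebraMap
  | add p q hp hq => rw [map_add]; exact hp.add hq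
  | mul_X p i hp => rw [map_mul, aeval_X]; exact hp.mul (h i)

/-- non-vanishing transfers when the integral parameters avoid a polynomial -/
theorem exists_norm {k : Type u} [Field k] [Algebra k Ω] {c : σ → Ω} {d : ℕ}
    {Yp : Fin d → MvPolynomial σ k}
    (hint : ∀ s, IsIntegral (Algebra.adjoin k (Set.range fun j => aeval c (Yp j))) (c s))
    (p : MvPolynomial σ k) (hp : aeval c p ≠ 0) :
    ∃ a0 : MvPolynomial (Fin d) k, aeval (fun j => aeval c (Yp j)) a0 ≠ 0 ∧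
      ∀ ca, Spz k c ca → aeval (fun j => aeval ca (Yp j)) a0 ≠ 0 → aeval ca p ≠ 0 := by
  obtain ⟨n, Q, hn, hrel, hQ⟩ := exists_rel c Yp p (isIntegral_aeval hint p)
  refine ⟨Q 0, hQ hp, fun ca hca h0 h1 => h0 ?_⟩
  have h2 := hca _ hrel
  rw [map_add, map_pow, map_sum, h1, zero_pow hn.ne', zero_add] at h2
  rw [Finset.sum_eq_single 0] at h2
  · rw [map_mul, aeval_bind₁, pow_zero, map_one, mul_one] at h2
    exact h2
  · intro l _ hl
    rw [map_mul, map_pow, h1, zero_pow hl, mul_zero]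
  · intro hcon
    exact absurd (Finset.mem_range.mpr hn) hcon

/-- a specialisation with parameters in an algebraically closed `k` has coordinates in `k` -/
theorem mem_of_spz (k : IntermediateField K Ω) [IsAlgClosed k] {c ca : σ → Ω} {d : ℕ}
    {Yp : Fin d → MvPolynomial σ k}
    (hint : ∀ s, IsIntegral (Algebra.adjoin k (Set.range fun j => aeval c (Yp j))) (c s))
    (hca : Spz k c ca) (hy : ∀ j, aeval ca (Yp j) ∈ k) (s : σ) : ca s ∈ k := by
  have h1 := hint s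
  have h2 : aeval c (X s : MvPolynomial σ k) = c s := aeval_X _ _
  rw [← h2] at h1
  obtain ⟨n, Q, hn, hrel, -⟩ := exists_rel c Yp (X s) h1
  have h3 := hca _ hrel
  have h4 : ∀ l, ∃ r : k, (r : Ω) = aeval ca (bind₁ Yp (Q l)) := by
    intro l
    rw [aeval_bind₁]
    refine ⟨eval (fun j => ⟨aeval ca (Yp j), hy j⟩) (Q l), ?_⟩
    have h5 : (fun j => aeval ca (Yp j)) =
        (algebraMap k Ω) ∘ (fun j => (⟨aeval ca (Yp j), hy j⟩ : k)) := rfl
    conv_rhs => rw [h5]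
    rw [aeval_algebraMap_apply]
    rfl
  choose r hr using h4
  have h6 : IsIntegral k (ca s) := by
    refine ⟨Polynomial.X ^ n + ∑ l ∈ Finset.range n, Polynomial.C (r l) * Polynomial.X ^ l,
      ?_, ?_⟩
    · apply Polynomial.monic_X_pow_add
      refine (Polynomial.degree_sum_le _ _).trans_lt ?_
      refine (Finset.sup_lt_iff (WithBot.bot_lt_coe n)).mpr ?_
      intro l hl
      exact (Polynomial.degree_C_mul_X_pow_le _ _).trans_lt
        (WithBot.coe_lt_coe.mpr (Finset.mem_range.mp hl))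
    · rw [Polynomial.eval₂_add, Polynomial.eval₂_pow, Polynomial.eval₂_X,
        Polynomial.eval₂_finsetSum]
      rw [map_add, map_pow, map_sum, aeval_X] at h3
      rw [← h3]
      congr 1
      apply Finset.sum_congr rfl
      intro l _
      rw [Polynomial.eval₂_mul, Polynomial.eval₂_C, Polynomial.eval₂_pow, Polynomial.eval₂_X,
        map_mul, map_pow, aeval_X, ← hr]
      rfl
  obtain ⟨z, hz⟩ := minpoly.mem_range_of_degree_eq_one k (ca s)
    (IsAlgClosed.degree_eq_one_of_irreducible k (minpoly.irreducible h6))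
  rw [← hz]
  exact z.2

/-- `(*)` -/
theorem PtSys.exists_dense (S : PtSys K Ω σ) [IsAlgClosed Ω]
    (hΩ : Cardinal.aleph0 < Cardinal.mk Ω) (hK : Cardinal.mk K < Cardinal.mk Ω)
    (c0 : σ → Ω) (hc0 : S.pt c0) (hb0 : S.bad c0) :
    ∃ (k : IntermediateField K Ω) (x : σ → Ω), IsAlgClosed k ∧
      Cardinal.mk k < Cardinal.mk Ω ∧ (∀ i, x i ∈ k) ∧ S.pt x ∧ S.bad x ∧
      ∀ w, S.pt w → S.bad w → S.le w x →
        ∃ x0, (∀ i, x0 i ∈ k) ∧ S.pt x0 ∧ S.bad x0 ∧ S.le x0 w := by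
  classical
  by_contra hcon
  let P : IntermediateField K Ω × (σ → Ω) → Prop := fun p =>
    IsAlgClosed p.1 ∧ Cardinal.mk p.1 < Cardinal.mk Ω ∧ (∀ i, p.2 i ∈ p.1) ∧ S.pt p.2 ∧
      S.bad p.2
  let R : IntermediateField K Ω × (σ → Ω) → IntermediateField K Ω × (σ → Ω) → Prop :=
    fun p p' => p.1 ≤ p'.1 ∧ S.le p'.2 p.2 ∧
      ∀ x0, (∀ i, x0 i ∈ p.1) → S.pt x0 → S.bad x0 → ¬ S.le x0 p'.2
  have hnext : ∀ p, P p → ∃ p', P p' ∧ R p p' := by
    rintro ⟨k, x⟩ ⟨h1, h2, h3, h4, h5⟩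
    have h6 : ∃ w, S.pt w ∧ S.bad w ∧ S.le w x ∧
        ∀ x0, (∀ i, x0 i ∈ k) → S.pt x0 → S.bad x0 → ¬ S.le x0 w := by
      by_contra h7
      push Not at h7
      exact hcon ⟨k, x, h1, h2, h3, h4, h5, fun w hw hb hl => h7 w hw hb hl⟩
    obtain ⟨w, hw1, hw2, hw3, hw4⟩ := h6
    obtain ⟨k', hk1, hk2, hk3, hk4⟩ := exists_closed_small hΩ k h2 w
    exact ⟨(k', w), ⟨hk2, hk3, hk4, hw1, hw2⟩, hk1, hw3, hw4⟩
  choose! nx hnx using hnext
  obtain ⟨kb, hkb1, hkb2, hkb3, hkb4⟩ := exists_closed_small hΩ (⊥ : IntermediateField K Ω)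
    (by
      have : Cardinal.mk (⊥ : IntermediateField K Ω) = Cardinal.mk K :=
        Cardinal.mk_congr (IntermediateField.botEquiv K Ω).toEquiv
      rw [this]; exact hK) c0
  let f : ℕ → IntermediateField K Ω × (σ → Ω) := fun n => nx^[n] (kb, c0)
  have hf0 : f 0 = (kb, c0) := rfl
  have hfs : ∀ n, f (n + 1) = nx (f n) := fun n => Function.iterate_succ_apply' nx n _
  have hP : ∀ n, P (f n) := by
    intro n
    induction n with
    | zero => exact ⟨hkb2, hkb3, hkb4, hc0, hb0⟩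
    | succ n ih => rw [hfs]; exact (hnx _ ih).1
  have hR : ∀ n, R (f n) (f (n + 1)) := fun n => by rw [hfs]; exact (hnx _ (hP n)).2
  have hmono : Monotone (fun n => (f n).1) := monotone_nat_of_le_succ (fun n => (hR n).1)
  have hle : ∀ m n, m ≤ n → S.le (f n).2 (f m).2 := by
    intro m n hmn
    induction n, hmn using Nat.le_induction with
    | base => exact S.refl _ (hP m).2.2.2.1
    | succ n _ ih =>
      exact S.trans _ _ _ (hP (n + 1)).2.2.2.1 (hP n).2.2.2.1 (hP m).2.2.2.1 (hR n).2.1 ih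
  set N := Fintype.card σ + 1 with hN
  obtain ⟨i, hi, d, Yp, hint, hind⟩ := exists_indep_step (fun n => (f n).1) hmono (f N).2
  have hiN : i + 1 ≤ N := by omega
  have hki : (f i).1 ≤ (f (i + 1)).1 := (hR i).1
  have hcl : IsAlgClosed (f i).1 := (hP i).1
  have hcl' : IsAlgClosed (f (i + 1)).1 := (hP (i + 1)).1
  obtain ⟨q, θ, hθ⟩ := S.spec (f N).2 (f (i + 1)).2 (hP N).2.2.2.1 (hP (i + 1)).2.2.2.1
    (hle _ _ hiN)
  obtain ⟨g1, hg1, hlift⟩ := spz_lift (k := (f (i + 1)).1) (f N).2 θ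
  -- the parameters over the bigger field
  let ι : (f i).1 →+* (f (i + 1)).1 := (IntermediateField.inclusion hki).toRingHom
  let Yp' : Fin d → MvPolynomial σ (f (i + 1)).1 := fun j => MvPolynomial.map ι (Yp j)
  have hYp : ∀ (v : σ → Ω) j, aeval v (Yp' j) = aeval v (Yp j) := by
    intro v j
    rw [aeval_def, aeval_def, MvPolynomial.eval₂_map]
    rfl
  have hint' : ∀ s, IsIntegral (Algebra.adjoin (f (i + 1)).1
      (Set.range fun j => aeval (f N).2 (Yp' j))) ((f N).2 s) := by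
    intro s
    have hsub : ∀ r ∈ Algebra.adjoin (f i).1 (Set.range fun j => aeval (f N).2 (Yp j)),
        r ∈ Algebra.adjoin (f (i + 1)).1 (Set.range fun j => aeval (f N).2 (Yp' j)) := by
      intro r hr
      refine Algebra.adjoin_induction ?_ ?_ ?_ ?_ hr
      · rintro _ ⟨j, rfl⟩
        apply Algebra.subset_adjoin
        exact ⟨j, hYp _ j⟩
      · intro r
        exact Subalgebra.algebraMap_mem _ (⟨r, hki r.2⟩ : (f (i + 1)).1)
      · intro x y _ _ hx hy
        exact add_mem hx hy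
      · intro x y _ _ hx hy
        exact mul_mem hx hy
    exact (hint s).map_of_comp_eq
      ((algebraMap (Algebra.adjoin (f i).1 (Set.range fun j => aeval (f N).2 (Yp j)))
        Ω).codRestrict (Algebra.adjoin (f (i + 1)).1
        (Set.range fun j => aeval (f N).2 (Yp' j))) (fun r => hsub _ r.2)) (RingHom.id Ω) rfl
  have hind' : AlgebraicIndependent (f (i + 1)).1 (fun j => aeval (f N).2 (Yp' j)) := by
    have : (fun j => aeval (f N).2 (Yp' j)) = fun j => aeval (f N).2 (Yp j) :=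
      funext fun j => hYp _ j
    rw [this]; exact hind
  obtain ⟨a0, ha0, hnorm⟩ := exists_norm hint' g1 hg1
  have ha0' : a0 ≠ 0 := by
    rintro rfl
    exact ha0 (map_zero _)
  obtain ⟨y0, hy0, hy0'⟩ := exists_avoid (f i).1 (f (i + 1)).1 hki
    (IsAlgClosed.instInfinite) a0 ha0'
  obtain ⟨g, hg, hcurve⟩ := S.curve (f (i + 1)).1 (f N).2 d Yp' (hP N).2.2.2.1 hint' hind'
  obtain ⟨ca, hca1, hca2, w, hw1, hw2, -, hw4⟩ := hcurve y0 (f N).2 (Spz.refl _) (by
    intro h0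
    exact hg (hind'.eq_zero_of_aeval_eq_zero g h0)) (hP N).2.2.2.2
  have hcapt : S.pt ca := S.spec_pt (hP N).2.2.2.1 (Spz.down _ hca1)
  have hcabad : S.bad ca := S.up _ _ hw1 hcapt hw4 hw2
  have hcak : ∀ s, ca s ∈ (f i).1 := by
    have hspz : Spz (f i).1 (f N).2 ca := by
      intro p hp
      have h1 : ∀ v : σ → Ω, aeval v (MvPolynomial.map ι p) = aeval v p := by
        intro v
        rw [aeval_def, aeval_def, MvPolynomial.eval₂_map]
        rfl
      rw [← h1] at hp ⊢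
      exact hca1 _ hp
    exact mem_of_spz (f i).1 hint hspz (fun j => by
      rw [← hYp, hca2]; exact hy0 j)
  have hg1ca : aeval ca g1 ≠ 0 := hnorm ca hca1 (by
    have : (fun j => aeval ca (Yp' j)) = y0 := funext hca2
    rw [this]; exact hy0')
  let x' : σ → (f (i + 1)).1 := fun s => ⟨ca s, hki (hcak s)⟩
  obtain ⟨θ', hθ'⟩ := hlift x' hca1 (by
    intro h0
    apply hg1ca
    have h1 : aeval ca g1 = algebraMap (f (i + 1)).1 Ω (eval x' g1) := by
      have : ca = (algebraMap (f (i + 1)).1 Ω) ∘ x' := rfl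
      conv_lhs => rw [this]
      rw [aeval_algebraMap_apply]
      rfl
    rw [h1, h0, map_zero])
  have hfin := hθ ca (f (i + 1)).2 _ (spz_const (f (i + 1)).1 (f (i + 1)).2
    (hP (i + 1)).2.2.1 hθ')
  exact (hR i).2.2 ca hcak hcapt hcabad hfin

/-- there is no bad point -/
theorem PtSys.no_bad (S : PtSys K Ω σ) [IsAlgClosed Ω]
    (hΩ : Cardinal.aleph0 < Cardinal.mk Ω) (hK : Cardinal.mk K < Cardinal.mk Ω)
    (c0 : σ → Ω) (hc0 : S.pt c0) : ¬ S.bad c0 := by
  classical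
  intro hb0
  obtain ⟨k, x, hkc, hkΩ, hxk, hxpt, hxbad, hdense⟩ := S.exists_dense hΩ hK c0 hc0 hb0
  let Succ : (σ → Ω) → Set (σ → Ω) := fun c =>
    {c' | (∀ i, c' i ∈ k) ∧ S.pt c' ∧ S.bad c' ∧ S.le c' c}
  let I : (σ → Ω) → Ideal (MvPolynomial σ k) := fun c => vanishingIdeal k (Succ c)
  have hI : ∀ c q, q ∈ I c ↔ ∀ v ∈ Succ c, aeval v q = 0 := fun c q => Iff.rfl
  obtain ⟨_, ⟨X0, hX0, rfl⟩, hmax⟩ := set_has_maximal_iff_noetherian.mpr
    (inferInstance : IsNoetherianRing (MvPolynomial σ k)) {J | ∃ c ∈ Succ x, J = I c}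
    ⟨_, x, ⟨hxk, hxpt, hxbad, S.refl x hxpt⟩, rfl⟩
  -- all successors have the same ideal
  have hsame : ∀ c ∈ Succ X0, I c = I X0 := by
    intro c hc
    have h1 : I X0 ≤ I c := by
      intro q hq v hv
      exact hq v ⟨hv.1, hv.2.1, hv.2.2.1,
        S.trans _ _ _ hv.2.1 hc.2.1 hX0.2.1 hv.2.2.2 hc.2.2.2⟩
    have h2 : c ∈ Succ x := ⟨hc.1, hc.2.1, hc.2.2.1,
      S.trans _ _ _ hc.2.1 hX0.2.1 hxpt hc.2.2.2 hX0.2.2.2⟩
    by_contra hne
    exact hmax (I c) ⟨c, h2, rfl⟩ (lt_of_le_of_ne h1 (Ne.symm hne))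
  have hX0s : X0 ∈ Succ X0 := ⟨hX0.1, hX0.2.1, hX0.2.2.1, S.refl _ hX0.2.1⟩
  have hItop : I X0 ≠ ⊤ := by
    intro htop
    have h1 : (1 : MvPolynomial σ k) ∈ I X0 := htop ▸ Submodule.mem_top
    have h2 := h1 X0 hX0s
    rw [map_one] at h2
    exact one_ne_zero h2
  have hIrad : (I X0).IsRadical := by
    rintro q ⟨n, hn⟩ v hv
    have h1 := hn v hv
    rw [map_pow] at h1
    by_contra hne
    exact pow_ne_zero n hne h1
  obtain ⟨p, h, hp, hhp, hph⟩ := exists_prime_colon (I X0) hItop hIrad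
  have hIp : I X0 ≤ p := fun q hq => (hph q).mpr ((I X0).mul_mem_left h hq)
  obtain ⟨c, hc⟩ := exists_generic (k := k) (Ω := Ω) hΩ hkΩ p
  have hcpt : S.pt c := by
    apply S.closed (Succ X0) c (fun v hv => hv.2.1)
    intro q hq
    have h1 : ∀ v : σ → Ω, aeval v (MvPolynomial.map (algebraMap K k) q) = aeval v q :=
      fun v => by rw [aeval_map_algebraMap]
    rw [← h1, hc]
    apply hIp
    intro v hv
    rw [h1]
    exact hq v hv
  -- specialisations of `c`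
  have hspz : ∀ v : σ → Ω, v ∈ Succ X0 → aeval v h ≠ 0 → Spz k c v := by
    intro v hv hne q hq
    rw [hc] at hq
    have h1 := (hph q).mp hq v hv
    rw [map_mul] at h1
    exact (mul_eq_zero.mp h1).resolve_left hne
  have hdens : ∀ (c1 : σ → Ω) (G : MvPolynomial σ k), I c1 = I X0 → aeval c G ≠ 0 →
      ∃ v ∈ Succ c1, aeval v h ≠ 0 ∧ aeval v G ≠ 0 := by
    intro c1 G hc1 hG
    have h1 : h * G ∉ p := by
      intro hmem
      rcases hp.mem_or_mem hmem with h2 | h2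
      · exact hhp h2
      · exact hG ((hc G).mpr h2)
    have h2 : h * G ∉ I c1 := fun hmem => h1 (hIp (hc1 ▸ hmem))
    rw [hI] at h2
    push Not at h2
    obtain ⟨v, hv, hne⟩ := h2
    rw [map_mul] at hne
    exact ⟨v, hv, left_ne_zero_of_mul hne, right_ne_zero_of_mul hne⟩
  obtain ⟨d, Yp, hint, hind⟩ := noether_pt (k := k) c
  obtain ⟨g, hg, hcurve⟩ := S.curve k c d Yp hcpt hint hind
  have hG : aeval c (bind₁ Yp g) ≠ 0 := by
    rw [aeval_bind₁]
    intro h0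
    exact hg (hind.eq_zero_of_aeval_eq_zero g h0)
  obtain ⟨p1, hp1, hp1h, hp1g⟩ := hdens X0 _ rfl hG
  obtain ⟨ca, hca1, hca2, w, hw1, hw2, hw3, hw4⟩ := hcurve (fun j => aeval c (Yp j)) p1
    (hspz p1 hp1 hp1h) (by rw [← aeval_bind₁]; exact hp1g) hp1.2.2.1
  have hcapt : S.pt ca := S.spec_pt hcpt (Spz.down _ hca1)
  have hback : Spz k ca c := by
    intro q hq
    by_contra hne
    obtain ⟨a0, ha0, hnorm⟩ := exists_norm hint q hne
    exact hnorm ca hca1 (by
      have : (fun j => aeval ca (Yp j)) = fun j => aeval c (Yp j) := funext hca2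
      rw [this]; exact ha0) hq
  obtain ⟨x0, hx0k, hx0pt, hx0bad, hx0w⟩ := hdense w hw1 hw2
    (S.trans _ _ _ hw1 hp1.2.1 hxpt hw3
      (S.trans _ _ _ hp1.2.1 hX0.2.1 hxpt hp1.2.2.2 hX0.2.2.2))
  have hx0ca : S.le x0 ca := S.trans _ _ _ hx0pt hw1 hcapt hx0w hw4
  have hx0X0 : S.le x0 X0 := S.trans _ _ _ hx0pt hw1 hX0.2.1 hx0w
    (S.trans _ _ _ hw1 hp1.2.1 hX0.2.1 hw3 hp1.2.2.2)
  obtain ⟨q, θ, hθ⟩ := S.spec x0 ca hx0pt hcapt hx0ca
  obtain ⟨g', hg', hlift⟩ := spz_lift (k := k) ca θ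
  obtain ⟨w', hw'pt, hw'bad, hw'le, hw'not⟩ := S.strict x0 hx0pt hx0bad
  obtain ⟨x'', hx''k, hx''pt, hx''bad, hx''w⟩ := hdense w' hw'pt hw'bad
    (S.trans _ _ _ hw'pt hx0pt hxpt hw'le
      (S.trans _ _ _ hx0pt hX0.2.1 hxpt hx0X0 hX0.2.2.2))
  have hx''s : x'' ∈ Succ X0 := ⟨hx''k, hx''pt, hx''bad,
    S.trans _ _ _ hx''pt hw'pt hX0.2.1 hx''w
      (S.trans _ _ _ hw'pt hx0pt hX0.2.1 hw'le hx0X0)⟩
  obtain ⟨v, hv, hvh, hvg⟩ := hdens x'' g' (hsame x'' hx''s) (fun h0 => hg' (hca1 g' h0))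
  have hvX0 : v ∈ Succ X0 := ⟨hv.1, hv.2.1, hv.2.2.1,
    S.trans _ _ _ hv.2.1 hx''pt hX0.2.1 hv.2.2.2 hx''s.2.2.2⟩
  have hcav : Spz k ca v := hback.trans (hspz v hvX0 hvh)
  let v' : σ → k := fun s => ⟨v s, hv.1 s⟩
  obtain ⟨θ', hθ'⟩ := hlift v' hcav (by
    intro h0
    apply hvg
    have h1 : aeval v g' = algebraMap k Ω (eval v' g') := by
      have : v = (algebraMap k Ω) ∘ v' := rfl
      conv_lhs => rw [this]
      rw [aeval_algebraMap_apply]
      rfl
    rw [h1, h0, map_zero])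
  have hfin : S.le x0 v := hθ x0 v _ (spz_const' k x0 hx0k hθ')
  exact hw'not (S.trans _ _ _ hx0pt hx''pt hw'pt
    (S.trans _ _ _ hx0pt hv.2.1 hx''pt hfin hv.2.2.2) hx''w)

end BicG
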