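import Pool.Agent.Helper16.BicG.PropC0b
import Pool.Agent.Helper16.BicG.FiltBad
import Pool.Agent.Helper16.BicG.Gen
import Pool.Agent.Helper16.BicG.Deg
import Pool.Agent.Helper16.BicG.IdealStep

/-!
The comparison theorem.
-/

universe u

namespace BicG

open Function Module
open Bic (InT InF SES torIn)
open scoped Polynomial

theorem propC0 {K : Type u} [Field K] [IsAlgClosed K] {A : Type u} [Ring A] [Algebra K A]
    [Module.Finite K A] {M Y : Type u} [AddCommGroup M] [Module A M] [AddCommGroup Y]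
    [Module A Y] [Module K M] [IsScalarTower K A M] (h : TPair A M Y)
    {n : ℕ} (b : Basis (Fin n) K M)
    {B L V : Type u} [CommRing B] [CommRing L] [Algebra K B] [Algebra B L] [Algebra K L]
    [IsScalarTower K B L] [Algebra K[X] B] [IsScalarTower K K[X] B] [Module.Finite K[X] B]
    [Module.Free K[X] B] [IsLocalization.Away (algebraMap K[X] B Polynomial.X) L]
    [AddCommGroup V] [Module A V] [Module L V] [SMulCommClass L A V] [Module K V]
    [IsScalarTower K A V] [IsScalarTower K L V]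
    (φ : M →ₗ[A] V) (γ : V →ₗ[L] (Fin n → L)) (hγ : ∀ v, v = ∑ j, γ v j • φ (b j))
    (E : M → Fin n → B) (hE : ∀ m j, algebraMap B L (E m j) = γ (φ m) j)
    (Q : B →ₐ[K] K) (hQ : Q (algebraMap K[X] B Polynomial.X) = 1)
    (N : (B →ₐ[K] K) → Submodule A M) (hN : ∀ χ m, m ∈ N χ ↔ ∀ j, χ (E m j) = 0)
    (hbad : Bad A M Y (M ⧸ N Q)) :
    ∃ χ : B →ₐ[K] K, χ (algebraMap K[X] B Polynomial.X) = 0 ∧
      ∃ (w : Type u) (_ : AddCommGroup w) (_ : Module A w), TSimple A Y w ∧ Bad A M Y w ∧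
        Le A M Y w (M ⧸ N Q) ∧ Le A M Y w (M ⧸ N χ) := by
  classical
  have hAn : IsNoetherianRing A := IsNoetherianRing.of_finite K A
  have hAa : IsArtinianRing A := IsArtinianRing.of_finite K A
  obtain ⟨x, hxdef⟩ : ∃ x : B, x = algebraMap K[X] B Polynomial.X := ⟨_, rfl⟩
  rw [← hxdef] at hQ
  rw [← hxdef]
  have hreg : ∀ z : B, x * z = 0 → z = 0 := by
    intro z hz
    rw [hxdef, ← Algebra.smul_def] at hz
    exact (smul_eq_zero.mp hz).resolve_left Polynomial.X_ne_zero
  have hloc : IsLocalization.Away x L := by rw [hxdef]; infer_instance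
  have hinj : Injective (algebraMap B L) := by
    apply IsLocalization.injective L (M := Submonoid.powers x)
    apply Submonoid.powers_le.mpr
    rw [mem_nonZeroDivisors_iff_right]
    intro z hz
    exact hreg z (by rw [mul_comm]; exact hz)
  obtain ⟨t, ht⟩ : ∃ t : L, algebraMap B L x * t = 1 := by
    have h1 := IsLocalization.Away.algebraMap_isUnit (S := L) x
    exact h1.exists_right_inv
  obtain ⟨R0, h1R, htR, hkR, hcR, haR⟩ := exists_R0 (K := K) (B := B) (L := L) t
    (by rw [← hxdef]; exact ht)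
  simp only [← hxdef] at hcR haR
  let Qe : L →+* K := IsLocalization.Away.lift x (g := Q.toRingHom) (by
      change IsUnit (Q x)
      rw [hQ]; exact isUnit_one)
  have hQe : ∀ z, Qe (algebraMap B L z) = Q z := fun z =>
    IsLocalization.Away.lift_eq _ _ z
  have hQt : Qe t = 1 := by
    have := congrArg Qe ht
    rwa [map_mul, hQe, hQ, one_mul, map_one] at this
  have hQK : ∀ c : K, Qe (algebraMap K L c) = c := by
    intro c
    rw [IsScalarTower.algebraMap_apply K B L, hQe, AlgHom.commutes]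
    rfl
  have hQs : ∀ (c : K) (r : L), Qe (c • r) = c * Qe r := by
    intro c r
    rw [Algebra.smul_def, map_mul, hQK]
  have htx : ∀ (k : ℕ) (r : L), t ^ k * (algebraMap B L x ^ k * r) = r := by
    intro k r
    rw [← mul_assoc, ← mul_pow, mul_comm t, ht, one_pow, one_mul]
  have hL' : ∀ (r : L) (k k' : ℕ), k ≤ k' → (∃ z, r = t ^ k * algebraMap B L z) →
      ∃ z, r = t ^ k' * algebraMap B L z := by
    rintro r k k' hk ⟨z, rfl⟩
    refine ⟨x ^ (k' - k) * z, ?_⟩
    obtain ⟨d, rfl⟩ := Nat.exists_eq_add_of_le hk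
    rw [Nat.add_sub_cancel_left, map_mul, map_pow, pow_add, mul_assoc, htx d]
  have hL : ∀ r : L, ∃ (k : ℕ) (z : B), r = t ^ k * algebraMap B L z := by
    intro r
    obtain ⟨k, z, hz⟩ := IsLocalization.Away.surj x r
    refine ⟨k, z, ?_⟩
    rw [← hz, mul_comm r, htx]
  have htR' : ∀ (k : ℕ) (r : L), r ∈ R0 → t ^ k * r ∈ R0 := by
    intro k r hr
    induction k with
    | zero => simpa using hr
    | succ k ih =>
      rw [pow_succ', mul_assoc]
      exact htR _ ih
  have hkR' : ∀ (r : L) (k k' : ℕ), k ≤ k' → t ^ k * r ∈ R0 → t ^ k' * r ∈ R0 := by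
    intro r k k' hk hr
    obtain ⟨d, rfl⟩ := Nat.exists_eq_add_of_le hk
    rw [pow_add, mul_comm (t ^ k), mul_assoc]
    exact htR' _ _ hr
  have hγs := PC0.gamma_smul φ γ E b hγ hE
  -- the map `q`
  obtain ⟨q, hq1, hq2⟩ := PC0.kap b φ γ hγ E hE hinj Q (N Q) (hN Q) (W := V)
    (fun v i => Qe (γ v i)) (by
      intro v w
      funext i
      rw [map_add, Pi.add_apply, map_add, Pi.add_apply]) (by
      intro a v i
      rw [hγs, map_sum]
      refine Finset.sum_congr rfl fun j _ => ?_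
      rw [map_mul, hQe, mul_comm])
  have hqφ : ∀ m, q (φ m) = (N Q).mkQ m := by
    intro m
    rw [hq1, ← PC0.mkQ_E b φ γ hγ E hE hinj Q (N Q) (hN Q) m]
    congr 1
    refine Finset.sum_congr rfl fun j _ => ?_
    rw [← hE, hQe]
  have hqr : ∀ (r : L) (m : M), Qe r = 0 → q (r • φ m) = 0 := by
    intro r m hr
    rw [hq2]
    funext i
    rw [map_smul γ, Pi.smul_apply, smul_eq_mul, map_mul, hr, zero_mul]
    rfl
  let F : ℕ → Submodule A V := fun k => PC0.FI b φ γ E R0 t hγs k ⊤
  let J : ℕ → Submodule A V := fun k => F k ⊓ LinearMap.ker q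
  have hFmono : Monotone F := monotone_nat_of_le_succ fun k =>
    PC0.FI_succ b φ γ E R0 t hγs ht k ⊤
  have hJmono : Monotone J := fun k k' hk => inf_le_inf_right _ (hFmono hk)
  -- smul maps
  have hFtor : ∀ (k : ℕ) (r : L) (m : M), r ∈ R0 → (∃ z, r = t ^ k * algebraMap B L z) →
      r • φ m ∈ torIn A Y (F k) := by
    rintro k r m hr ⟨z, hz⟩
    let f : M →ₗ[A] V := ⟨⟨fun m => r • φ m, fun m m' => by rw [map_add, smul_add]⟩,
      fun a m => by
        change r • φ (a • m) = a • (r • φ m)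
        rw [map_smul, smul_comm]⟩
    exact PC0.mem_torIn_of h.hMY (F k) f
      (fun m => PC0.smul_phi_mem_FI b φ γ E R0 t hγs hE hr hz m) m
  have hJtor : ∀ (k : ℕ) (r : L) (m : M), r ∈ R0 → (∃ z, r = t ^ k * algebraMap B L z) →
      Qe r = 0 → r • φ m ∈ torIn A Y (J k) := by
    rintro k r m hr ⟨z, hz⟩ hr0
    let f : M →ₗ[A] V := ⟨⟨fun m => r • φ m, fun m m' => by rw [map_add, smul_add]⟩,
      fun a m => by
        change r • φ (a • m) = a • (r • φ m)
        rw [map_smul, smul_comm]⟩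
    exact PC0.mem_torIn_of h.hMY (J k) f
      (fun m => ⟨PC0.smul_phi_mem_FI b φ γ E R0 t hγs hE hr hz m, hqr r m hr0⟩) m
  -- degrees
  obtain ⟨a, ha⟩ : ∃ a : ℕ, ∀ v ∈ PC0.XR b φ R0, (∀ i, ∃ z : B, γ v i =
      algebraMap B L (x ^ a * z)) → v = 0 := by
    choose a ha using fun i => haR n (fun j => E (b j) i)
    refine ⟨Finset.univ.sup a, ?_⟩
    rintro v ⟨r, hr, rfl⟩ hz
    have h1 : ∀ i, γ (∑ j, r j • φ (b j)) i = ∑ j, algebraMap B L (E (b j) i) * r j := by
      intro i
      rw [map_sum, Finset.sum_apply]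
      refine Finset.sum_congr rfl fun j _ => ?_
      rw [map_smul γ, Pi.smul_apply, smul_eq_mul, ← hE, mul_comm]
    have h2 : γ (∑ j, r j • φ (b j)) = 0 := by
      funext i
      rw [h1, Pi.zero_apply]
      apply ha i r hr
      obtain ⟨z, hz⟩ := hz i
      rw [h1] at hz
      have hle : a i ≤ Finset.univ.sup a := Finset.le_sup (Finset.mem_univ i)
      obtain ⟨d, hd⟩ := Nat.exists_eq_add_of_le hle
      refine ⟨x ^ d * z, ?_⟩
      rw [hz, hd, pow_add, mul_assoc]
    rw [hγ (∑ j, r j • φ (b j)), h2]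
    simp
  have hI : ∀ k, ∀ v ∈ PC0.FI b φ γ E R0 t hγs k (Ideal.span {x ^ (a + k)}), v = 0 := by
    rintro k v ⟨hv, hv'⟩
    apply ha v hv
    intro i
    obtain ⟨z, hz, h1⟩ := hv' i
    obtain ⟨y, rfl⟩ := Ideal.mem_span_singleton'.mp hz
    refine ⟨y, ?_⟩
    rw [h1, map_mul, map_pow, pow_add, map_mul, map_pow]
    rw [show t ^ k * (algebraMap B L y * (algebraMap B L x ^ a * algebraMap B L x ^ k)) =
      t ^ k * (algebraMap B L x ^ k * (algebraMap B L x ^ a * algebraMap B L y)) by ring, htx]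
  have hquot : ∀ k, Module.Finite K (B ⧸ Ideal.span {x ^ (a + k)}) := by
    intro k
    rw [hxdef]
    exact finite_quot_pow (a + k)
  have hFfin : ∀ k, Module.Finite K (F k) := by
    intro k
    have hz : ∀ (v : F k) (i : Fin n), ∃ z : B, γ v i = t ^ k * algebraMap B L z := by
      intro v i
      obtain ⟨z, hz, h⟩ := v.2.2 i
      exact ⟨z, h⟩
    choose z hz using hz
    have huniq : ∀ (v : F k) (i : Fin n) (y : B),
        γ v i = t ^ k * algebraMap B L y → y = z v i := by
      intro v i y hy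
      apply PC0.cancel_t hinj t ht k
      rw [← hy, ← hz]
    let g : F k →ₗ[K] (Fin n → B) :=
      { toFun := fun v i => z v i
        map_add' := by
          intro v w
          funext i
          symm
          apply huniq
          rw [Submodule.coe_add, map_add, Pi.add_apply, hz, hz, Pi.add_apply, map_add]
          ring
        map_smul' := by
          intro c v
          funext i
          symm
          apply huniq
          change γ (c • (v : V)) i = t ^ k * algebraMap B L (c • z v i)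
          rw [← algebraMap_smul L c (v : V), map_smul γ, Pi.smul_apply, hz, smul_eq_mul,
            Algebra.smul_def c, map_mul, ← IsScalarTower.algebraMap_apply]
          ring }
    let g' : F k →ₗ[K] (Fin n → B ⧸ Ideal.span {x ^ (a + k)}) :=
      (LinearMap.pi fun i => ((Ideal.Quotient.mkₐ K (Ideal.span {x ^ (a + k)})).toLinearMap.comp
        (LinearMap.proj i))).comp g
    have := hquot k
    apply Module.Finite.of_injective g'
    rw [← LinearMap.ker_eq_bot, LinearMap.ker_eq_bot']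
    intro v hv
    apply Subtype.ext
    apply hI k
    refine ⟨v.2.1, fun i => ⟨z v i, ?_, hz v i⟩⟩
    have := congrFun hv i
    exact Ideal.Quotient.eq_zero_iff_mem.mp this
  have hFfg : ∀ k, Module.Finite A (F k) := fun k => by
    have := hFfin k
    exact Module.Finite.of_restrictScalars_finite K A (F k)
  -- steps
  have hFstep : ∀ k, F (k + 1) ≤ F k ⊔ torIn A Y (F (k + 1)) := by
    rintro k v ⟨hv, hv'⟩
    choose c hc hvc using hv'
    choose c0 c1 hc0 hc1 using fun i => hcR (c i)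
    have h0 : ∀ j, t ^ (k + 1) * algebraMap B L (c0 j) ∈ R0 := fun j => htR' _ _ (hc0 j)
    have hv1 : (∑ j, (t ^ (k + 1) * algebraMap B L (c0 j)) • φ (b j)) ∈
        torIn A Y (F (k + 1)) :=
      Submodule.sum_mem _ fun j _ => hFtor (k + 1) _ _ (h0 j) ⟨c0 j, rfl⟩
    have hv2 : v - (∑ j, (t ^ (k + 1) * algebraMap B L (c0 j)) • φ (b j)) ∈ F k := by
      refine ⟨Submodule.sub_mem _ hv ⟨_, h0, rfl⟩, fun i => ?_⟩
      refine ⟨∑ j, c1 j * E (b j) i, trivial, ?_⟩
      have h3 : v - (∑ j, (t ^ (k + 1) * algebraMap B L (c0 j)) • φ (b j)) =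
          ∑ j, (t ^ k * algebraMap B L (c1 j)) • φ (b j) := by
        conv_lhs => enter [1]; rw [hγ v]
        rw [← Finset.sum_sub_distrib]
        refine Finset.sum_congr rfl fun j _ => ?_
        rw [← sub_smul, hvc, hc1 j, map_add, map_mul]
        congr 1
        rw [pow_succ]
        linear_combination (t ^ k * algebraMap B L (c1 j)) * ht
      rw [h3, map_sum, Finset.sum_apply, map_sum, Finset.mul_sum]
      refine Finset.sum_congr rfl fun j _ => ?_
      rw [map_smul γ, Pi.smul_apply, smul_eq_mul, ← hE, map_mul, mul_assoc]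
    have := Submodule.add_mem_sup hv2 hv1
    rwa [sub_add_cancel] at this
  have hJstep : ∀ k, J (k + 1) ≤ J k ⊔ torIn A Y (J (k + 1)) := by
    rintro k v ⟨⟨hv, hv'⟩, hvq⟩
    choose c hc hvc using hv'
    choose c0 c1 hc0 hc1 using fun i => hcR (c i)
    have h0 : ∀ j, (t ^ (k + 1) - 1) * algebraMap B L (c0 j) ∈ R0 := fun j => by
      rw [sub_mul, one_mul]
      exact R0.sub_mem (htR' _ _ (hc0 j)) (hc0 j)
    have h0' : ∀ j, ∃ z, (t ^ (k + 1) - 1) * algebraMap B L (c0 j) =
        t ^ (k + 1) * algebraMap B L z := fun j => by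
      refine ⟨(1 - x ^ (k + 1)) * c0 j, ?_⟩
      have := htx (k + 1) 1
      rw [mul_one] at this
      rw [map_mul, map_sub, map_one, map_pow]
      linear_combination (algebraMap B L (c0 j)) * this
    have hv1 : (∑ j, ((t ^ (k + 1) - 1) * algebraMap B L (c0 j)) • φ (b j)) ∈
        torIn A Y (J (k + 1)) :=
      Submodule.sum_mem _ fun j _ => hJtor (k + 1) _ _ (h0 j) (h0' j) (by
        rw [map_mul, map_sub, map_pow, hQt, one_pow, map_one, sub_self, zero_mul])
    have hv1' : (∑ j, ((t ^ (k + 1) - 1) * algebraMap B L (c0 j)) • φ (b j)) ∈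
        LinearMap.ker q := (Bic.torIn_le _ hv1).2
    have hv2 : v - (∑ j, ((t ^ (k + 1) - 1) * algebraMap B L (c0 j)) • φ (b j)) ∈ J k := by
      refine ⟨⟨Submodule.sub_mem _ hv ⟨_, h0, rfl⟩, fun i => ?_⟩,
        Submodule.sub_mem _ hvq hv1'⟩
      refine ⟨∑ j, (c1 j + x ^ k * c0 j) * E (b j) i, trivial, ?_⟩
      have h3 : v - (∑ j, ((t ^ (k + 1) - 1) * algebraMap B L (c0 j)) • φ (b j)) =
          ∑ j, (t ^ k * algebraMap B L (c1 j + x ^ k * c0 j)) • φ (b j) := by
        conv_lhs => enter [1]; rw [hγ v]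
        rw [← Finset.sum_sub_distrib]
        refine Finset.sum_congr rfl fun j _ => ?_
        rw [← sub_smul, hvc, hc1 j, map_add, map_mul, map_add, map_mul, map_pow]
        congr 1
        have h4 := htx k (algebraMap B L (c0 j))
        rw [pow_succ]
        linear_combination (t ^ k * algebraMap B L (c1 j)) * ht - h4
      rw [h3, map_sum, Finset.sum_apply, map_sum, Finset.mul_sum]
      refine Finset.sum_congr rfl fun j _ => ?_
      rw [map_smul γ, Pi.smul_apply, smul_eq_mul, ← hE, map_mul, mul_assoc]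
    have := Submodule.add_mem_sup hv2 hv1
    rwa [sub_add_cancel] at this
  -- sup
  have hFsup : ∀ v ∈ F 0, ∃ k, v ∈ torIn A Y (F k) := by
    rintro v ⟨⟨r, hr, rfl⟩, -⟩
    choose k z hz using fun j => hL (r j)
    refine ⟨Finset.univ.sup k, ?_⟩
    exact Submodule.sum_mem _ fun j _ => hFtor _ _ _ (hr j)
      (hL' _ (k j) _ (Finset.le_sup (Finset.mem_univ j)) ⟨_, hz j⟩)
  have hJsup : ∀ v ∈ J 0, ∃ k, v ∈ torIn A Y (J k) := by
    rintro v ⟨⟨⟨r, hr, rfl⟩, -⟩, hvq⟩
    have h1 : ∀ j, r j - algebraMap K L (Qe (r j)) ∈ R0 := fun j => by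
      rw [← mul_one (algebraMap K L (Qe (r j))), ← Algebra.smul_def]
      exact R0.sub_mem (hr j) (R0.smul_mem _ h1R)
    have h1' : ∀ j, Qe (r j - algebraMap K L (Qe (r j))) = 0 := fun j => by
      rw [map_sub, hQK, sub_self]
    choose k z hz using fun j => hL (r j - algebraMap K L (Qe (r j)))
    let m' : M := ∑ j, Qe (r j) • b j
    have h2 : (∑ j, r j • φ (b j)) =
        (∑ j, (r j - algebraMap K L (Qe (r j))) • φ (b j)) + φ m' := by
      rw [map_sum, ← Finset.sum_add_distrib]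
      refine Finset.sum_congr rfl fun j _ => ?_
      rw [PC0.phi_smul, sub_smul, algebraMap_smul, sub_add_cancel]
    have h3 : q (∑ j, (r j - algebraMap K L (Qe (r j))) • φ (b j)) = 0 := by
      rw [map_sum]
      exact Finset.sum_eq_zero fun j _ => hqr _ _ (h1' j)
    have h4 : ∀ j, Q (E m' j) = 0 := by
      rw [← hN Q]
      apply Bic.mem_of_mkQ
      rw [← hqφ]
      have h5 : q (∑ j, r j • φ (b j)) = 0 := hvq
      rw [h2, map_add, h3, zero_add] at h5
      exact h5
    choose k' hk' using fun j => hkR (algebraMap B L (E m' j))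
    let kk := Finset.univ.sup k + Finset.univ.sup k'
    have hkk : ∀ j, k j ≤ kk := fun j =>
      (Finset.le_sup (Finset.mem_univ j)).trans (Nat.le_add_right _ _)
    have hkk' : ∀ j, k' j ≤ kk := fun j =>
      (Finset.le_sup (Finset.mem_univ j)).trans (Nat.le_add_left _ _)
    refine ⟨kk, ?_⟩
    rw [h2]
    have h5 : φ m' = (∑ j, (t ^ kk * algebraMap B L (E m' j)) • φ (b j)) +
        (1 - t ^ kk) • φ m' := by
      have h6 : (∑ j, (t ^ kk * algebraMap B L (E m' j)) • φ (b j)) = t ^ kk • φ m' := by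
        conv_rhs => rw [hγ (φ m'), Finset.smul_sum]
        refine Finset.sum_congr rfl fun j _ => ?_
        rw [smul_smul, hE]
      rw [h6, ← add_smul, add_sub_cancel, one_smul]
    refine Submodule.add_mem _ (Submodule.sum_mem _ fun j _ => hJtor _ _ _ (h1 j)
      (hL' _ (k j) _ (hkk j) ⟨_, hz j⟩) (h1' j)) ?_
    rw [h5]
    refine Submodule.add_mem _ (Submodule.sum_mem _ fun j _ => hJtor _ _ _ ?_ ⟨_, rfl⟩ ?_) ?_
    · exact hkR' _ _ _ (hkk' j) (hk' j)
    · rw [map_mul, hQe, h4, mul_zero]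
    · refine hJtor _ _ _ ?_ ⟨x ^ kk - 1, ?_⟩ ?_
      · have := htR' kk 1 h1R
        rw [mul_one] at this
        exact R0.sub_mem h1R this
      · have := htx kk 1
        rw [mul_one] at this
        rw [map_sub, map_pow, map_one, mul_sub, this, mul_one]
      · rw [map_sub, map_one, map_pow, hQt, one_pow, sub_self]
  have hJfg0 : (J 0).FG := by
    have h1 := hFfg 0
    have h2 : IsNoetherian A (F 0) := inferInstance
    exact (isNoetherian_submodule.mp h2) (J 0) inf_le_left
  have hFfg0 : (F 0).FG := Module.Finite.iff_fg.mp (hFfg 0)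
  obtain ⟨n1, hn1⟩ := gen_torsion F hFmono hFfg0 hFstep hFsup
  obtain ⟨n2, hn2⟩ := gen_torsion J hJmono hJfg0 hJstep hJsup
  let k := max n1 n2
  have hFT : InT A Y (F k) := hn1 k (le_max_left _ _)
  have hJT : InT A Y (J k) := hn2 k (le_max_right _ _)
  obtain ⟨m, hm⟩ := PC0.filt_FI (Y := Y) b φ γ hγ E hE hinj R0 t hγs ht
    (fun I hf J hlt => by
      have := hf
      exact ideal_step I J hlt) N hN k (a + k) (Ideal.span {x ^ (a + k)}) (hquot k)
    (Ideal.mem_span_singleton_self _) (hI k) ⊤ le_top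
  have hFilt : Filt A Y (fun χ : {χ : B →ₐ[K] K // χ x = 0} => M ⧸ N χ.1) m (F k) := by
    refine PC0.filt_congr _ m (LinearEquiv.ofEq _ _ ?_) hm
    exact PC0.torIn_eq_of_inT hFT
  let qk : F k →ₗ[A] M ⧸ N Q := q.comp (F k).subtype
  have hqk : SEpi A Y qk := by
    refine ⟨?_, ?_⟩
    · intro y
      obtain ⟨m, rfl⟩ := (N Q).mkQ_surjective y
      have h1 : φ m ∈ F k := by
        have := PC0.smul_phi_mem_FI b φ γ E R0 t hγs hE (k := 0) h1R (z := 1) (by simp) m
        rw [one_smul] at this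
        exact hFmono (Nat.zero_le k) this
      exact ⟨⟨φ m, h1⟩, hqφ m⟩
    · let e : J k →ₗ[A] LinearMap.ker qk :=
        (Submodule.inclusion (inf_le_left : J k ≤ F k)).codRestrict _ (fun v => v.2.2)
      exact hJT.of_surj e (fun v => ⟨⟨v.1.1, v.1.2, v.2⟩, rfl⟩)
  have hZ : Ob A Y (F k) := ⟨hFfg k, hFT⟩
  have hX : Ob A Y (M ⧸ N Q) := by
    have := h.finM
    exact ⟨inferInstance, h.hMY.quot _⟩
  obtain ⟨⟨χ, hχ⟩, w, i1, i2, hw1, hw2, hw3, hw4⟩ := filt_bad h
    (fun χ : {χ : B →ₐ[K] K // χ x = 0} => M ⧸ N χ.1) m hZ hFilt hX qk hqk hbad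
  exact ⟨χ, hχ, w, i1, i2, hw1, hw2, hw3, hw4⟩

end BicG
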