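import Pool.Agent.Helper16.BicG.RM

/-!
Preliminaries for the comparison theorem `propC0`: torsion parts, the relation `Filt`,
coordinates.
-/

universe u

namespace BicG

open Function Module
open Bic (InT InF SES torIn)

namespace PC0

section tor

variable {A : Type u} [Ring A]
variable {M Y Z Z' : Type u} [AddCommGroup M] [Module A M] [AddCommGroup Y] [Module A Y]
variable [AddCommGroup Z] [Module A Z] [AddCommGroup Z'] [Module A Z']

theorem le_torIn {K L : Submodule A Z} (h : L ≤ K) (hL : InT A Y L) : L ≤ torIn A Y K :=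
  le_sSup ⟨h, hL⟩

theorem torIn_mono {K L : Submodule A Z} (h : K ≤ L) : torIn A Y K ≤ torIn A Y L :=
  le_torIn ((Bic.torIn_le K).trans h) (Bic.torIn_inT K)

theorem torIn_eq_of_inT {K : Submodule A Z} (h : InT A Y K) : torIn A Y K = K :=
  le_antisymm (Bic.torIn_le K) (le_torIn le_rfl h)

theorem torIn_map (i : Z →ₗ[A] Z') (hi : Injective i) (K : Submodule A Z) :
    (torIn A Y K).map i = torIn A Y (K.map i) := by
  apply le_antisymm
  · exact le_torIn (Submodule.map_mono (Bic.torIn_le K)) ((Bic.torIn_inT K).map i)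
  · have h1 : torIn A Y (K.map i) ≤ K.map i := Bic.torIn_le _
    have h2 : ((torIn A Y (K.map i)).comap i).map i = torIn A Y (K.map i) := by
      rw [Submodule.map_comap_eq]
      apply inf_eq_right.mpr
      exact h1.trans (LinearMap.map_le_range)
    rw [← h2]
    apply Submodule.map_mono
    apply le_torIn
    · intro z hz
      obtain ⟨k, hk, hkz⟩ := h1 hz
      rwa [← hi hkz]
    · have e := Submodule.equivMapOfInjective i hi ((torIn A Y (K.map i)).comap i)
      rw [h2] at e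
      exact (Bic.torIn_inT (K.map i)).congr e.symm

theorem mem_torIn_of (hM : InT A Y M) (K : Submodule A Z) (f : M →ₗ[A] Z) (hf : ∀ m, f m ∈ K)
    (m : M) : f m ∈ torIn A Y K := by
  have h1 : LinearMap.range f ≤ K := by
    rintro _ ⟨m, rfl⟩
    exact hf m
  exact le_torIn h1 (hM.range f) ⟨m, rfl⟩

theorem filt_congr {ι : Type u} (C : ι → Type u) [∀ i, AddCommGroup (C i)]
    [∀ i, Module A (C i)] : ∀ (k : ℕ) {Z Z' : Type u} [AddCommGroup Z] [Module A Z]
      [AddCommGroup Z'] [Module A Z'] (_ : Z ≃ₗ[A] Z'), Filt A Y C k Z → Filt A Y C k Z' := by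
  intro k
  induction k with
  | zero =>
    intro Z Z' _ _ _ _ e h
    exact (e.toEquiv.subsingleton_congr).mp h
  | succ k ih =>
    intro Z Z' _ _ _ _ e h
    obtain ⟨i, f, hf⟩ := h
    refine ⟨i, f.comp e.symm.toLinearMap, ?_⟩
    have h1 : (LinearMap.ker f).map e.toLinearMap = LinearMap.ker (f.comp e.symm.toLinearMap) := by
      ext z
      constructor
      · rintro ⟨y, hy, rfl⟩
        have hy : f y = 0 := hy
        simp [hy]
      · intro hz
        have hz : f (e.symm z) = 0 := hz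
        exact ⟨e.symm z, hz, by simp⟩
    have h2 := torIn_map (Y := Y) e.toLinearMap e.injective (LinearMap.ker f)
    rw [h1] at h2
    have e1 := Submodule.equivMapOfInjective e.toLinearMap e.injective
      (torIn A Y (LinearMap.ker f))
    rw [h2] at e1
    exact ih e1 hf

/-- one step of a filtration inside a fixed module. -/
theorem filt_step {ι : Type u} (C : ι → Type u) [∀ i, AddCommGroup (C i)]
    [∀ i, Module A (C i)] {V : Type u} [AddCommGroup V] [Module A V] (k : ℕ)
    (G G' : Submodule A V) (hG : G' ≤ G) (i : ι) (f : G →ₗ[A] C i)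
    (hf : ∀ v, f v = 0 ↔ (v : V) ∈ G') (h : Filt A Y C k (torIn A Y G')) :
    Filt A Y C (k + 1) (torIn A Y G) := by
  have hle : torIn A Y G ≤ G := Bic.torIn_le G
  refine ⟨i, f.comp (Submodule.inclusion hle), ?_⟩
  have h1 : (LinearMap.ker (f.comp (Submodule.inclusion hle))).map (torIn A Y G).subtype =
      torIn A Y G ⊓ G' := by
    ext v
    constructor
    · rintro ⟨y, hy, rfl⟩
      have hy : f (Submodule.inclusion hle y) = 0 := hy
      exact ⟨y.2, (hf _).mp hy⟩
    · rintro ⟨hv, hv'⟩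
      exact ⟨⟨v, hv⟩, (hf (Submodule.inclusion hle ⟨v, hv⟩)).mpr hv', rfl⟩
  have h2 := torIn_map (Y := Y) (torIn A Y G).subtype (Submodule.injective_subtype _)
    (LinearMap.ker (f.comp (Submodule.inclusion hle)))
  have h3 : torIn A Y (torIn A Y G ⊓ G') = torIn A Y G' := by
    apply le_antisymm
    · exact torIn_mono inf_le_right
    · exact le_torIn (le_inf (torIn_mono hG) (Bic.torIn_le G')) (Bic.torIn_inT G')
  rw [h1, h3] at h2
  have e1 := Submodule.equivMapOfInjective (torIn A Y G).subtype (Submodule.injective_subtype _)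
    (torIn A Y (LinearMap.ker (f.comp (Submodule.inclusion hle))))
  rw [h2] at e1
  exact filt_congr C k e1.symm h

end tor

set_option linter.unusedSectionVars false

section coord

variable {K : Type u} [Field K] {A : Type u} [Ring A] [Algebra K A]
  {M : Type u} [AddCommGroup M] [Module A M] [Module K M] [IsScalarTower K A M]
  {n : ℕ} (b : Basis (Fin n) K M)
  {B L V : Type u} [CommRing B] [CommRing L] [Algebra K B] [Algebra B L] [Algebra K L]
  [IsScalarTower K B L]
  [AddCommGroup V] [Module A V] [Module L V] [SMulCommClass L A V] [Module K V]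
  [IsScalarTower K A V] [IsScalarTower K L V]
  (φ : M →ₗ[A] V) (γ : V →ₗ[L] (Fin n → L)) (hγ : ∀ v, v = ∑ j, γ v j • φ (b j))
  (E : M → Fin n → B) (hE : ∀ m j, algebraMap B L (E m j) = γ (φ m) j)
  (hinj : Injective (algebraMap B L))

theorem phi_smul (c : K) (m : M) : φ (c • m) = c • φ m := by
  rw [← algebraMap_smul A c m, map_smul, algebraMap_smul]

theorem smul_phi (r : L) (m : M) : r • φ m = ∑ i, (b.repr m i • r) • φ (b i) := by
  conv_lhs => rw [← b.sum_repr m]
  rw [map_sum, Finset.smul_sum]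
  refine Finset.sum_congr rfl fun i _ => ?_
  rw [phi_smul, ← algebraMap_smul L (b.repr m i) (φ (b i)), smul_smul, Algebra.smul_def, mul_comm]

theorem gamma_smul (bb : Fin n → M) (hγ : ∀ v, v = ∑ j, γ v j • φ (bb j))
    (hE : ∀ m j, algebraMap B L (E m j) = γ (φ m) j) (a : A) (v : V) (i : Fin n) :
    γ (a • v) i = ∑ j, γ v j * algebraMap B L (E (a • bb j) i) := by
  conv_lhs => rw [hγ v]
  rw [Finset.smul_sum, map_sum, Finset.sum_apply]
  refine Finset.sum_congr rfl fun j _ => ?_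
  rw [← smul_comm, ← map_smul φ, map_smul γ, Pi.smul_apply, smul_eq_mul, hE]

include hγ hE hinj in
theorem E_self (m : M) (i : Fin n) : E m i = ∑ j, E m j * E (b j) i := by
  apply hinj
  rw [map_sum, hE]
  conv_lhs => rw [hγ (φ m)]
  rw [map_sum, Finset.sum_apply]
  refine Finset.sum_congr rfl fun j _ => ?_
  rw [map_smul γ, Pi.smul_apply, smul_eq_mul, map_mul, hE, hE]

include hE hinj in
theorem E_sum (c : Fin n → K) (mm : Fin n → M) (i : Fin n) :
    E (∑ j, c j • mm j) i = ∑ j, c j • E (mm j) i := by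
  apply hinj
  rw [map_sum, hE, map_sum, map_sum, Finset.sum_apply]
  refine Finset.sum_congr rfl fun j _ => ?_
  rw [phi_smul, ← algebraMap_smul L (c j) (φ (mm j)), map_smul γ, Pi.smul_apply, smul_eq_mul,
    ← hE, Algebra.smul_def, map_mul, ← IsScalarTower.algebraMap_apply]

include hE hinj in
theorem chi_E_sum (χ : B →ₐ[K] K) (c : Fin n → K) (mm : Fin n → M) (i : Fin n) :
    χ (E (∑ j, c j • mm j) i) = ∑ j, c j * χ (E (mm j) i) := by
  rw [E_sum φ γ E hE hinj, map_sum]
  refine Finset.sum_congr rfl fun j _ => ?_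
  rw [map_smul, smul_eq_mul]

include hγ hE hinj in
theorem mkQ_E (χ : B →ₐ[K] K) (N : Submodule A M) (hN : ∀ m, m ∈ N ↔ ∀ j, χ (E m j) = 0)
    (m : M) : N.mkQ (∑ j, χ (E m j) • b j) = N.mkQ m := by
  rw [← sub_eq_zero, ← map_sub]
  apply Bic.mkQ_zero
  rw [hN]
  intro i
  have h1 : (∑ j, χ (E m j) • b j) - m = ∑ j, (χ (E m j) - b.repr m j) • b j := by
    conv_lhs => rw [← b.sum_repr m]
    simp only [sub_smul, Finset.sum_sub_distrib, b.sum_repr]
  rw [h1, chi_E_sum φ γ E hE hinj]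
  simp only [sub_mul, Finset.sum_sub_distrib]
  have h2 : ∑ j, χ (E m j) * χ (E (b j) i) = χ (E m i) := by
    conv_rhs => rw [E_self b φ γ hγ E hE hinj m i]
    rw [map_sum]
    refine Finset.sum_congr rfl fun j _ => ?_
    rw [map_mul]
  have h3 : ∑ j, b.repr m j * χ (E (b j) i) = χ (E m i) := by
    rw [← chi_E_sum φ γ E hE hinj, b.sum_repr]
  rw [h2, h3, sub_self]

include hγ hE hinj in
/-- The basic construction of maps to the quotients `M ⧸ N χ`. -/
theorem kap (χ : B →ₐ[K] K) (N : Submodule A M) (hN : ∀ m, m ∈ N ↔ ∀ j, χ (E m j) = 0)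
    {W : Type u} [AddCommGroup W] [Module A W] (c : W → (Fin n → K))
    (hadd : ∀ v w, c (v + w) = c v + c w)
    (hc : ∀ (a : A) (w : W) (i : Fin n), c (a • w) i = ∑ j, χ (E (a • b j) i) * c w j) :
    ∃ q : W →ₗ[A] M ⧸ N, (∀ w, q w = N.mkQ (∑ j, c w j • b j)) ∧
      (∀ w, q w = 0 ↔ c w = 0) := by
  have hc1 : ∀ w i, c w i = ∑ j, c w j * χ (E (b j) i) := by
    intro w i
    have := hc 1 w i
    rw [one_smul] at this
    rw [this]
    refine Finset.sum_congr rfl fun j _ => ?_
    rw [one_smul, mul_comm]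
  refine ⟨⟨⟨fun w => N.mkQ (∑ j, c w j • b j), ?_⟩, ?_⟩, fun w => rfl, ?_⟩
  · intro v w
    rw [← map_add, hadd]
    simp only [Pi.add_apply, add_smul, Finset.sum_add_distrib]
  · intro a w
    change N.mkQ (∑ j, c (a • w) j • b j) = a • N.mkQ (∑ j, c w j • b j)
    rw [← map_smul]
    have h1 : a • (∑ j, c w j • b j) = ∑ j, c w j • (a • b j) := by
      rw [Finset.smul_sum]
      refine Finset.sum_congr rfl fun j _ => ?_
      rw [smul_algebra_smul_comm]
    rw [h1, ← mkQ_E b φ γ hγ E hE hinj χ N hN (∑ j, c w j • (a • b j))]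
    congr 1
    refine Finset.sum_congr rfl fun i _ => ?_
    rw [hc, chi_E_sum φ γ E hE hinj]
    congr 1
    refine Finset.sum_congr rfl fun j _ => ?_
    rw [mul_comm]
  · intro w
    change N.mkQ (∑ j, c w j • b j) = 0 ↔ c w = 0
    constructor
    · intro h
      have h1 := (hN _).mp (Bic.mem_of_mkQ h)
      ext i
      have h2 := h1 i
      rw [chi_E_sum φ γ E hE hinj, ← hc1] at h2
      exact h2
    · intro h
      rw [h]
      simp

end coord

section FI

variable {K : Type u} [Field K] {A : Type u} [Ring A] [Algebra K A]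
  {M : Type u} [AddCommGroup M] [Module A M] [Module K M] [IsScalarTower K A M]
  {n : ℕ} (b : Basis (Fin n) K M)
  {B L V : Type u} [CommRing B] [CommRing L] [Algebra K B] [Algebra B L] [Algebra K L]
  [IsScalarTower K B L]
  [AddCommGroup V] [Module A V] [Module L V] [SMulCommClass L A V] [Module K V]
  [IsScalarTower K A V] [IsScalarTower K L V]
  (φ : M →ₗ[A] V) (γ : V →ₗ[L] (Fin n → L)) (E : M → Fin n → B) (R0 : Submodule K L) (t : L)

/-- sums of elements of `R0 φ(M)` -/
def XR : Submodule A V where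
  carrier := {v | ∃ r : Fin n → L, (∀ j, r j ∈ R0) ∧ v = ∑ j, r j • φ (b j)}
  add_mem' := by
    rintro v w ⟨r, hr, rfl⟩ ⟨s, hs, rfl⟩
    exact ⟨fun j => r j + s j, fun j => R0.add_mem (hr j) (hs j), by
      simp [add_smul, Finset.sum_add_distrib]⟩
  zero_mem' := ⟨fun _ => 0, fun _ => R0.zero_mem, by simp⟩
  smul_mem' := by
    rintro a v ⟨r, hr, rfl⟩
    refine ⟨fun i => ∑ j, b.repr (a • b j) i • r j,
      fun i => R0.sum_mem fun j _ => R0.smul_mem _ (hr j), ?_⟩
    simp only [Finset.sum_smul]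
    rw [Finset.smul_sum, Finset.sum_comm]
    refine Finset.sum_congr rfl fun j _ => ?_
    rw [← smul_comm, ← map_smul φ, smul_phi b φ]

theorem smul_phi_mem_XR {r : L} (hr : r ∈ R0) (m : M) : r • φ m ∈ XR b φ R0 :=
  ⟨fun i => b.repr m i • r, fun _ => R0.smul_mem _ hr, smul_phi b φ r m⟩

variable (hγs : ∀ (a : A) (v : V) (i : Fin n),
  γ (a • v) i = ∑ j, γ v j * algebraMap B L (E (a • b j) i))

/-- the filtration -/
def FI (k : ℕ) (J : Ideal B) : Submodule A V where
  carrier := {v | v ∈ XR b φ R0 ∧ ∀ i, ∃ z ∈ J, γ v i = t ^ k * algebraMap B L z}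
  add_mem' := by
    rintro v w ⟨hv, hv'⟩ ⟨hw, hw'⟩
    refine ⟨Submodule.add_mem _ hv hw, fun i => ?_⟩
    obtain ⟨z, hz, h1⟩ := hv' i
    obtain ⟨z', hz', h2⟩ := hw' i
    exact ⟨z + z', J.add_mem hz hz', by rw [map_add, Pi.add_apply, h1, h2, map_add]; ring⟩
  zero_mem' := ⟨Submodule.zero_mem _, fun i => ⟨0, J.zero_mem, by simp⟩⟩
  smul_mem' := by
    rintro a v ⟨hv, hv'⟩
    refine ⟨Submodule.smul_mem _ a hv, fun i => ?_⟩
    choose z hz h1 using hv'
    refine ⟨∑ j, z j * E (a • b j) i, J.sum_mem fun j _ => J.mul_mem_right _ (hz j), ?_⟩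
    rw [hγs, map_sum, Finset.mul_sum]
    refine Finset.sum_congr rfl fun j _ => ?_
    rw [h1, map_mul, mul_assoc]

theorem mem_FI {k : ℕ} {J : Ideal B} {v : V} : v ∈ FI b φ γ E R0 t hγs k J ↔
    v ∈ XR b φ R0 ∧ ∀ i, ∃ z ∈ J, γ v i = t ^ k * algebraMap B L z := Iff.rfl

theorem FI_mono {k : ℕ} {J J' : Ideal B} (h : J ≤ J') :
    FI b φ γ E R0 t hγs k J ≤ FI b φ γ E R0 t hγs k J' := by
  rintro v ⟨h1, h2⟩
  refine ⟨h1, fun i => ?_⟩
  obtain ⟨z, hz, h3⟩ := h2 i
  exact ⟨z, h hz, h3⟩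

theorem FI_succ {x : B} (hx : algebraMap B L x * t = 1) (k : ℕ) (J : Ideal B) :
    FI b φ γ E R0 t hγs k J ≤ FI b φ γ E R0 t hγs (k + 1) J := by
  rintro v ⟨h1, h2⟩
  refine ⟨h1, fun i => ?_⟩
  obtain ⟨z, hz, h3⟩ := h2 i
  refine ⟨x * z, J.mul_mem_left _ hz, ?_⟩
  rw [h3, map_mul, pow_succ]
  calc t ^ k * algebraMap B L z = t ^ k * (algebraMap B L x * t) * algebraMap B L z := by
        rw [hx, mul_one]
    _ = _ := by ring

theorem smul_phi_mem_FI (hE : ∀ m j, algebraMap B L (E m j) = γ (φ m) j) {k : ℕ} {r : L}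
    (hr : r ∈ R0) {z : B} (hz : r = t ^ k * algebraMap B L z) (m : M) :
    r • φ m ∈ FI b φ γ E R0 t hγs k ⊤ := by
  refine ⟨smul_phi_mem_XR b φ R0 hr m, fun i => ⟨z * E m i, trivial, ?_⟩⟩
  rw [map_smul γ, Pi.smul_apply, smul_eq_mul, ← hE, map_mul, hz]
  ring

end FI

end PC0

end BicG
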