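import Pool.Agent.Helper16.BicG.PropC0a

/-!
The filtration of `FI` used in `propC0`.
-/

universe u

namespace BicG

open Function Module
open Bic (InT InF SES torIn)
open scoped Polynomial

set_option linter.unusedSectionVars false

namespace PC0

section filt

variable {K : Type u} [Field K] {A : Type u} [Ring A] [Algebra K A]
  {M Y : Type u} [AddCommGroup M] [Module A M] [Module K M] [IsScalarTower K A M]
  [AddCommGroup Y] [Module A Y]
  {n : ℕ} (b : Basis (Fin n) K M)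
  {B L V : Type u} [CommRing B] [CommRing L] [Algebra K B] [Algebra B L] [Algebra K L]
  [IsScalarTower K B L]
  [AddCommGroup V] [Module A V] [Module L V] [SMulCommClass L A V] [Module K V]
  [IsScalarTower K A V] [IsScalarTower K L V]
  (φ : M →ₗ[A] V) (γ : V →ₗ[L] (Fin n → L)) (hγ : ∀ v, v = ∑ j, γ v j • φ (b j))
  (E : M → Fin n → B) (hE : ∀ m j, algebraMap B L (E m j) = γ (φ m) j)
  (hinj : Injective (algebraMap B L)) (R0 : Submodule K L) (t : L)
  (hγs : ∀ (a : A) (v : V) (i : Fin n),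
    γ (a • v) i = ∑ j, γ v j * algebraMap B L (E (a • b j) i))
  {x : B} (ht : algebraMap B L x * t = 1)

omit [AddCommGroup V] [Module A V] [Module L V] [SMulCommClass L A V] [Module K V]
  [IsScalarTower K A V] [IsScalarTower K L V] [Algebra K L] [Algebra K B] in
include hinj ht in
theorem cancel_t (k : ℕ) {z z' : B}
    (h : t ^ k * algebraMap B L z = t ^ k * algebraMap B L z') : z = z' := by
  apply hinj
  have h1 : ∀ w : L, (algebraMap B L x) ^ k * (t ^ k * w) = w := by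
    intro w
    rw [← mul_assoc, ← mul_pow, ht, one_pow, one_mul]
  rw [← h1 (algebraMap B L z), h, h1]

include hγ hE hinj ht in
theorem kapI (J : Ideal B) (χ : B →ₐ[K] K) (N : Submodule A M)
    (hN : ∀ m, m ∈ N ↔ ∀ j, χ (E m j) = 0) (κ : J →ₗ[K] K)
    (hκ : ∀ (c : B) (z : J), κ (c • z) = χ c * κ z) (k : ℕ) :
    ∃ f : FI b φ γ E R0 t hγs k J →ₗ[A] M ⧸ N, ∀ v, f v = 0 ↔
      ∀ (i : Fin n) (z : J), γ v i = t ^ k * algebraMap B L z → κ z = 0 := by
  have hz : ∀ (v : FI b φ γ E R0 t hγs k J) (i : Fin n), ∃ z : J,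
      γ v i = t ^ k * algebraMap B L z := by
    intro v i
    obtain ⟨z, hz, h⟩ := v.2.2 i
    exact ⟨⟨z, hz⟩, h⟩
  choose z hz using hz
  have huniq : ∀ (v : FI b φ γ E R0 t hγs k J) (i : Fin n) (y : J),
      γ v i = t ^ k * algebraMap B L y → y = z v i := by
    intro v i y hy
    apply Subtype.ext
    apply cancel_t hinj t ht k
    rw [← hy, ← hz]
  obtain ⟨q, hq1, hq2⟩ := kap b φ γ hγ E hE hinj χ N hN
    (W := FI b φ γ E R0 t hγs k J) (fun v i => κ (z v i)) (by
      intro v w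
      funext i
      rw [Pi.add_apply, ← map_add]
      congr 1
      symm
      apply huniq
      rw [Submodule.coe_add, map_add, Pi.add_apply, hz, hz, Submodule.coe_add, map_add]
      ring) (by
      intro a v i
      have h1 : (∑ j, E (a • b j) i • z v j) = z (a • v) i := by
        apply huniq
        rw [Submodule.coe_smul, hγs, Submodule.coe_sum, map_sum, Finset.mul_sum]
        refine Finset.sum_congr rfl fun j _ => ?_
        rw [hz, Submodule.coe_smul, smul_eq_mul, map_mul]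
        ring
      rw [← h1, map_sum]
      refine Finset.sum_congr rfl fun j _ => ?_
      rw [hκ])
  refine ⟨q, fun v => ?_⟩
  rw [hq2]
  constructor
  · intro h i y hy
    rw [huniq v i y hy]
    exact congrFun h i
  · intro h
    funext i
    exact h i _ (hz v i)

include hγ hE hinj ht in
theorem filt_FI [IsAlgClosed K] (hstepI : ∀ (I : Ideal B) (_ : Module.Finite K (B ⧸ I))
      (J : Ideal B), I < J →
      ∃ (J' : Ideal B) (χ : B →ₐ[K] K) (κ : J →ₗ[K] K), I ≤ J' ∧ J' < J ∧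
      (∀ (b : B) (z : J), κ (b • z) = χ b * κ z) ∧ (∀ z : J, κ z = 0 ↔ (z : B) ∈ J'))
    (N : (B →ₐ[K] K) → Submodule A M) (hN : ∀ χ m, m ∈ N χ ↔ ∀ j, χ (E m j) = 0)
    (k a : ℕ) (I : Ideal B) (hIf : Module.Finite K (B ⧸ I)) (hxI : x ^ a ∈ I)
    (hI : ∀ v ∈ FI b φ γ E R0 t hγs k I, v = 0) (J : Ideal B) (hIJ : I ≤ J) :
    ∃ m : ℕ, Filt A Y (fun χ : {χ : B →ₐ[K] K // χ x = 0} => M ⧸ N χ.1) m
      (torIn A Y (FI b φ γ E R0 t hγs k J)) := by
  have hart : IsArtinianRing (B ⧸ I) := IsArtinianRing.of_finite K _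
  have hwf : WellFounded (fun J J' : Ideal B =>
      J.map (Ideal.Quotient.mk I) < J'.map (Ideal.Quotient.mk I)) :=
    InvImage.wf (fun J : Ideal B => J.map (Ideal.Quotient.mk I)) wellFounded_lt
  revert hIJ
  refine hwf.induction (C := fun J => I ≤ J → ∃ m : ℕ,
    Filt A Y (fun χ : {χ : B →ₐ[K] K // χ x = 0} => M ⧸ N χ.1) m
      (torIn A Y (FI b φ γ E R0 t hγs k J))) J ?_
  intro J ih hIJ
  rcases hIJ.eq_or_lt with rfl | hlt
  · refine ⟨0, ?_⟩
    refine ⟨fun v w => ?_⟩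
    have h1 : ∀ v : torIn A Y (FI b φ γ E R0 t hγs k I), v = 0 := by
      intro v
      apply Subtype.ext
      exact hI v (Bic.torIn_le _ v.2)
    rw [h1 v, h1 w]
  · obtain ⟨J', χ, κ, hIJ', hJ'J, hκ, hκ'⟩ := hstepI I hIf J hlt
    have hχx : χ x = 0 := by
      obtain ⟨z, hzJ, hzJ'⟩ := SetLike.exists_of_lt hJ'J
      have h1 : κ (x ^ a • ⟨z, hzJ⟩ : J) = 0 := by
        rw [hκ']
        apply hIJ'
        exact I.mul_mem_right _ hxI
      rw [hκ, map_pow] at h1
      rcases mul_eq_zero.mp h1 with h2 | h2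
      · exact eq_zero_of_pow_eq_zero h2
      · exact absurd ((hκ' _).mp h2) hzJ'
    have hlt' : J'.map (Ideal.Quotient.mk I) < J.map (Ideal.Quotient.mk I) := by
      refine lt_of_le_of_ne (Ideal.map_mono hJ'J.le) (fun heq => hJ'J.ne ?_)
      rw [← Ideal.comap_map_mk hIJ', heq, Ideal.comap_map_mk hIJ]
    obtain ⟨m, hm⟩ := ih J' hlt' hIJ'
    obtain ⟨f, hf⟩ := kapI b φ γ hγ E hE hinj R0 t hγs ht J χ (N χ) (hN χ) κ hκ k
    refine ⟨m + 1, ?_⟩
    refine filt_step (Y := Y) (fun χ : {χ : B →ₐ[K] K // χ x = 0} => M ⧸ N χ.1) m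
      (FI b φ γ E R0 t hγs k J) (FI b φ γ E R0 t hγs k J')
      (FI_mono b φ γ E R0 t hγs hJ'J.le) ⟨χ, hχx⟩ f (fun v => ?_) hm
    rw [hf]
    constructor
    · intro h
      refine ⟨v.2.1, fun i => ?_⟩
      obtain ⟨z, hz, h1⟩ := v.2.2 i
      exact ⟨z, (hκ' ⟨z, hz⟩).mp (h i ⟨z, hz⟩ h1), h1⟩
    · rintro ⟨-, h⟩ i z hz
      obtain ⟨y, hy, h1⟩ := h i
      rw [hκ']
      have : (z : B) = y := cancel_t hinj t ht k (by rw [← hz, ← h1])
      rw [this]
      exact hy

end filt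

end PC0

end BicG
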