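import Pool.Agent.Helper16.BicG.PropC0
import Pool.Agent.Helper16.BicG.RMHom

/-!
The comparison theorem for points.
-/

universe u

namespace BicG

open Function Module
open Bic (InT InF SES torIn)
open scoped TensorProduct Polynomial

namespace PC1

section VP

variable {F S L : Type u} [Field F] [Ring S] [Algebra F S] [CommRing L] [Algebra F L] {n : ℕ}

/-- the fixed vectors of a matrix -/
def VPs (e : Matrix (Fin n) (Fin n) L) : Submodule L (Fin n → L) where
  carrier := {v | e.mulVec v = v}
  add_mem' {v w} hv hw := by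
    have hv : e.mulVec v = v := hv
    have hw : e.mulVec w = w := hw
    change e.mulVec (v + w) = v + w
    rw [Matrix.mulVec_add, hv, hw]
  zero_mem' := Matrix.mulVec_zero e
  smul_mem' c v hv := by
    have hv : e.mulVec v = v := hv
    change e.mulVec (c • v) = c • v
    rw [Matrix.mulVec_smul, hv]

/-- the image of an idempotent matrix, with an action of `S` -/
def VP (σ : S →ₐ[F] Matrix (Fin n) (Fin n) L) (e : Matrix (Fin n) (Fin n) L)
    (_ : e * e = e ∧ ∀ s, e * σ s * (1 - e) = 0) : Type u := ↥(VPs e)

variable (σ : S →ₐ[F] Matrix (Fin n) (Fin n) L) (e : Matrix (Fin n) (Fin n) L)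
    (he : e * e = e ∧ ∀ s, e * σ s * (1 - e) = 0)

noncomputable instance : AddCommGroup (VP σ e he) := inferInstanceAs (AddCommGroup ↥(VPs e))

noncomputable instance : Module L (VP σ e he) := inferInstanceAs (Module L ↥(VPs e))

noncomputable instance : Module F (VP σ e he) := inferInstanceAs (Module F ↥(VPs e))

instance : IsScalarTower F L (VP σ e he) := inferInstanceAs (IsScalarTower F L ↥(VPs e))

/-- the inclusion -/
def VP.val : VP σ e he →ₗ[L] (Fin n → L) := (VPs e).subtype

theorem VP.val_inj : Injective (VP.val σ e he) := Subtype.val_injective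

theorem VP.prop (v : VP σ e he) : e.mulVec (VP.val σ e he v) = VP.val σ e he v := v.2

include he in
theorem esig (s : S) : e * σ s * e = e * σ s := by
  have := he.2 s
  rw [mul_sub, mul_one, sub_eq_zero] at this
  exact this.symm

/-- the projection onto the image -/
noncomputable def VP.proj (w : Fin n → L) : VP σ e he := ⟨e.mulVec w, by
  change e.mulVec (e.mulVec w) = e.mulVec w
  rw [Matrix.mulVec_mulVec, he.1]⟩

theorem VP.val_proj (w : Fin n → L) : VP.val σ e he (VP.proj σ e he w) = e.mulVec w := rfl

/-- the action of `S` -/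
noncomputable def VP.act : S →+* Module.End L (VP σ e he) where
  toFun s :=
    { toFun := fun v => VP.proj σ e he ((σ s).mulVec (VP.val σ e he v))
      map_add' := by
        intro v w
        apply VP.val_inj
        simp only [map_add, VP.val_proj, Matrix.mulVec_add]
      map_smul' := by
        intro c v
        apply VP.val_inj
        simp only [map_smul, VP.val_proj, Matrix.mulVec_smul, RingHom.id_apply] }
  map_one' := by
    ext v
    apply VP.val_inj
    change e.mulVec ((σ 1).mulVec (VP.val σ e he v)) = VP.val σ e he v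
    rw [map_one, Matrix.one_mulVec, VP.prop]
  map_mul' s s' := by
    ext v
    apply VP.val_inj
    change e.mulVec ((σ (s * s')).mulVec (VP.val σ e he v)) =
      e.mulVec ((σ s).mulVec (e.mulVec ((σ s').mulVec (VP.val σ e he v))))
    rw [map_mul]
    simp only [Matrix.mulVec_mulVec, ← mul_assoc]
    rw [esig σ e he s]
  map_zero' := by
    ext v
    apply VP.val_inj
    change e.mulVec ((σ 0).mulVec (VP.val σ e he v)) = 0
    rw [map_zero, Matrix.zero_mulVec, Matrix.mulVec_zero]
  map_add' s s' := by
    ext v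
    apply VP.val_inj
    change e.mulVec ((σ (s + s')).mulVec (VP.val σ e he v)) =
      e.mulVec ((σ s).mulVec (VP.val σ e he v)) + e.mulVec ((σ s').mulVec (VP.val σ e he v))
    rw [map_add, Matrix.add_mulVec, Matrix.mulVec_add]

noncomputable instance : Module S (VP σ e he) := Module.compHom (VP σ e he) (VP.act σ e he)

theorem VP.val_smul (s : S) (v : VP σ e he) :
    VP.val σ e he (s • v) = e.mulVec ((σ s).mulVec (VP.val σ e he v)) := rfl

theorem VP.val_smul' (c : F) (v : VP σ e he) :
    VP.val σ e he (c • v) = c • (VP.val σ e he v) := rfl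

instance : SMulCommClass L S (VP σ e he) where
  smul_comm l s v := by
    apply VP.val_inj
    rw [map_smul, VP.val_smul, VP.val_smul, map_smul, Matrix.mulVec_smul, Matrix.mulVec_smul]

instance : IsScalarTower F S (VP σ e he) where
  smul_assoc c s v := by
    apply VP.val_inj
    rw [VP.val_smul, VP.val_smul', VP.val_smul, map_smul, Matrix.smul_mulVec,
      Matrix.mulVec_smul]

end VP

end PC1

theorem propC1 {K Ω A : Type u} [Field K] [Field Ω] [IsAlgClosed Ω] [Algebra K Ω] [Ring A]
    [Algebra K A] [Module.Finite K A] {n m : ℕ} (ρM : A →ₐ[K] Matrix (Fin n) (Fin n) K)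
    (ρY : A →ₐ[K] Matrix (Fin m) (Fin m) K)
    (h : TPair (Ω ⊗[K] A) (RM (rext ρM Ω)) (RM (rext ρY Ω)))
    {B : Type u} [CommRing B] [Algebra Ω B] [Algebra K B] [IsScalarTower K Ω B]
    [Algebra (Polynomial Ω) B] [IsScalarTower Ω (Polynomial Ω) B] [Module.Finite (Polynomial Ω) B] [Module.Free (Polynomial Ω) B]
    (e : Matrix (Fin n) (Fin n) B) (he : IsPt ρM e) (Q : B →ₐ[Ω] Ω)
    (hQ : Q (algebraMap (Polynomial Ω) B Polynomial.X) = 1)
    (hbad : Bad (Ω ⊗[K] A) (RM (rext ρM Ω)) (RM (rext ρY Ω)) (Xc ρM (e.map Q))) :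
    ∃ χ : B →ₐ[Ω] Ω, χ (algebraMap (Polynomial Ω) B Polynomial.X) = 0 ∧
      ∃ (w : Type u) (_ : AddCommGroup w) (_ : Module (Ω ⊗[K] A) w),
        TSimple (Ω ⊗[K] A) (RM (rext ρY Ω)) w ∧
        Bad (Ω ⊗[K] A) (RM (rext ρM Ω)) (RM (rext ρY Ω)) w ∧
        Le (Ω ⊗[K] A) (RM (rext ρM Ω)) (RM (rext ρY Ω)) w (Xc ρM (e.map Q)) ∧
        Le (Ω ⊗[K] A) (RM (rext ρM Ω)) (RM (rext ρY Ω)) w (Xc ρM (e.map χ)) := by
  classical
  let L := Localization.Away (algebraMap (Polynomial Ω) B Polynomial.X)
  let P : (Ω ⊗[K] A) →ₐ[Ω] Matrix (Fin n) (Fin n) Ω := rmHom (rext ρM Ω)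
  let σ : (Ω ⊗[K] A) →ₐ[Ω] Matrix (Fin n) (Fin n) L := (Algebra.ofId Ω L).mapMatrix.comp P
  have hσ : ∀ s, σ s = ((P s).map (algebraMap Ω B)).map (algebraMap B L) := by
    intro s
    ext i j
    change algebraMap Ω L (P s i j) = algebraMap B L (algebraMap Ω B (P s i j))
    rw [← IsScalarTower.algebraMap_apply]
  have hBs : ∀ s, e * (P s).map (algebraMap Ω B) * (1 - e) = 0 := by
    intro s
    induction s with
    | zero =>
      rw [map_zero]
      have : (0 : Matrix (Fin n) (Fin n) Ω).map (algebraMap Ω B) = 0 := by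
        ext i j; simp
      rw [this, mul_zero, zero_mul]
    | tmul ω a =>
      have h1 : (P (ω ⊗ₜ a)).map (algebraMap Ω B) = (algebraMap Ω B ω) • rext ρM B a := by
        ext i j
        change algebraMap Ω B (rmHom (rext ρM Ω) (ω ⊗ₜ a) i j) = _
        rw [rmHom_tmul, Matrix.smul_apply, Matrix.smul_apply, rext_apply, rext_apply,
          Matrix.map_apply, Matrix.map_apply, smul_eq_mul, smul_eq_mul, map_mul,
          ← IsScalarTower.algebraMap_apply]
      rw [h1, Matrix.mul_smul, Matrix.smul_mul, he.stab, smul_zero]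
    | add s s' hs hs' =>
      have h1 : (P (s + s')).map (algebraMap Ω B) =
          (P s).map (algebraMap Ω B) + (P s').map (algebraMap Ω B) := by
        rw [map_add]
        ext i j
        simp
      rw [h1, mul_add, add_mul, hs, hs', add_zero]
  let eL : Matrix (Fin n) (Fin n) L := e.map (algebraMap B L)
  have heL : eL * eL = eL ∧ ∀ s, eL * σ s * (1 - eL) = 0 := by
    constructor
    · change e.map (algebraMap B L) * e.map (algebraMap B L) = e.map (algebraMap B L)
      rw [← Matrix.map_mul, he.idem]
    · intro s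
      have h1 : eL * σ s * (1 - eL) =
          (e * (P s).map (algebraMap Ω B) * (1 - e)).map (algebraMap B L) := by
        rw [Matrix.map_mul, Matrix.map_mul, ← hσ, Matrix.map_sub (algebraMap B L)
          (fun a b => map_sub _ a b), Matrix.map_one (algebraMap B L) (map_zero _) (map_one _)]
      rw [h1, hBs]
      ext i j
      simp
  -- the map `φ`
  let inc : (Fin n → Ω) →ₗ[Ω] (Fin n → L) :=
    { toFun := fun v i => algebraMap Ω L (v i)
      map_add' := fun v w => by funext i; exact map_add (algebraMap Ω L) _ _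
      map_smul' := fun c v => by
        funext i
        change algebraMap Ω L (c * v i) = c • algebraMap Ω L (v i)
        rw [map_mul, Algebra.smul_def] }
  have hinc : ∀ (T : Matrix (Fin n) (Fin n) Ω) (v : Fin n → Ω),
      inc (T.mulVec v) = (T.map (algebraMap Ω L)).mulVec (inc v) := by
    intro T v
    funext i
    change algebraMap Ω L (T.mulVec v i) = _
    simp only [Matrix.mulVec, dotProduct, map_sum, map_mul]
    rfl
  let φ : RM (rext ρM Ω) →ₗ[Ω ⊗[K] A] PC1.VP σ eL heL :=
    { toFun := fun v => PC1.VP.proj σ eL heL (inc (RM.vec v))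
      map_add' := by
        intro v w
        apply PC1.VP.val_inj
        simp only [map_add, PC1.VP.val_proj, Matrix.mulVec_add]
      map_smul' := by
        intro s v
        apply PC1.VP.val_inj
        rw [RingHom.id_apply, PC1.VP.val_smul, PC1.VP.val_proj, PC1.VP.val_proj, RM.smul_def,
          hinc, Matrix.mulVec_mulVec, Matrix.mulVec_mulVec, Matrix.mulVec_mulVec]
        congr 1
        exact (PC1.esig σ eL heL s).symm }
  have hφ : ∀ v, PC1.VP.val σ eL heL (φ v) = eL.mulVec (inc (RM.vec v)) := fun v => rfl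
  let b : Basis (Fin n) Ω (RM (rext ρM Ω)) := (Pi.basisFun Ω (Fin n)).map
    (RM.vec (ρ := rext ρM Ω)).symm
  have hb : ∀ j, inc (RM.vec (b j)) = Pi.single j 1 := by
    intro j
    have h1 : RM.vec (b j) = Pi.single j 1 := by
      change RM.vec ((RM.vec (ρ := rext ρM Ω)).symm (Pi.basisFun Ω (Fin n) j)) = _
      rw [LinearEquiv.apply_symm_apply, Pi.basisFun_apply]
    rw [h1]
    funext i
    change algebraMap Ω L ((Pi.single j 1 : Fin n → Ω) i) = _
    by_cases hij : i = j
    · subst hij
      simp
    · rw [Pi.single_eq_of_ne hij, Pi.single_eq_of_ne hij, map_zero]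
  let E : RM (rext ρM Ω) → Fin n → B := fun v =>
    e.mulVec (fun i => algebraMap Ω B (RM.vec v i))
  have hpt : ∀ χ : B →ₐ[Ω] Ω, IsPt ρM (e.map χ) := by
    intro χ
    have h1 : ∀ a, (rext ρM B a).map χ = rext ρM Ω a := by
      intro a
      ext i j
      rw [rext_apply, rext_apply, Matrix.map_apply, Matrix.map_apply, Matrix.map_apply,
        IsScalarTower.algebraMap_apply K Ω B, AlgHom.commutes]
      rfl
    have h2 : ∀ (T T' : Matrix (Fin n) (Fin n) B), (T * T').map χ = T.map χ * T'.map χ :=
      fun T T' => Matrix.map_mul (f := (χ : B →+* Ω))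
    constructor
    · rw [← h2, he.idem]
    · intro a
      have h3 : e.map χ * rext ρM Ω a * (1 - e.map χ) =
          (e * rext ρM B a * (1 - e)).map χ := by
        rw [h2, h2, h1, Matrix.map_sub χ (fun a b => map_sub _ a b),
          Matrix.map_one χ (map_zero _) (map_one _)]
      rw [h3, he.stab]
      ext i j
      simp
  exact propC0 h b φ (PC1.VP.val σ eL heL) (by
      intro v
      apply PC1.VP.val_inj
      rw [map_sum]
      conv_lhs => rw [← PC1.VP.prop σ eL heL v]
      have h1 : PC1.VP.val σ eL heL v = ∑ j, PC1.VP.val σ eL heL v j • Pi.single j (1 : L) := by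
        funext i
        simp [Finset.sum_apply, Pi.single_apply]
      conv_lhs => rw [h1]
      rw [Matrix.mulVec_sum]
      refine Finset.sum_congr rfl fun j _ => ?_
      rw [map_smul, hφ, hb, Matrix.mulVec_smul])
    E (by
      intro v j
      rw [hφ]
      change algebraMap B L (e.mulVec (fun i => algebraMap Ω B (RM.vec v i)) j) = _
      simp only [Matrix.mulVec, dotProduct, map_sum, map_mul]
      refine Finset.sum_congr rfl fun i _ => ?_
      rw [← IsScalarTower.algebraMap_apply]
      rfl)
    Q hQ (fun χ => Nc ρM (e.map χ)) (by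
      intro χ v
      rw [mem_Nc ρM (e.map χ) (hpt χ) v, funext_iff]
      refine forall_congr' fun j => ?_
      rw [Pi.zero_apply]
      have h1 : χ (E v j) = (e.map χ).mulVec (RM.vec v) j := by
        change χ (e.mulVec (fun i => algebraMap Ω B (RM.vec v i)) j) = _
        simp only [Matrix.mulVec, dotProduct, map_sum, map_mul]
        refine Finset.sum_congr rfl fun i _ => ?_
        rw [AlgHom.commutes]
        rfl
      rw [h1])
    hbad

end BicG
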