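import Pool.Agent.Helper16.BicG.RM

/-!
Auxiliary facts on specialisations of points.
-/

universe u

namespace BicG

open Function MvPolynomial

section aux

theorem exists_rel {k Ω : Type u} [Field k] [Field Ω] [Algebra k Ω] {σ : Type} (c : σ → Ω)
    {d : ℕ} (Yp : Fin d → MvPolynomial σ k) (p : MvPolynomial σ k)
    (hint : IsIntegral (Algebra.adjoin k (Set.range fun j => aeval c (Yp j))) (aeval c p)) :
    ∃ (n : ℕ) (Q : ℕ → MvPolynomial (Fin d) k), 0 < n ∧
      aeval c (p ^ n + ∑ l ∈ Finset.range n, bind₁ Yp (Q l) * p ^ l) = 0 ∧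
      (aeval c p ≠ 0 → aeval (fun j => aeval c (Yp j)) (Q 0) ≠ 0) := by
  classical
  set y : Fin d → Ω := fun j => aeval c (Yp j) with hy
  set R := Algebra.adjoin k (Set.range y) with hR
  set z := aeval c p with hz
  have hex : ∃ n, ∃ P : Polynomial R, P.Monic ∧ P.natDegree = n ∧ Polynomial.aeval z P = 0 := by
    obtain ⟨P, hP, hPz⟩ := hint
    exact ⟨_, P, hP, rfl, hPz⟩
  obtain ⟨P, hPm, hPn, hPz⟩ := Nat.find_spec hex
  have hmin := fun m => Nat.find_min hex (m := m)
  set n := Nat.find hex with hn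
  have hn0 : 0 < n := by
    rcases Nat.eq_zero_or_pos n with h0 | h0
    · exfalso
      rw [h0] at hPn
      have h1 := Polynomial.eq_one_of_monic_natDegree_zero hPm hPn
      rw [h1, map_one] at hPz
      exact one_ne_zero hPz
    · exact h0
  have hrep : ∀ r : R, ∃ Q : MvPolynomial (Fin d) k, aeval y Q = (r : Ω) := by
    intro r
    have h1 : (r : Ω) ∈ (aeval y : MvPolynomial (Fin d) k →ₐ[k] Ω).range := by
      rw [← Algebra.adjoin_range_eq_range_aeval]
      exact r.2
    exact h1
  choose Q hQ using hrep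
  refine ⟨n, fun l => Q (P.coeff l), hn0, ?_, ?_⟩
  · rw [map_add, map_pow, map_sum]
    have h1 : Polynomial.aeval z P = z ^ n + ∑ l ∈ Finset.range n, (P.coeff l : Ω) * z ^ l := by
      have h2 := hPm.as_sum
      rw [hPn] at h2
      conv_lhs => rw [h2]
      rw [map_add, map_pow, Polynomial.aeval_X, map_sum]
      congr 1
      apply Finset.sum_congr rfl
      intro l _
      rw [map_mul, map_pow, Polynomial.aeval_X, Polynomial.aeval_C]
      rfl
    rw [h1] at hPz
    rw [← hPz]
    congr 1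
    apply Finset.sum_congr rfl
    intro l _
    rw [map_mul, map_pow, aeval_bind₁]
    congr 1
    exact hQ _
  · intro hz0
    rw [hQ]
    intro h0
    have h0' : P.coeff 0 = 0 := Subtype.ext h0
    have h1 := Polynomial.divX_mul_X_add P
    rw [h0', map_zero, add_zero] at h1
    have h2 : (P.divX * Polynomial.X).Monic := by rw [h1]; exact hPm
    have h3 : P.divX.Monic := Polynomial.Monic.of_mul_monic_right Polynomial.monic_X h2
    have h4 : Polynomial.aeval z P.divX = 0 := by
      have h5 : Polynomial.aeval z (P.divX * Polynomial.X) = 0 := by rw [h1, hPz]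
      rw [map_mul, Polynomial.aeval_X] at h5
      exact (mul_eq_zero.mp h5).resolve_right hz0
    have h5 : P.divX.natDegree < n := by
      have h6 : (P.divX * Polynomial.X).natDegree = n := by rw [h1, hPn]
      rw [h3.natDegree_mul Polynomial.monic_X, Polynomial.natDegree_X] at h6
      omega
    exact hmin _ h5 ⟨P.divX, h3, rfl, h4⟩

theorem exists_avoid {K Ω : Type u} [Field K] [Field Ω] [Algebra K Ω]
    (k k' : IntermediateField K Ω) (hkk' : k ≤ k') (hinf : Infinite k) {d : ℕ}
    (a0 : MvPolynomial (Fin d) k') (h : a0 ≠ 0) :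
    ∃ y0 : Fin d → Ω, (∀ j, y0 j ∈ k) ∧ aeval y0 a0 ≠ 0 := by
  by_contra hcon
  push Not at hcon
  apply h
  apply MvPolynomial.funext_set (fun _ => {z : k' | (z : Ω) ∈ k})
  · intro i
    have h1 : Function.Injective (fun z : k => (⟨z, hkk' z.2⟩ : k')) := fun a b hab =>
      Subtype.ext (congrArg (fun t : k' => (t : Ω)) hab)
    apply (Set.infinite_range_of_injective h1).mono
    rintro _ ⟨z, rfl⟩
    exact z.2
  · intro x hx
    have h1 := hcon (fun j => (x j : Ω)) (fun j => hx j (Set.mem_univ j))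
    have h2 : aeval (fun j => (x j : Ω)) a0 = algebraMap k' Ω (eval x a0) := by
      have : (fun j => (x j : Ω)) = (algebraMap k' Ω) ∘ x := rfl
      rw [this, aeval_algebraMap_apply]
      rfl
    rw [h2] at h1
    rw [map_zero]
    exact (map_eq_zero (algebraMap k' Ω)).mp h1

theorem exists_prime_colon {R : Type u} [CommRing R] [IsNoetherianRing R] (I : Ideal R)
    (hI : I ≠ ⊤) (hrad : I.IsRadical) :
    ∃ (p : Ideal R) (h : R), p.IsPrime ∧ h ∉ p ∧ ∀ q, q ∈ p ↔ h * q ∈ I := by
  classical
  let col : R → Ideal R := fun h =>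
    { carrier := {q | h * q ∈ I}
      add_mem' := fun {a b} ha hb => by
        change h * (a + b) ∈ I
        rw [mul_add]; exact I.add_mem ha hb
      zero_mem' := by change h * 0 ∈ I; rw [mul_zero]; exact I.zero_mem
      smul_mem' := fun a b hb => by
        change h * (a * b) ∈ I
        rw [mul_left_comm]; exact I.mul_mem_left a hb }
  have hcol : ∀ h q, q ∈ col h ↔ h * q ∈ I := fun h q => Iff.rfl
  have h1 : (1 : R) ∉ I := fun h => hI ((Ideal.eq_top_iff_one I).mpr h)
  obtain ⟨p, ⟨h, hh, rfl⟩, hmax⟩ := set_has_maximal_iff_noetherian.mpr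
    (inferInstance : IsNoetherian R R) {p | ∃ h, h ∉ I ∧ p = col h} ⟨_, 1, h1, rfl⟩
  refine ⟨col h, h, ⟨?_, ?_⟩, ?_, hcol h⟩
  · intro htop
    have : (1 : R) ∈ col h := htop ▸ Submodule.mem_top
    rw [hcol, mul_one] at this
    exact hh this
  · intro a b hab
    by_cases hb : b ∈ col h
    · exact Or.inr hb
    · left
      have h2 : h * b ∉ I := hb
      have h3 : col h ≤ col (h * b) := by
        intro q hq
        rw [hcol] at hq ⊢
        have := I.mul_mem_left b hq
        rwa [← mul_assoc, mul_comm b h] at this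
      have h4 : ¬ col h < col (h * b) := hmax _ ⟨h * b, h2, rfl⟩
      have h5 : a ∈ col (h * b) := by
        rw [hcol] at hab ⊢
        rwa [mul_assoc, mul_comm b a]
      by_contra ha
      apply h4
      exact lt_of_le_of_ne h3 (fun heq => ha (heq ▸ h5))
  · intro hmem
    rw [hcol] at hmem
    exact hh (hrad ⟨2, by rwa [pow_two]⟩)

theorem Spz.refl {k Ω : Type u} [Field k] [Field Ω] [Algebra k Ω] {σ : Type} (c : σ → Ω) :
    Spz k c c := fun _ h => h

theorem Spz.trans {k Ω : Type u} [Field k] [Field Ω] [Algebra k Ω] {σ : Type}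
    {a b c : σ → Ω} (h1 : Spz k a b) (h2 : Spz k b c) : Spz k a c := fun p hp => h2 p (h1 p hp)

/-- specialisations over a bigger field -/
theorem Spz.down {K Ω : Type u} [Field K] [Field Ω] [Algebra K Ω] (k : IntermediateField K Ω)
    {σ : Type} {a b : σ → Ω} (h : Spz k a b) : Spz K a b := fun p hp => by
  have h1 : ∀ x : σ → Ω, aeval x (MvPolynomial.map (algebraMap K k) p) = aeval x p := fun x => by
    rw [aeval_map_algebraMap]
  rw [← h1] at hp ⊢
  exact h _ hp

theorem spz_const {K Ω : Type u} [Field K] [Field Ω] [Algebra K Ω] (k : IntermediateField K Ω)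
    {σ σ' τ : Type} {x x' : σ → Ω} (z : σ' → Ω) (hz : ∀ i, z i ∈ k) {θ θ' : τ → Ω}
    (h : Spz k (Sum.elim x θ) (Sum.elim x' θ')) :
    Spz K (Sum.elim (Sum.elim x z) θ) (Sum.elim (Sum.elim x' z) θ') := by
  intro p hp
  let F : MvPolynomial ((σ ⊕ σ') ⊕ τ) K →ₐ[K] MvPolynomial (σ ⊕ τ) k :=
    aeval (Sum.elim (Sum.elim (fun i => X (Sum.inl i)) (fun i => C ⟨z i, hz i⟩))
      (fun i => X (Sum.inr i)))
  have h1 : ∀ (v : σ → Ω) (w : τ → Ω), aeval (Sum.elim v w) (F p) =
      aeval (Sum.elim (Sum.elim v z) w) p := by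
    intro v w
    have h2 : ((aeval (R := k) (Sum.elim v w)).restrictScalars K).comp F =
        aeval (Sum.elim (Sum.elim v z) w) := by
      apply MvPolynomial.algHom_ext
      rintro ((i | i) | i)
      · simp [F]
      · simp [F]
      · simp [F]
    exact DFunLike.congr_fun h2 p
  rw [← h1] at hp ⊢
  exact h _ hp

theorem spz_const' {K Ω : Type u} [Field K] [Field Ω] [Algebra K Ω] (k : IntermediateField K Ω)
    {σ σ' τ : Type} {x x' : σ → Ω} (z : σ' → Ω) (hz : ∀ i, z i ∈ k) {θ θ' : τ → Ω}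
    (h : Spz k (Sum.elim x θ) (Sum.elim x' θ')) :
    Spz K (Sum.elim (Sum.elim z x) θ) (Sum.elim (Sum.elim z x') θ') := by
  intro p hp
  let F : MvPolynomial ((σ' ⊕ σ) ⊕ τ) K →ₐ[K] MvPolynomial (σ ⊕ τ) k :=
    aeval (Sum.elim (Sum.elim (fun i => C ⟨z i, hz i⟩) (fun i => X (Sum.inl i)))
      (fun i => X (Sum.inr i)))
  have h1 : ∀ (v : σ → Ω) (w : τ → Ω), aeval (Sum.elim v w) (F p) =
      aeval (Sum.elim (Sum.elim z v) w) p := by
    intro v w
    have h2 : ((aeval (R := k) (Sum.elim v w)).restrictScalars K).comp F =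
        aeval (Sum.elim (Sum.elim z v) w) := by
      apply MvPolynomial.algHom_ext
      rintro ((i | i) | i)
      · simp [F]
      · simp [F]
      · simp [F]
    exact DFunLike.congr_fun h2 p
  rw [← h1] at hp ⊢
  exact h _ hp

end aux

end BicG
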