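import Mathlib

/-!
Module SPEC, part B: injectivity of systems of linear equations between matrices is preserved by
specialisation, when the entries of a left inverse are specialised too.
-/

universe u

namespace BicG

open Function Module

section sys

variable {p q p' q' N : ℕ}

/-- the matrix with entries `v` -/
def ofV {R : Type u} (v : Fin p × Fin q → R) : Matrix (Fin p) (Fin q) R :=
  Matrix.of fun i j => v (i, j)

/-- the linear map of a system of equations -/
def sysMap {R : Type u} [CommRing R] (A C : Fin N → Matrix (Fin p) (Fin p) R)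
    (B D : Fin N → Matrix (Fin q) (Fin q) R) (E : Matrix (Fin p') (Fin p) R)
    (E' : Matrix (Fin q) (Fin q') R) :
    (Fin p × Fin q → R) →ₗ[R] ((Fin N × (Fin p × Fin q)) ⊕ (Fin p' × Fin q') → R) where
  toFun v := Sum.elim (fun x => (A x.1 * ofV v * B x.1 - C x.1 * ofV v * D x.1) x.2.1 x.2.2)
    (fun y => (E * ofV v * E') y.1 y.2)
  map_add' v w := by
    have h : (ofV (v + w) : Matrix (Fin p) (Fin q) R) = ofV v + ofV w := rfl
    funext x
    rcases x with x | x
    · simp only [h, Sum.elim_inl, Pi.add_apply, Matrix.mul_add, Matrix.add_mul, Matrix.sub_apply,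
        Matrix.add_apply]
      ring
    · simp only [h, Sum.elim_inr, Pi.add_apply, Matrix.mul_add, Matrix.add_mul, Matrix.add_apply]
  map_smul' t v := by
    have h : (ofV (t • v) : Matrix (Fin p) (Fin q) R) = t • ofV v := rfl
    funext x
    rcases x with x | x
    · simp only [h, Sum.elim_inl, Pi.smul_apply, Matrix.mul_smul, Matrix.smul_mul,
        Matrix.sub_apply, Matrix.smul_apply, RingHom.id_apply, smul_sub]
    · simp only [h, Sum.elim_inr, Pi.smul_apply, Matrix.mul_smul, Matrix.smul_mul,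
        Matrix.smul_apply, RingHom.id_apply]

theorem sysMap_map {R S : Type u} [CommRing R] [CommRing S] (σ : R →+* S)
    (A C : Fin N → Matrix (Fin p) (Fin p) R)
    (B D : Fin N → Matrix (Fin q) (Fin q) R) (E : Matrix (Fin p') (Fin p) R)
    (E' : Matrix (Fin q) (Fin q') R) (v : Fin p × Fin q → R) :
    sysMap (fun i => (A i).map σ) (fun i => (C i).map σ) (fun i => (B i).map σ)
      (fun i => (D i).map σ) (E.map σ) (E'.map σ) (σ ∘ v) = σ ∘ sysMap A C B D E E' v := by
  have h : (ofV (σ ∘ v) : Matrix (Fin p) (Fin q) S) = (ofV v).map σ := rfl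
  funext x
  rcases x with x | x
  · simp only [sysMap, LinearMap.coe_mk, AddHom.coe_mk, Sum.elim_inl, comp_apply, h,
      ← Matrix.map_mul, Matrix.sub_apply, Matrix.map_apply, map_sub]
  · simp only [sysMap, LinearMap.coe_mk, AddHom.coe_mk, Sum.elim_inr, comp_apply, h,
      ← Matrix.map_mul, Matrix.map_apply]

theorem sysMap_eq_zero {R : Type u} [CommRing R] (A C : Fin N → Matrix (Fin p) (Fin p) R)
    (B D : Fin N → Matrix (Fin q) (Fin q) R) (E : Matrix (Fin p') (Fin p) R)
    (E' : Matrix (Fin q) (Fin q') R) (v : Fin p × Fin q → R) :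
    sysMap A C B D E E' v = 0 ↔
      (∀ i, A i * ofV v * B i = C i * ofV v * D i) ∧ E * ofV v * E' = 0 := by
  constructor
  · intro h
    refine ⟨fun i => ?_, ?_⟩
    · ext a b
      exact sub_eq_zero.1 (congrFun h (Sum.inl (i, (a, b))))
    · ext a b
      exact congrFun h (Sum.inr (a, b))
  · rintro ⟨h1, h2⟩
    funext x
    rcases x with x | x
    · show (A x.1 * ofV v * B x.1 - C x.1 * ofV v * D x.1) x.2.1 x.2.2 = 0
      rw [h1, sub_self]
      rfl
    · show (E * ofV v * E') x.1 x.2 = 0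
      rw [h2]
      rfl

/-- Transfer of injectivity. -/
theorem sys_transfer {Ω : Type u} [Field Ω] (A C : Fin N → Matrix (Fin p) (Fin p) Ω)
    (B D : Fin N → Matrix (Fin q) (Fin q) Ω) (E : Matrix (Fin p') (Fin p) Ω)
    (E' : Matrix (Fin q) (Fin q') Ω)
    (hinj : ∀ H : Matrix (Fin p) (Fin q) Ω, (∀ i, A i * H * B i = C i * H * D i) →
      E * H * E' = 0 → H = 0) :
    ∃ L : Matrix (Fin p × Fin q) ((Fin N × (Fin p × Fin q)) ⊕ (Fin p' × Fin q')) Ω,
      ∀ (R S : Type u) [CommRing R] [CommRing S] (τ : R →+* Ω) (_ : Injective τ) (σ : R →+* S)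
        (A1 C1 : Fin N → Matrix (Fin p) (Fin p) R)
        (B1 D1 : Fin N → Matrix (Fin q) (Fin q) R) (E1 : Matrix (Fin p') (Fin p) R)
        (E1' : Matrix (Fin q) (Fin q') R)
        (L1 : Matrix (Fin p × Fin q) ((Fin N × (Fin p × Fin q)) ⊕ (Fin p' × Fin q')) R),
        (∀ i, (A1 i).map τ = A i) → (∀ i, (C1 i).map τ = C i) → (∀ i, (B1 i).map τ = B i) →
        (∀ i, (D1 i).map τ = D i) → E1.map τ = E → E1'.map τ = E' → L1.map τ = L →
        ∀ H : Matrix (Fin p) (Fin q) S,
          (∀ i, (A1 i).map σ * H * (B1 i).map σ = (C1 i).map σ * H * (D1 i).map σ) →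
          E1.map σ * H * E1'.map σ = 0 → H = 0 := by
  classical
  have hi : Injective (sysMap A C B D E E') := by
    rw [injective_iff_map_eq_zero]
    intro v hv
    rw [sysMap_eq_zero] at hv
    have h0 := hinj (ofV v) hv.1 hv.2
    funext x
    exact congrFun (congrFun h0 x.1) x.2
  obtain ⟨Λ, hΛ⟩ := LinearMap.exists_leftInverse_of_injective (sysMap A C B D E E')
    (LinearMap.ker_eq_bot.2 hi)
  refine ⟨LinearMap.toMatrix' Λ, ?_⟩
  intro R S _ _ τ hτ σ A1 C1 B1 D1 E1 E1' L1 hA hC hB hD hE hE' hL H h1 h2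
  obtain rfl : (fun i => (A1 i).map τ) = A := funext hA
  obtain rfl : (fun i => (C1 i).map τ) = C := funext hC
  obtain rfl : (fun i => (B1 i).map τ) = B := funext hB
  obtain rfl : (fun i => (D1 i).map τ) = D := funext hD
  subst hE hE'
  -- the matrices of the systems
  have hmat : ∀ (S' : Type u) [CommRing S'] (ρ : R →+* S'),
      LinearMap.toMatrix' (sysMap (fun i => (A1 i).map ρ) (fun i => (C1 i).map ρ)
        (fun i => (B1 i).map ρ) (fun i => (D1 i).map ρ) (E1.map ρ) (E1'.map ρ)) =
      (LinearMap.toMatrix' (sysMap A1 C1 B1 D1 E1 E1')).map ρ := by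
    intro S' _ ρ
    ext j i
    rw [Matrix.map_apply, LinearMap.toMatrix'_apply, LinearMap.toMatrix'_apply]
    have e1 : (Pi.single i (1 : S') : Fin p × Fin q → S') = ρ ∘ Pi.single i (1 : R) := by
      funext i'
      simp only [comp_apply, Pi.single_apply]
      split_ifs <;> simp
    rw [e1, sysMap_map]
    rfl
  have h3 : L1 * LinearMap.toMatrix' (sysMap A1 C1 B1 D1 E1 E1') = 1 := by
    have e2 : (L1 * LinearMap.toMatrix' (sysMap A1 C1 B1 D1 E1 E1')).map τ = (1 : Matrix _ _ R).map τ := by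
      rw [Matrix.map_mul, hL, ← hmat, ← LinearMap.toMatrix'_comp, hΛ, LinearMap.toMatrix'_id,
        Matrix.map_one _ (map_zero _) (map_one _)]
    exact Matrix.map_injective hτ e2
  have h4 : L1.map σ * LinearMap.toMatrix' (sysMap (fun i => (A1 i).map σ)
      (fun i => (C1 i).map σ) (fun i => (B1 i).map σ) (fun i => (D1 i).map σ) (E1.map σ)
      (E1'.map σ)) = 1 := by
    rw [hmat, ← Matrix.map_mul, h3, Matrix.map_one _ (map_zero _) (map_one _)]
  have h5 : sysMap (fun i => (A1 i).map σ)
      (fun i => (C1 i).map σ) (fun i => (B1 i).map σ) (fun i => (D1 i).map σ) (E1.map σ)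
      (E1'.map σ) (fun x => H x.1 x.2) = 0 := by
    rw [sysMap_eq_zero]
    exact ⟨h1, h2⟩
  have h6 : (fun x : Fin p × Fin q => H x.1 x.2) = 0 := by
    have e3 := congrArg (fun M => M.mulVec (fun x : Fin p × Fin q => H x.1 x.2)) h4
    simp only [Matrix.one_mulVec, ← Matrix.mulVec_mulVec] at e3
    rw [← e3, LinearMap.toMatrix'_mulVec, h5, Matrix.mulVec_zero]
  ext i j
  exact congrFun h6 (i, j)

end sys

end BicG
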