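import Pool.Agent.Helper16.BicG.SpecA
import Pool.Agent.Helper16.BicG.SpecB

/-!
Module SPEC: the relation `Le` is preserved by specialisation of the parameters.
-/

universe u

namespace BicG

open Function Module
open Bic (InT InF)
open scoped TensorProduct

/-- specialisations extend to ring homomorphisms -/
theorem Spz.exists_hom {k Ω : Type u} [Field k] [Field Ω] [Algebra k Ω] {σ : Type}
    {x x' : σ → Ω} (h : Spz k x x') :
    ∃ (R : Subalgebra k Ω) (f : R →ₐ[k] Ω) (hR : ∀ i, x i ∈ R), ∀ i, f ⟨x i, hR i⟩ = x' i := by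
  have h1 : ∀ y : Algebra.adjoin k (Set.range x), ∃ p : MvPolynomial σ k,
      MvPolynomial.aeval x p = y.1 := by
    intro y
    exact (Algebra.adjoin_range_eq_range_aeval k x).le y.2
  choose P hP using h1
  have key : ∀ p q : MvPolynomial σ k, MvPolynomial.aeval x p = MvPolynomial.aeval x q →
      MvPolynomial.aeval x' p = MvPolynomial.aeval x' q := by
    intro p q hpq
    rw [← sub_eq_zero, ← map_sub]
    apply h
    rw [map_sub, hpq, sub_self]
  refine ⟨Algebra.adjoin k (Set.range x),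
    { toFun := fun y => MvPolynomial.aeval x' (P y)
      map_one' := ?_
      map_mul' := ?_
      map_zero' := ?_
      map_add' := ?_
      commutes' := ?_ },
    fun i => Algebra.subset_adjoin (Set.mem_range_self i), ?_⟩
  · rw [key (P 1) 1 (by rw [hP, map_one]; rfl), map_one]
  · intro y z
    rw [key (P (y * z)) (P y * P z) (by rw [hP, map_mul, hP, hP]; rfl), map_mul]
  · rw [key (P 0) 0 (by rw [hP, map_zero]; rfl), map_zero]
  · intro y z
    rw [key (P (y + z)) (P y + P z) (by rw [hP, map_add, hP, hP]; rfl), map_add]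
  · intro r
    rw [key (P (algebraMap k _ r)) (algebraMap k _ r) (by rw [hP, AlgHom.commutes]; rfl),
      AlgHom.commutes]
  · intro i
    show MvPolynomial.aeval x' (P ⟨x i, _⟩) = x' i
    rw [key (P ⟨x i, _⟩) (MvPolynomial.X i) (by rw [hP, MvPolynomial.aeval_X]),
      MvPolynomial.aeval_X]

theorem exists_fin_range {Ω : Type u} {T : Type} [Finite T] (t : T → Ω) :
    ∃ (q : ℕ) (θ : Fin q → Ω), ∀ i, t i ∈ Set.range θ := by
  obtain ⟨q, ⟨e⟩⟩ := Finite.exists_equiv_fin T
  exact ⟨q, t ∘ e.symm, fun i => ⟨e i, by simp⟩⟩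

variable {K Ω A : Type u} [Field K] [Field Ω] [Algebra K Ω] [Ring A] [Algebra K A]
  [Module.Finite K A]

/-- Lifting a representation to a subalgebra. -/
theorem exists_lift_rep {r : ℕ} (ρ : A →ₐ[K] Matrix (Fin r) (Fin r) Ω) (R : Subalgebra K Ω)
    (h : ∀ a i j, ρ a i j ∈ R) :
    ∃ ρ1 : A →ₐ[K] Matrix (Fin r) (Fin r) R, ∀ a, (ρ1 a).map R.val = ρ a := by
  have hinj : Injective (fun M : Matrix (Fin r) (Fin r) R => M.map R.val) :=
    Matrix.map_injective Subtype.val_injective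
  refine ⟨
    { toFun := fun a => Matrix.of fun i j => ⟨ρ a i j, h a i j⟩
      map_one' := ?_
      map_mul' := ?_
      map_zero' := ?_
      map_add' := ?_
      commutes' := ?_ }, fun a => rfl⟩
  · apply hinj
    show ρ 1 = (1 : Matrix (Fin r) (Fin r) R).map R.val
    rw [map_one, Matrix.map_one _ (map_zero _) (map_one _)]
  · intro x y
    apply hinj
    show ρ (x * y) = Matrix.map (_ * _) R.val
    rw [map_mul, Matrix.map_mul]
    rfl
  · apply hinj
    show ρ 0 = (0 : Matrix (Fin r) (Fin r) R).map R.val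
    rw [map_zero, Matrix.map_zero _ (map_zero _)]
  · intro x y
    apply hinj
    show ρ (x + y) = Matrix.map (_ + _) R.val
    rw [map_add]
    rfl
  · intro x
    apply hinj
    show ρ (algebraMap K A x) = Matrix.map (algebraMap K (Matrix (Fin r) (Fin r) R) x) R.val
    rw [AlgHom.commutes]
    ext i j
    rw [Matrix.map_apply, Matrix.algebraMap_matrix_apply, Matrix.algebraMap_matrix_apply]
    split_ifs
    · rfl
    · rfl

theorem exists_lift_mat {I J : Type} (M : Matrix I J Ω) (R : Subalgebra K Ω)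
    (h : ∀ i j, M i j ∈ R) : ∃ M1 : Matrix I J R, M1.map R.val = M :=
  ⟨Matrix.of fun i j => ⟨M i j, h i j⟩, rfl⟩

theorem spec {n m : ℕ} (ρM : A →ₐ[K] Matrix (Fin n) (Fin n) K)
    (ρY : A →ₐ[K] Matrix (Fin m) (Fin m) K)
    (h : TPair (Ω ⊗[K] A) (RM (rext ρM Ω)) (RM (rext ρY Ω)))
    (c c' : Matrix (Fin n) (Fin n) Ω) (hc : IsPt ρM c) (hc' : IsPt ρM c')
    (hle : Le (Ω ⊗[K] A) (RM (rext ρM Ω)) (RM (rext ρY Ω)) (Xc ρM c) (Xc ρM c')) :
    ∃ (q : ℕ) (θ : Fin q → Ω), ∀ (d d' : Matrix (Fin n) (Fin n) Ω) (θ' : Fin q → Ω),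
      Spz K (Sum.elim (Sum.elim (mv c) (mv c')) θ) (Sum.elim (Sum.elim (mv d) (mv d')) θ') →
      Le (Ω ⊗[K] A) (RM (rext ρM Ω)) (RM (rext ρY Ω)) (Xc ρM d) (Xc ρM d') := by
  classical
  obtain ⟨U, _, _, f, g, hU, hf, hg⟩ := hle
  haveI := hU.fin
  obtain ⟨r, ρ, ⟨e⟩⟩ := exists_rm (K := K) (A := A) (Ω := Ω) U
  -- the matrices
  obtain ⟨F, hF1, hF2, hF3⟩ := getMat ρM c' ρ hc' (f.comp e.symm.toLinearMap)
  obtain ⟨G, hG1, hG2, hG3⟩ := getMat ρM c ρ hc (g.comp e.symm.toLinearMap)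
  have hfT : TMono (Ω ⊗[K] A) (RM (rext ρM Ω)) (f.comp e.symm.toLinearMap) := by
    intro φ hφ
    have h0 := hf (e.symm.toLinearMap.comp φ) hφ
    ext x
    have h1 := congrArg (fun k => k x) h0
    simpa using h1
  have hgE : SEpi (Ω ⊗[K] A) (RM (rext ρY Ω)) (g.comp e.symm.toLinearMap) := by
    refine ⟨hg.surj.comp e.symm.surjective, fun k => ?_⟩
    let i : LinearMap.ker g →ₗ[Ω ⊗[K] A] LinearMap.ker (g.comp e.symm.toLinearMap) :=
      LinearMap.codRestrict _ (e.toLinearMap.comp (LinearMap.ker g).subtype) (fun x => by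
        rw [LinearMap.mem_ker]
        have h5 : g x.1 = 0 := x.2
        show g (e.symm (e x.1)) = 0
        rw [LinearEquiv.symm_apply_apply, h5])
    have h0 := hg.ker (k.comp i)
    ext x
    have h1 : ∃ y, i y = x := by
      refine ⟨⟨e.symm x.1, ?_⟩, ?_⟩
      · have := x.2
        rw [LinearMap.mem_ker] at this ⊢
        exact this
      · apply Subtype.ext
        show e (e.symm x.1) = x.1
        rw [LinearEquiv.apply_symm_apply]
    obtain ⟨y, rfl⟩ := h1
    exact congrArg (fun k => k y) h0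
  have hT := (tmono_iff ρM c' ρ hc' F hF1 _ hF3).1 hfT
  obtain ⟨s, hs, hS⟩ := (sepi_iff ρM c ρY ρ hc G hG1 _ hG3).1 hgE
  -- a basis
  let b := Module.finBasis K A
  set N := Module.finrank K A with hN
  have hspan : ∀ a : A, a ∈ Submodule.span K (Set.range b) := fun a => by
    rw [b.span_eq]
    trivial
  -- the systems
  have key1 : ∀ (ρ' : A →ₐ[K] Matrix (Fin r) (Fin r) Ω) (H : Matrix (Fin r) (Fin n) Ω),
      (∀ i, (1 : Matrix (Fin r) (Fin r) Ω) * H * rext ρM Ω (b i) =
        ρ' (b i) * H * (1 : Matrix (Fin n) (Fin n) Ω)) → ∀ a, H * rext ρM Ω a = ρ' a * H := by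
    intro ρ' H hH a
    induction hspan a using Submodule.span_induction with
    | mem x hx =>
      obtain ⟨i, rfl⟩ := hx
      simpa using hH i
    | zero => simp
    | add x y _ _ hx hy => rw [map_add, map_add, Matrix.mul_add, Matrix.add_mul, hx, hy]
    | smul t x _ hx => rw [map_smul, map_smul, Matrix.mul_smul, Matrix.smul_mul, hx]
  have key2 : ∀ (ρ' : A →ₐ[K] Matrix (Fin r) (Fin r) Ω) (H : Matrix (Fin m) (Fin r) Ω)
      (Q : Matrix (Fin r) (Fin r) Ω),
      (∀ i, (1 : Matrix (Fin m) (Fin m) Ω) * H * (ρ' (b i) * Q) =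
        rext ρY Ω (b i) * H * (1 : Matrix (Fin r) (Fin r) Ω)) →
        ∀ a, H * ρ' a * Q = rext ρY Ω a * H := by
    intro ρ' H Q hH a
    induction hspan a using Submodule.span_induction with
    | mem x hx =>
      obtain ⟨i, rfl⟩ := hx
      have := hH i
      rw [Matrix.one_mul, Matrix.mul_one, ← Matrix.mul_assoc] at this
      exact this
    | zero => simp
    | add x y _ _ hx hy => rw [map_add, map_add, Matrix.mul_add, Matrix.add_mul, Matrix.add_mul,
        hx, hy]
    | smul t x _ hx => rw [map_smul, map_smul, Matrix.mul_smul, Matrix.smul_mul, hx,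
        Matrix.smul_mul]
  obtain ⟨L1, hL1⟩ := sys_transfer (N := N) (fun _ => (1 : Matrix (Fin r) (Fin r) Ω))
    (fun i => ρ (b i)) (fun i => rext ρM Ω (b i)) (fun _ => (1 : Matrix (Fin n) (Fin n) Ω)) F
    (1 : Matrix (Fin n) (Fin n) Ω) (fun H h1 h2 => hT H (key1 ρ H h1) (by simpa using h2))
  obtain ⟨L2, hL2⟩ := sys_transfer (N := N) (fun _ => (1 : Matrix (Fin m) (Fin m) Ω))
    (fun i => rext ρY Ω (b i)) (fun i => ρ (b i) * (1 - s * G))
    (fun _ => (1 : Matrix (Fin r) (Fin r) Ω)) (1 : Matrix (Fin m) (Fin m) Ω) (s * G)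
    (fun H h1 h2 => hS H (by simpa using h2) (key2 ρ H _ h1))
  -- the parameters
  obtain ⟨q, θ, hθ⟩ := exists_fin_range (Ω := Ω)
    (Sum.elim (fun t : Fin N × (Fin r × Fin r) => ρ (b t.1) t.2.1 t.2.2)
      (Sum.elim (fun t : Fin n × Fin r => F t.1 t.2)
        (Sum.elim (fun t : Fin n × Fin r => G t.1 t.2)
          (Sum.elim (fun t : Fin r × Fin n => s t.1 t.2)
            (Sum.elim (fun t => L1 t.1 t.2 : (Fin r × Fin n) ×
                ((Fin N × (Fin r × Fin n)) ⊕ (Fin n × Fin n)) → Ω)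
              (fun t => L2 t.1 t.2 : (Fin m × Fin r) ×
                ((Fin N × (Fin m × Fin r)) ⊕ (Fin m × Fin r)) → Ω))))))
  refine ⟨q, θ, ?_⟩
  intro d d' θ' hspz
  obtain ⟨R, σ, hxR, hσ⟩ := hspz.exists_hom
  have hθR : ∀ y ∈ Set.range θ, y ∈ R := by
    rintro y ⟨i, rfl⟩
    exact hxR (Sum.inr i)
  obtain ⟨c1, hc1⟩ := exists_lift_mat c R fun i j => hxR (Sum.inl (Sum.inl (i, j)))
  obtain ⟨c1', hc1'⟩ := exists_lift_mat c' R fun i j => hxR (Sum.inl (Sum.inr (i, j)))
  obtain ⟨F1, hF⟩ := exists_lift_mat F R fun i j => hθR _ (hθ (Sum.inr (Sum.inl (i, j))))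
  obtain ⟨G1, hG⟩ := exists_lift_mat G R fun i j =>
    hθR _ (hθ (Sum.inr (Sum.inr (Sum.inl (i, j)))))
  obtain ⟨s1, hs1⟩ := exists_lift_mat s R fun i j =>
    hθR _ (hθ (Sum.inr (Sum.inr (Sum.inr (Sum.inl (i, j))))))
  obtain ⟨M1, hM1⟩ := exists_lift_mat L1 R fun i j =>
    hθR _ (hθ (Sum.inr (Sum.inr (Sum.inr (Sum.inr (Sum.inl (i, j)))))))
  obtain ⟨M2, hM2⟩ := exists_lift_mat L2 R fun i j =>
    hθR _ (hθ (Sum.inr (Sum.inr (Sum.inr (Sum.inr (Sum.inr (i, j)))))))
  obtain ⟨ρ1, hρ1⟩ := exists_lift_rep ρ R (by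
    intro a
    induction hspan a using Submodule.span_induction with
    | mem x hx =>
      obtain ⟨i, rfl⟩ := hx
      intro j k
      exact hθR _ (hθ (Sum.inl (i, (j, k))))
    | zero =>
      intro j k
      rw [map_zero]
      exact R.zero_mem
    | add x y _ _ hx hy =>
      intro j k
      rw [map_add]
      exact R.add_mem (hx j k) (hy j k)
    | smul t x _ hx =>
      intro j k
      rw [map_smul]
      exact R.smul_mem (hx j k) t)
  -- the maps
  have hvi : ∀ {I J : Type} (P Q : Matrix I J R), P.map R.val = Q.map R.val → P = Q :=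
    fun P Q hPQ => Matrix.map_injective Subtype.val_injective hPQ
  have hd : c1.map σ = d := by
    ext i j
    have h1 : c1 i j = ⟨_, hxR (Sum.inl (Sum.inl (i, j)))⟩ := by
      apply Subtype.ext
      exact congrFun (congrFun hc1 i) j
    rw [Matrix.map_apply, h1, hσ]
    rfl
  have hd' : c1'.map σ = d' := by
    ext i j
    have h1 : c1' i j = ⟨_, hxR (Sum.inl (Sum.inr (i, j)))⟩ := by
      apply Subtype.ext
      exact congrFun (congrFun hc1' i) j
    rw [Matrix.map_apply, h1, hσ]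
    rfl
  have hrv : ∀ {p : ℕ} (ρ0 : A →ₐ[K] Matrix (Fin p) (Fin p) K) (a : A),
      (rext ρ0 R a).map R.val = rext ρ0 Ω a := by
    intro p ρ0 a
    rw [rext_apply, rext_apply, Matrix.map_map]
    rfl
  have hrs : ∀ {p : ℕ} (ρ0 : A →ₐ[K] Matrix (Fin p) (Fin p) K) (a : A),
      (rext ρ0 R a).map σ = rext ρ0 Ω a := by
    intro p ρ0 a
    rw [rext_apply, rext_apply, Matrix.map_map]
    congr 1
    funext t
    exact σ.commutes t
  have o1 : ∀ {p : ℕ} , (1 : Matrix (Fin p) (Fin p) R).map R.val = 1 := fun {p} =>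
    Matrix.map_one _ (map_zero _) (map_one _)
  have o2 : ∀ {p : ℕ} , (1 : Matrix (Fin p) (Fin p) R).map σ = 1 := fun {p} =>
    Matrix.map_one _ (map_zero _) (map_one _)
  have m1 : ∀ {I J L : Type} [Fintype J] (P : Matrix I J R) (Q : Matrix J L R),
      (P * Q).map R.val = P.map R.val * Q.map R.val := fun P Q => Matrix.map_mul
  have m2 : ∀ {I J L : Type} [Fintype J] (P : Matrix I J R) (Q : Matrix J L R),
      (P * Q).map σ = P.map σ * Q.map σ := fun P Q => Matrix.map_mul
  have s1' : ∀ {I J : Type} (P Q : Matrix I J R),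
      (P - Q).map R.val = P.map R.val - Q.map R.val := fun P Q =>
    Matrix.map_sub _ (map_sub _) P Q
  have s2' : ∀ {I J : Type} (P Q : Matrix I J R),
      (P - Q).map σ = P.map σ - Q.map σ := fun P Q => Matrix.map_sub _ (map_sub _) P Q
  have z1 : ∀ {I J : Type}, (0 : Matrix I J R).map R.val = 0 := fun {I J} =>
    Matrix.map_zero _ (map_zero _)
  have z2 : ∀ {I J : Type}, (0 : Matrix I J R).map σ = 0 := fun {I J} =>
    Matrix.map_zero _ (map_zero _)
  -- points
  have hptd : IsPt ρM d := by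
    constructor
    · have t : c1 * c1 = c1 := hvi _ _ (by rw [m1, hc1, hc.idem])
      have t' := congrArg (fun M => M.map σ) t
      simp only [m2, hd] at t'
      exact t'
    · intro a
      have t : c1 * rext ρM R a * (1 - c1) = 0 := hvi _ _ (by
        rw [m1, m1, s1', o1, hc1, hrv, hc.stab, z1])
      have t' := congrArg (fun M => M.map σ) t
      simp only [m2, s2', o2, hd, hrs, z2] at t'
      exact t'
  have hptd' : IsPt ρM d' := by
    constructor
    · have t : c1' * c1' = c1' := hvi _ _ (by rw [m1, hc1', hc'.idem])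
      have t' := congrArg (fun M => M.map σ) t
      simp only [m2, hd'] at t'
      exact t'
    · intro a
      have t : c1' * rext ρM R a * (1 - c1') = 0 := hvi _ _ (by
        rw [m1, m1, s1', o1, hc1', hrv, hc'.stab, z1])
      have t' := congrArg (fun M => M.map σ) t
      simp only [m2, s2', o2, hd', hrs, z2] at t'
      exact t'
  -- the new representation
  let ρ' : A →ₐ[K] Matrix (Fin r) (Fin r) Ω := (σ.mapMatrix).comp ρ1
  have hρ' : ∀ a, (ρ1 a).map σ = ρ' a := fun a => rfl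
  have hF1' : d' * F1.map σ = F1.map σ := by
    have t : c1' * F1 = F1 := hvi _ _ (by rw [m1, hc1', hF, hF1])
    have t' := congrArg (fun M => M.map σ) t
    simp only [m2, hd'] at t'
    exact t'
  have hF2' : ∀ a, F1.map σ * ρ' a = d' * rext ρM Ω a * F1.map σ := by
    intro a
    have t : F1 * ρ1 a = c1' * rext ρM R a * F1 := hvi _ _ (by
      rw [m1, m1, m1, hc1', hF, hρ1, hrv, hF2])
    have t' := congrArg (fun M => M.map σ) t
    simp only [m2, hd', hρ', hrs] at t'
    exact t'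
  have hG1' : d * G1.map σ = G1.map σ := by
    have t : c1 * G1 = G1 := hvi _ _ (by rw [m1, hc1, hG, hG1])
    have t' := congrArg (fun M => M.map σ) t
    simp only [m2, hd] at t'
    exact t'
  have hG2' : ∀ a, G1.map σ * ρ' a = d * rext ρM Ω a * G1.map σ := by
    intro a
    have t : G1 * ρ1 a = c1 * rext ρM R a * G1 := hvi _ _ (by
      rw [m1, m1, m1, hc1, hG, hρ1, hrv, hG2])
    have t' := congrArg (fun M => M.map σ) t
    simp only [m2, hd, hρ', hrs] at t'
    exact t'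
  have hsd : G1.map σ * s1.map σ = d := by
    have t : G1 * s1 = c1 := hvi _ _ (by rw [m1, hc1, hG, hs1, hs])
    have t' := congrArg (fun M => M.map σ) t
    simp only [m2, hd] at t'
    exact t'
  obtain ⟨f', hf'⟩ := mkMap ρM d' ρ' hptd' (F1.map σ) hF2'
  obtain ⟨g', hg'⟩ := mkMap ρM d ρ' hptd (G1.map σ) hG2'
  have hfT' : TMono (Ω ⊗[K] A) (RM (rext ρM Ω)) f' := by
    rw [tmono_iff ρM d' ρ' hptd' (F1.map σ) hF1' f' hf']
    intro H h1 h2
    refine hL1 R Ω R.val.toRingHom Subtype.val_injective σ.toRingHom (fun _ => 1)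
      (fun i => ρ1 (b i)) (fun i => rext ρM R (b i)) (fun _ => 1) F1 1 M1 (fun _ => o1)
      (fun i => hρ1 _) (fun i => hrv ρM _) (fun _ => o1) hF o1 hM1 H ?_ ?_
    · intro i
      show (1 : Matrix (Fin r) (Fin r) R).map σ * H * (rext ρM R (b i)).map σ =
        (ρ1 (b i)).map σ * H * (1 : Matrix (Fin n) (Fin n) R).map σ
      rw [o2, o2, hrs, hρ', Matrix.one_mul, Matrix.mul_one, h1]
    · show F1.map σ * H * (1 : Matrix (Fin n) (Fin n) R).map σ = 0
      rw [h2, Matrix.zero_mul]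
  have hgE' : SEpi (Ω ⊗[K] A) (RM (rext ρY Ω)) g' := by
    rw [sepi_iff ρM d ρY ρ' hptd (G1.map σ) hG1' g' hg']
    refine ⟨s1.map σ, hsd, ?_⟩
    intro H h1 h2
    refine hL2 R Ω R.val.toRingHom Subtype.val_injective σ.toRingHom (fun _ => 1)
      (fun i => rext ρY R (b i)) (fun i => ρ1 (b i) * (1 - s1 * G1)) (fun _ => 1) 1 (s1 * G1) M2
      (fun _ => o1) (fun i => hrv ρY _) (fun i => ?_) (fun _ => o1) o1 ?_ hM2 H ?_ ?_
    · show (ρ1 (b i) * (1 - s1 * G1)).map R.val = _
      rw [m1, s1', o1, m1, hs1, hG, hρ1]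
    · show (s1 * G1).map R.val = _
      rw [m1, hs1, hG]
    · intro i
      show (1 : Matrix (Fin m) (Fin m) R).map σ * H * (ρ1 (b i) * (1 - s1 * G1)).map σ =
        (rext ρY R (b i)).map σ * H * (1 : Matrix (Fin r) (Fin r) R).map σ
      rw [o2, o2, m2, s2', o2, m2, hρ', hrs, Matrix.one_mul, Matrix.mul_one, ← Matrix.mul_assoc,
        h2]
    · show (1 : Matrix (Fin m) (Fin m) R).map σ * H * (s1 * G1).map σ = 0
      rw [o2, Matrix.one_mul, m2, h1]
  refine ⟨RM ρ', inferInstance, inferInstance, f', g', ⟨inferInstance, ?_⟩, hfT', hgE'⟩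
  -- `RM ρ'` has no maps to `Y`
  intro k
  obtain ⟨k', hk'⟩ := Bic.factor_surj g' hgE'.surj k (by
    intro v hv
    have h0 := hgE'.ker (k.comp (LinearMap.ker g').subtype)
    exact congrArg (fun k => k (⟨v, hv⟩ : LinearMap.ker g')) h0)
  have h1 := h.hMY (k'.comp (Nc ρM d).mkQ)
  ext v
  rw [← hk' v]
  obtain ⟨w, hw⟩ := (Nc ρM d).mkQ_surjective (g' v)
  rw [← hw]
  exact congrArg (fun k => k w) h1

end BicG
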