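import Pool.Agent.Helper16.BicG.RM

/-!
Being a point is a closed condition defined over `K`.
-/

universe u

namespace BicG

open Function Module
open scoped TensorProduct

section specpt

variable {K Ω A : Type u} [Field K] [Field Ω] [Algebra K Ω] [Ring A] [Algebra K A]

/-- the matrix of coordinate variables -/
noncomputable def gmat (K : Type u) [Field K] (n : ℕ) :
    Matrix (Fin n) (Fin n) (MvPolynomial (Fin n × Fin n) K) :=
  Matrix.of fun i j => MvPolynomial.X (i, j)

theorem gmat_map {n : ℕ} (c : Matrix (Fin n) (Fin n) Ω) :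
    (MvPolynomial.aeval (R := K) (mv c)).mapMatrix (gmat K n) = c := by
  ext i j
  simp [gmat, mv]

theorem const_map {n : ℕ} (c : Matrix (Fin n) (Fin n) Ω) (B : Matrix (Fin n) (Fin n) K) :
    (MvPolynomial.aeval (R := K) (mv c)).mapMatrix (B.map (algebraMap K _)) =
      B.map (algebraMap K Ω) := by
  ext i j
  simp [MvPolynomial.algebraMap_eq]

theorem spz_mat {n m : ℕ} {c d : Matrix (Fin n) (Fin n) Ω} (h : Spz K (mv c) (mv d))
    (P : Matrix (Fin m) (Fin m) (MvPolynomial (Fin n × Fin n) K))
    (hP : (MvPolynomial.aeval (R := K) (mv c)).mapMatrix P = 0) :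
    (MvPolynomial.aeval (R := K) (mv d)).mapMatrix P = 0 := by
  ext i j
  have h1 : MvPolynomial.aeval (mv c) (P i j) = 0 := by
    have := congrFun (congrFun hP i) j
    simpa using this
  have h2 := h (P i j) h1
  simpa using h2

theorem spec_pt {n : ℕ} (ρM : A →ₐ[K] Matrix (Fin n) (Fin n) K)
    (c d : Matrix (Fin n) (Fin n) Ω) (hc : IsPt ρM c) (h : Spz K (mv c) (mv d)) :
    IsPt ρM d := by
  constructor
  · have h1 : (MvPolynomial.aeval (R := K) (mv c)).mapMatrix
        (gmat K n * gmat K n - gmat K n) = 0 := by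
      rw [map_sub, map_mul, gmat_map, hc.idem, sub_self]
    have h2 := spz_mat h _ h1
    rw [map_sub, map_mul, gmat_map, sub_eq_zero] at h2
    exact h2
  · intro a
    have h1 : (MvPolynomial.aeval (R := K) (mv c)).mapMatrix
        (gmat K n * (ρM a).map (algebraMap K _) * (1 - gmat K n)) = 0 := by
      rw [map_mul, map_mul, map_sub, map_one, gmat_map, const_map]
      exact hc.stab a
    have h2 := spz_mat h _ h1
    rw [map_mul, map_mul, map_sub, map_one, gmat_map, const_map] at h2
    exact h2

end specpt

end BicG
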