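import Pool.Agent.Helper16.BicG.Tors
import Pool.Agent.Helper16.BicG.Pencil

/-!
A map in `TMono` and a strict epimorphism between the same two objects: the strict epimorphism is
bijective (finite-dimensional algebra over an infinite field).
-/

universe u

namespace BicG

open Function Module
open Bic (InT InF SES torIn)

/-- unknowns of the linear system -/
def StarE (K A Y X U : Type u) [Field K] [Ring A] [Algebra K A] [AddCommGroup Y] [Module K Y]
    [AddCommGroup X] [Module K X] [AddCommGroup U] [Module K U] : Type u :=
  (U →ₗ[K] Y) × (A →ₗ[K] (X →ₗ[K] Y))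

section
variable (K A Y X U : Type u) [Field K] [Ring A] [Algebra K A] [AddCommGroup Y] [Module K Y]
    [AddCommGroup X] [Module K X] [AddCommGroup U] [Module K U]

instance : AddCommGroup (StarE K A Y X U) :=
  inferInstanceAs (AddCommGroup ((U →ₗ[K] Y) × (A →ₗ[K] (X →ₗ[K] Y))))

instance : Module K (StarE K A Y X U) :=
  inferInstanceAs (Module K ((U →ₗ[K] Y) × (A →ₗ[K] (X →ₗ[K] Y))))

instance [Module.Finite K A] [Module.Finite K Y] [Module.Finite K X] [Module.Finite K U] :
    Module.Finite K (StarE K A Y X U) :=
  inferInstanceAs (Module.Finite K ((U →ₗ[K] Y) × (A →ₗ[K] (X →ₗ[K] Y))))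

variable {K A Y X U}

/-- pairs of unknowns -/
def starMk (H : U →ₗ[K] Y) (D : A →ₗ[K] (X →ₗ[K] Y)) : StarE K A Y X U := (H, D)

theorem starMk_surj (x : StarE K A Y X U) : ∃ H D, x = starMk H D := ⟨x.1, x.2, rfl⟩

theorem starMk_inj {H H' : U →ₗ[K] Y} {D D' : A →ₗ[K] (X →ₗ[K] Y)}
    (h : starMk H D = starMk H' D') : H = H' ∧ D = D' := Prod.mk.inj h

theorem starMk_add (H H' : U →ₗ[K] Y) (D D' : A →ₗ[K] (X →ₗ[K] Y)) :
    starMk H D + starMk H' D' = starMk (H + H') (D + D') := rfl

theorem starMk_smul (c : K) (H : U →ₗ[K] Y) (D : A →ₗ[K] (X →ₗ[K] Y)) :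
    c • starMk H D = starMk (c • H) (c • D) := rfl

theorem starMk_zero : starMk (0 : U →ₗ[K] Y) (0 : A →ₗ[K] (X →ₗ[K] Y)) = 0 := rfl

/-- first unknown -/
def starFst : StarE K A Y X U →ₗ[K] (U →ₗ[K] Y) where
  toFun x := x.1
  map_add' _ _ := rfl
  map_smul' _ _ := rfl

theorem starFst_mk (H : U →ₗ[K] Y) (D : A →ₗ[K] (X →ₗ[K] Y)) : starFst (starMk H D) = H := rfl

end

section aux

variable {K A : Type u} [Field K] [Ring A] [Algebra K A]
variable {M Y X U : Type u}
variable [AddCommGroup M] [Module A M] [AddCommGroup Y] [Module A Y]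
variable [AddCommGroup X] [Module A X] [AddCommGroup U] [Module A U]
variable [Module K M] [IsScalarTower K A M] [Module K Y] [IsScalarTower K A Y]
variable [Module K X] [IsScalarTower K A X] [Module K U] [IsScalarTower K A U]

/-- the linear system whose solutions extend the `A`-linear maps on the kernel of `f` -/
def starPsi (A : Type u) [Ring A] [Algebra K A] {Y X U : Type u}
    [AddCommGroup Y] [Module A Y] [AddCommGroup X] [AddCommGroup U] [Module A U]
    [Module K Y] [IsScalarTower K A Y] [Module K X] [Module K U] [IsScalarTower K A U]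
    (f : U →ₗ[K] X) : StarE K A Y X U →ₗ[K] (A →ₗ[K] (U →ₗ[K] Y)) where
  toFun HD :=
    { toFun := fun a => HD.1.comp (Algebra.lsmul K K U a) - (Algebra.lsmul K K Y a).comp HD.1
        - (HD.2 a).comp f
      map_add' := fun a b => by
        ext u
        simp only [map_add, LinearMap.sub_apply, LinearMap.comp_apply, LinearMap.add_apply]
        abel
      map_smul' := fun c a => by
        ext u
        simp only [map_smul, LinearMap.sub_apply, LinearMap.comp_apply, LinearMap.smul_apply,
          RingHom.id_apply, smul_sub] }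
  map_add' := fun x y => by
    ext a u
    show (x.1 (a • u) + y.1 (a • u)) - a • (x.1 u + y.1 u) - (x.2 a (f u) + y.2 a (f u))
      = (x.1 (a • u) - a • x.1 u - x.2 a (f u)) + (y.1 (a • u) - a • y.1 u - y.2 a (f u))
    rw [smul_add]
    abel
  map_smul' := fun c x => by
    ext a u
    show c • x.1 (a • u) - a • (c • x.1 u) - c • x.2 a (f u)
      = c • (x.1 (a • u) - a • x.1 u - x.2 a (f u))
    rw [smul_sub, smul_sub, smul_comm a c]

omit [Module A X] [IsScalarTower K A X] in
theorem starPsi_apply (f : U →ₗ[K] X) (H : U →ₗ[K] Y) (D : A →ₗ[K] (X →ₗ[K] Y)) (a : A) (u : U) :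
    starPsi A f (starMk H D) a u = H (a • u) - a • H u - D a (f u) := rfl

omit [Module A X] [IsScalarTower K A X] in
theorem star_mem_ker (f : U →ₗ[K] X) (H : U →ₗ[K] Y) (D : A →ₗ[K] (X →ₗ[K] Y)) :
    starMk H D ∈ LinearMap.ker (starPsi A (Y := Y) f) ↔
      ∀ (a : A) (u : U), H (a • u) - a • H u - D a (f u) = 0 := by
  rw [LinearMap.mem_ker]
  constructor
  · intro h a u
    rw [← starPsi_apply, h]
    rfl
  · intro h
    ext a u
    rw [starPsi_apply, h]
    rfl

/-- commutator with the action of `A`, for a map out of `X` -/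
def starD (G : X →ₗ[K] Y) : A →ₗ[K] (X →ₗ[K] Y) where
  toFun a := G.comp (Algebra.lsmul K K X a) - (Algebra.lsmul K K Y a).comp G
  map_add' := fun a b => by
    ext u
    simp only [map_add, LinearMap.sub_apply, LinearMap.comp_apply, LinearMap.add_apply]
    abel
  map_smul' := fun c a => by
    ext u
    simp only [map_smul, LinearMap.sub_apply, LinearMap.comp_apply, LinearMap.smul_apply,
      RingHom.id_apply, smul_sub]

theorem starD_apply (G : X →ₗ[K] Y) (a : A) (x : X) :
    starD G a x = G (a • x) - a • G x := rfl

/-- the obvious solutions -/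
def starJ (f : U →ₗ[A] X) : (X →ₗ[K] Y) →ₗ[K] StarE K A Y X U where
  toFun G := starMk (G.comp (f.restrictScalars K)) (starD G)
  map_add' := fun G G' => by
    rw [starMk_add]
    congr 1
    ext a x
    rw [LinearMap.add_apply, LinearMap.add_apply, starD_apply, starD_apply, starD_apply,
      LinearMap.add_apply, LinearMap.add_apply, smul_add]
    abel
  map_smul' := fun c G => by
    rw [RingHom.id_apply, starMk_smul]
    congr 1
    ext a x
    rw [LinearMap.smul_apply, LinearMap.smul_apply, starD_apply, starD_apply,
      LinearMap.smul_apply, LinearMap.smul_apply, smul_sub, smul_comm a c]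

theorem star_ker_inT [Module.Finite K A] [Module.Finite K Y] [Module.Finite K X]
    [Module.Finite K U] (f : U →ₗ[A] X) (hf : Surjective f)
    (hd : finrank K (LinearMap.ker (starPsi A (Y := Y) (f.restrictScalars K)))
      ≤ finrank K (X →ₗ[K] Y)) : InT A Y (LinearMap.ker f) := by
  obtain ⟨s, hs⟩ := LinearMap.exists_rightInverse_of_surjective (f.restrictScalars K)
    (LinearMap.range_eq_top.mpr hf)
  have hs' : ∀ x, f (s x) = x := fun x => LinearMap.congr_fun hs x
  have hj : Injective (starJ (K := K) (Y := Y) f) := by
    intro G G' h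
    have h1 := (starMk_inj h).1
    ext x
    obtain ⟨u, rfl⟩ := hf x
    exact LinearMap.congr_fun h1 u
  have hle : LinearMap.range (starJ (K := K) (Y := Y) f)
      ≤ LinearMap.ker (starPsi A (Y := Y) (f.restrictScalars K)) := by
    rintro _ ⟨G, rfl⟩
    refine (star_mem_ker _ _ _).mpr ?_
    intro a u
    rw [starD_apply]
    show G (f (a • u)) - a • G (f u) - (G (a • f u) - a • G (f u)) = 0
    rw [map_smul]
    abel
  have hr : finrank K (LinearMap.range (starJ (K := K) (Y := Y) f)) = finrank K (X →ₗ[K] Y) :=
    LinearMap.finrank_range_of_inj hj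
  have heq := Submodule.eq_of_le_of_finrank_le hle (by rw [hr]; exact hd)
  intro φ
  -- extend `φ` to a `K`-linear map
  let kf : Submodule K U := LinearMap.ker (f.restrictScalars K)
  let φ' : kf →ₗ[K] Y :=
    { toFun := fun k => φ ⟨k.1, k.2⟩
      map_add' := fun a b => φ.map_add ⟨a.1, a.2⟩ ⟨b.1, b.2⟩
      map_smul' := fun c a => by
        have h1 := (φ.restrictScalars K).map_smul c ⟨a.1, a.2⟩
        exact h1 }
  obtain ⟨H, hH⟩ := LinearMap.exists_extend φ'
  have hH' : ∀ k : LinearMap.ker f, H k.1 = φ k := fun k =>
    LinearMap.congr_fun hH (⟨k.1, k.2⟩ : kf)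
  let D : A →ₗ[K] (X →ₗ[K] Y) :=
    { toFun := fun a => (H.comp (Algebra.lsmul K K U a) - (Algebra.lsmul K K Y a).comp H).comp s
      map_add' := fun a b => by
        ext u
        simp only [map_add, LinearMap.sub_apply, LinearMap.comp_apply, LinearMap.add_apply]
        abel
      map_smul' := fun c a => by
        ext u
        simp only [map_smul, LinearMap.sub_apply, LinearMap.comp_apply, LinearMap.smul_apply,
          RingHom.id_apply, smul_sub] }
  have hk : starMk H D ∈ LinearMap.ker (starPsi A (Y := Y) (f.restrictScalars K)) := by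
    rw [star_mem_ker]
    intro a u
    show H (a • u) - a • H u - (H (a • s (f u)) - a • H (s (f u))) = 0
    have h1 : f (u - s (f u)) = 0 := by rw [map_sub, hs', sub_self]
    let k : LinearMap.ker f := ⟨u - s (f u), h1⟩
    have h2 := hH' (a • k)
    have h3 := hH' k
    rw [map_smul, ← h3] at h2
    have h4 : H (a • u) - H (a • s (f u)) = a • H u - a • H (s (f u)) := by
      rw [← map_sub, ← smul_sub, ← smul_sub, ← map_sub]
      exact h2
    have h5 : H (a • u) - a • H u - (H (a • s (f u)) - a • H (s (f u)))
        = (H (a • u) - H (a • s (f u))) - (a • H u - a • H (s (f u))) := by abel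
    rw [h5, h4, sub_self]
  rw [← heq] at hk
  obtain ⟨G, hG⟩ := hk
  have hG' : G.comp (f.restrictScalars K) = H := (starMk_inj hG).1
  ext k
  rw [← hH' k, ← hG']
  show G (f k.1) = 0
  rw [k.2, map_zero]

theorem star_finrank_le [Module.Finite K A] [Module.Finite K Y] [Module.Finite K X]
    [Module.Finite K U] (f : U →ₗ[A] X) (hf : Surjective f) (hT : InT A Y (LinearMap.ker f)) :
    finrank K (LinearMap.ker (starPsi A (Y := Y) (f.restrictScalars K)))
      ≤ finrank K (X →ₗ[K] Y) := by
  obtain ⟨s, hs⟩ := LinearMap.exists_rightInverse_of_surjective (f.restrictScalars K)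
    (LinearMap.range_eq_top.mpr hf)
  have hs' : ∀ x, f (s x) = x := fun x => LinearMap.congr_fun hs x
  let r : LinearMap.ker (starPsi A (Y := Y) (f.restrictScalars K)) →ₗ[K] (X →ₗ[K] Y) :=
    (s.lcomp K Y).comp (starFst.comp (LinearMap.ker (starPsi A (Y := Y)
      (f.restrictScalars K))).subtype)
  refine LinearMap.finrank_le_finrank_of_injective (f := r) ?_
  refine (injective_iff_map_eq_zero r).mpr ?_
  rintro ⟨x, hHD⟩ h0
  obtain ⟨H, D, rfl⟩ := starMk_surj x
  have h0' : ∀ x, H (s x) = 0 := fun x => LinearMap.congr_fun h0 x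
  have h1 := (star_mem_ker _ _ _).mp hHD
  have h2 : ∀ u, f u = 0 → H u = 0 := by
    let φ : LinearMap.ker f →ₗ[A] Y :=
      { toFun := fun k => H k.1
        map_add' := fun a b => H.map_add a.1 b.1
        map_smul' := fun a k => by
          have h3 := h1 a k.1
          have h4 : (f.restrictScalars K) k.1 = 0 := k.2
          rw [h4, map_zero, sub_zero, sub_eq_zero] at h3
          exact h3 }
    intro u hu
    exact LinearMap.congr_fun (hT φ) ⟨u, hu⟩
  have h3 : H = 0 := by
    ext u
    have h4 : f (u - s (f u)) = 0 := by rw [map_sub, hs', sub_self]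
    have h5 := h2 _ h4
    rw [map_sub, h0', sub_zero] at h5
    exact h5
  have h4 : D = 0 := by
    ext a x
    obtain ⟨u, rfl⟩ := hf x
    have h5 := h1 a u
    rw [h3, LinearMap.zero_apply, LinearMap.zero_apply, smul_zero, sub_zero, zero_sub,
      neg_eq_zero] at h5
    exact h5
  apply Subtype.ext
  show starMk H D = 0
  rw [h3, h4, starMk_zero]

/-- the version with all `K`-structures in the context -/
theorem star_core [Infinite K] [Module.Finite K A] [Module.Finite K Y] [Module.Finite K X]
    [Module.Finite K U] [Module.Finite K M] (h : TPair A M Y)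
    (p q : U →ₗ[A] X) (hp : TMono A M p) (hq : SEpi A Y q) : Bijective q := by
  -- `A`-linear maps out of `M`
  have hfin : ∀ (Z : Type u) [AddCommGroup Z] [Module A Z] [Module K Z] [IsScalarTower K A Z]
      [Module.Finite K Z], Module.Finite K (M →ₗ[A] Z) := by
    intro Z _ _ _ _ _
    exact Module.Finite.of_injective (LinearMap.restrictScalarsₗ K A M Z K)
      (LinearMap.restrictScalars_injective K)
  have hfU := hfin U
  have hfX := hfin X
  let pM : (M →ₗ[A] U) →ₗ[K] (M →ₗ[A] X) :=
    { toFun := fun φ => p.comp φ
      map_add' := fun a b => LinearMap.comp_add _ _ _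
      map_smul' := fun c a => by
        ext m
        show p (c • a m) = c • p (a m)
        exact (p.restrictScalars K).map_smul c (a m) }
  let qM : (M →ₗ[A] U) →ₗ[K] (M →ₗ[A] X) :=
    { toFun := fun φ => q.comp φ
      map_add' := fun a b => LinearMap.comp_add _ _ _
      map_smul' := fun c a => by
        ext m
        show q (c • a m) = c • q (a m)
        exact (q.restrictScalars K).map_smul c (a m) }
  have hB1 := pencil pM qM
  have hB2 := pencil (q.restrictScalars K) (p.restrictScalars K)
  let P3 : StarE K A Y X U →ₗ[K] (A →ₗ[K] (U →ₗ[K] Y)) :=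
    starPsi A (Y := Y) (p.restrictScalars K) - starPsi A (Y := Y) (0 : U →ₗ[K] X)
  have hP3 : ∀ c : K, starPsi A (Y := Y) (q.restrictScalars K) + c • P3
      = starPsi A (Y := Y) ((q.restrictScalars K) + c • (p.restrictScalars K)) := by
    intro c
    refine LinearMap.ext fun HD => ?_
    obtain ⟨H, D, rfl⟩ := starMk_surj HD
    ext a u
    show starPsi A (q.restrictScalars K) (starMk H D) a u
      + c • (starPsi A (p.restrictScalars K) (starMk H D) a u
        - starPsi A (0 : U →ₗ[K] X) (starMk H D) a u)
      = starPsi A ((q.restrictScalars K) + c • (p.restrictScalars K)) (starMk H D) a u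
    rw [starPsi_apply, starPsi_apply, starPsi_apply, starPsi_apply, LinearMap.add_apply,
      LinearMap.smul_apply, LinearMap.zero_apply, map_add, map_zero, (D a).map_smul]
    rw [sub_zero, ← sub_sub, smul_sub, smul_sub]
    abel
  have hB3 := pencil (starPsi A (Y := Y) (q.restrictScalars K)) P3
  have hB1' := hB1.preimage (f := fun c : K => c⁻¹) (inv_injective.injOn)
  obtain ⟨c, hc⟩ := ((hB1'.union (hB2.union hB3)).union (Set.finite_singleton (0 : K))).infinite_compl.nonempty
  simp only [Set.mem_compl_iff, Set.mem_union, Set.mem_singleton_iff, not_or,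
    Set.mem_preimage, Set.mem_ofPred_eq, not_not] at hc
  obtain ⟨⟨hc1, hc2, hc3⟩, hc0⟩ := hc
  -- `f = q + c p`
  let f : U →ₗ[A] X :=
    { toFun := fun u => q u + c • p u
      map_add' := fun a b => by
        rw [map_add, map_add, smul_add]
        abel
      map_smul' := fun a u => by
        rw [map_smul, map_smul, RingHom.id_apply, smul_add, smul_comm c a] }
  have hfK : f.restrictScalars K = (q.restrictScalars K) + c • (p.restrictScalars K) := by
    ext u
    rfl
  have hdimq : finrank K U = finrank K X + finrank K (LinearMap.ker (q.restrictScalars K)) := by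
    have h1 := LinearMap.finrank_range_add_finrank_ker (q.restrictScalars K)
    have h2 : LinearMap.range (q.restrictScalars K) = ⊤ := LinearMap.range_eq_top.mpr hq.surj
    rw [h2, finrank_top] at h1
    exact h1.symm
  have hsurj : Surjective f := by
    have h1 := LinearMap.finrank_range_add_finrank_ker (f.restrictScalars K)
    rw [hfK] at h1
    have h2 : finrank K X ≤ finrank K (LinearMap.range
        ((q.restrictScalars K) + c • (p.restrictScalars K))) := by omega
    have h3 : LinearMap.range ((q.restrictScalars K) + c • (p.restrictScalars K)) = ⊤ :=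
      Submodule.eq_top_of_finrank_eq (le_antisymm (Submodule.finrank_le _) h2)
    rw [← hfK] at h3
    have h4 : Surjective (f.restrictScalars K) := LinearMap.range_eq_top.mp h3
    exact h4
  have hTf : InT A Y (LinearMap.ker f) := by
    refine star_ker_inT (K := K) f hsurj ?_
    rw [hfK, ← hP3]
    exact hc3.trans (star_finrank_le q hq.surj hq.ker)
  have hMf : TMono A M f := by
    have h1 : finrank K (LinearMap.ker pM) = 0 := by
      have : LinearMap.ker pM = ⊥ := by
        rw [LinearMap.ker_eq_bot']
        intro φ hφ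
        exact hp φ (fun m => LinearMap.congr_fun hφ m)
      rw [this, finrank_bot]
    have h2 : LinearMap.ker (pM + c⁻¹ • qM) = ⊥ := by
      rw [← Submodule.finrank_eq_zero (R := K)]
      omega
    intro φ hφ
    have h3 : φ ∈ LinearMap.ker (pM + c⁻¹ • qM) := by
      rw [LinearMap.mem_ker]
      ext m
      show p (φ m) + c⁻¹ • q (φ m) = 0
      have h4 : q (φ m) + c • p (φ m) = 0 := hφ m
      have h5 : p (φ m) + c⁻¹ • q (φ m) = c⁻¹ • (q (φ m) + c • p (φ m)) := by
        rw [smul_add, smul_smul, inv_mul_cancel₀ hc0, one_smul, add_comm]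
      rw [h5, h4, smul_zero]
    rw [h2] at h3
    exact (Submodule.mem_bot K).mp h3
  have hinj : Injective f := by
    have h0 : IsNoetherian K U := inferInstance
    have h1 : Module.Finite K ((LinearMap.ker f).restrictScalars K) := inferInstance
    have h2 : Module.Finite A (LinearMap.ker f) := by
      have : Module.Finite K (LinearMap.ker f) := h1
      exact Module.Finite.of_restrictScalars_finite K A _
    have h3 : Subsingleton (LinearMap.ker f) := h.disj _ h2 hTf hMf.inF
    exact LinearMap.ker_eq_bot.mp ((Submodule.subsingleton_iff_eq_bot).mp h3)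
  have hdim : finrank K U = finrank K X :=
    (LinearEquiv.ofBijective (f.restrictScalars K) ⟨hinj, hsurj⟩).finrank_eq
  have h1 : finrank K (LinearMap.ker (q.restrictScalars K)) = 0 := by omega
  have h2 : LinearMap.ker (q.restrictScalars K) = ⊥ := by
    rwa [← Submodule.finrank_eq_zero (R := K)]
  have h3 : Injective (q.restrictScalars K) := LinearMap.ker_eq_bot.mp h2
  exact ⟨h3, hq.surj⟩

end aux

section part1

variable {A : Type u} [Ring A] [IsNoetherianRing A] [IsArtinianRing A]
variable {M Y X Z W U P S J X'' w : Type u}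
variable [AddCommGroup M] [Module A M] [AddCommGroup Y] [Module A Y]
variable [AddCommGroup X] [Module A X] [AddCommGroup U] [Module A U]

omit [IsNoetherianRing A] [IsArtinianRing A] in
theorem star (K : Type u) [Field K] [Infinite K] [Algebra K A] [Module.Finite K A]
    (h : TPair A M Y) (hU : Ob A Y U) (hX : Ob A Y X) (p q : U →ₗ[A] X) (hp : TMono A M p)
    (hq : SEpi A Y q) : Bijective q := by
  let _ : Module K M := Module.compHom M (algebraMap K A)
  let _ : Module K Y := Module.compHom Y (algebraMap K A)
  let _ : Module K X := Module.compHom X (algebraMap K A)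
  let _ : Module K U := Module.compHom U (algebraMap K A)
  have : IsScalarTower K A M := IsScalarTower.of_algebraMap_smul fun _ _ => rfl
  have : IsScalarTower K A Y := IsScalarTower.of_algebraMap_smul fun _ _ => rfl
  have : IsScalarTower K A X := IsScalarTower.of_algebraMap_smul fun _ _ => rfl
  have : IsScalarTower K A U := IsScalarTower.of_algebraMap_smul fun _ _ => rfl
  have : Module.Finite A M := h.finM
  have : Module.Finite A Y := h.finY
  have : Module.Finite A X := hX.fin
  have : Module.Finite A U := hU.fin
  have : Module.Finite K M := Module.Finite.trans A M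
  have : Module.Finite K Y := Module.Finite.trans A Y
  have : Module.Finite K X := Module.Finite.trans A X
  have : Module.Finite K U := Module.Finite.trans A U
  exact star_core (K := K) h p q hp hq

end part1

end BicG
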