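import Pool.Agent.Helper16.BicG.BadF
import Pool.Agent.Helper16.BicG.Top
import Pool.Agent.Helper16.BicG.Extract
import Pool.Agent.Helper16.BicG.Le
import Pool.Agent.Helper16.BicG.Star

/-!
Every bad object has a strictly smaller bad `T`-simple subquotient.
-/

universe u

namespace BicG

open Function Module
open Bic (InT InF SES torIn)

section strict

variable {A : Type u} [Ring A] [IsNoetherianRing A] [IsArtinianRing A]
variable {M Y X : Type u}
variable [AddCommGroup M] [Module A M] [AddCommGroup Y] [Module A Y]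
variable [AddCommGroup X] [Module A X]

theorem strict (K : Type u) [Field K] [Infinite K] [Algebra K A] [Module.Finite K A]
    (h : TPair A M Y) (hX : Ob A Y X) (hb : Bad A M Y X) :
    ∃ (w : Type u) (_ : AddCommGroup w) (_ : Module A w), TSimple A Y w ∧ Bad A M Y w ∧
      Le A M Y w X ∧ ¬ Le A M Y X w := by
  obtain ⟨w0, i1, i2, Q, p0, hw0, hbw0, hQ, hp0⟩ := bad_simple_factor h hX hb
  have hle0 : Le A M Y w0 X :=
    ⟨Q, inferInstance, inferInstance, Q.subtype, p0, hQ,
      TMono.of_inj Q.injective_subtype, hp0⟩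
  obtain ⟨S, i3, i4, g, hS, hgs, hgm⟩ := exists_ttop h hw0
  have hSgood : ¬ Bad A M Y S := fun hbad => ttop_not_long h hS (hbad 2)
  obtain ⟨V, w, i5, i6, i7, i8, e, v, p, hV, hv, hp, hw, hbw, hve, hpe⟩ :=
    extract h hS.simple.ob hw0.ob g hgm hSgood hbw0
  have hle1 : Le A M Y w w0 := ⟨V, inferInstance, inferInstance, v, p, hV, hv, hp⟩
  refine ⟨w, i7, i8, hw, hbw, le_trans' h hle1 hle0, ?_⟩
  intro hcon
  obtain ⟨U, i9, i10, f1, g1, hU, hf1, hg1⟩ := le_trans' h hle0 hcon
  obtain ⟨P, i11, i12, a, b, hP, ha, hb', hab, -, -⟩ := exists_pull M hU.fin hg1 v hV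
  have hbij := star K h hP hw.ob (f1.comp b) (p.comp a) (hf1.comp (hb' hv)) (hp.comp ha)
  have hpinj : Injective p := by
    intro v1 v2 h12
    obtain ⟨x1, rfl⟩ := ha.surj v1
    obtain ⟨x2, rfl⟩ := ha.surj v2
    have : x1 = x2 := hbij.1 h12
    rw [this]
  have hg0 : ∀ s, g s = 0 := by
    intro s
    have h1 : e s = 0 := hpinj (by rw [hpe s, map_zero])
    rw [← hve s, h1, map_zero]
  obtain ⟨x, hx⟩ := (haveI := hw0.nt; exists_ne (0 : w0))
  obtain ⟨s, rfl⟩ := hgs x
  exact hx (hg0 s)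

end strict

end BicG
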