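import Pool.Agent.Helper16.BicG.NoBad
import Pool.Agent.Helper16.BicG.Curve
import Pool.Agent.Helper16.BicG.PropC1
import Pool.Agent.Helper16.BicG.Spec
import Pool.Agent.Helper16.BicG.SpecPt
import Pool.Agent.Helper16.BicG.Strict
import Pool.Agent.Helper16.BicG.Le
import Pool.Agent.Helper16.BicG.Long
import Pool.Agent.Helper16.BicG.BadF
import Pool.Agent.Helper16.BicG.ExistsPt

/-!
The quotients of `M` as a system of points.
-/

universe u

namespace BicG

open Function Module
open Bic (InT InF SES)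
open scoped TensorProduct

section mats

variable {K : Type u} [Field K] {n : ℕ}

/-- the matrix of a vector of entries -/
def mat {R : Type u} (c : Fin n × Fin n → R) : Matrix (Fin n) (Fin n) R :=
  Matrix.of fun i j => c (i, j)

theorem mat_mv {R : Type u} (c : Matrix (Fin n) (Fin n) R) : mat (mv c) = c := rfl

theorem mv_mat {R : Type u} (c : Fin n × Fin n → R) : mv (mat c) = c := rfl

variable {A : Type u} [Ring A] [Algebra K A] (ρM : A →ₐ[K] Matrix (Fin n) (Fin n) K)

/-- being a point is preserved by homomorphisms -/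
theorem IsPt.map {R S : Type u} [CommRing R] [CommRing S] [Algebra K R] [Algebra K S]
    {c : Matrix (Fin n) (Fin n) R} (hc : IsPt ρM c) (f : R →+* S)
    (hf : ∀ r : K, f (algebraMap K R r) = algebraMap K S r) : IsPt ρM (c.map f) := by
  have h1 : ∀ a, (rext ρM R a).map f = rext ρM S a := by
    intro a
    rw [rext_apply, rext_apply, Matrix.map_map]
    congr 1
    exact funext hf
  have h2 : (1 : Matrix (Fin n) (Fin n) R).map f = 1 :=
    Matrix.map_one f (map_zero f) (map_one f)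
  refine ⟨?_, fun a => ?_⟩
  · rw [← Matrix.map_mul, hc.idem]
  · have h3 := congrArg (fun X : Matrix (Fin n) (Fin n) R => X.map f) (hc.stab a)
    simp only [Matrix.map_mul, h1] at h3
    rw [Matrix.map_sub f (fun a b => map_sub f a b), h2, Matrix.map_zero f (map_zero f)] at h3
    exact h3

/-- being a point is reflected by injective homomorphisms -/
theorem IsPt.of_map {R S : Type u} [CommRing R] [CommRing S] [Algebra K R] [Algebra K S]
    {c : Matrix (Fin n) (Fin n) R} (f : R →+* S) (hinj : Injective f)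
    (hf : ∀ r : K, f (algebraMap K R r) = algebraMap K S r) (hc : IsPt ρM (c.map f)) :
    IsPt ρM c := by
  have h1 : ∀ a, (rext ρM R a).map f = rext ρM S a := by
    intro a
    rw [rext_apply, rext_apply, Matrix.map_map]
    congr 1
    exact funext hf
  have h2 : (1 : Matrix (Fin n) (Fin n) R).map f = 1 :=
    Matrix.map_one f (map_zero f) (map_one f)
  have hi : Injective (fun X : Matrix (Fin n) (Fin n) R => X.map f) :=
    Matrix.map_injective hinj
  refine ⟨?_, fun a => ?_⟩
  · apply hi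
    change (c * c).map f = c.map f
    rw [Matrix.map_mul, hc.idem]
  · apply hi
    change (c * rext ρM R a * (1 - c)).map f = (0 : Matrix (Fin n) (Fin n) R).map f
    rw [Matrix.map_mul, Matrix.map_mul, h1, Matrix.map_sub f (fun a b => map_sub f a b), h2,
      Matrix.map_zero f (map_zero f)]
    exact hc.stab a

end mats

section inst

set_option linter.unusedSectionVars false

variable {K Ω A : Type u} [Field K] [Field Ω] [Algebra K Ω] [IsAlgClosed Ω] [Ring A]
  [Algebra K A] [Module.Finite K A] {n m : ℕ} (ρM : A →ₐ[K] Matrix (Fin n) (Fin n) K)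
  (ρY : A →ₐ[K] Matrix (Fin m) (Fin m) K)

theorem isPt_closed (V : Set (Fin n × Fin n → Ω)) (c : Fin n × Fin n → Ω)
    (hV : ∀ v ∈ V, IsPt ρM (mat v))
    (hc : ∀ p : MvPolynomial (Fin n × Fin n) K, (∀ v ∈ V, MvPolynomial.aeval v p = 0) →
      MvPolynomial.aeval c p = 0) : IsPt ρM (mat c) := by
  let R := MvPolynomial (Fin n × Fin n) K
  let X : Matrix (Fin n) (Fin n) R := mat MvPolynomial.X
  have hX : ∀ v : Fin n × Fin n → Ω, X.map (MvPolynomial.aeval v : R →ₐ[K] Ω) = mat v := by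
    intro v
    ext i j
    change MvPolynomial.aeval v (MvPolynomial.X (i, j)) = v (i, j)
    rw [MvPolynomial.aeval_X]
  have h1 : ∀ (v : Fin n × Fin n → Ω) (a : A),
      (rext ρM R a).map (MvPolynomial.aeval v : R →ₐ[K] Ω) = rext ρM Ω a := by
    intro v a
    rw [rext_apply, rext_apply, Matrix.map_map]
    congr 1
    funext r
    exact (MvPolynomial.aeval v : R →ₐ[K] Ω).commutes r
  have h2 : ∀ v : Fin n × Fin n → Ω,
      (1 : Matrix (Fin n) (Fin n) R).map (MvPolynomial.aeval v : R →ₐ[K] Ω) = 1 := fun v =>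
    Matrix.map_one _ (map_zero _) (map_one _)
  have h3 : ∀ v : Fin n × Fin n → Ω, (X * X - X).map (MvPolynomial.aeval v : R →ₐ[K] Ω) =
      mat v * mat v - mat v := by
    intro v
    rw [Matrix.map_sub _ (fun a b => map_sub _ a b), Matrix.map_mul, hX]
  have h4 : ∀ (v : Fin n × Fin n → Ω) (a : A),
      (X * rext ρM R a * (1 - X)).map (MvPolynomial.aeval v : R →ₐ[K] Ω) =
      mat v * rext ρM Ω a * (1 - mat v) := by
    intro v a
    rw [Matrix.map_mul, Matrix.map_mul, Matrix.map_sub _ (fun a b => map_sub _ a b), hX, h1, h2]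
  refine ⟨?_, fun a => ?_⟩
  · rw [← sub_eq_zero, ← h3]
    ext i j
    apply hc
    intro v hv
    have h5 := h3 v
    rw [(hV v hv).idem, sub_self] at h5
    exact congrFun (congrFun h5 i) j
  · rw [← h4]
    ext i j
    apply hc
    intro v hv
    have h5 := h4 v a
    rw [(hV v hv).stab a] at h5
    exact congrFun (congrFun h5 i) j


/-- the base-changed algebra is noetherian -/
theorem noeth : IsNoetherianRing (Ω ⊗[K] A) := IsNoetherianRing.of_finite Ω (Ω ⊗[K] A)

/-- the base-changed algebra is artinian -/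
theorem artin : IsArtinianRing (Ω ⊗[K] A) := IsArtinianRing.of_finite Ω (Ω ⊗[K] A)

variable {ρM ρY}

theorem ob_xc (h : TPair (Ω ⊗[K] A) (RM (rext ρM Ω)) (RM (rext ρY Ω)))
    (c : Matrix (Fin n) (Fin n) Ω) : Ob (Ω ⊗[K] A) (RM (rext ρY Ω)) (Xc ρM c) :=
  h.obM.quot _

/-- a `T`-simple module comes from a point -/
theorem exists_pt_simple (h : TPair (Ω ⊗[K] A) (RM (rext ρM Ω)) (RM (rext ρY Ω)))
    (w : Type u) [AddCommGroup w] [Module (Ω ⊗[K] A) w]
    (hw : TSimple (Ω ⊗[K] A) (RM (rext ρY Ω)) w) :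
    ∃ c : Fin n × Fin n → Ω, IsPt ρM (mat c) ∧ Nonempty (w ≃ₗ[Ω ⊗[K] A] Xc ρM (mat c)) := by
  obtain ⟨g, hg⟩ := tsimple_surj h hw
  obtain ⟨c, hc, e⟩ := exists_pt ρM w g hg
  exact ⟨mv c, hc, e⟩

theorem pt_curve (h : TPair (Ω ⊗[K] A) (RM (rext ρM Ω)) (RM (rext ρY Ω)))
    (k : IntermediateField K Ω) (c : Fin n × Fin n → Ω) (d : ℕ)
    (Yp : Fin d → MvPolynomial (Fin n × Fin n) k) (hc : IsPt ρM (mat c))
    (hint : ∀ s, IsIntegral (Algebra.adjoin k (Set.range fun j => MvPolynomial.aeval c (Yp j)))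
      (c s)) (hind : AlgebraicIndependent k (fun j => MvPolynomial.aeval c (Yp j))) :
    ∃ g : MvPolynomial (Fin d) k, g ≠ 0 ∧ ∀ (a : Fin d → Ω) (cb : Fin n × Fin n → Ω),
      Spz k c cb → MvPolynomial.aeval (fun j => MvPolynomial.aeval cb (Yp j)) g ≠ 0 →
      Bad (Ω ⊗[K] A) (RM (rext ρM Ω)) (RM (rext ρY Ω)) (Xc ρM (mat cb)) →
      ∃ ca : Fin n × Fin n → Ω, Spz k c ca ∧ (∀ j, MvPolynomial.aeval ca (Yp j) = a j) ∧
        ∃ w : Fin n × Fin n → Ω, IsPt ρM (mat w) ∧
          Bad (Ω ⊗[K] A) (RM (rext ρM Ω)) (RM (rext ρY Ω)) (Xc ρM (mat w)) ∧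
          Le (Ω ⊗[K] A) (RM (rext ρM Ω)) (RM (rext ρY Ω)) (Xc ρM (mat w)) (Xc ρM (mat cb)) ∧
          Le (Ω ⊗[K] A) (RM (rext ρM Ω)) (RM (rext ρY Ω)) (Xc ρM (mat w)) (Xc ρM (mat ca)) := by
  classical
  let S : Subalgebra k Ω := Algebra.adjoin k (Set.range c)
  let cS : Fin n × Fin n → S := fun s => ⟨c s, Algebra.subset_adjoin ⟨s, rfl⟩⟩
  let f : MvPolynomial (Fin n × Fin n) k →ₐ[k] S := MvPolynomial.aeval cS
  have hfval : ∀ p, (f p : Ω) = MvPolynomial.aeval c p := by
    intro p
    have : S.val.comp f = MvPolynomial.aeval c := by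
      apply MvPolynomial.algHom_ext
      intro i
      simp [f, cS]
    exact DFunLike.congr_fun this p
  have hfsurj : Surjective f := by
    rintro ⟨s, hs⟩
    have h1 : s ∈ (MvPolynomial.aeval c : MvPolynomial (Fin n × Fin n) k →ₐ[k] Ω).range := by
      rw [← Algebra.adjoin_range_eq_range_aeval]
      exact hs
    obtain ⟨p, hp⟩ := h1
    exact ⟨p, Subtype.ext ((hfval p).trans hp)⟩
  have hf0 : ∀ p, f p = 0 ↔ MvPolynomial.aeval c p = 0 := by
    intro p
    rw [← hfval]
    constructor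
    · intro h0; rw [h0]; rfl
    · intro h0; exact Subtype.ext h0
  let ϕ : MvPolynomial (Fin d) k →ₐ[k] S := MvPolynomial.aeval (fun j => f (Yp j))
  have hϕval : ∀ q, (ϕ q : Ω) = MvPolynomial.aeval (fun j => MvPolynomial.aeval c (Yp j)) q := by
    intro q
    have : S.val.comp ϕ = MvPolynomial.aeval (fun j => MvPolynomial.aeval c (Yp j)) := by
      apply MvPolynomial.algHom_ext
      intro i
      simp only [ϕ, AlgHom.comp_apply, MvPolynomial.aeval_X]
      exact hfval _
    exact DFunLike.congr_fun this q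
  have hϕX : ∀ j, ϕ (MvPolynomial.X j) = f (Yp j) := fun j => MvPolynomial.aeval_X _ _
  have hinj : Injective ϕ := by
    intro p q hpq
    apply hind
    change MvPolynomial.aeval _ p = MvPolynomial.aeval _ q
    rw [← hϕval, ← hϕval, hpq]
  have hint' : ϕ.toRingHom.IsIntegral := by
    intro s
    obtain ⟨p, rfl⟩ := hfsurj s
    obtain ⟨N, Q, hN, hrel, -⟩ := exists_rel c Yp p (isIntegral_aeval hint p)
    refine ⟨Polynomial.X ^ N + ∑ l ∈ Finset.range N, Polynomial.C (Q l) * Polynomial.X ^ l,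
      ?_, ?_⟩
    · apply Polynomial.monic_X_pow_add
      refine (Polynomial.degree_sum_le _ _).trans_lt ?_
      refine (Finset.sup_lt_iff (WithBot.bot_lt_coe N)).mpr ?_
      intro l hl
      exact (Polynomial.degree_C_mul_X_pow_le _ _).trans_lt
        (WithBot.coe_lt_coe.mpr (Finset.mem_range.mp hl))
    · rw [← hf0] at hrel
      rw [Polynomial.eval₂_add, Polynomial.eval₂_pow, Polynomial.eval₂_X,
        Polynomial.eval₂_finsetSum]
      rw [map_add, map_pow, map_sum] at hrel
      rw [← hrel]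
      congr 1
      apply Finset.sum_congr rfl
      intro l _
      rw [Polynomial.eval₂_mul, Polynomial.eval₂_C, Polynomial.eval₂_pow, Polynomial.eval₂_X,
        map_mul, map_pow]
      congr 1
      apply Subtype.ext
      have h1 := hϕval (Q l)
      have h2 : ((f (MvPolynomial.bind₁ Yp (Q l)) : S) : Ω) =
          MvPolynomial.aeval (fun j => MvPolynomial.aeval c (Yp j)) (Q l) := by
        rw [hfval, MvPolynomial.aeval_bind₁]
      exact h1.trans h2.symm
  have hft : ϕ.toRingHom.FiniteType := by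
    have h1 : Algebra.FiniteType k S := by
      have : Algebra.FiniteType k (MvPolynomial (Fin n × Fin n) k) := inferInstance
      exact this.of_surjective f hfsurj
    have h2 : (algebraMap k S).FiniteType := by
      rw [RingHom.finiteType_algebraMap]
      exact h1
    have h3 : ϕ.toRingHom.comp (algebraMap k (MvPolynomial (Fin d) k)) = algebraMap k S :=
      ϕ.comp_algebraMap
    rw [← h3] at h2
    exact h2.of_comp_finiteType
  have hfin : ϕ.Finite := hint'.to_finite hft
  obtain ⟨g, hg, hcurve⟩ := curve (Ω := Ω) ϕ hinj hfin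
  refine ⟨g, hg, fun a cb hcb hne hbad => ?_⟩
  -- the point `cb` of `S`
  have hker : ∀ p : MvPolynomial (Fin n × Fin n) k, p ∈ RingHom.ker f →
      (MvPolynomial.aeval cb : MvPolynomial (Fin n × Fin n) k →ₐ[k] Ω) p = 0 := fun p hp =>
    hcb p ((hf0 p).mp hp)
  let Q : S →ₐ[k] Ω := (Ideal.Quotient.liftₐ (RingHom.ker f)
    (MvPolynomial.aeval cb : MvPolynomial (Fin n × Fin n) k →ₐ[k] Ω) hker).comp
      (Ideal.quotientKerAlgEquivOfSurjective hfsurj).symm.toAlgHom
  have hQ : ∀ p, Q (f p) = MvPolynomial.aeval cb p := by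
    intro p
    have h1 : (Ideal.quotientKerAlgEquivOfSurjective hfsurj).symm (f p) =
        Ideal.Quotient.mk (RingHom.ker f) p := by
      rw [AlgEquiv.symm_apply_eq]
      rfl
    change (Ideal.Quotient.liftₐ (RingHom.ker f) _ hker)
      ((Ideal.quotientKerAlgEquivOfSurjective hfsurj).symm (f p)) = _
    rw [h1]
    rfl
  obtain ⟨B, _, _, _, _, _, _, ψ, Q0, hψ, hQ0, hQ0ψ, hχ⟩ :=
    hcurve a (fun j => MvPolynomial.aeval cb (Yp j)) Q (fun j => by rw [hϕX, hQ]) hne
  let _ : Algebra K B := ((algebraMap Ω B).comp (algebraMap K Ω)).toAlgebra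
  have _ : IsScalarTower K Ω B := IsScalarTower.of_algebraMap_eq' rfl
  have hcS : IsPt ρM (mat cS) := by
    apply IsPt.of_map ρM (S.val : S →+* Ω) Subtype.val_injective
    · intro r; rfl
    · exact hc
  have he : IsPt ρM ((mat cS).map ψ) := by
    apply hcS.map
    intro r
    exact hψ (algebraMap K k r)
  have hcS' : ∀ s, cS s = f (MvPolynomial.X s) := fun s => (MvPolynomial.aeval_X _ _).symm
  have heQ : ((mat cS).map ψ).map Q0 = mat cb := by
    ext i j
    change Q0 (ψ (cS (i, j))) = cb (i, j)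
    rw [hQ0ψ, hcS', hQ, MvPolynomial.aeval_X]
  obtain ⟨χ, hχ0, w, _, _, hw1, hw2, hw3, hw4⟩ := propC1 ρM ρY h ((mat cS).map ψ) he Q0 hQ0
    (by rw [heQ]; exact hbad)
  rw [heQ] at hw3
  let χψ : S →ₐ[k] Ω :=
    { (χ : B →+* Ω).comp ψ with
      commutes' := fun r => by
        change χ (ψ (algebraMap k S r)) = _
        rw [hψ, χ.commutes]
        rfl }
  have hχψ : ∀ s, χψ s = χ (ψ s) := fun s => rfl
  let ca : Fin n × Fin n → Ω := fun s => χ (ψ (cS s))
  have hca : ∀ p : MvPolynomial (Fin n × Fin n) k, χ (ψ (f p)) = MvPolynomial.aeval ca p := by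
    intro p
    have : χψ.comp f = MvPolynomial.aeval ca := by
      apply MvPolynomial.algHom_ext
      intro i
      rw [AlgHom.comp_apply, ← hcS', MvPolynomial.aeval_X]
      rfl
    exact DFunLike.congr_fun this p
  have heχ : ((mat cS).map ψ).map χ = mat ca := rfl
  rw [heχ] at hw4
  obtain ⟨w', hw', ⟨ew⟩⟩ := exists_pt_simple h w hw1
  refine ⟨ca, ?_, ?_, w', hw', hw2.congr ew, hw3.congr_left ew, hw4.congr_left ew⟩
  · intro p hp
    rw [← hca, (hf0 p).mpr hp, map_zero, map_zero]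
  · intro j
    rw [← hca, ← hϕX]
    exact hχ χ hχ0 j

/-- the quotients of `M` form a system of points -/
noncomputable def ptSys (h : TPair (Ω ⊗[K] A) (RM (rext ρM Ω)) (RM (rext ρY Ω))) :
    PtSys K Ω (Fin n × Fin n) :=
  haveI := noeth (K := K) (Ω := Ω) (A := A)
  haveI := artin (K := K) (Ω := Ω) (A := A)
  { pt := fun c => IsPt ρM (mat c)
    bad := fun c => Bad (Ω ⊗[K] A) (RM (rext ρM Ω)) (RM (rext ρY Ω)) (Xc ρM (mat c))
    le := fun c d => Le (Ω ⊗[K] A) (RM (rext ρM Ω)) (RM (rext ρY Ω)) (Xc ρM (mat c))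
      (Xc ρM (mat d))
    refl := fun c _ => le_refl' h (ob_xc h _)
    trans := fun a b c _ _ _ h1 h2 => le_trans' h h1 h2
    up := fun a b _ _ hle hb => bad_of_le h (ob_xc h _) (ob_xc h _) hle hb
    strict := by
      intro c _ hb
      obtain ⟨w, _, _, hw1, hw2, hw3, hw4⟩ := strict Ω h (ob_xc h _) hb
      obtain ⟨w', hw', ⟨ew⟩⟩ := exists_pt_simple h w hw1
      exact ⟨w', hw', hw2.congr ew, hw3.congr_left ew, fun hcon =>
        hw4 (hcon.congr_right ew.symm)⟩
    closed := fun V c hV hc => isPt_closed ρM V c hV hc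
    spec := by
      intro c c' hc hc' hle
      obtain ⟨q, θ, hθ⟩ := spec ρM ρY h (mat c) (mat c') hc hc' hle
      exact ⟨q, θ, fun d d' θ' hs => hθ (mat d) (mat d') θ' hs⟩
    curve := fun k c d Yp hc hint hind => pt_curve h k c d Yp hc hint hind }

/-- no module over the big field is bad -/
theorem not_bad_big (hΩ : Cardinal.aleph0 < Cardinal.mk Ω) (hK : Cardinal.mk K < Cardinal.mk Ω)
    (h : TPair (Ω ⊗[K] A) (RM (rext ρM Ω)) (RM (rext ρY Ω))) (X : Type u) [AddCommGroup X]
    [Module (Ω ⊗[K] A) X] (hX : Ob (Ω ⊗[K] A) (RM (rext ρY Ω)) X) :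
    ¬ Bad (Ω ⊗[K] A) (RM (rext ρM Ω)) (RM (rext ρY Ω)) X := by
  have := noeth (K := K) (Ω := Ω) (A := A)
  have := artin (K := K) (Ω := Ω) (A := A)
  intro hb
  obtain ⟨w, _, _, Q, p, hw1, hw2, -, -⟩ := bad_simple_factor h hX hb
  obtain ⟨w', hw', ⟨ew⟩⟩ := exists_pt_simple h w hw1
  exact (ptSys h).no_bad hΩ hK w' hw' (hw2.congr ew)

end inst

end BicG
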