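import Pool.Agent.Helper16.BicG.Defs

/-!
Matrix representations of an algebra over an extension, and the modules they define.
-/

universe u

namespace BicG

open Function Module
open scoped TensorProduct

section rm

variable {K : Type u} [Field K] {A : Type u} [Ring A] [Algebra K A]

/-- the module defined by a matrix representation of `A` over `R` -/
def RM {R : Type u} [CommRing R] [Algebra K R] {n : ℕ}
    (_ρ : A →ₐ[K] Matrix (Fin n) (Fin n) R) : Type u := Fin n → R

variable {R : Type u} [CommRing R] [Algebra K R] {n : ℕ}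

/-- the extended representation -/
noncomputable def rmHom (ρ : A →ₐ[K] Matrix (Fin n) (Fin n) R) :
    (R ⊗[K] A) →ₐ[R] Matrix (Fin n) (Fin n) R :=
  Algebra.TensorProduct.lift (Algebra.ofId R _) ρ (fun r a => by
    rw [Algebra.ofId_apply]
    exact Algebra.commute_algebraMap_left r (ρ a))

theorem rmHom_tmul (ρ : A →ₐ[K] Matrix (Fin n) (Fin n) R) (r : R) (a : A) :
    rmHom ρ (r ⊗ₜ a) = r • ρ a := by
  rw [rmHom, Algebra.TensorProduct.lift_tmul, Algebra.ofId_apply, Algebra.smul_def]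

noncomputable instance (ρ : A →ₐ[K] Matrix (Fin n) (Fin n) R) : AddCommGroup (RM ρ) :=
  inferInstanceAs (AddCommGroup (Fin n → R))

noncomputable instance (ρ : A →ₐ[K] Matrix (Fin n) (Fin n) R) : Module R (RM ρ) :=
  inferInstanceAs (Module R (Fin n → R))

/-- the underlying vector -/
def RM.vec {ρ : A →ₐ[K] Matrix (Fin n) (Fin n) R} : RM ρ ≃ₗ[R] (Fin n → R) :=
  LinearEquiv.refl R (Fin n → R)

/-- the action as a ring homomorphism -/
noncomputable def rmEnd (ρ : A →ₐ[K] Matrix (Fin n) (Fin n) R) :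
    (R ⊗[K] A) →+* Module.End R (Fin n → R) :=
  ((Matrix.toLinAlgEquiv' (R := R) (n := Fin n)).toAlgHom.comp (rmHom ρ)).toRingHom

theorem rmEnd_apply (ρ : A →ₐ[K] Matrix (Fin n) (Fin n) R) (s : R ⊗[K] A) (v : Fin n → R) :
    rmEnd ρ s v = (rmHom ρ s).mulVec v := rfl

noncomputable instance (ρ : A →ₐ[K] Matrix (Fin n) (Fin n) R) : Module (R ⊗[K] A) (RM ρ) :=
  Module.compHom (Fin n → R) (rmEnd ρ)

theorem RM.smul_def {ρ : A →ₐ[K] Matrix (Fin n) (Fin n) R} (s : R ⊗[K] A) (v : RM ρ) :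
    RM.vec (s • v) = (rmHom ρ s).mulVec (RM.vec v) := rfl

theorem RM.tmul_smul {ρ : A →ₐ[K] Matrix (Fin n) (Fin n) R} (r : R) (a : A) (v : RM ρ) :
    RM.vec ((r ⊗ₜ[K] a : R ⊗[K] A) • v) = r • (ρ a).mulVec (RM.vec v) := by
  rw [RM.smul_def, rmHom_tmul, Matrix.smul_mulVec]

instance (ρ : A →ₐ[K] Matrix (Fin n) (Fin n) R) : IsScalarTower R (R ⊗[K] A) (RM ρ) where
  smul_assoc r s v := by
    apply RM.vec.injective
    rw [RM.vec.map_smul r (s • v), RM.smul_def, RM.smul_def, map_smul (rmHom ρ) r s,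
      Matrix.smul_mulVec]

instance (ρ : A →ₐ[K] Matrix (Fin n) (Fin n) R) : Module.Finite R (RM ρ) :=
  inferInstanceAs (Module.Finite R (Fin n → R))

instance (ρ : A →ₐ[K] Matrix (Fin n) (Fin n) R) : Module.Finite (R ⊗[K] A) (RM ρ) :=
  Module.Finite.of_restrictScalars_finite R _ _

/-- base change of a representation -/
noncomputable def rext (ρ : A →ₐ[K] Matrix (Fin n) (Fin n) K) (R : Type u) [CommRing R]
    [Algebra K R] : A →ₐ[K] Matrix (Fin n) (Fin n) R :=
  ((Algebra.ofId K R).mapMatrix).comp ρ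

theorem rext_apply (ρ : A →ₐ[K] Matrix (Fin n) (Fin n) K) (R : Type u) [CommRing R]
    [Algebra K R] (a : A) : rext ρ R a = (ρ a).map (algebraMap K R) := rfl

/-- an idempotent matrix whose kernel is stable under `A` -/
structure IsPt (ρ : A →ₐ[K] Matrix (Fin n) (Fin n) K) {R : Type u} [CommRing R] [Algebra K R]
    (c : Matrix (Fin n) (Fin n) R) : Prop where
  idem : c * c = c
  stab : ∀ a, c * rext ρ R a * (1 - c) = 0

/-- the largest submodule killed by `c` -/
noncomputable def Nc (ρ : A →ₐ[K] Matrix (Fin n) (Fin n) K) (c : Matrix (Fin n) (Fin n) R) :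
    Submodule (R ⊗[K] A) (RM (rext ρ R)) where
  carrier := {v | ∀ s : R ⊗[K] A, c.mulVec (RM.vec (s • v)) = 0}
  add_mem' {v w} hv hw s := by
    rw [smul_add, map_add, Matrix.mulVec_add, hv s, hw s, add_zero]
  zero_mem' s := by
    rw [smul_zero, map_zero, Matrix.mulVec_zero]
  smul_mem' t v hv s := by
    rw [← mul_smul]
    exact hv (s * t)

/-- the quotient of `M` defined by `c` -/
abbrev Xc (ρ : A →ₐ[K] Matrix (Fin n) (Fin n) K) (c : Matrix (Fin n) (Fin n) R) : Type u :=
  RM (rext ρ R) ⧸ Nc ρ c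

end rm

section spz

/-- `x'` is a specialisation of `x` over `k` -/
def Spz (k : Type u) {Ω : Type u} [Field k] [Field Ω] [Algebra k Ω] {σ : Type}
    (x x' : σ → Ω) : Prop :=
  ∀ p : MvPolynomial σ k, MvPolynomial.aeval x p = 0 → MvPolynomial.aeval x' p = 0

/-- the vector of entries of a matrix -/
def mv {n : ℕ} {R : Type u} (c : Matrix (Fin n) (Fin n) R) : Fin n × Fin n → R :=
  fun p => c p.1 p.2

end spz

end BicG
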