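import Pool.Agent.Helper16.BicG.ExistsRM
import Pool.Agent.Helper16.BicG.RMHom

/-!
Module SPEC, part A: maps between `RM ρ` and the modules `Xc ρM c` as matrices.
-/

universe u

namespace BicG

open Function Module
open Bic (InT InF)
open scoped TensorProduct

variable {K Ω A : Type u} [Field K] [Field Ω] [Algebra K Ω] [Ring A] [Algebra K A]
  [Module.Finite K A]

/-- the class of a vector in `Xc ρM c` -/
noncomputable def mkX {n : ℕ} (ρM : A →ₐ[K] Matrix (Fin n) (Fin n) K)
    (c : Matrix (Fin n) (Fin n) Ω) : (Fin n → Ω) →ₗ[Ω] Xc ρM c :=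
  ((Nc ρM c).mkQ.restrictScalars Ω).comp (RM.vec (ρ := rext ρM Ω)).symm.toLinearMap

variable {n m r : ℕ} (ρM : A →ₐ[K] Matrix (Fin n) (Fin n) K)
  (c : Matrix (Fin n) (Fin n) Ω)

theorem mkX_vec (w : RM (rext ρM Ω)) : mkX ρM c (RM.vec w) = (Nc ρM c).mkQ w := rfl

theorem mkX_surj (x : Xc ρM c) : ∃ w, mkX ρM c w = x := by
  obtain ⟨w, hw⟩ := (Nc ρM c).mkQ_surjective x
  exact ⟨RM.vec w, by rw [mkX_vec, hw]⟩

theorem mkX_eq_zero (hc : IsPt ρM c) (w : Fin n → Ω) : mkX ρM c w = 0 ↔ c.mulVec w = 0 := by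
  have h : mkX ρM c w = (Nc ρM c).mkQ (RM.vec.symm w) := rfl
  rw [h, Submodule.mkQ_apply, Submodule.Quotient.mk_eq_zero, mem_Nc ρM c hc]
  rfl

theorem mkX_c (hc : IsPt ρM c) (w : Fin n → Ω) : mkX ρM c (c.mulVec w) = mkX ρM c w := by
  rw [← sub_eq_zero, ← map_sub, mkX_eq_zero ρM c hc, Matrix.mulVec_sub, Matrix.mulVec_mulVec,
    hc.idem, sub_self]

theorem mkX_smul (s : Ω ⊗[K] A) (w : Fin n → Ω) :
    s • mkX ρM c w = mkX ρM c ((rmHom (rext ρM Ω) s).mulVec w) := by
  have h : mkX ρM c w = (Nc ρM c).mkQ (RM.vec.symm w) := rfl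
  rw [h, ← map_smul]
  rfl

/-- Matrices give maps to `Xc ρM c`. -/
theorem mkMap (ρ : A →ₐ[K] Matrix (Fin r) (Fin r) Ω) (hc : IsPt ρM c)
    (F : Matrix (Fin n) (Fin r) Ω)
    (hFa : ∀ a, F * ρ a = c * rext ρM Ω a * F) :
    ∃ f : RM ρ →ₗ[Ω ⊗[K] A] Xc ρM c, ∀ v, f v = mkX ρM c (F.mulVec (RM.vec v)) := by
  have key : ∀ s : Ω ⊗[K] A, F * rmHom ρ s = c * rmHom (rext ρM Ω) s * F := by
    intro s
    induction s using TensorProduct.induction_on with
    | zero => simp
    | tmul x a =>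
      rw [rmHom_tmul, rmHom_tmul, Matrix.mul_smul, hFa, Matrix.mul_smul, Matrix.smul_mul]
    | add x y hx hy => rw [map_add, map_add, Matrix.mul_add, hx, hy, Matrix.mul_add,
        Matrix.add_mul]
  refine ⟨{ toFun := fun v => mkX ρM c (F.mulVec (RM.vec v)), map_add' := ?_, map_smul' := ?_ },
    fun v => rfl⟩
  · intro x y
    rw [map_add, Matrix.mulVec_add, map_add]
  · intro s v
    rw [RingHom.id_apply, RM.smul_def, Matrix.mulVec_mulVec, key, mkX_smul,
      Matrix.mul_assoc, ← Matrix.mulVec_mulVec, mkX_c ρM c hc, Matrix.mulVec_mulVec]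

/-- Maps to `Xc ρM c` are given by matrices. -/
theorem getMat (ρ : A →ₐ[K] Matrix (Fin r) (Fin r) Ω) (hc : IsPt ρM c)
    (f : RM ρ →ₗ[Ω ⊗[K] A] Xc ρM c) :
    ∃ F : Matrix (Fin n) (Fin r) Ω, c * F = F ∧ (∀ a, F * ρ a = c * rext ρM Ω a * F) ∧
      ∀ v, f v = mkX ρM c (F.mulVec (RM.vec v)) := by
  -- choose vectors
  have h1 : ∀ j : Fin r, ∃ w, mkX ρM c w = f (RM.vec.symm (Pi.single j 1)) := fun j =>
    mkX_surj ρM c _
  choose w hw using h1
  let W : Matrix (Fin n) (Fin r) Ω := Matrix.of fun i j => w j i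
  have hW : ∀ v, f v = mkX ρM c (W.mulVec (RM.vec v)) := by
    intro v
    have e1 : v = ∑ j, (RM.vec v j) • RM.vec.symm (Pi.single j (1 : Ω)) := by
      apply (RM.vec (ρ := ρ)).injective
      rw [map_sum]
      funext i
      simp [Finset.sum_apply, Pi.single_apply]
    have e2 : W.mulVec (RM.vec v) = ∑ j, (RM.vec v j) • w j := by
      funext i
      simp only [Matrix.mulVec, dotProduct, W, Matrix.of_apply, Finset.sum_apply, Pi.smul_apply,
        smul_eq_mul]
      exact Finset.sum_congr rfl fun j _ => mul_comm _ _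
    rw [e2, map_sum]
    conv_lhs => rw [e1]
    rw [map_sum]
    refine Finset.sum_congr rfl fun j _ => ?_
    rw [LinearMap.map_smul (mkX ρM c), hw]
    exact LinearMap.map_smul_of_tower f _ _
  have hcW : ∀ v, f v = mkX ρM c ((c * W).mulVec (RM.vec v)) := by
    intro v
    rw [← Matrix.mulVec_mulVec, mkX_c ρM c hc, ← hW]
  refine ⟨c * W, ?_, ?_, hcW⟩
  · rw [← Matrix.mul_assoc, hc.idem]
  · intro a
    apply Matrix.mulVec_injective
    funext v
    have e3 : f (((1 : Ω) ⊗ₜ[K] a : Ω ⊗[K] A) • RM.vec.symm v) =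
        ((1 : Ω) ⊗ₜ[K] a : Ω ⊗[K] A) • f (RM.vec.symm v) := map_smul f _ _
    rw [hcW, hcW, mkX_smul, RM.tmul_smul, rmHom_tmul, one_smul, one_smul,
      LinearEquiv.apply_symm_apply, Matrix.mulVec_mulVec, Matrix.mulVec_mulVec,
      ← sub_eq_zero, ← map_sub, mkX_eq_zero ρM c hc, Matrix.mulVec_sub, sub_eq_zero,
      Matrix.mulVec_mulVec, Matrix.mulVec_mulVec] at e3
    rw [← Matrix.mul_assoc, ← Matrix.mul_assoc, hc.idem] at e3
    rw [e3, ← Matrix.mul_assoc]

/-- `TMono` in terms of matrices. -/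
theorem tmono_iff (ρ : A →ₐ[K] Matrix (Fin r) (Fin r) Ω) (hc : IsPt ρM c)
    (F : Matrix (Fin n) (Fin r) Ω) (hF : c * F = F)
    (f : RM ρ →ₗ[Ω ⊗[K] A] Xc ρM c) (hf : ∀ v, f v = mkX ρM c (F.mulVec (RM.vec v))) :
    TMono (Ω ⊗[K] A) (RM (rext ρM Ω)) f ↔
      ∀ G : Matrix (Fin r) (Fin n) Ω, (∀ a, G * rext ρM Ω a = ρ a * G) → F * G = 0 → G = 0 := by
  constructor
  · intro h G hG hFG
    obtain ⟨φ, hφ⟩ := rm_hom (rext ρM Ω) ρ G hG
    have h0 : φ = 0 := h φ fun m => by
      rw [hf, hφ, Matrix.mulVec_mulVec, hFG, Matrix.zero_mulVec, map_zero]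
    apply Matrix.mulVec_injective
    funext v
    have := hφ (RM.vec.symm v)
    rw [h0, LinearEquiv.apply_symm_apply] at this
    rw [← this, Matrix.zero_mulVec]
    rfl
  · intro h φ hφ
    obtain ⟨G, hG, hG'⟩ := rm_hom' (rext ρM Ω) ρ φ
    have h0 : F * G = 0 := by
      apply Matrix.mulVec_injective
      funext v
      have h1 := hφ (RM.vec.symm v)
      rw [hf, hG', LinearEquiv.apply_symm_apply, mkX_eq_zero ρM c hc, Matrix.mulVec_mulVec,
        Matrix.mulVec_mulVec, hF] at h1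
      rw [h1, Matrix.zero_mulVec]
    have h2 := h G hG h0
    ext v
    apply (RM.vec (ρ := ρ)).injective
    rw [hG', h2, Matrix.zero_mulVec]
    rfl

/-- `SEpi` in terms of matrices. -/
theorem sepi_iff (ρY : A →ₐ[K] Matrix (Fin m) (Fin m) K)
    (ρ : A →ₐ[K] Matrix (Fin r) (Fin r) Ω) (hc : IsPt ρM c)
    (g : Matrix (Fin n) (Fin r) Ω) (hg : c * g = g)
    (f : RM ρ →ₗ[Ω ⊗[K] A] Xc ρM c) (hf : ∀ v, f v = mkX ρM c (g.mulVec (RM.vec v))) :
    SEpi (Ω ⊗[K] A) (RM (rext ρY Ω)) f ↔
      ∃ s : Matrix (Fin r) (Fin n) Ω, g * s = c ∧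
        ∀ H : Matrix (Fin m) (Fin r) Ω, H * (s * g) = 0 →
          (∀ a, H * ρ a * (1 - s * g) = rext ρY Ω a * H) → H = 0 := by
  have hker : ∀ v : RM ρ, f v = 0 ↔ g.mulVec (RM.vec v) = 0 := by
    intro v
    rw [hf, mkX_eq_zero ρM c hc, Matrix.mulVec_mulVec, hg]
  constructor
  · intro h
    have h1 : ∀ j : Fin n, ∃ w : Fin r → Ω, g.mulVec w = c.mulVec (Pi.single j 1) := by
      intro j
      obtain ⟨v, hv⟩ := h.surj (mkX ρM c (Pi.single j 1))
      refine ⟨RM.vec v, ?_⟩
      rw [hf, ← sub_eq_zero, ← map_sub, mkX_eq_zero ρM c hc, Matrix.mulVec_sub, sub_eq_zero,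
        Matrix.mulVec_mulVec, hg] at hv
      exact hv
    choose w hw using h1
    let s : Matrix (Fin r) (Fin n) Ω := Matrix.of fun i j => w j i
    have hs : g * s = c := by
      ext i j
      have := congrFun (hw j) i
      rw [Matrix.mulVec_single_one] at this
      exact this
    refine ⟨s, hs, ?_⟩
    intro H h2 h3
    have h4 : g * (1 - s * g) = 0 := by
      rw [Matrix.mul_sub, Matrix.mul_one, ← Matrix.mul_assoc, hs, hg, sub_self]
    have h5 : ∀ v : Fin r → Ω, g.mulVec v = 0 → (1 - s * g).mulVec v = v := by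
      intro v hv
      rw [Matrix.sub_mulVec, Matrix.one_mulVec, ← Matrix.mulVec_mulVec, hv, Matrix.mulVec_zero,
        sub_zero]
    -- the map on the kernel
    have h6 : ∀ (t : Ω ⊗[K] A), H * rmHom ρ t * (1 - s * g) = rmHom (rext ρY Ω) t * H := by
      intro t
      induction t using TensorProduct.induction_on with
      | zero => simp
      | tmul x a =>
        rw [rmHom_tmul, rmHom_tmul, Matrix.mul_smul, Matrix.smul_mul, h3, Matrix.smul_mul]
      | add x y hx hy => rw [map_add, map_add, Matrix.mul_add, Matrix.add_mul, hx, hy,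
          Matrix.add_mul]
    let k : LinearMap.ker f →ₗ[Ω ⊗[K] A] RM (rext ρY Ω) :=
      { toFun := fun v => RM.vec.symm (H.mulVec (RM.vec v.1))
        map_add' := fun x y => by
          rw [Submodule.coe_add, map_add, Matrix.mulVec_add, map_add]
        map_smul' := fun t v => by
          apply (RM.vec (ρ := rext ρY Ω)).injective
          have hv : g.mulVec (RM.vec v.1) = 0 := (hker v.1).1 v.2
          rw [RingHom.id_apply, RM.smul_def, LinearEquiv.apply_symm_apply,
            LinearEquiv.apply_symm_apply, Matrix.mulVec_mulVec, ← h6, Submodule.coe_smul,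
            RM.smul_def, Matrix.mulVec_mulVec, ← Matrix.mulVec_mulVec _ _ (1 - s * g), h5 _ hv] }
    have hk : k = 0 := h.ker k
    have h7 : H * (1 - s * g) = 0 := by
      apply Matrix.mulVec_injective
      funext v
      have h8 : RM.vec.symm ((1 - s * g).mulVec v) ∈ LinearMap.ker f := by
        rw [LinearMap.mem_ker, hker, LinearEquiv.apply_symm_apply, Matrix.mulVec_mulVec, h4,
          Matrix.zero_mulVec]
      have h9 := congrArg (fun F => RM.vec (F ⟨_, h8⟩)) hk
      simp only [k, LinearMap.coe_mk, AddHom.coe_mk, LinearEquiv.apply_symm_apply,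
        LinearMap.zero_apply, map_zero, Matrix.mulVec_mulVec] at h9
      rw [h9, Matrix.zero_mulVec]
    rw [Matrix.mul_sub, Matrix.mul_one, h2, sub_zero] at h7
    exact h7
  · rintro ⟨s, hs, h⟩
    have h5 : ∀ v : Fin r → Ω, g.mulVec v = 0 → (1 - s * g).mulVec v = v := by
      intro v hv
      rw [Matrix.sub_mulVec, Matrix.one_mulVec, ← Matrix.mulVec_mulVec, hv, Matrix.mulVec_zero,
        sub_zero]
    have h4 : g * (1 - s * g) = 0 := by
      rw [Matrix.mul_sub, Matrix.mul_one, ← Matrix.mul_assoc, hs, hg, sub_self]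
    refine ⟨fun x => ?_, fun k => ?_⟩
    · obtain ⟨w, rfl⟩ := mkX_surj ρM c x
      refine ⟨RM.vec.symm (s.mulVec w), ?_⟩
      rw [hf, LinearEquiv.apply_symm_apply, Matrix.mulVec_mulVec, hs, mkX_c ρM c hc]
    · -- the projection to the kernel
      let π : (Fin r → Ω) →ₗ[Ω] LinearMap.ker f :=
        { toFun := fun v => ⟨RM.vec.symm ((1 - s * g).mulVec v), by
            rw [LinearMap.mem_ker, hker, LinearEquiv.apply_symm_apply, Matrix.mulVec_mulVec, h4,
              Matrix.zero_mulVec]⟩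
          map_add' := fun x y => by
            apply Subtype.ext
            rw [Submodule.coe_add, ← map_add, ← Matrix.mulVec_add]
          map_smul' := fun x y => by
            apply Subtype.ext
            show RM.vec.symm _ = x • RM.vec.symm _
            rw [← map_smul, Matrix.mulVec_smul] }
      let L : (Fin r → Ω) →ₗ[Ω] (Fin m → Ω) :=
        (RM.vec (ρ := rext ρY Ω)).toLinearMap.comp ((k.restrictScalars Ω).comp π)
      let H : Matrix (Fin m) (Fin r) Ω := LinearMap.toMatrix' L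
      have hH : ∀ v, H.mulVec v = RM.vec (k (π v)) := by
        intro v
        rw [← Matrix.toLin'_apply, Matrix.toLin'_toMatrix']
        rfl
      have hπ : ∀ v : LinearMap.ker f, π (RM.vec v.1) = v := by
        intro v
        apply Subtype.ext
        show RM.vec.symm ((1 - s * g).mulVec (RM.vec v.1)) = v.1
        rw [h5 _ ((hker v.1).1 v.2), LinearEquiv.symm_apply_apply]
      have hπ' : ∀ v, RM.vec (π v).1 = (1 - s * g).mulVec v := by
        intro v
        show RM.vec (RM.vec.symm ((1 - s * g).mulVec v)) = _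
        rw [LinearEquiv.apply_symm_apply]
      have h0 : H = 0 := by
        apply h H
        · apply Matrix.mulVec_injective
          funext v
          have e1 : π ((s * g).mulVec v) = 0 := by
            apply Subtype.ext
            show RM.vec.symm ((1 - s * g).mulVec ((s * g).mulVec v)) = 0
            have : (1 - s * g) * (s * g) = 0 := by
              rw [Matrix.sub_mul, Matrix.one_mul, Matrix.mul_assoc s g, ← Matrix.mul_assoc g s,
                hs, hg, sub_self]
            rw [Matrix.mulVec_mulVec, this, Matrix.zero_mulVec, map_zero]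
          rw [← Matrix.mulVec_mulVec, hH, e1, map_zero, map_zero, Matrix.zero_mulVec]
        · intro a
          apply Matrix.mulVec_injective
          funext v
          have e2 : π ((ρ a * (1 - s * g)).mulVec v) =
              ((1 : Ω) ⊗ₜ[K] a : Ω ⊗[K] A) • π v := by
            rw [← hπ (((1 : Ω) ⊗ₜ[K] a : Ω ⊗[K] A) • π v)]
            congr 1
            rw [Submodule.coe_smul, RM.tmul_smul, one_smul, hπ', Matrix.mulVec_mulVec]
          rw [Matrix.mul_assoc, ← Matrix.mulVec_mulVec, hH, e2, map_smul, RM.tmul_smul, one_smul,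
            ← hH, Matrix.mulVec_mulVec]
      ext v
      apply (RM.vec (ρ := rext ρY Ω)).injective
      rw [← hπ v, ← hH, h0, Matrix.zero_mulVec]
      rfl

end BicG
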