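import Pool.Agent.Helper16.BicG.Defs

/-!
Basic facts on the torsion pair: maps with kernel in `F`, strict epimorphisms, pullbacks,
`T`-simple and `F`-simple modules.
-/

universe u

namespace BicG

open Function Module
open Bic (InT InF SES torIn torIn_le torIn_inT factor_surj factor_inj inF_ker_iff inT_coker_iff
  mkQ_zero mem_of_mkQ eq_bot_of_map)

section gen

variable {A : Type u} [Ring A]
variable {M Y X Z W U V P E S X' X'' : Type u}
variable [AddCommGroup M] [Module A M] [AddCommGroup Y] [Module A Y]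
variable [AddCommGroup X] [Module A X] [AddCommGroup Z] [Module A Z]
variable [AddCommGroup W] [Module A W] [AddCommGroup U] [Module A U]
variable [AddCommGroup V] [Module A V] [AddCommGroup P] [Module A P]
variable [AddCommGroup E] [Module A E] [AddCommGroup S] [Module A S]
variable [AddCommGroup X'] [Module A X'] [AddCommGroup X''] [Module A X'']

theorem subsing_of_mkQ {L : Submodule A Z} (h : Subsingleton (Z ⧸ L)) : L = ⊤ := by
  rw [eq_top_iff]
  intro z _
  have := Subsingleton.elim (L.mkQ z) 0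
  exact mem_of_mkQ this

theorem ses_finite {i : W →ₗ[A] E} {p : E →ₗ[A] Z} (h : SES i p)
    (hW : Module.Finite A W) (hZ : Module.Finite A Z) : Module.Finite A E := by
  have hk : (LinearMap.ker p).FG := by
    have : LinearMap.ker p = LinearMap.range i := by
      ext e
      constructor
      · intro he; exact h.exact e he
      · rintro ⟨w, rfl⟩; exact h.comp w
    rw [this]
    have : Module.Finite A (LinearMap.range i) :=
      Module.Finite.of_surjective i.rangeRestrict i.surjective_rangeRestrict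
    exact Module.Finite.iff_fg.mp this
  refine ⟨Submodule.fg_of_fg_map_of_fg_inf_ker p ?_ ?_⟩
  · rw [Submodule.map_top, LinearMap.range_eq_top.mpr h.surj]
    exact Module.Finite.fg_top
  · rw [top_inf_eq]; exact hk

/-! ### objects of `T` -/

theorem Ob.of_surj (hX : Ob A Y X) (p : X →ₗ[A] Z) (hp : Surjective p) : Ob A Y Z :=
  ⟨by have := hX.fin; exact Module.Finite.of_surjective p hp, hX.inT.of_surj p hp⟩

theorem Ob.quot (hX : Ob A Y X) (L : Submodule A X) : Ob A Y (X ⧸ L) :=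
  hX.of_surj L.mkQ L.mkQ_surjective

theorem Ob.range (hX : Ob A Y X) (f : X →ₗ[A] Z) : Ob A Y (LinearMap.range f) :=
  hX.of_surj f.rangeRestrict f.surjective_rangeRestrict

theorem Ob.congr (hX : Ob A Y X) (e : X ≃ₗ[A] Z) : Ob A Y Z :=
  hX.of_surj e.toLinearMap e.surjective

theorem Ob.of_ses {i : W →ₗ[A] E} {p : E →ₗ[A] Z} (h : SES i p) (hW : Ob A Y W)
    (hZ : Ob A Y Z) : Ob A Y E :=
  ⟨ses_finite h hW.fin hZ.fin, h.inT hW.inT hZ.inT⟩

theorem Ob.of_subsingleton (h : Subsingleton Z) : Ob A Y Z :=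
  ⟨inferInstance, InT.of_subsingleton h⟩

/-! ### the torsion pair -/

theorem TPair.hom_zero (h : TPair A M Y) (hZ : Ob A Y Z) (hW : InF A M W)
    (f : Z →ₗ[A] W) : f = 0 := by
  have : Subsingleton (LinearMap.range f) :=
    h.disj _ (hZ.range f).fin (hZ.range f).inT (hW.sub _)
  exact LinearMap.range_eq_bot.mp ((Submodule.subsingleton_iff_eq_bot).mp this)

theorem TPair.obM (h : TPair A M Y) : Ob A Y M := ⟨h.finM, h.hMY⟩

theorem TPair.inFY (h : TPair A M Y) : InF A M Y := h.hMY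

theorem TPair.subsingleton (h : TPair A M Y) (hZ : Ob A Y Z) (hF : InF A M Z) :
    Subsingleton Z := h.disj Z hZ.fin hZ.inT hF

theorem TPair.quot_torIn (h : TPair A M Y) (K : Submodule A Z)
    (φ : M →ₗ[A] Z ⧸ torIn A Y K) (hφ : ∀ m, ∃ k ∈ K, (torIn A Y K).mkQ k = φ m) : φ = 0 := by
  obtain ⟨i, p, hip, -, -⟩ := SES.comap (torIn A Y K) (LinearMap.range φ)
  have h1 : InT A Y ((LinearMap.range φ).comap (torIn A Y K).mkQ) :=
    hip.inT (torIn_inT K) (h.hMY.range φ)
  have h0 : (LinearMap.range φ).comap (torIn A Y K).mkQ ≤ K := by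
    intro x hx
    obtain ⟨m, hm⟩ := hx
    obtain ⟨k, hk, hkm⟩ := hφ m
    have h5 : (torIn A Y K).mkQ (x - k) = 0 := by
      rw [map_sub, hkm, hm, sub_self]
    have h6 := K.add_mem (torIn_le K (mem_of_mkQ h5)) hk
    simpa using h6
  have h2 : (LinearMap.range φ).comap (torIn A Y K).mkQ ≤ torIn A Y K := le_sSup ⟨h0, h1⟩
  ext m
  obtain ⟨z, hz⟩ := (torIn A Y K).mkQ_surjective (φ m)
  have h3 : z ∈ (LinearMap.range φ).comap (torIn A Y K).mkQ := ⟨m, hz.symm⟩
  have h4 := h2 h3
  rw [← hz]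
  exact mkQ_zero h4

theorem le_torIn {K L : Submodule A Z} (h1 : L ≤ K) (h2 : InT A Y L) : L ≤ torIn A Y K :=
  le_sSup ⟨h1, h2⟩

theorem torIn_mono {K L : Submodule A Z} (h : K ≤ L) : torIn A Y K ≤ torIn A Y L :=
  le_torIn ((torIn_le K).trans h) (torIn_inT K)

theorem torIn_eq {K : Submodule A Z} (h : InT A Y K) : torIn A Y K = K :=
  le_antisymm (torIn_le K) (le_torIn le_rfl h)

/-- `K / t(K)` is in `F`. -/
theorem TPair.inF_torIn (h : TPair A M Y) (K : Submodule A Z) :
    InF A M (K.map (torIn A Y K).mkQ) := by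
  intro φ
  have h1 : ((K.map (torIn A Y K).mkQ).subtype.comp φ) = 0 :=
    h.quot_torIn K _ (fun m => (φ m).2)
  ext m
  exact LinearMap.congr_fun h1 m

/-- `Z / t(Z)` is in `F`. -/
theorem TPair.inF_quot_torIn_top (h : TPair A M Y) : InF A M (Z ⧸ torIn A Y (⊤ : Submodule A Z)) :=
  fun φ => h.quot_torIn ⊤ φ (fun m => by
    obtain ⟨z, hz⟩ := (torIn A Y (⊤ : Submodule A Z)).mkQ_surjective (φ m)
    exact ⟨z, trivial, hz⟩)

theorem inF_of_forall (h : TPair A M Y) (h1 : ∀ L : Submodule A Z, InT A Y L → L = ⊥) :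
    InF A M Z := fun f =>
  LinearMap.range_eq_bot.mp (h1 _ (h.hMY.range f))

/-! ### maps -/

theorem tmono_iff_ker (f : U →ₗ[A] X) : TMono A M f ↔ InF A M (LinearMap.ker f) :=
  (inF_ker_iff f).symm

theorem TMono.of_inj {f : U →ₗ[A] X} (hf : Injective f) : TMono A M f := fun φ hφ => by
  ext m
  apply hf
  rw [hφ m, LinearMap.zero_apply, map_zero]

theorem TMono.comp {f : U →ₗ[A] X} {g : X →ₗ[A] Z} (hg : TMono A M g) (hf : TMono A M f) :
    TMono A M (g.comp f) := fun φ hφ => by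
  have h1 : f.comp φ = 0 := hg _ hφ
  exact hf φ (fun m => LinearMap.congr_fun h1 m)

theorem TMono.of_comp {f : U →ₗ[A] X} {g : X →ₗ[A] Z} (h : TMono A M (g.comp f)) :
    TMono A M f := fun φ hφ => h φ (fun m => by
  rw [LinearMap.comp_apply, hφ m, map_zero])

theorem TMono.congr_fun {f g : U →ₗ[A] X} (h : TMono A M f) (hfg : ∀ x, f x = g x) :
    TMono A M g := by
  have : f = g := LinearMap.ext hfg
  rwa [← this]

theorem TMono.inF {f : U →ₗ[A] X} (hf : TMono A M f) : InF A M (LinearMap.ker f) :=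
  (tmono_iff_ker f).mp hf

/-- (r4) -/
theorem TMono.subsingleton (h : TPair A M Y) {f : U →ₗ[A] X} (hf : TMono A M f)
    (hU : Ob A Y U) (h0 : f = 0) : Subsingleton U :=
  h.subsingleton hU (fun φ => hf φ (fun m => by rw [h0, LinearMap.zero_apply]))

theorem SEpi.of_bijective {f : U →ₗ[A] X} (hf : Bijective f) : SEpi A Y f :=
  ⟨hf.2, InT.of_subsingleton (by
    rw [Submodule.subsingleton_iff_eq_bot]
    exact LinearMap.ker_eq_bot.mpr hf.1)⟩

theorem ses_ker_comp {f : U →ₗ[A] X} {g : X →ₗ[A] Z} (hf : Surjective f) :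
    ∃ (a : LinearMap.ker f →ₗ[A] LinearMap.ker (g.comp f))
      (b : LinearMap.ker (g.comp f) →ₗ[A] LinearMap.ker g), SES a b := by
  refine ⟨Submodule.inclusion (by
      intro x hx
      rw [LinearMap.mem_ker] at hx ⊢
      rw [LinearMap.comp_apply, hx, map_zero]),
    (f.comp (LinearMap.ker (g.comp f)).subtype).codRestrict _ (fun x => x.2), ⟨?_, ?_, ?_, ?_⟩⟩
  · exact Submodule.inclusion_injective _
  · rintro ⟨x, hx⟩
    obtain ⟨u, rfl⟩ := hf x
    exact ⟨⟨u, hx⟩, rfl⟩
  · intro w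
    exact Subtype.ext w.2
  · intro e he
    exact ⟨⟨e, congrArg Subtype.val he⟩, rfl⟩

theorem SEpi.comp {f : U →ₗ[A] X} {g : X →ₗ[A] Z} (hg : SEpi A Y g) (hf : SEpi A Y f) :
    SEpi A Y (g.comp f) := by
  obtain ⟨a, b, hab⟩ := ses_ker_comp (g := g) hf.surj
  exact ⟨hg.surj.comp hf.surj, hab.inT hf.ker hg.ker⟩

theorem SEpi.of_ses {i : W →ₗ[A] E} {p : E →ₗ[A] Z} (h : SES i p) (hW : InT A Y W) :
    SEpi A Y p := by
  refine ⟨h.surj, ?_⟩
  obtain ⟨f, hf⟩ := factor_inj i h.inj (LinearMap.ker p).subtype (fun x => h.exact _ x.2)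
  have e : W ≃ₗ[A] LinearMap.ker p :=
    LinearEquiv.ofBijective (i.codRestrict _ (fun w => h.comp w)) ⟨fun a b hab =>
      h.inj (congrArg Subtype.val hab), fun x => by
        obtain ⟨w, hw⟩ := h.exact _ x.2
        exact ⟨w, Subtype.ext hw⟩⟩
  exact hW.congr e

theorem SES.of_sepi {f : U →ₗ[A] X} (hf : SEpi A Y f) : SES (LinearMap.ker f).subtype f :=
  Bic.SES.of_ker f hf.surj

theorem Ob.of_sepi [IsNoetherianRing A] {f : U →ₗ[A] X} (hU : Module.Finite A U)
    (hf : SEpi A Y f) (hX : Ob A Y X) : Ob A Y U :=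
  ⟨hU, (Bic.SES.of_ker f hf.surj).inT hf.ker hX.inT⟩

/-- (r5) -/
theorem TMono.bijective_of_comp (h : TPair A M Y) {a : V →ₗ[A] W} {f : W →ₗ[A] P}
    (hW : Ob A Y W) (hf : TMono A M f) (hfa : Bijective (f.comp a)) : Bijective f := by
  let e := LinearEquiv.ofBijective (f.comp a) hfa
  have he : ∀ w, f (a (e.symm (f w))) = f w := fun w => by
    have := e.apply_symm_apply (f w)
    exact this
  let r : W →ₗ[A] LinearMap.ker f :=
    (LinearMap.id - a.comp (e.symm.toLinearMap.comp f)).codRestrict _ (fun w => by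
      rw [LinearMap.mem_ker, LinearMap.sub_apply, map_sub, sub_eq_zero]
      exact (he w).symm)
  have hr : Surjective r := by
    rintro ⟨w, hw⟩
    refine ⟨w, Subtype.ext ?_⟩
    have hw' : f w = 0 := hw
    simp [r, hw']
  have h1 := h.subsingleton (hW.of_surj r hr) hf.inF
  refine ⟨LinearMap.ker_eq_bot.mp ((Submodule.subsingleton_iff_eq_bot).mp h1), fun p => ?_⟩
  obtain ⟨v, hv⟩ := hfa.2 p
  exact ⟨a v, hv⟩

/-- (r7) pullback of a strict epimorphism -/
theorem exists_pull [IsNoetherianRing A] (M : Type u) [AddCommGroup M] [Module A M]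
    (hU : Module.Finite A U) {q : U →ₗ[A] Z} (hq : SEpi A Y q) (g : V →ₗ[A] Z)
    (hV : Ob A Y V) :
    ∃ (P : Type u) (_ : AddCommGroup P) (_ : Module A P) (a : P →ₗ[A] V) (b : P →ₗ[A] U),
      Ob A Y P ∧ SEpi A Y a ∧ (TMono A M g → TMono A M b) ∧ (∀ p, g (a p) = q (b p)) ∧
      (∀ v u, g v = q u → ∃ p, a p = v ∧ b p = u) ∧ (∀ p, a p = 0 → b p = 0 → p = 0) := by
  let G := LinearMap.ker ((g.comp (LinearMap.fst A V U)) - (q.comp (LinearMap.snd A V U)))
  have hG : ∀ x : V × U, x ∈ G ↔ g x.1 = q x.2 := by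
    intro x
    simp [G, LinearMap.mem_ker, sub_eq_zero]
  let a : G →ₗ[A] V := (LinearMap.fst A V U).comp G.subtype
  let b : G →ₗ[A] U := (LinearMap.snd A V U).comp G.subtype
  have hfV := hV.fin
  have hfG : Module.Finite A G := inferInstance
  let j : LinearMap.ker q →ₗ[A] G :=
    ((LinearMap.inr A V U).comp (LinearMap.ker q).subtype).codRestrict G (fun x => by
      rw [hG]
      have : q (x : U) = 0 := x.2
      simp [this])
  have hs : SES j a := by
    refine ⟨?_, ?_, ?_, ?_⟩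
    · intro x y hxy
      apply Subtype.ext
      exact congrArg (fun t : G => t.1.2) hxy
    · intro v
      obtain ⟨u, hu⟩ := hq.surj (g v)
      exact ⟨⟨(v, u), by rw [hG]; exact hu.symm⟩, rfl⟩
    · intro x; rfl
    · rintro ⟨⟨v, u⟩, hx⟩ hv
      have hv : v = 0 := hv
      subst hv
      rw [hG] at hx
      have hu : q u = 0 := by
        have : g 0 = q u := hx
        rw [← this, map_zero]
      exact ⟨⟨u, hu⟩, rfl⟩
  refine ⟨G, inferInstance, inferInstance, a, b, ⟨hfG, hs.inT hq.ker hV.inT⟩,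
    SEpi.of_ses hs hq.ker, ?_, ?_, ?_, ?_⟩
  · intro hg φ hφ
    have h1 : a.comp φ = 0 := by
      apply hg
      intro m
      have h2 := (hG (φ m).1).mp (φ m).2
      have h3 : (φ m).1.2 = 0 := hφ m
      rw [h3, map_zero] at h2
      exact h2
    ext m
    · exact LinearMap.congr_fun h1 m
    · exact hφ m
  · intro p
    exact (hG p.1).mp p.2
  · intro v u hvu
    exact ⟨⟨(v, u), by rw [hG]; exact hvu⟩, rfl, rfl⟩
  · rintro ⟨⟨v, u⟩, hx⟩ hv hu
    have hv : v = 0 := hv
    have hu : u = 0 := hu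
    subst hv hu
    rfl

/-! ### invariance under isomorphism -/

theorem not_bij_comp_equiv {f : U →ₗ[A] X} (e : X ≃ₗ[A] X') (hf : ¬ Bijective f) :
    ¬ Bijective (e.toLinearMap.comp f) := by
  intro h
  apply hf
  have h1 : (e.symm.toLinearMap.comp (e.toLinearMap.comp f)) = f := by
    ext x
    simp
  rw [← h1]
  exact e.symm.bijective.comp h

theorem Long.congr {n : ℕ} (e : X ≃ₗ[A] X') (h : Long A M Y n X) : Long A M Y n X' := by
  cases n with
  | zero => trivial
  | succ n =>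
    obtain ⟨U, _, _, f, hU, hf, hb, hL⟩ := h
    exact ⟨U, inferInstance, inferInstance, e.toLinearMap.comp f, hU,
      (TMono.of_inj e.injective).comp hf, not_bij_comp_equiv e hb, hL⟩

theorem Bad.congr (e : X ≃ₗ[A] X') (h : Bad A M Y X) : Bad A M Y X' := fun n => (h n).congr e

theorem Le.congr_right (e : X ≃ₗ[A] X') (h : Le A M Y W X) : Le A M Y W X' := by
  obtain ⟨U, _, _, f, g, hU, hf, hg⟩ := h
  exact ⟨U, inferInstance, inferInstance, e.toLinearMap.comp f, g, hU,
    (TMono.of_inj e.injective).comp hf, hg⟩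

theorem Le.congr_left (e : X ≃ₗ[A] X') (h : Le A M Y X W) : Le A M Y X' W := by
  obtain ⟨U, _, _, f, g, hU, hf, hg⟩ := h
  exact ⟨U, inferInstance, inferInstance, f, e.toLinearMap.comp g, hU, hf,
    (SEpi.of_bijective e.bijective).comp hg⟩

/-! ### simple objects -/

theorem TSimple.congr (e : X ≃ₗ[A] X') (h : TSimple A Y X) : TSimple A Y X' := by
  have := h.nt
  refine ⟨h.ob.congr e, e.symm.toEquiv.nontrivial, ?_⟩
  intro L hL
  have h1 : InT A Y (L.map e.symm.toLinearMap) := hL.map _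
  rcases h.sub _ h1 with h2 | h2
  · exact Or.inl (eq_bot_of_map e.symm.injective h2)
  · right
    rw [eq_top_iff]
    intro x _
    have : e.symm x ∈ L.map e.symm.toLinearMap := h2 ▸ Submodule.mem_top
    obtain ⟨l, hl, hlx⟩ := this
    have : l = x := e.symm.injective hlx
    rwa [← this]

theorem TSimple.surj (hX : TSimple A Y X) (hZ : InT A Y Z) (f : Z →ₗ[A] X) (hf : f ≠ 0) :
    Surjective f := by
  rcases hX.sub _ (hZ.range f) with h1 | h1
  · exact absurd (LinearMap.range_eq_bot.mp h1) hf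
  · exact LinearMap.range_eq_top.mp h1

/-- `T`-simple modules are quotients of `M` -/
theorem tsimple_surj (h : TPair A M Y) (hX : TSimple A Y X) :
    ∃ g : M →ₗ[A] X, Surjective g := by
  by_contra hcon
  have : InF A M X := by
    intro f
    by_contra hf
    exact hcon ⟨f, hX.surj h.hMY f hf⟩
  have h1 := h.subsingleton hX.ob this
  have := hX.nt
  exact not_subsingleton X h1

/-- proper submodules of a `T`-simple are in `F` -/
theorem TSimple.inF (h : TPair A M Y) (hX : TSimple A Y X) (L : Submodule A X) (hL : L ≠ ⊤) :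
    InF A M L := by
  apply inF_of_forall h
  intro L' hL'
  rcases hX.sub _ (hL'.map L.subtype) with h1 | h1
  · exact eq_bot_of_map L.injective_subtype h1
  · exfalso
    apply hL
    rw [eq_top_iff, ← h1]
    exact Submodule.map_subtype_le L L'

theorem FSimple.inj (hX : FSimple A M X) (hW : InF A M W) (f : X →ₗ[A] W) (hf : f ≠ 0) :
    Injective f := by
  have hinj : Injective ((LinearMap.ker f).liftQ f le_rfl) := by
    rw [← LinearMap.ker_eq_bot, Submodule.ker_liftQ_eq_bot _ _ _ le_rfl]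
  rcases hX.quot _ (hW.of_inj _ hinj) with h1 | h1
  · exact LinearMap.ker_eq_bot.mp h1
  · exact absurd (LinearMap.ker_eq_top.mp h1) hf

/-- `F`-simple modules embed in `Y` -/
theorem fsimple_inj (h : TPair A M Y) (hX : FSimple A M X) :
    ∃ g : X →ₗ[A] Y, Injective g := by
  by_contra hcon
  have : InT A Y X := by
    intro f
    by_contra hf
    exact hcon ⟨f, hX.inj h.inFY f hf⟩
  have h1 := h.disj X hX.fin this hX.inF
  have := hX.nt
  exact not_subsingleton X h1

/-- proper quotients of an `F`-simple are in `T` -/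
theorem FSimple.inT (h : TPair A M Y) (hX : FSimple A M X) (L : Submodule A X) (hL : L ≠ ⊥) :
    InT A Y (X ⧸ L) := by
  intro f
  let f' := f.comp L.mkQ
  have hle : L ≤ LinearMap.ker f' := by
    intro x hx
    rw [LinearMap.mem_ker, LinearMap.comp_apply, mkQ_zero hx, map_zero]
  have hinj : Injective ((LinearMap.ker f').liftQ f' le_rfl) := by
    rw [← LinearMap.ker_eq_bot, Submodule.ker_liftQ_eq_bot _ _ _ le_rfl]
  rcases hX.quot _ (h.inFY.of_inj _ hinj) with h1 | h1
  · rw [h1] at hle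
    exact absurd (le_bot_iff.mp hle) hL
  · have h2 : f' = 0 := LinearMap.ker_eq_top.mp h1
    ext x
    exact LinearMap.congr_fun h2 x

section art

variable [IsNoetherianRing A] [IsArtinianRing A]

/-- existence of `T`-simple submodules -/
theorem exists_tsimple_sub (hZ : Ob A Y Z) (hn : Nontrivial Z) :
    ∃ L : Submodule A Z, TSimple A Y L := by
  have := hZ.fin
  have : IsArtinian A Z := inferInstance
  obtain ⟨L, hL⟩ := exists_minimal_of_wellFoundedLT
    (fun L : Submodule A Z => L ≠ ⊥ ∧ InT A Y L)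
    ⟨⊤, top_ne_bot, hZ.inT.congr Submodule.topEquiv.symm⟩
  refine ⟨L, ⟨inferInstance, hL.prop.2⟩, (Submodule.nontrivial_iff_ne_bot).mpr hL.prop.1, ?_⟩
  intro L' hL'
  by_cases hb : L' = ⊥
  · exact Or.inl hb
  right
  have h1 : L'.map L.subtype ≤ L := Submodule.map_subtype_le L L'
  have h2 : L'.map L.subtype ≠ ⊥ := by
    intro h3
    exact hb (eq_bot_of_map L.injective_subtype h3)
  have h3 : L ≤ L'.map L.subtype := hL.le_of_le ⟨h2, hL'.map _⟩ h1
  rw [eq_top_iff]
  intro x _
  obtain ⟨y, hy, hyx⟩ := h3 x.2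
  have : y = x := Subtype.ext hyx
  rwa [← this]

/-- existence of `F`-simple quotients -/
theorem exists_fsimple_quot (hf : Module.Finite A W) (hn : Nontrivial W) (hW : InF A M W) :
    ∃ L : Submodule A W, FSimple A M (W ⧸ L) := by
  have : IsNoetherian A W := inferInstance
  obtain ⟨L, hL⟩ := exists_maximal_of_wellFoundedGT
    (fun L : Submodule A W => L ≠ ⊤ ∧ InF A M (W ⧸ L))
    ⟨⊥, bot_ne_top, hW.congr (Submodule.quotEquivOfEqBot _ rfl).symm⟩
  refine ⟨L, inferInstance, hL.prop.2, Submodule.Quotient.nontrivial_iff.mpr hL.prop.1, ?_⟩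
  intro L' hL'
  by_cases hb : L' = ⊤
  · exact Or.inr hb
  left
  have h1 : L ≤ L'.comap L.mkQ := by
    intro x hx
    rw [Submodule.mem_comap, mkQ_zero hx]
    exact L'.zero_mem
  have h2 : L'.comap L.mkQ ≠ ⊤ := by
    intro h3
    apply hb
    rw [eq_top_iff]
    intro q _
    obtain ⟨z, rfl⟩ := L.mkQ_surjective q
    have : z ∈ L'.comap L.mkQ := h3 ▸ Submodule.mem_top
    exact this
  have h4 : InF A M (W ⧸ L'.comap L.mkQ) := by
    have hle : L'.comap L.mkQ ≤ LinearMap.ker (L'.mkQ.comp L.mkQ) := by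
      intro x hx
      rw [LinearMap.mem_ker, LinearMap.comp_apply]
      exact mkQ_zero hx
    refine hL'.of_inj ((L'.comap L.mkQ).liftQ (L'.mkQ.comp L.mkQ) hle) ?_
    rw [← LinearMap.ker_eq_bot, Submodule.ker_liftQ_eq_bot]
    intro x hx
    rw [LinearMap.mem_ker, LinearMap.comp_apply] at hx
    have hx' : L.mkQ x ∈ L' := mem_of_mkQ hx
    exact hx'
  have h3 : L'.comap L.mkQ ≤ L := hL.le_of_ge ⟨h2, h4⟩ h1
  rw [eq_bot_iff]
  intro q hq
  obtain ⟨z, rfl⟩ := L.mkQ_surjective q
  have : z ∈ L := h3 hq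
  rw [Submodule.mem_bot]
  exact mkQ_zero this

end art

end gen

end BicG
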